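import Pool.Agent.SPC.Targets3

/-!
# Project SPC, target AGR: binomial coefficients
-/

set_option autoImplicit false

namespace Pool.Agent.SPC

namespace AGR_

lemma vdm (p q i k : ℕ) : p.choose i * q.choose k ≤ (p + q).choose (i + k) := by
  rw [Nat.add_choose_eq]
  exact Finset.single_le_sum (f := fun ij : ℕ × ℕ => p.choose ij.1 * q.choose ij.2)
    (fun _ _ => Nat.zero_le _) (Finset.HasAntidiagonal.mem_antidiagonal.mpr (rfl : (i, k).1 + (i, k).2 = i + k))

lemma sq_le (a j : ℕ) : a.choose j * a.choose j ≤ (2 * a).choose (2 * j) := by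
  have := vdm a a j j
  rwa [← two_mul, ← two_mul] at this

lemma le_double {a j : ℕ} (h : j ≤ a) : a.choose j ≤ (2 * a).choose (2 * j) := by
  have h1 : 0 < a.choose j := Nat.choose_pos h
  exact (Nat.le_mul_of_pos_left _ h1).trans (sq_le a j)

lemma two_mul_le_pow {h : ℕ} (hh : 0 < h) : 2 * h ≤ 2 ^ h := by
  induction h, hh using Nat.le_induction with
  | base => norm_num
  | succ n hn ih =>
    have : 2 ^ (n + 1) = 2 ^ n + 2 ^ n := by ring
    rw [this]
    omega

lemma central (h : ℕ) : 2 ^ h ≤ (2 * h).choose h := by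
  rcases Nat.eq_zero_or_pos h with rfl | hh
  · simp
  · have h1 := Nat.four_pow_le_two_mul_self_mul_centralBinom h hh
    rw [Nat.centralBinom_eq_two_mul_choose] at h1
    have h2 := two_mul_le_pow hh
    have h3 : (4 : ℕ) ^ h = 2 ^ h * 2 ^ h := by
      rw [← mul_pow]
      norm_num
    rw [h3] at h1
    have h4 : 2 ^ h * 2 ^ h ≤ 2 ^ h * (2 * h).choose h := h1.trans (Nat.mul_le_mul_right _ h2)
    exact Nat.le_of_mul_le_mul_left h4 (by positivity)

lemma big {a j h : ℕ} (h1 : h ≤ j) (h2 : j + h ≤ a) : 2 ^ h ≤ a.choose j := by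
  have h3 : (2 * h).choose h ≤ (j + h).choose h := Nat.choose_le_choose h (by omega)
  have h4 : (j + h).choose h = (j + h).choose j := (Nat.choose_symm_add).symm
  have h5 : (j + h).choose j ≤ a.choose j := Nat.choose_le_choose j h2
  rw [h4] at h3
  exact ((central h).trans h3).trans h5

end AGR_

open AGR_ in
theorem p_AGR (hHYP : T_HYP) : T_AGR := by
  intro N m a h j ha hm hh hN hj
  rcases lt_or_ge a j with h1 | h1
  · rw [Nat.choose_eq_zero_of_lt h1]
    simp
  rcases lt_or_ge (N - 2 * a) (m - 2 * j) with h2 | h2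
  · rw [Nat.choose_eq_zero_of_lt h2]
    simp
  have hd := le_double h1
  rcases le_or_gt j h with h3 | h3
  · -- few
    have h4 : 24 * h ≤ m := by
      rcases Nat.eq_zero_or_pos a with h5 | h5
      · omega
      · have h6 : a * (24 * h) ≤ a * m := by
          calc a * (24 * h) = 12 * h * (2 * a) := by ring
            _ ≤ 12 * h * N := Nat.mul_le_mul_left _ ha
            _ ≤ a * m := hN
        exact Nat.le_of_mul_le_mul_left h6 h5
    have h7 := hHYP N (2 * a) m (3 * h) (2 * j) ha (by omega) (by omega) (by omega)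
      (by
        calc 8 * (3 * h) * N = 2 * (12 * h * N) := by ring
          _ ≤ 2 * (a * m) := Nat.mul_le_mul_left _ hN
          _ = 2 * a * m := by ring) (by omega)
    have h8 : 2 ^ h ≤ 2 ^ (3 * h - 2 * j) := Nat.pow_le_pow_right (by norm_num) (by omega)
    exact (Nat.mul_le_mul (Nat.mul_le_mul_right _ hd) h8).trans h7
  rcases lt_or_ge h (a - j) with h4 | h4
  · have h5 := big (a := a) (j := j) (h := h) h3.le (by omega)
    have h6 := vdm (2 * a) (N - 2 * a) (2 * j) (m - 2 * j)
    rw [show 2 * a + (N - 2 * a) = N by omega, show 2 * j + (m - 2 * j) = m by omega] at h6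
    calc a.choose j * (N - 2 * a).choose (m - 2 * j) * 2 ^ h
        = a.choose j * 2 ^ h * (N - 2 * a).choose (m - 2 * j) := by ring
      _ ≤ a.choose j * a.choose j * (N - 2 * a).choose (m - 2 * j) :=
          Nat.mul_le_mul_right _ (Nat.mul_le_mul_left _ h5)
      _ ≤ (2 * a).choose (2 * j) * (N - 2 * a).choose (m - 2 * j) :=
          Nat.mul_le_mul_right _ (sq_le a j)
      _ ≤ _ := h6
  · -- many
    have e1 : (2 * a).choose (2 * j) = (2 * a).choose (2 * a - 2 * j) :=
      (Nat.choose_symm (by omega)).symm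
    have e2 : (N - 2 * a).choose (m - 2 * j) =
        (N - 2 * a).choose ((N - m) - (2 * a - 2 * j)) := by
      rw [← Nat.choose_symm h2]
      congr 1
      omega
    have e3 : N.choose m = N.choose (N - m) := (Nat.choose_symm (by omega)).symm
    have h7 := hHYP N (2 * a) (N - m) (3 * h) (2 * a - 2 * j) ha (by omega) (by omega)
      (by omega)
      (by
        calc 8 * (3 * h) * N ≤ 32 * h * N := Nat.mul_le_mul_right _ (by omega)
          _ ≤ a * N := Nat.mul_le_mul_right _ hh
          _ ≤ a * (2 * (N - m)) := Nat.mul_le_mul_left _ (by omega)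
          _ = 2 * a * (N - m) := by ring) (by omega)
    rw [e1] at hd
    rw [e2, e3]
    have h8 : 2 ^ h ≤ 2 ^ (3 * h - (2 * a - 2 * j)) :=
      Nat.pow_le_pow_right (by norm_num) (by omega)
    exact (Nat.mul_le_mul (Nat.mul_le_mul_right _ hd) h8).trans h7

end Pool.Agent.SPC
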