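import Pool.Agent.SPC.Targets3

/-!
# SPC, target CC: components and one edge (helper9)
-/

set_option autoImplicit false

namespace Pool.Agent.SPC

open Finset Classical Filter Topology
open Pool.Agent.Pend

namespace CC_

/-- the graph with one more edge -/
abbrev plus {V : Type} (K : SimpleGraph V) (u v : V) : SimpleGraph V :=
  K ⊔ SimpleGraph.fromEdgeSet {s(u, v)}

theorem plus_adj {V : Type} (K : SimpleGraph V) {u v : V} (huv : u ≠ v) (x y : V) :
    (plus K u v).Adj x y ↔ K.Adj x y ∨ (x = u ∧ y = v) ∨ (x = v ∧ y = u) := by
  rw [SimpleGraph.sup_adj, SimpleGraph.fromEdgeSet_adj, Set.mem_singleton_iff, Sym2.eq_iff]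
  constructor
  · rintro (h | ⟨h, -⟩)
    · exact Or.inl h
    · exact Or.inr h
  · rintro (h | h | h)
    · exact Or.inl h
    · exact Or.inr ⟨Or.inl h, by rw [h.1, h.2]; exact huv⟩
    · exact Or.inr ⟨Or.inr h, by rw [h.1, h.2]; exact huv.symm⟩

/-- every vertex goes to its component, the component of `v` to that of `u` -/
noncomputable def gv {V : Type} (K : SimpleGraph V) (u v x : V) : K.ConnectedComponent :=
  if K.Reachable x v then K.connectedComponentMk u else K.connectedComponentMk x

theorem gv_congr {V : Type} (K : SimpleGraph V) (u v : V) {x y : V} (h : K.Reachable x y) :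
    gv K u v x = gv K u v y := by
  unfold gv
  by_cases hx : K.Reachable x v
  · rw [if_pos hx, if_pos (h.symm.trans hx)]
  · rw [if_neg hx, if_neg fun hy => hx (h.trans hy)]
    exact SimpleGraph.ConnectedComponent.sound h

theorem gv_adj {V : Type} (K : SimpleGraph V) {u v : V} (huv : ¬ K.Reachable u v) {x y : V}
    (h : (plus K u v).Adj x y) : gv K u v x = gv K u v y := by
  have hne : u ≠ v := fun e => huv (by rw [e])
  have key : gv K u v u = gv K u v v := by
    unfold gv
    rw [if_neg huv, if_pos (SimpleGraph.Reachable.refl v)]
  rcases (plus_adj K hne x y).1 h with h | ⟨rfl, rfl⟩ | ⟨rfl, rfl⟩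
  · exact gv_congr K u v h.reachable
  · exact key
  · exact key.symm

theorem gv_reach {V : Type} (K : SimpleGraph V) {u v : V} (huv : ¬ K.Reachable u v) {x y : V}
    (h : (plus K u v).Reachable x y) : gv K u v x = gv K u v y := by
  obtain ⟨w⟩ := h
  induction w with
  | nil => rfl
  | cons hadj _ ih => exact (gv_adj K huv hadj).trans ih

theorem gv_ne {V : Type} (K : SimpleGraph V) {u v : V} (huv : ¬ K.Reachable u v) (x : V) :
    gv K u v x ≠ K.connectedComponentMk v := by
  unfold gv
  split_ifs with h
  · exact fun e => huv (SimpleGraph.ConnectedComponent.exact e)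
  · exact fun e => h (SimpleGraph.ConnectedComponent.exact e)

/-- the components of the bigger graph are the components other than that of `v` -/
noncomputable def eqv {V : Type} (K : SimpleGraph V) {u v : V} (huv : ¬ K.Reachable u v) :
    {c : K.ConnectedComponent // c ≠ K.connectedComponentMk v} ≃
      (plus K u v).ConnectedComponent where
  toFun c := c.1.map (SimpleGraph.Hom.ofLE le_sup_left)
  invFun := Quot.lift (fun x => ⟨gv K u v x, gv_ne K huv x⟩) (fun _ _ h =>
    Subtype.ext (gv_reach K huv h))
  left_inv := by
    rintro ⟨c, hc⟩
    induction c using SimpleGraph.ConnectedComponent.ind with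
    | h x =>
      apply Subtype.ext
      change gv K u v x = K.connectedComponentMk x
      unfold gv
      rw [if_neg]
      exact fun h => hc (SimpleGraph.ConnectedComponent.sound h)
  right_inv := by
    intro c
    induction c using SimpleGraph.ConnectedComponent.ind with
    | h x =>
      change (gv K u v x).map (SimpleGraph.Hom.ofLE le_sup_left) =
        (plus K u v).connectedComponentMk x
      have hne : u ≠ v := fun e => huv (by rw [e])
      unfold gv
      split_ifs with h
      · change (plus K u v).connectedComponentMk u = (plus K u v).connectedComponentMk x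
        apply SimpleGraph.ConnectedComponent.sound
        have h1 : (plus K u v).Adj u v := (plus_adj K hne u v).2 (Or.inr (Or.inl ⟨rfl, rfl⟩))
        exact h1.reachable.trans (h.symm.mono le_sup_left)
      · rfl

end CC_

open CC_ in
theorem p_CC : T_CC := by
  intro n K
  refine ⟨fun u v huv => ?_, fun F hF h => ?_⟩
  · unfold cp
    rw [← Nat.card_congr (eqv K huv),
      ← Nat.card_congr (Equiv.optionSubtypeNe (K.connectedComponentMk v)), Finite.card_option]
  · unfold cp
    refine Nat.card_eq_of_bijective
      (SimpleGraph.ConnectedComponent.map (SimpleGraph.Hom.ofLE hF)) ⟨?_, ?_⟩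
    · intro a b
      induction a using SimpleGraph.ConnectedComponent.ind with
      | h x =>
        induction b using SimpleGraph.ConnectedComponent.ind with
        | h y =>
          intro e
          exact SimpleGraph.ConnectedComponent.sound
            (h x y (SimpleGraph.ConnectedComponent.exact e))
    · intro b
      induction b using SimpleGraph.ConnectedComponent.ind with
      | h y => exact ⟨F.connectedComponentMk y, rfl⟩

end Pool.Agent.SPC
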