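import Pool.Agent.SPC.Targets3

/-!
Project SPC, third part: CMP, complements.
-/

set_option autoImplicit false

namespace Pool.Agent.SPC

open Finset Classical Filter Topology
open Pool.Agent.Pend

namespace CMP_

theorem edge {n : ℕ} (G : SimpleGraph (Fin n)) :
    G.edgeSet.ncard + Gᶜ.edgeSet.ncard = n.choose 2 := by
  rw [← Set.ncard_union_eq (SimpleGraph.disjoint_edgeSet.2 disjoint_compl_right)
    (Set.toFinite _) (Set.toFinite _), ← SimpleGraph.edgeSet_sup, sup_compl_eq_top]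
  have h := SimpleGraph.card_edgeFinset_top_eq_card_choose_two (V := Fin n)
  rw [Fintype.card_fin] at h
  rw [← h, Set.ncard_eq_toFinset_card']
  rfl

theorem iso {V : Type} {G H : SimpleGraph V} (h : Nonempty (Gᶜ ≃g Hᶜ)) :
    Nonempty (G ≃g H) := by
  obtain ⟨e⟩ := h
  refine ⟨⟨e.toEquiv, ?_⟩⟩
  intro a b
  have h1 : Hᶜ.Adj (e a) (e b) ↔ Gᶜ.Adj a b := e.map_adj_iff
  rw [SimpleGraph.compl_adj, SimpleGraph.compl_adj, ne_eq, e.injective.eq_iff] at h1
  change H.Adj (e a) (e b) ↔ G.Adj a b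
  by_cases hab : a = b
  · subst hab
    simp
  · constructor
    · intro h2
      by_contra h3
      exact (h1.2 ⟨hab, h3⟩).2 h2
    · intro h2
      by_contra h3
      exact (h1.1 ⟨hab, h3⟩).2 h2

theorem hyp {V : Type} {G H : SimpleGraph V} {ψ : V → Equiv.Perm V} (h : Hyp G H ψ) :
    Hyp Gᶜ Hᶜ ψ where
  fix := h.fix
  adj := by
    intro w a b ha hb
    rw [SimpleGraph.compl_adj, SimpleGraph.compl_adj, ne_eq, ne_eq, (ψ w).injective.eq_iff,
      h.adj w a b ha hb]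
  non := fun h1 => h.non (iso h1)

theorem gm_le {n m m' : ℕ} {P Q : SimpleGraph (Fin n) → Prop}
    (h : ∀ G : SimpleGraph (Fin n), G.edgeSet.ncard = m → P G → Gᶜ.edgeSet.ncard = m' ∧ Q Gᶜ) :
    gm n m P ≤ gm n m' Q := by
  unfold gm
  refine Finset.card_le_card_of_injOn (fun G => Gᶜ) ?_ ?_
  · intro G hG
    rw [Finset.mem_coe, Finset.mem_filter] at hG ⊢
    exact ⟨Finset.mem_univ _, h G hG.2.1 hG.2.2⟩
  · intro G _ G' _ h
    exact compl_injective h

end CMP_

open CMP_ in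
theorem p_CMP (hST : T_START) (hCONV : T_CONV) : T_CMP := by
  intro n m hm
  refine gm_le (fun G h1 h2 => ?_)
  obtain ⟨H, ψ, h⟩ := hST (Fin n) G h2
  refine ⟨?_, hCONV (Fin n) Gᶜ Hᶜ ψ (hyp h)⟩
  have h3 := edge G
  omega

end Pool.Agent.SPC
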