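import Pool.Agent.SPC.Targets3

set_option autoImplicit false

/-! CNT: prescribing edges. -/

namespace Pool.Agent.SPC

open Finset Classical Filter Topology
open Pool.Agent.Pend

namespace CNT_

lemma step (p q e : ℕ) :
    p.choose q * (e + (p + 1)) ≤ (p + 1).choose (q + 1) * (e + (q + 1)) := by
  have h1 : (p + 1) * p.choose q = (p + 1).choose (q + 1) * (q + 1) := Nat.add_one_mul_choose_eq p q
  have h2 : p.choose q ≤ (p + 1).choose (q + 1) := by
    rw [Nat.choose_succ_succ]
    exact Nat.le_add_right _ _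
  calc p.choose q * (e + (p + 1)) = p.choose q * e + (p + 1) * p.choose q := by ring
    _ ≤ (p + 1).choose (q + 1) * e + (p + 1).choose (q + 1) * (q + 1) := by
        rw [h1]
        exact Nat.add_le_add_right (Nat.mul_le_mul_right _ h2) _
    _ = _ := by ring

lemma ind (N m : ℕ) (hN : m ≤ N) : ∀ e : ℕ, e ≤ m →
    (N - e).choose (m - e) * N ^ e ≤ N.choose m * m ^ e
  | 0, _ => by simp
  | e + 1, he => by
    have ih := ind N m hN e (by omega)
    obtain ⟨p, hp⟩ : ∃ p, N = e + (p + 1) := ⟨N - (e + 1), by omega⟩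
    obtain ⟨q, hq⟩ : ∃ q, m = e + (q + 1) := ⟨m - (e + 1), by omega⟩
    have e1 : N - (e + 1) = p := by omega
    have e2 : m - (e + 1) = q := by omega
    have e3 : N - e = p + 1 := by omega
    have e4 : m - e = q + 1 := by omega
    rw [e3, e4] at ih
    rw [e1, e2]
    have hs := step p q e
    rw [← hp, ← hq] at hs
    calc p.choose q * N ^ (e + 1) = p.choose q * N * N ^ e := by ring
      _ ≤ (p + 1).choose (q + 1) * m * N ^ e := Nat.mul_le_mul_right _ hs
      _ = (p + 1).choose (q + 1) * N ^ e * m := by ring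
      _ ≤ N.choose m * m ^ e * m := Nat.mul_le_mul_right _ ih
      _ = _ := by ring

lemma edges {n : ℕ} {S : Finset (Sym2 (Fin n))} (hS : S ⊆ prs n) :
    (SimpleGraph.fromEdgeSet (S : Set (Sym2 (Fin n)))).edgeSet = (S : Set (Sym2 (Fin n))) := by
  rw [SimpleGraph.edgeSet_fromEdgeSet]
  ext x
  simp only [Set.mem_sdiff, Finset.mem_coe]
  constructor
  · exact fun h => h.1
  · intro h
    refine ⟨h, ?_⟩
    have h1 := hS h
    unfold prs at h1
    rw [Finset.mem_filter] at h1
    exact h1.2

lemma le_of_sup {n m : ℕ} {E : Finset (Sym2 (Fin n))} (hE : E ⊆ prs n)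
    (T : Finset (Finset (Sym2 (Fin n)))) (hT : ∀ S ∈ T, S ∈ (prs n).powersetCard m ∧ E ⊆ S) :
    T.card ≤ ((prs n).card - E.card).choose (m - E.card) := by
  rw [← Finset.card_sdiff_of_subset hE, ← Finset.card_powersetCard]
  refine Finset.card_le_card_of_injOn (fun x => x \ E) ?_ ?_
  · intro x hx
    obtain ⟨h2, h1⟩ := hT x hx
    rw [Finset.mem_powersetCard] at h2
    refine Finset.mem_coe.2 (Finset.mem_powersetCard.2 ?_)
    exact ⟨Finset.sdiff_subset_sdiff h2.1 (subset_refl _),
      by rw [Finset.card_sdiff_of_subset h1, h2.2]⟩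
  · intro x hx y hy he
    have he' : x \ E = y \ E := he
    rw [← Finset.sdiff_union_of_subset (hT x hx).2, ← Finset.sdiff_union_of_subset (hT y hy).2,
      he']

end CNT_

open CNT_ in
theorem p_CNT (hGMS : T_GMS) : T_CNT := by
  intro n m E hE
  obtain ⟨h1, h2⟩ := hGMS n m (fun G => (E : Set (Sym2 (Fin n))) ⊆ G.edgeSet)
  have key : ∀ T : Finset (Finset (Sym2 (Fin n))), (∀ S ∈ T, S ∈ (prs n).powersetCard m ∧
      (E : Set (Sym2 (Fin n))) ⊆
        (SimpleGraph.fromEdgeSet (S : Set (Sym2 (Fin n)))).edgeSet) →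
      T.card * (n.choose 2) ^ E.card ≤ (n.choose 2).choose m * m ^ E.card := by
    intro T hT
    have hT2 : ∀ S ∈ T, S ∈ (prs n).powersetCard m ∧ E ⊆ S := by
      intro S hS
      obtain ⟨h3, h4⟩ := hT S hS
      rw [edges (Finset.mem_powersetCard.1 h3).1, Finset.coe_subset] at h4
      exact ⟨h3, h4⟩
    rcases T.eq_empty_or_nonempty with hc | ⟨S, hx⟩
    · rw [hc, Finset.card_empty, zero_mul]
      exact Nat.zero_le _
    · obtain ⟨hS, h3⟩ := hT2 S hx
      rw [Finset.mem_powersetCard] at hS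
      have h4 : E.card ≤ m := by
        rw [← hS.2]
        exact Finset.card_le_card h3
      have h5 : m ≤ n.choose 2 := by
        rw [← hS.2, ← h2]
        exact Finset.card_le_card hS.1
      have h6 := le_of_sup hE T hT2
      rw [h2] at h6
      exact (Nat.mul_le_mul_right _ h6).trans (ind _ _ h5 _ h4)
  rw [h1]
  refine key _ fun S hS => ?_
  rw [Finset.mem_filter] at hS
  exact hS

end Pool.Agent.SPC
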