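import Pool.Agent.SPC.Targets3

/-!
Project SPC, third part: connected graphs are not too rare (CON).
-/

set_option autoImplicit false

namespace Pool.Agent.SPC

open Finset Classical Filter Topology
open Pool.Agent.Pend

namespace CON_

theorem cp_pos {n : ℕ} (hn : 1 ≤ n) (G : SimpleGraph (Fin n)) : 1 ≤ cp G := by
  unfold cp
  have h1 : Nonempty G.ConnectedComponent := ⟨G.connectedComponentMk ⟨0, hn⟩⟩
  have h2 : Finite G.ConnectedComponent := Quot.finite _
  exact Nat.card_pos

theorem cp_le {n : ℕ} (G : SimpleGraph (Fin n)) : cp G ≤ n := by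
  unfold cp
  have h1 := Nat.card_le_card_of_surjective (fun v : Fin n => G.connectedComponentMk v)
    (fun c => by
      induction c using SimpleGraph.ConnectedComponent.ind with
      | _ v => exact ⟨v, rfl⟩)
  exact h1.trans (by simp)

theorem cp_one {n : ℕ} (hn : 1 ≤ n) (G : SimpleGraph (Fin n)) : cp G = 1 ↔ G.Connected := by
  unfold cp
  rw [Nat.card_eq_one_iff_unique]
  constructor
  · rintro ⟨h, -⟩
    have h0 : Nonempty (Fin n) := ⟨⟨0, hn⟩⟩
    refine SimpleGraph.Connected.mk fun u v => ?_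
    exact SimpleGraph.ConnectedComponent.exact (h.elim _ _)
  · intro h
    refine ⟨⟨fun a b => ?_⟩, ⟨G.connectedComponentMk ⟨0, hn⟩⟩⟩
    induction a using SimpleGraph.ConnectedComponent.ind with
    | _ u =>
      induction b using SimpleGraph.ConnectedComponent.ind with
      | _ v => exact SimpleGraph.ConnectedComponent.sound (h.preconnected u v)

theorem ce_eq {n : ℕ} (hn : 1 ≤ n) (m : ℕ) : gm n m (fun G => cp G = 1) = ce n m := by
  unfold gm ce
  congr 1
  ext G
  simp only [mem_filter, mem_univ, true_and, cp_one hn G]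
  exact and_comm

theorem total {n : ℕ} (hn : 1 ≤ n) (m : ℕ) :
    gm n m (fun _ => True) = ∑ c ∈ range n, gm n m (fun G => cp G = c + 1) := by
  unfold gm
  refine Eq.trans (Finset.card_eq_sum_card_fiberwise
    (f := fun G => cp G - 1) (t := range n) (fun G _ => by
      have h2 := cp_pos hn G
      have h3 := cp_le G
      simp only [coe_range, Set.mem_Iio]
      omega)) ?_
  refine sum_congr rfl fun c _ => ?_
  congr 1
  ext G
  simp only [mem_filter, mem_univ, true_and, and_true]
  have h2 := cp_pos hn G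
  constructor
  · rintro ⟨h3, h4⟩
    exact ⟨h3, by omega⟩
  · rintro ⟨h3, h4⟩
    exact ⟨h3, by omega⟩

end CON_

open CON_ in
theorem p_CON (hSW : T_SW) (hGMS : T_GMS) : T_CON := by
  intro n m hn hm
  obtain ⟨l, hl⟩ : ∃ l : ℝ, l = ((n : ℝ) - 1) ^ 2 / ((m : ℝ) + 1 - n) := ⟨_, rfl⟩
  rw [← hl]
  have hn0 : (0 : ℝ) < n := by exact_mod_cast hn
  have hmn : (n : ℝ) ≤ m := by exact_mod_cast hm
  have hd : (0 : ℝ) < (m : ℝ) + 1 - n := by linarith
  have hl0 : 0 ≤ l := by
    rw [hl]
    positivity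
  obtain ⟨g, hg⟩ : ∃ g : ℕ → ℝ, ∀ c, g c = (gm n m (fun G => cp G = c) : ℝ) :=
    ⟨_, fun _ => rfl⟩
  have hg0 : ∀ c, 0 ≤ g c := fun c => by
    rw [hg]
    positivity
  have hch : (2 : ℝ) * (n.choose 2 : ℝ) = n * (n - 1) := by
    rw [Nat.cast_choose_two]
    ring
  -- one step
  have step : ∀ c : ℕ, ((c : ℝ) + 1) * g (c + 1 + 1) ≤ l * g (c + 1) := by
    intro c
    have h1 := hSW n m (c + 1) hn hm (by omega)
    have h2 : (((m + 1 - n) * (n * (c + 1)) * gm n m (fun G => cp G = c + 1 + 1) : ℕ) : ℝ) ≤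
        ((2 * (n - 1) * n.choose 2 * gm n m (fun G => cp G = c + 1) : ℕ) : ℝ) := by
      exact_mod_cast h1
    rw [Nat.cast_mul, Nat.cast_mul, Nat.cast_mul, Nat.cast_mul, Nat.cast_mul, Nat.cast_mul,
      Nat.cast_sub (by omega), Nat.cast_sub hn, ← hg, ← hg] at h2
    push_cast at h2
    have h3 : (2 : ℝ) * (n - 1) * (n.choose 2 : ℝ) * g (c + 1) =
        n * ((n - 1) ^ 2 * g (c + 1)) := by
      linear_combination ((n : ℝ) - 1) * g (c + 1) * hch
    rw [h3] at h2
    have h4 : n * (((m : ℝ) + 1 - n) * (((c : ℝ) + 1) * g (c + 1 + 1))) ≤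
        n * ((n - 1) ^ 2 * g (c + 1)) := by
      refine le_trans (le_of_eq ?_) h2
      ring
    have h5 := le_of_mul_le_mul_left h4 hn0
    rw [hl, div_mul_eq_mul_div, le_div_iff₀ hd]
    linarith
  have hind : ∀ c : ℕ, g (c + 1) ≤ g 1 * (l ^ c / (c.factorial : ℝ)) := by
    intro c
    induction c with
    | zero => simp
    | succ c ih =>
      have h1 := step c
      have h2 : (0 : ℝ) < (c : ℝ) + 1 := by positivity
      have h3 : g (c + 1 + 1) ≤ l * g (c + 1) / ((c : ℝ) + 1) := by
        rw [le_div_iff₀ h2]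
        linarith
      refine h3.trans ?_
      rw [div_le_iff₀ h2]
      have h4 : g 1 * (l ^ (c + 1) / ((c + 1).factorial : ℝ)) * ((c : ℝ) + 1) =
          l * (g 1 * (l ^ c / (c.factorial : ℝ))) := by
        rw [Nat.factorial_succ]
        push_cast
        have h5 : (c.factorial : ℝ) ≠ 0 := by positivity
        field_simp
        ring
      rw [h4]
      exact mul_le_mul_of_nonneg_left ih hl0
  -- the sum
  have htot : ((n.choose 2).choose m : ℝ) = ∑ c ∈ range n, g (c + 1) := by
    have h1 := (hGMS n m (fun _ => True)).1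
    have h2 := (hGMS n m (fun _ => True)).2
    have h3 : gm n m (fun _ => True) = ((prs n).powersetCard m).card := by
      rw [h1]
      refine congrArg card ?_
      ext S
      simp only [mem_filter, and_true]
    rw [card_powersetCard, h2] at h3
    have h4 : (n.choose 2).choose m = ∑ c ∈ range n, gm n m (fun G => cp G = c + 1) := by
      rw [← total hn m, h3]
    rw [h4]
    push_cast
    exact sum_congr rfl fun c _ => (hg (c + 1)).symm
  rw [htot]
  calc ∑ c ∈ range n, g (c + 1) ≤ ∑ c ∈ range n, g 1 * (l ^ c / (c.factorial : ℝ)) :=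
        sum_le_sum fun c _ => hind c
    _ = g 1 * ∑ c ∈ range n, l ^ c / (c.factorial : ℝ) := by rw [mul_sum]
    _ ≤ g 1 * Real.exp l := mul_le_mul_of_nonneg_left (Real.sum_le_exp_of_nonneg hl0 n) (hg0 1)
    _ = (ce n m : ℝ) * Real.exp l := by rw [hg, ce_eq hn m]

end Pool.Agent.SPC
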