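import Pool.Agent.SPC.Targets3

set_option autoImplicit false

/-!
Project SPC, target CONV (helper66): hypomorphic graphs are not reconstructible.
-/

namespace Pool.Agent.SPC

open Finset Classical Filter Topology
open Pool.Agent.Pend

namespace CONV_

/-- the order isomorphism of the cards -/
lemma card_iso {V : Type} [Fintype V] {G H : SimpleGraph V} {ψ : V → Equiv.Perm V}
    (hyp : Hyp G H ψ) (v : V) :
    Nonempty ({s : Finset V // s.Nonempty ∧ G.IsClique (s : Set V) ∧ v ∉ s} ≃o
      {t : Finset V // t.Nonempty ∧ H.IsClique (t : Set V) ∧ v ∉ t}) := by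
  set α : Equiv.Perm V := ψ v with hα
  have hv : α v = v := hyp.fix v
  have hsv : α.symm v = v := by rw [Equiv.symm_apply_eq, hv]
  have hadj : ∀ x y, x ≠ v → y ≠ v → (G.Adj x y ↔ H.Adj (α x) (α y)) := hyp.adj v
  have h1 : ∀ s : Finset V, G.IsClique (s : Set V) → v ∉ s →
      H.IsClique ((s.map α.toEmbedding : Finset V) : Set V) ∧ v ∉ s.map α.toEmbedding := by
    intro s hs hvs
    constructor
    · intro a ha b hb hab
      rw [Finset.mem_coe, Finset.mem_map] at ha hb
      obtain ⟨x, hx, rfl⟩ := ha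
      obtain ⟨y, hy, rfl⟩ := hb
      exact (hadj x y (fun h => hvs (h ▸ hx)) (fun h => hvs (h ▸ hy))).mp
        (hs hx hy (fun h => hab (by rw [h])))
    · intro hm
      obtain ⟨x, hx, hxv⟩ := Finset.mem_map.1 hm
      have h2 : α x = α v := hxv.trans hv.symm
      exact hvs (α.injective h2 ▸ hx)
  have h2 : ∀ t : Finset V, H.IsClique (t : Set V) → v ∉ t →
      G.IsClique ((t.map α.symm.toEmbedding : Finset V) : Set V) ∧
        v ∉ t.map α.symm.toEmbedding := by
    intro t ht hvt
    have hne : ∀ x ∈ t, α.symm x ≠ v := by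
      intro x hx h
      have h3 : x = v := by
        rw [Equiv.symm_apply_eq] at h
        rw [h, hv]
      exact hvt (h3 ▸ hx)
    constructor
    · intro a ha b hb hab
      rw [Finset.mem_coe, Finset.mem_map] at ha hb
      obtain ⟨x, hx, rfl⟩ := ha
      obtain ⟨y, hy, rfl⟩ := hb
      simp only [Equiv.coe_toEmbedding]
      rw [hadj _ _ (hne x hx) (hne y hy)]
      simp only [Equiv.apply_symm_apply]
      exact ht hx hy (fun h => hab (by rw [h]))
    · intro hm
      obtain ⟨x, hx, hxv⟩ := Finset.mem_map.1 hm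
      exact hne x hx hxv
  refine ⟨{
    toFun := fun s => ⟨s.1.map α.toEmbedding, by simpa using s.2.1, h1 s.1 s.2.2.1 s.2.2.2⟩
    invFun := fun t => ⟨t.1.map α.symm.toEmbedding, by simpa using t.2.1,
      h2 t.1 t.2.2.1 t.2.2.2⟩
    left_inv := ?_
    right_inv := ?_
    map_rel_iff' := ?_ }⟩
  · intro s
    apply Subtype.ext
    simp only [Finset.map_map]
    ext x
    simp
  · intro t
    apply Subtype.ext
    simp only [Finset.map_map]
    ext x
    simp
  · intro s t
    change s.1.map α.toEmbedding ⊆ t.1.map α.toEmbedding ↔ s.1 ⊆ t.1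
    exact Finset.map_subset_map

/-- an order isomorphism of the clique posets gives an isomorphism of the graphs -/
lemma iso_of_orderIso {V W : Type} [Fintype V] [Fintype W] (G : SimpleGraph V)
    (H : SimpleGraph W)
    (e : {s : Finset V // s.Nonempty ∧ G.IsClique (s : Set V)} ≃o
      {t : Finset W // t.Nonempty ∧ H.IsClique (t : Set W)}) : Nonempty (G ≃g H) := by
  let P := {s : Finset V // s.Nonempty ∧ G.IsClique (s : Set V)}
  let P' := {t : Finset W // t.Nonempty ∧ H.IsClique (t : Set W)}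
  have hs : ∀ x : V, ({x} : Finset V).Nonempty ∧ G.IsClique (({x} : Finset V) : Set V) :=
    fun x => ⟨Finset.singleton_nonempty x, by simp⟩
  have hs' : ∀ y : W, ({y} : Finset W).Nonempty ∧ H.IsClique (({y} : Finset W) : Set W) :=
    fun y => ⟨Finset.singleton_nonempty y, by simp⟩
  have key : ∀ x : V, ∃ y : W, e ⟨{x}, hs x⟩ = ⟨{y}, hs' y⟩ := by
    intro x
    obtain ⟨y, hy⟩ := (e ⟨{x}, hs x⟩).2.1
    refine ⟨y, ?_⟩
    have hle : (⟨{y}, hs' y⟩ : P') ≤ e ⟨{x}, hs x⟩ := by
      change ({y} : Finset W) ⊆ (e ⟨{x}, hs x⟩).1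
      exact Finset.singleton_subset_iff.mpr hy
    have hle2 : e.symm ⟨{y}, hs' y⟩ ≤ ⟨{x}, hs x⟩ := by
      rw [← e.le_iff_le, e.apply_symm_apply]
      exact hle
    have heq : e.symm ⟨{y}, hs' y⟩ = ⟨{x}, hs x⟩ := by
      apply Subtype.ext
      have h1 : (e.symm ⟨{y}, hs' y⟩).1 ⊆ {x} := hle2
      rcases Finset.subset_singleton_iff.mp h1 with h | h
      · exact absurd h (e.symm ⟨{y}, hs' y⟩).2.1.ne_empty
      · exact h
    rw [← heq, e.apply_symm_apply]
  choose g hg using key
  have hinj : Function.Injective g := by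
    intro x y hxy
    have h1 : e ⟨{x}, hs x⟩ = e ⟨{y}, hs y⟩ := by
      rw [hg x, hg y]
      apply Subtype.ext
      simp [hxy]
    have h2 := e.injective h1
    have h3 : ({x} : Finset V) = {y} := congrArg Subtype.val h2
    exact Finset.singleton_injective h3
  have hsur : Function.Surjective g := by
    intro y
    obtain ⟨x, hx⟩ := (e.symm ⟨{y}, hs' y⟩).2.1
    refine ⟨x, ?_⟩
    have hle : (⟨{x}, hs x⟩ : P) ≤ e.symm ⟨{y}, hs' y⟩ := by
      change ({x} : Finset V) ⊆ (e.symm ⟨{y}, hs' y⟩).1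
      exact Finset.singleton_subset_iff.mpr hx
    have hle2 : e ⟨{x}, hs x⟩ ≤ ⟨{y}, hs' y⟩ := by
      rw [← e.symm.le_iff_le, e.symm_apply_apply]
      exact hle
    rw [hg x] at hle2
    have h1 : ({g x} : Finset W) ⊆ {y} := hle2
    exact Finset.mem_singleton.1 (Finset.singleton_subset_iff.1 h1)
  have hbij : Function.Bijective g := ⟨hinj, hsur⟩
  refine ⟨⟨Equiv.ofBijective g hbij, ?_⟩⟩
  intro x y
  change H.Adj (g x) (g y) ↔ G.Adj x y
  by_cases hxy : x = y
  · subst hxy
    simp
  · have hgne : g x ≠ g y := fun h => hxy (hinj h)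
    constructor
    · intro hadj
      have hc : ({g x, g y} : Finset W).Nonempty ∧
          H.IsClique (({g x, g y} : Finset W) : Set W) := by
        refine ⟨⟨g x, by simp⟩, ?_⟩
        rw [Finset.coe_pair, SimpleGraph.isClique_pair]
        exact fun _ => hadj
      have hle1 : (⟨{g x}, hs' _⟩ : P') ≤ ⟨{g x, g y}, hc⟩ := by
        change ({g x} : Finset W) ⊆ {g x, g y}
        simp
      have hle2 : (⟨{g y}, hs' _⟩ : P') ≤ ⟨{g x, g y}, hc⟩ := by
        change ({g y} : Finset W) ⊆ {g x, g y}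
        simp
      rw [← hg] at hle1 hle2
      have h1 : (⟨{x}, hs x⟩ : P) ≤ e.symm ⟨{g x, g y}, hc⟩ := by
        rw [← e.le_iff_le, e.apply_symm_apply]
        exact hle1
      have h2 : (⟨{y}, hs y⟩ : P) ≤ e.symm ⟨{g x, g y}, hc⟩ := by
        rw [← e.le_iff_le, e.apply_symm_apply]
        exact hle2
      have h1' : ({x} : Finset V) ⊆ (e.symm ⟨{g x, g y}, hc⟩).1 := h1
      have h2' : ({y} : Finset V) ⊆ (e.symm ⟨{g x, g y}, hc⟩).1 := h2
      exact (e.symm ⟨{g x, g y}, hc⟩).2.2 (Finset.singleton_subset_iff.mp h1')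
        (Finset.singleton_subset_iff.mp h2') hxy
    · intro hadj
      have hc : ({x, y} : Finset V).Nonempty ∧
          G.IsClique (({x, y} : Finset V) : Set V) := by
        refine ⟨⟨x, by simp⟩, ?_⟩
        rw [Finset.coe_pair, SimpleGraph.isClique_pair]
        exact fun _ => hadj
      have hle1 : (⟨{x}, hs x⟩ : P) ≤ ⟨{x, y}, hc⟩ := by
        change ({x} : Finset V) ⊆ {x, y}
        simp
      have hle2 : (⟨{y}, hs y⟩ : P) ≤ ⟨{x, y}, hc⟩ := by
        change ({y} : Finset V) ⊆ {x, y}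
        simp
      have h1 := e.monotone hle1
      have h2 := e.monotone hle2
      rw [hg x] at h1
      rw [hg y] at h2
      have h1' : ({g x} : Finset W) ⊆ (e ⟨{x, y}, hc⟩).1 := h1
      have h2' : ({g y} : Finset W) ⊆ (e ⟨{x, y}, hc⟩).1 := h2
      exact (e ⟨{x, y}, hc⟩).2.2 (Finset.singleton_subset_iff.mp h1')
        (Finset.singleton_subset_iff.mp h2') hgne

end CONV_

open CONV_ in
theorem p_CONV : T_CONV := by
  intro V _ G H ψ hyp hrec
  obtain ⟨e⟩ := hrec V H (Equiv.refl V) (fun v => card_iso hyp v)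
  exact hyp.non (iso_of_orderIso G H e)

end Pool.Agent.SPC
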