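import Pool.Agent.SPC.Targets3

/-!
# Project SPC, target DET3: the deterministic theorem
-/

set_option autoImplicit false

namespace Pool.Agent.SPC

open Finset Classical Filter Topology
open Pool.Agent.Pend

namespace DET3_

lemma dg_le {n : ℕ} (G : SimpleGraph (Fin n)) (v : Fin n) : dg G v ≤ n := by
  unfold dg
  refine (Finset.card_le_univ _).trans ?_
  simp

lemma ysum {n : ℕ} (G : SimpleGraph (Fin n)) (Δ : ℕ) (hΔ : 4 ≤ Δ) :
    (∑ v ∈ univ.filter (fun v => Δ < dg G v), ((dg G v : ℝ) + 1)) * Real.logb 2 Δ ≤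
      2 * WW Δ G := by
  unfold WW
  rw [Finset.sum_mul, Finset.mul_sum]
  refine Finset.sum_le_sum fun v hv => ?_
  rw [Finset.mem_filter] at hv
  have h1 : (Δ : ℝ) ≤ dg G v := by exact_mod_cast hv.2.le
  have hΔ0 : (4 : ℝ) ≤ Δ := by exact_mod_cast hΔ
  have h2 : Real.logb 2 Δ ≤ Real.logb 2 (dg G v) :=
    Real.logb_le_logb_of_le (by norm_num) (by linarith) h1
  have h3 : 0 ≤ Real.logb 2 Δ := Real.logb_nonneg (by norm_num) (by linarith)
  nlinarith

lemma logR {n : ℕ} (G : SimpleGraph (Fin n)) (Δ a : ℕ) (hn : 1 ≤ n) (hΔ : 4 ≤ Δ) (ha : 1 ≤ a) :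
    0 < (n : ℝ) * (Δ : ℝ) ^ (a - 1) *
      ∏ v ∈ univ.filter (fun v => Δ < dg G v), (dg G v : ℝ) ^ (dg G v) ∧
    Real.logb 2 ((n : ℝ) * (Δ : ℝ) ^ (a - 1) *
      ∏ v ∈ univ.filter (fun v => Δ < dg G v), (dg G v : ℝ) ^ (dg G v)) =
      Real.logb 2 n + ((a : ℝ) - 1) * Real.logb 2 Δ + WW Δ G := by
  have hn0 : (0 : ℝ) < n := by exact_mod_cast hn
  have hΔ0 : (0 : ℝ) < Δ := by exact_mod_cast (by omega : 0 < Δ)
  have hp : ∀ v ∈ univ.filter (fun v => Δ < dg G v), (0 : ℝ) < (dg G v : ℝ) ^ (dg G v) := by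
    intro v hv
    rw [Finset.mem_filter] at hv
    have : (0 : ℝ) < dg G v := by exact_mod_cast (by omega : 0 < dg G v)
    positivity
  have hprod := Finset.prod_pos hp
  refine ⟨by positivity, ?_⟩
  rw [Real.logb_mul (by positivity) hprod.ne', Real.logb_mul hn0.ne' (by positivity),
    Real.logb_pow, Nat.cast_sub ha, Nat.cast_one]
  congr 1
  unfold WW
  rw [Real.logb, Real.log_prod (fun v hv => (hp v hv).ne'), Finset.sum_div]
  refine Finset.sum_congr rfl fun v _ => ?_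
  rw [Real.log_pow, Real.logb]
  ring

end DET3_

/-- DET3: the deterministic theorem -/
theorem p_DET3 (hEMB : T_EMB) (hSEL : T_SEL) (hDETN : T_DETN) : T_DET3 := by
  obtain ⟨n₀, hnum⟩ := hDETN
  refine ⟨max n₀ 3, fun n hn G hG Δ K X hΔ4 hΔn hK hX hdeg hds hW => ?_⟩
  have hn0 : n₀ ≤ n := (le_max_left _ _).trans hn
  have hn3 : 3 ≤ n := (le_max_right _ _).trans hn
  have hnR : (3 : ℝ) ≤ n := by exact_mod_cast hn3
  have hΔR : (4 : ℝ) ≤ Δ := by exact_mod_cast hΔ4
  obtain ⟨L, hL⟩ : ∃ L : ℝ, L = Real.logb 2 Δ := ⟨_, rfl⟩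
  have hL2 : 2 ≤ L := by
    rw [hL, Real.le_logb_iff_rpow_le (by norm_num) (by linarith)]
    norm_num
    linarith
  have hLn : L ≤ Real.logb 2 n := by
    rw [hL]
    exact Real.logb_le_logb_of_le (by norm_num) (by linarith) (by exact_mod_cast hΔn)
  have h2L : (2 : ℝ) ^ L = Δ := by
    rw [hL]
    exact Real.rpow_logb (by norm_num) (by norm_num) (by linarith)
  rw [← hL] at hK hX
  -- a vertex outside `X`
  have hXn : X.card < n := by
    have h1 : (X.card : ℝ) < n := by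
      have h2 : (0 : ℝ) ≤ X.card := Nat.cast_nonneg _
      nlinarith
    exact_mod_cast h1
  obtain ⟨v₀, hv₀⟩ : ∃ v, v ∉ X := by
    by_contra hcon
    push Not at hcon
    have h1 : X = Finset.univ := Finset.eq_univ_iff_forall.mpr hcon
    rw [h1, Finset.card_univ, Fintype.card_fin] at hXn
    exact lt_irrefl _ hXn
  have hKn : K ≤ n := (hdeg v₀ hv₀).trans (DET3_.dg_le G v₀)
  obtain ⟨k, hk⟩ : ∃ k : ℕ, k = ⌈(n : ℝ) / (64 * L)⌉₊ := ⟨_, rfl⟩
  have hk1 : 1 ≤ k := by
    rw [hk, Nat.one_le_ceil_iff]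
    positivity
  obtain ⟨A, hA, hAd, hAc⟩ := hSEL (Fin n) G hG Δ K k X (by omega) hk1
    (by rw [Fintype.card_fin]; exact hKn) hdeg hds
  rw [Fintype.card_fin] at hAc
  have hApos : 1 ≤ A.card := Finset.card_pos.mpr (Pool.Agent.Lib.Recon.built_nonempty G hA)
  have hAle : A.card ≤ n := by
    have := Finset.card_le_univ A
    rwa [Fintype.card_fin] at this
  have hfin := hnum n hn0 L K (X.card : ℝ)
    (∑ v ∈ univ.filter (fun v => Δ < dg G v), ((dg G v : ℝ) + 1)) (WW Δ G) (A.card : ℝ)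
    hL2 hLn hK (by exact_mod_cast hKn) hX hW (by rw [hL]; exact DET3_.ysum G Δ hΔ4)
    (Nat.cast_nonneg _) (by rw [h2L, ← hk]; exact hAc)
  have hE := hEMB (Fin n) G Δ (by omega) A hA
  rw [Fintype.card_fin] at hE
  obtain ⟨hR0, hRl⟩ := DET3_.logR G Δ A.card (by omega) hΔ4 hApos
  rw [← hL] at hRl
  intro W _ H f hdeck
  apply Pool.Agent.Lib.Recon.orderIso_of_iso
  have hyp : ∀ v, Pool.Agent.Lib.Recon.CardIso G H v (f v) := by
    intro v
    obtain ⟨e⟩ := hdeck v
    exact Pool.Agent.Lib.Recon.cardIso_of_orderIso G H f v e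
  apply Pool.Agent.Lib.Recon.master G H f hyp A 1
  · intro u v hu hv h
    rw [hAd u v hu hv h]
    intro w _ _
    exact Iff.rfl
  · intro u hu
    rw [Finset.card_le_one]
    intro a ha b hb
    simp only [Pool.Agent.Lib.Recon.cls, Finset.mem_filter, Finset.mem_univ, true_and] at ha hb
    rw [← hAd u a hu ha.1 ha.2, ← hAd u b hu hb.1 hb.2]
  · have hr : 1 ≤ (Pool.Agent.Lib.Recon.AutEmbs G A).card := by
      rw [Nat.one_le_iff_ne_zero, ← Nat.pos_iff_ne_zero, Finset.card_pos]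
      refine ⟨fun a => a, ?_⟩
      simp only [Pool.Agent.Lib.Recon.AutEmbs, Finset.mem_filter, Finset.mem_univ, true_and]
      exact ⟨Equiv.refl _, fun x y => Iff.rfl, fun a => rfl⟩
    have hmain : (2 * (Pool.Agent.Lib.Recon.Embs G A G).card) ^ (1 + 1) <
        2 ^ (Fintype.card (Fin n) - A.card) := by
      rw [Fintype.card_fin]
      have hreal : ((2 * ((n : ℝ) * (Δ : ℝ) ^ (A.card - 1) *
          ∏ v ∈ univ.filter (fun v => Δ < dg G v), (dg G v : ℝ) ^ (dg G v))) ^ (1 + 1) : ℝ) <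
          (2 : ℝ) ^ (n - A.card) := by
        rw [← Real.logb_lt_logb_iff (b := 2) (by norm_num) (by positivity) (by positivity)]
        rw [Real.logb_pow, Real.logb_pow, Real.logb_mul (by norm_num) hR0.ne', hRl,
          Real.logb_self_eq_one (by norm_num), Nat.cast_sub hAle]
        push_cast
        linarith
      have h1 : ((2 * ((Pool.Agent.Lib.Recon.Embs G A G).card : ℝ)) ^ (1 + 1) : ℝ) <
          (2 : ℝ) ^ (n - A.card) := by
        refine lt_of_le_of_lt ?_ hreal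
        exact pow_le_pow_left₀ (by positivity) (mul_le_mul_of_nonneg_left hE (by norm_num)) _
      exact_mod_cast h1
    calc (2 * (Pool.Agent.Lib.Recon.Embs G A G).card) ^ (1 + 1)
        < 2 ^ (Fintype.card (Fin n) - A.card) := hmain
      _ ≤ 2 ^ (Fintype.card (Fin n) - A.card) *
          (Pool.Agent.Lib.Recon.AutEmbs G A).card ^ (1 + 1) := by
          apply Nat.le_mul_of_pos_right
          exact Nat.pow_pos hr

end Pool.Agent.SPC
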