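import Pool.Agent.SPC.Targets3

set_option autoImplicit false

/-!
# SPC: numbers (DETN)
-/

namespace Pool.Agent.SPC

open Finset Classical Filter Topology
open Pool.Agent.Pend

namespace DETN_

theorem expb {L : ℝ} (hL : 2 ≤ L) : 128 * L ≤ Real.exp (7.9 * L) := by
  have h1 : (2 : ℝ) ≤ Real.exp 1 := by
    have := Real.add_one_le_exp (1 : ℝ); linarith
  have h2 : (128 : ℝ) ≤ Real.exp 7 := by
    have h3 : Real.exp 7 = Real.exp 1 ^ 7 := by
      rw [← Real.exp_nat_mul]; norm_num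
    rw [h3]
    calc (128 : ℝ) = 2 ^ 7 := by norm_num
      _ ≤ Real.exp 1 ^ 7 := pow_le_pow_left₀ (by norm_num) h1 7
  have h4 : Real.exp 7 ≤ Real.exp (6.9 * L) := Real.exp_le_exp.2 (by linarith)
  have h5 : L ≤ Real.exp L := by
    have := Real.add_one_le_exp L; linarith
  have h6 : Real.exp (7.9 * L) = Real.exp (6.9 * L) * Real.exp L := by
    rw [← Real.exp_add]; congr 1; ring
  rw [h6]
  exact mul_le_mul (h2.trans h4) h5 (by linarith) (Real.exp_pos _).le

theorem prodb {L K n : ℝ} {k : ℕ} (hL : 2 ≤ L) (hn : 0 < n) (hK : 600 * L ^ 2 ≤ K) (hKn : K ≤ n)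
    (hk : n / (64 * L) ≤ k) :
    2 * n * ((2 : ℝ) ^ L) ^ 2 * (1 - K / n) ^ k ≤ n / (64 * L) := by
  have hL0 : 0 < L := by linarith
  have hK0 : 0 ≤ K := by nlinarith
  have h0 : 0 ≤ 1 - K / n := by
    rw [sub_nonneg, div_le_one hn]; exact hKn
  have h1 : 1 - K / n ≤ Real.exp (-(K / n)) := by
    have := Real.add_one_le_exp (-(K / n)); linarith
  have h2 : (1 - K / n) ^ k ≤ Real.exp (-(9.375 * L)) := by
    calc (1 - K / n) ^ k ≤ Real.exp (-(K / n)) ^ k := pow_le_pow_left₀ h0 h1 k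
      _ = Real.exp (k * -(K / n)) := by rw [Real.exp_nat_mul]
      _ ≤ Real.exp (-(9.375 * L)) := by
        apply Real.exp_le_exp.2
        have h3 : 9.375 * L ≤ (n / (64 * L)) * (K / n) := by
          have e : (n / (64 * L)) * (K / n) = K / (64 * L) := by field_simp
          rw [e, le_div_iff₀ (by positivity)]
          nlinarith
        have h4 : (n / (64 * L)) * (K / n) ≤ k * (K / n) :=
          mul_le_mul_of_nonneg_right hk (by positivity)
        linarith
  have h5 : ((2 : ℝ) ^ L) ^ 2 ≤ Real.exp (1.4 * L) := by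
    have e : ((2 : ℝ) ^ L) ^ 2 = Real.exp (2 * (Real.log 2 * L)) := by
      rw [Real.rpow_def_of_pos (by norm_num), ← Real.exp_nat_mul]; norm_num
    rw [e]
    apply Real.exp_le_exp.2
    have := Real.log_two_lt_d9
    nlinarith
  have h6 : ((2 : ℝ) ^ L) ^ 2 * (1 - K / n) ^ k ≤ Real.exp (-(7.9 * L)) := by
    calc ((2 : ℝ) ^ L) ^ 2 * (1 - K / n) ^ k
        ≤ Real.exp (1.4 * L) * Real.exp (-(9.375 * L)) :=
          mul_le_mul h5 h2 (pow_nonneg h0 k) (Real.exp_pos _).le
      _ = Real.exp (1.4 * L + -(9.375 * L)) := by rw [Real.exp_add]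
      _ ≤ Real.exp (-(7.9 * L)) := Real.exp_le_exp.2 (by linarith)
  have h7 : Real.exp (-(7.9 * L)) ≤ 1 / (128 * L) := by
    rw [Real.exp_neg, ← one_div]
    exact one_div_le_one_div_of_le (by positivity) (expb hL)
  calc 2 * n * ((2 : ℝ) ^ L) ^ 2 * (1 - K / n) ^ k
      = 2 * n * (((2 : ℝ) ^ L) ^ 2 * (1 - K / n) ^ k) := by ring
    _ ≤ 2 * n * (1 / (128 * L)) := mul_le_mul_of_nonneg_left (h6.trans h7) (by positivity)
    _ = n / (64 * L) := by field_simp; norm_num

theorem logb {n : ℝ} (hn : 400 ≤ n) : 3 + 2 * Real.logb 2 n < 49 / 128 * n := by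
  set s := Real.sqrt n with hs
  have h0 : 0 < n := by linarith
  have hss : s ^ 2 = n := Real.sq_sqrt h0.le
  have h20 : 20 ≤ s := by
    rw [hs]; apply Real.le_sqrt_of_sq_le; linarith
  have h1 : Real.log n = 2 * Real.log s := by
    rw [← hss, Real.log_pow]; norm_num
  have h2 : Real.log s ≤ s - 1 := Real.log_le_sub_one_of_pos (by linarith)
  have h3 := Real.log_two_gt_d9
  have h4 : Real.logb 2 n ≤ 3 * s := by
    rw [Real.logb, div_le_iff₀ (by linarith), h1]
    nlinarith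
  nlinarith

end DETN_

theorem p_DETN : T_DETN := by
  refine ⟨400, ?_⟩
  intro n hn L K x y W a hL hLn hK hKn hx hW hy ha hm
  have hn' : (400 : ℝ) ≤ n := by exact_mod_cast hn
  have hn0 : (0 : ℝ) < n := by linarith
  have hL0 : 0 < L := by linarith
  set k := ⌈(n : ℝ) / (64 * L)⌉₊ with hkdef
  have hk1 : (n : ℝ) / (64 * L) ≤ k := Nat.le_ceil _
  have hk2 : (k : ℝ) < (n : ℝ) / (64 * L) + 1 := Nat.ceil_lt_add_one (by positivity)
  have h1 := DETN_.prodb hL hn0 hK hKn hk1
  have h2 : x ≤ (n : ℝ) / (64 * L) := by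
    rw [le_div_iff₀ (by positivity)]; linarith
  have h3 : y ≤ 2 * ((n : ℝ) / (64 * L)) := by
    have e : 2 * ((n : ℝ) / (64 * L)) = (n / 32) / L := by field_simp; norm_num
    rw [e, le_div_iff₀ hL0]; linarith
  set t := (n : ℝ) / (64 * L) with ht
  have htL : t * L = n / 64 := by rw [ht]; field_simp
  have h4 : a ≤ 15 * t + 1 := by linarith
  have ht0 : 0 ≤ t := by positivity
  have ht2 : t ≤ n / 128 := by nlinarith
  have h5 : a * L ≤ 15 * (n / 64) + L := by
    calc a * L ≤ (15 * t + 1) * L := mul_le_mul_of_nonneg_right h4 hL0.le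
      _ = 15 * (t * L) + L := by ring
      _ = 15 * (n / 64) + L := by rw [htL]
  have h6 := DETN_.logb hn'
  nlinarith

end Pool.Agent.SPC
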