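import Pool.Agent.SPC.Targets3

set_option autoImplicit false

/-!
# DISC: disconnected graphs are rare in the dense range
-/

namespace Pool.Agent.SPC

open Finset Classical Filter Topology
open Pool.Agent.Pend

namespace DISC_

theorem filt {α : Type} (s : Finset α) (p : α → Prop) [DecidablePred p] (h : ∀ x, p x) :
    (s.filter p).card = s.card := by
  rw [Finset.filter_true_of_mem (fun x _ => h x)]

theorem gm_true (hGMS : T_GMS) (n m : ℕ) : gm n m (fun _ => True) = (n.choose 2).choose m := by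
  obtain ⟨h1, h2⟩ := hGMS n m (fun _ => True)
  rw [h1, filt]
  · rw [Finset.card_powersetCard, h2]
  · intro S
    trivial

theorem gm_bU {n m : ℕ} {P : SimpleGraph (Fin n) → Prop} {β : Type} (t : Finset β)
    (R : β → SimpleGraph (Fin n) → Prop)
    (h : ∀ G : SimpleGraph (Fin n), P G → ∃ b ∈ t, R b G) :
    gm n m P ≤ ∑ b ∈ t, gm n m (R b) := by
  unfold gm
  refine (Finset.card_le_card ?_).trans (Finset.card_biUnion_le (s := t) (t := fun b =>
    (univ : Finset (SimpleGraph (Fin n))).filter (fun G => G.edgeSet.ncard = m ∧ R b G)))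
  intro G hG
  simp only [Finset.mem_filter, Finset.mem_univ, true_and, Finset.mem_biUnion] at hG ⊢
  obtain ⟨b, hb, hR⟩ := h G hG.2
  exact ⟨b, hb, hG.1, hR⟩

theorem total (n m : ℕ) : gm n m (fun _ => True) ≤
    ce n m + gm n m (fun G => ¬ G.Connected) := by
  unfold gm ce
  refine (Finset.card_le_card ?_).trans (Finset.card_union_le _ _)
  intro G hG
  simp only [Finset.mem_filter, Finset.mem_univ, true_and, Finset.mem_union] at hG ⊢
  by_cases h : G.Connected
  · exact Or.inl ⟨h, hG.1⟩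
  · exact Or.inr ⟨hG.1, h⟩

/-- the pairs with exactly one member in `S` -/
noncomputable def QS {n : ℕ} (S : Finset (Fin n)) : Finset (Sym2 (Fin n)) :=
  (S ×ˢ Sᶜ).image (fun p => s(p.1, p.2))

theorem QS_prs {n : ℕ} (S : Finset (Fin n)) : QS S ⊆ prs n := by
  intro e he
  unfold QS at he
  obtain ⟨⟨a, b⟩, hab, rfl⟩ := Finset.mem_image.1 he
  rw [Finset.mem_product, Finset.mem_compl] at hab
  unfold prs
  rw [Finset.mem_filter]
  refine ⟨Finset.mem_univ _, ?_⟩
  rw [Sym2.mk_isDiag_iff]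
  intro h
  have h' : a = b := h
  subst h'
  exact hab.2 hab.1

theorem QS_card {n : ℕ} (S : Finset (Fin n)) : (QS S).card = S.card * (n - S.card) := by
  unfold QS
  rw [Finset.card_image_of_injOn, Finset.card_product, Finset.card_compl, Fintype.card_fin]
  rintro ⟨a, b⟩ hab ⟨c, d⟩ hcd h
  simp only [Finset.coe_product, Set.mem_prod, Finset.mem_coe, Finset.mem_compl] at hab hcd
  rw [Sym2.eq_iff] at h
  rcases h with ⟨rfl, rfl⟩ | ⟨h1, h2⟩
  · rfl
  · exfalso
    have h3 : a = d := h1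
    exact hcd.2 (h3 ▸ hab.1)

theorem exists_S {n : ℕ} (hn : 1 ≤ n) (G : SimpleGraph (Fin n)) (hG : ¬ G.Connected) :
    ∃ S ∈ (univ : Finset (Finset (Fin n))).filter (fun S => 1 ≤ S.card ∧ 2 * S.card ≤ n),
      (G.edgeSet ∩ (QS S : Set (Sym2 (Fin n)))).ncard = 0 := by
  have hne : Nonempty (Fin n) := ⟨⟨0, hn⟩⟩
  have hpre : ¬ G.Preconnected := fun h => hG ⟨h⟩
  unfold SimpleGraph.Preconnected at hpre
  simp only [not_forall] at hpre
  obtain ⟨u, v, huv⟩ := hpre
  set A : Finset (Fin n) := univ.filter (fun w => G.Reachable u w) with hA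
  have hu : u ∈ A := by simp [hA]
  have hv : v ∉ A := by simp [hA, huv]
  have hcut : ∀ a ∈ A, ∀ b, b ∉ A → ¬ G.Adj a b := by
    intro a ha b hb hab
    apply hb
    rw [hA, Finset.mem_filter] at ha ⊢
    exact ⟨Finset.mem_univ _, ha.2.trans hab.reachable⟩
  have hzero : ∀ S : Finset (Fin n), (∀ a ∈ S, ∀ b, b ∉ S → ¬ G.Adj a b) →
      (G.edgeSet ∩ (QS S : Set (Sym2 (Fin n)))).ncard = 0 := by
    intro S hS
    have he : G.edgeSet ∩ (QS S : Set (Sym2 (Fin n))) = ∅ := by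
      rw [Set.eq_empty_iff_forall_notMem]
      rintro e ⟨h1, h2⟩
      have h3 : e ∈ QS S := h2
      unfold QS at h3
      obtain ⟨⟨a, b⟩, hab, rfl⟩ := Finset.mem_image.1 h3
      rw [Finset.mem_product, Finset.mem_compl] at hab
      exact hS a hab.1 b hab.2 ((SimpleGraph.mem_edgeSet G).1 h1)
    rw [he, Set.ncard_empty]
  have hcc : A.card + Aᶜ.card = n := by
    have := Finset.card_add_card_compl A
    rwa [Fintype.card_fin] at this
  have hA1 : 1 ≤ A.card := Finset.card_pos.2 ⟨u, hu⟩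
  have hA2 : 1 ≤ Aᶜ.card := Finset.card_pos.2 ⟨v, Finset.mem_compl.2 hv⟩
  rcases le_or_gt (2 * A.card) n with h | h
  · refine ⟨A, ?_, hzero A hcut⟩
    rw [Finset.mem_filter]
    exact ⟨Finset.mem_univ _, hA1, h⟩
  · refine ⟨Aᶜ, ?_, hzero Aᶜ ?_⟩
    · rw [Finset.mem_filter]
      exact ⟨Finset.mem_univ _, hA2, by omega⟩
    · intro a ha b hb hab
      rw [Finset.mem_compl] at ha hb
      rw [not_not] at hb
      exact hcut b hb a ha hab.symm

theorem two_mul_choose (n : ℕ) : 2 * n.choose 2 = n * (n - 1) := by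
  rw [Nat.choose_two_right, Nat.mul_div_cancel' (Nat.even_mul_pred_self n).two_dvd]

theorem one_set (hSPL : T_SPL) (hHYP : T_HYP) {n m t g : ℕ} (hg : 8 * g ≤ t ^ 4)
    (hn : 2 * t ^ 4 ≤ n) (hm : n * t ^ 4 ≤ m) (hmN : m ≤ n.choose 2) (S : Finset (Fin n))
    (h2 : 2 * S.card ≤ n) :
    gm n m (fun G => (G.edgeSet ∩ (QS S : Set (Sym2 (Fin n)))).ncard = 0) * 2 ^ (S.card * g) ≤
      (n.choose 2).choose m := by
  rw [hSPL n m 0 (QS S) (QS_prs S) (Nat.zero_le _), QS_card]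
  set s := S.card with hs
  have hP : s * (n - s) ≤ n.choose 2 := by
    have h3 := Finset.card_le_card (QS_prs S)
    rw [QS_card] at h3
    have h4 : (prs n).card = n.choose 2 := by
      have h5 : (prs n).card = (univ.filter (fun e : Sym2 (Fin n) => ¬ e.IsDiag)).card := rfl
      rw [h5, ← Fintype.card_subtype, Sym2.card_subtype_not_diag, Fintype.card_fin]
    rw [h4] at h3
    exact h3
  have e1 : 8 * (s * g) ≤ s * t ^ 4 := by nlinarith
  have e2 : t ^ 4 ≤ n - s := by omega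
  have e3 : 8 * (s * g) ≤ s * (n - s) := e1.trans (Nat.mul_le_mul_left _ e2)
  have e4 : 8 * (s * g) ≤ m := by
    refine e1.trans (le_trans ?_ hm)
    exact Nat.mul_le_mul_right _ (by omega)
  have e5 : 8 * (s * g) * n.choose 2 ≤ s * (n - s) * m := by
    have h6 : n.choose 2 ≤ (n - s) * n := by
      have h7 := two_mul_choose n
      have h8 : n * (n - 1) ≤ n * (2 * (n - s)) := Nat.mul_le_mul_left _ (by omega)
      have h9 : n * (2 * (n - s)) = 2 * ((n - s) * n) := by ring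
      omega
    calc 8 * (s * g) * n.choose 2 ≤ s * t ^ 4 * ((n - s) * n) := Nat.mul_le_mul e1 h6
      _ = s * (n - s) * (n * t ^ 4) := by ring
      _ ≤ s * (n - s) * m := Nat.mul_le_mul_left _ hm
  have h := hHYP (n.choose 2) (s * (n - s)) m (s * g) 0 hP hmN e3 e4 e5 (Nat.zero_le _)
  rwa [Nat.sub_zero (s * g)] at h

theorem pow_bd {t : ℕ} (ht : 18 ≤ t) : 2 * t ^ 4 ≤ 2 ^ t := by
  induction t, ht using Nat.le_induction with
  | base => norm_num
  | succ t ht ih =>
    have h1 : (t + 1) ^ 4 ≤ 2 * t ^ 4 := by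
      have h2 : 18 * t ^ 3 ≤ t ^ 4 := by
        have : t ^ 4 = t * t ^ 3 := by ring
        rw [this]
        exact Nat.mul_le_mul_right _ ht
      have h3 : 18 * t ^ 2 ≤ t ^ 3 := by
        have : t ^ 3 = t * t ^ 2 := by ring
        rw [this]
        exact Nat.mul_le_mul_right _ ht
      have h4 : 18 * t ≤ t ^ 2 := by
        have : t ^ 2 = t * t := by ring
        rw [this]
        exact Nat.mul_le_mul_right _ ht
      have h5 : (t + 1) ^ 4 = t ^ 4 + 4 * t ^ 3 + 6 * t ^ 2 + 4 * t + 1 := by ring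
      rw [h5]
      omega
    calc 2 * (t + 1) ^ 4 ≤ 2 * (2 * t ^ 4) := Nat.mul_le_mul_left _ h1
      _ ≤ 2 * 2 ^ t := Nat.mul_le_mul_left _ ih
      _ = 2 ^ (t + 1) := by ring

theorem three {n t g : ℕ} (ht : 3 ≤ t) (hn : n < 2 ^ (t + 1)) (hg : g = t ^ 4 / 8) :
    3 * n ≤ 2 ^ g := by
  have h1 : 8 * (t + 3) ≤ t ^ 4 := by
    have h2 : 27 ≤ t ^ 3 := by
      calc 27 = 3 ^ 3 := by norm_num
        _ ≤ t ^ 3 := Nat.pow_le_pow_left ht 3
    have h3 : t ^ 4 = t * t ^ 3 := by ring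
    rw [h3]
    nlinarith
  have h4 : t + 3 ≤ g := by omega
  calc 3 * n ≤ 2 ^ 2 * 2 ^ (t + 1) := by
        have : (2 : ℕ) ^ 2 = 4 := by norm_num
        omega
    _ = 2 ^ (t + 3) := by rw [← pow_add]; congr 1; ring
    _ ≤ 2 ^ g := Nat.pow_le_pow_right (by norm_num) h4

theorem expo {n : ℕ} {x : ℝ} (hx : 0 ≤ x) (h : 3 * (n * x) ≤ 1) : (1 + x) ^ n ≤ 3 / 2 := by
  have h1 : (1 + x) ^ n ≤ Real.exp (n * x) := by
    rw [Real.exp_nat_mul]
    refine pow_le_pow_left₀ (by linarith) ?_ n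
    linarith [Real.add_one_le_exp x]
  refine h1.trans ?_
  have h2 : Real.exp (n * x) ≤ Real.exp (1 / 3) := Real.exp_le_exp.2 (by linarith)
  refine h2.trans ?_
  have h3 : Real.exp (1 / 3) ^ 3 ≤ (3 / 2 : ℝ) ^ 3 := by
    rw [← Real.exp_nat_mul]
    have h4 : ((3 : ℕ) : ℝ) * (1 / 3) = 1 := by norm_num
    rw [h4]
    have h5 := Real.exp_one_lt_d9
    norm_num at h5 ⊢
    linarith
  exact le_of_pow_le_pow_left₀ (by norm_num) (by norm_num) h3

theorem sum_all {n : ℕ} (x : ℝ) : ∑ S : Finset (Fin n), x ^ S.card = (1 + x) ^ n := by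
  have h := Finset.sum_pow_mul_eq_add_pow x 1 (univ : Finset (Fin n))
  rw [Finset.powerset_univ] at h
  simp only [one_pow, mul_one, Finset.card_univ, Fintype.card_fin] at h
  rw [h, add_comm]

end DISC_

open DISC_ in
/-- DISC -/
theorem p_DISC (hSPL : T_SPL) (hHYP : T_HYP) (hGMS : T_GMS) : T_DISC := by
  refine ⟨2 ^ 18, ?_⟩
  intro n m hn hm hmN
  set t := Nat.log 2 n with ht
  have hn0 : n ≠ 0 := by
    have : 0 < 2 ^ 18 := by norm_num
    omega
  have ht18 : 18 ≤ t := (Nat.le_log_iff_pow_le (by norm_num) hn0).2 hn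
  have hlow : 2 ^ t ≤ n := Nat.pow_log_le_self 2 hn0
  have hup : n < 2 ^ (t + 1) := Nat.lt_pow_succ_log_self (by norm_num) n
  have h2t : 2 * t ^ 4 ≤ n := (pow_bd ht18).trans hlow
  set g := t ^ 4 / 8 with hg
  have h8g : 8 * g ≤ t ^ 4 := Nat.mul_div_le _ _
  have h3n : 3 * n ≤ 2 ^ g := three (by omega) hup hg
  set B : ℝ := ((n.choose 2).choose m : ℝ) with hB
  have hB0 : 0 ≤ B := Nat.cast_nonneg _
  set x : ℝ := ((2 : ℝ) ^ g)⁻¹ with hx
  have h2g : (0 : ℝ) < 2 ^ g := by positivity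
  have hx0 : 0 ≤ x := by positivity
  have hnx : 3 * (n * x) ≤ 1 := by
    have h1 : ((3 * n : ℕ) : ℝ) ≤ ((2 ^ g : ℕ) : ℝ) := by exact_mod_cast h3n
    push_cast at h1
    rw [hx, ← mul_assoc, ← div_eq_mul_inv, div_le_one h2g]
    exact h1
  set I : Finset (Finset (Fin n)) :=
    (univ : Finset (Finset (Fin n))).filter (fun S => 1 ≤ S.card ∧ 2 * S.card ≤ n) with hI
  have hD : gm n m (fun G => ¬ G.Connected) ≤ ∑ S ∈ I,
      gm n m (fun G => (G.edgeSet ∩ (QS S : Set (Sym2 (Fin n)))).ncard = 0) :=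
    gm_bU I (fun S G => (G.edgeSet ∩ (QS S : Set (Sym2 (Fin n)))).ncard = 0)
      (fun G hG => exists_S (by omega) G hG)
  have hone : ∀ S ∈ I,
      (gm n m (fun G => (G.edgeSet ∩ (QS S : Set (Sym2 (Fin n)))).ncard = 0) : ℝ) ≤
        B * x ^ S.card := by
    intro S hS
    rw [hI, Finset.mem_filter] at hS
    have h1 := one_set hSPL hHYP h8g h2t hm hmN S hS.2.2
    have h2 : (gm n m (fun G => (G.edgeSet ∩ (QS S : Set (Sym2 (Fin n)))).ncard = 0) : ℝ) *
        (2 : ℝ) ^ (S.card * g) ≤ B := by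
      rw [hB]
      exact_mod_cast h1
    have h3 : x ^ S.card = ((2 : ℝ) ^ (S.card * g))⁻¹ := by
      rw [hx, inv_pow, ← pow_mul, mul_comm g]
    rw [h3, ← div_eq_mul_inv, le_div_iff₀ (by positivity)]
    exact h2
  have hsum : ∑ S ∈ I, x ^ S.card ≤ 1 / 2 := by
    have h1 : ∑ S ∈ I, x ^ S.card + 1 ≤ ∑ S : Finset (Fin n), x ^ S.card := by
      have h2 : (∅ : Finset (Fin n)) ∉ I := by
        rw [hI, Finset.mem_filter]
        rintro ⟨_, h, _⟩
        rw [Finset.card_empty] at h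
        omega
      have h3 : ∑ S ∈ insert ∅ I, x ^ S.card ≤ ∑ S : Finset (Fin n), x ^ S.card :=
        Finset.sum_le_sum_of_subset_of_nonneg (Finset.subset_univ _)
          fun S _ _ => pow_nonneg hx0 _
      rw [Finset.sum_insert h2, Finset.card_empty, pow_zero] at h3
      linarith
    rw [sum_all] at h1
    have h4 := expo hx0 hnx
    linarith
  have hDr : (gm n m (fun G => ¬ G.Connected) : ℝ) ≤ B / 2 := by
    have h1 : (gm n m (fun G => ¬ G.Connected) : ℝ) ≤ ∑ S ∈ I,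
        (gm n m (fun G => (G.edgeSet ∩ (QS S : Set (Sym2 (Fin n)))).ncard = 0) : ℝ) := by
      exact_mod_cast hD
    refine h1.trans ((Finset.sum_le_sum hone).trans ?_)
    rw [← Finset.mul_sum]
    calc B * ∑ S ∈ I, x ^ S.card ≤ B * (1 / 2) := mul_le_mul_of_nonneg_left hsum hB0
      _ = B / 2 := by ring
  have htot := total n m
  rw [gm_true hGMS] at htot
  have htr : B ≤ (ce n m : ℝ) + (gm n m (fun G => ¬ G.Connected) : ℝ) := by
    rw [hB]
    exact_mod_cast htot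
  have hfin : B ≤ 2 * (ce n m : ℝ) := by linarith
  rw [hB] at hfin
  exact_mod_cast hfin

end Pool.Agent.SPC
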