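import Pool.Agent.SPC.Targets3

set_option autoImplicit false

/-!
Project SPC, target EMB (helper66): weighted count of the embeddings of a connected set.
-/

namespace Pool.Agent.SPC

open Finset Classical Filter Topology
open Pool.Agent.Pend

namespace EMB_

open Pool.Agent.Lib.Recon

variable {V : Type} [Fintype V] [DecidableEq V]

/-- the weight of a vertex -/
noncomputable def cz (G : SimpleGraph V) (Δ : ℕ) (z : V) : ℝ :=
  ∏ v ∈ univ.filter (fun v => Δ < dg G v), if G.Adj v z then ((dg G v : ℝ))⁻¹ else 1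

omit [DecidableEq V] in
lemma fac_pos (G : SimpleGraph V) {Δ : ℕ} (z v : V) (h : Δ < dg G v) :
    (0 : ℝ) < if G.Adj v z then ((dg G v : ℝ))⁻¹ else 1 := by
  have h0 : (0 : ℝ) < dg G v := by exact_mod_cast (Nat.zero_le _).trans_lt h
  split_ifs
  · positivity
  · exact one_pos

omit [DecidableEq V] in
lemma fac_le (G : SimpleGraph V) {Δ : ℕ} (z v : V) (h : Δ < dg G v) :
    (if G.Adj v z then ((dg G v : ℝ))⁻¹ else 1) ≤ (1 : ℝ) := by
  have h0 : (1 : ℝ) ≤ dg G v := by exact_mod_cast Nat.one_le_iff_ne_zero.2 (by omega)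
  split_ifs
  · exact inv_le_one_of_one_le₀ h0
  · exact le_rfl

omit [DecidableEq V] in
lemma cz_pos (G : SimpleGraph V) {Δ : ℕ} (z : V) : 0 < cz G Δ z :=
  Finset.prod_pos fun v hv => fac_pos G z v (Finset.mem_filter.1 hv).2

omit [DecidableEq V] in
lemma cz_le_one (G : SimpleGraph V) {Δ : ℕ} (z : V) : cz G Δ z ≤ 1 :=
  Finset.prod_le_one (fun v hv => (fac_pos G z v (Finset.mem_filter.1 hv).2).le)
    fun v hv => fac_le G z v (Finset.mem_filter.1 hv).2

omit [DecidableEq V] in
lemma cz_le_inv (G : SimpleGraph V) {Δ : ℕ} (z p : V) (hp : Δ < dg G p) (hz : G.Adj p z) :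
    cz G Δ z ≤ ((dg G p : ℝ))⁻¹ := by
  have hmem : p ∈ univ.filter (fun v => Δ < dg G v) := Finset.mem_filter.2 ⟨mem_univ _, hp⟩
  have h0 : (0 : ℝ) < dg G p := by exact_mod_cast (Nat.zero_le _).trans_lt hp
  unfold cz
  rw [← Finset.mul_prod_erase _ _ hmem, if_pos hz]
  refine mul_le_of_le_one_right (by positivity) ?_
  exact Finset.prod_le_one
    (fun v hv => (fac_pos G z v (Finset.mem_filter.1 (Finset.mem_of_mem_erase hv)).2).le)
    fun v hv => fac_le G z v (Finset.mem_filter.1 (Finset.mem_of_mem_erase hv)).2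

omit [DecidableEq V] in
lemma sum_nb (G : SimpleGraph V) {Δ : ℕ} (hΔ : 1 ≤ Δ) (p : V) :
    ∑ z ∈ univ.filter (fun z => G.Adj p z), cz G Δ z ≤ Δ := by
  have hΔ' : (1 : ℝ) ≤ Δ := by exact_mod_cast hΔ
  by_cases hp : Δ < dg G p
  · have h0 : (0 : ℝ) < dg G p := by exact_mod_cast (Nat.zero_le _).trans_lt hp
    calc ∑ z ∈ univ.filter (fun z => G.Adj p z), cz G Δ z
        ≤ ∑ z ∈ univ.filter (fun z => G.Adj p z), ((dg G p : ℝ))⁻¹ :=
          Finset.sum_le_sum fun z hz => cz_le_inv G z p hp (Finset.mem_filter.1 hz).2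
      _ = (dg G p : ℝ) * ((dg G p : ℝ))⁻¹ := by
          rw [Finset.sum_const, nsmul_eq_mul]
          rfl
      _ = 1 := mul_inv_cancel₀ h0.ne'
      _ ≤ Δ := hΔ'
  · calc ∑ z ∈ univ.filter (fun z => G.Adj p z), cz G Δ z
        ≤ ∑ z ∈ univ.filter (fun z => G.Adj p z), (1 : ℝ) :=
          Finset.sum_le_sum fun z _ => cz_le_one G z
      _ = (dg G p : ℝ) := by
          rw [Finset.sum_const, nsmul_eq_mul, mul_one]
          rfl
      _ ≤ Δ := by exact_mod_cast not_lt.1 hp

omit [Fintype V] in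
lemma prod_ins (f : V → ℝ) {T : Finset V} {x : V} (hx : x ∉ T) (γ : ↥(insert x T) → V) :
    ∏ t, f (γ t) = f (γ ⟨x, mem_insert_self x T⟩) *
      ∏ t : ↥T, f (γ ⟨t.1, mem_insert_of_mem t.2⟩) := by
  set g : V → ℝ := fun z => if h : z ∈ insert x T then f (γ ⟨z, h⟩) else 1 with hg
  have h1 : ∏ t : ↥(insert x T), f (γ t) = ∏ z ∈ insert x T, g z := by
    rw [← Finset.prod_coe_sort (insert x T) g]
    refine Finset.prod_congr rfl fun t _ => ?_
    simp only [hg]
    rw [dif_pos t.2]
  have h2 : ∏ t : ↥T, f (γ ⟨t.1, mem_insert_of_mem t.2⟩) = ∏ z ∈ T, g z := by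
    rw [← Finset.prod_coe_sort T g]
    refine Finset.prod_congr rfl fun t _ => ?_
    simp only [hg]
    rw [dif_pos (mem_insert_of_mem t.2)]
  rw [h1, h2, Finset.prod_insert hx]
  congr 1
  simp only [hg]
  rw [dif_pos (mem_insert_self x T)]

lemma claim (G : SimpleGraph V) {Δ : ℕ} (hΔ : 1 ≤ Δ) {A : Finset V} (hA : Built G A) :
    ∑ γ ∈ Embs G A G, ∏ t, cz G Δ (γ t) ≤ (Fintype.card V : ℝ) * (Δ : ℝ) ^ (A.card - 1) := by
  induction hA with
  | single x =>
    have h1 : (Embs G {x} G).card ≤ Fintype.card (↥({x} : Finset V) → V) :=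
      Finset.card_le_univ _
    have h2 : Fintype.card (↥({x} : Finset V) → V) = Fintype.card V := by
      rw [Fintype.card_fun]
      simp
    have h3 : ((Embs G {x} G).card : ℝ) ≤ Fintype.card V := by exact_mod_cast h1.trans h2.le
    calc ∑ γ ∈ Embs G {x} G, ∏ t, cz G Δ (γ t) ≤ ∑ γ ∈ Embs G {x} G, (1 : ℝ) :=
          Finset.sum_le_sum fun γ _ =>
            Finset.prod_le_one (fun t _ => (cz_pos G _).le) fun t _ => cz_le_one G _
      _ = ((Embs G {x} G).card : ℝ) := by rw [Finset.sum_const, nsmul_eq_mul, mul_one]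
      _ ≤ Fintype.card V := h3
      _ = (Fintype.card V : ℝ) * (Δ : ℝ) ^ (({x} : Finset V).card - 1) := by simp
  | step T x y hT hy hadj ih =>
    by_cases hxT : x ∈ T
    · rw [Finset.insert_eq_of_mem hxT]
      exact ih
    · rw [Finset.card_insert_of_notMem hxT]
      have hTpos : 0 < T.card := Finset.card_pos.mpr (built_nonempty G hT)
      have hpow : (Δ : ℝ) ^ (T.card + 1 - 1) = (Δ : ℝ) ^ (T.card - 1) * Δ := by
        rw [← pow_succ]
        congr 1
        omega
      rw [hpow, ← mul_assoc]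
      let res : (↥(insert x T) → V) → (↥T → V) :=
        fun γ t => γ ⟨t.1, Finset.mem_insert_of_mem t.2⟩
      have hmaps : ∀ γ ∈ Embs G (insert x T) G, res γ ∈ Embs G T G := by
        intro γ hγ
        simp only [Embs, Finset.mem_filter, Finset.mem_univ, true_and] at hγ ⊢
        refine ⟨?_, ?_⟩
        · intro a b h
          have h2 := congrArg Subtype.val (hγ.1 h)
          exact Subtype.ext h2
        · intro a b
          exact hγ.2 ⟨a.1, Finset.mem_insert_of_mem a.2⟩ ⟨b.1, Finset.mem_insert_of_mem b.2⟩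
      have hfib : ∀ δ ∈ Embs G T G,
          ∑ γ ∈ (Embs G (insert x T) G).filter (fun γ => res γ = δ), ∏ t, cz G Δ (γ t) ≤
            (∏ t, cz G Δ (δ t)) * Δ := by
        intro δ _
        have hinj : Set.InjOn (fun γ : ↥(insert x T) → V => γ ⟨x, Finset.mem_insert_self x T⟩)
            ((Embs G (insert x T) G).filter (fun γ => res γ = δ) : Finset _) := by
          intro γ hγ γ' hγ' h
          have h1 := (Finset.mem_filter.mp (Finset.mem_coe.mp hγ)).2
          have h2 := (Finset.mem_filter.mp (Finset.mem_coe.mp hγ')).2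
          funext ⟨z, hz⟩
          rcases Finset.mem_insert.mp hz with hzx | hzT
          · subst hzx
            exact h
          · have h3 := congrFun (h1.trans h2.symm) ⟨z, hzT⟩
            exact h3
        have e1 : ∑ γ ∈ (Embs G (insert x T) G).filter (fun γ => res γ = δ),
            ∏ t, cz G Δ (γ t) = (∏ t, cz G Δ (δ t)) *
              ∑ γ ∈ (Embs G (insert x T) G).filter (fun γ => res γ = δ),
                cz G Δ (γ ⟨x, Finset.mem_insert_self x T⟩) := by
          rw [Finset.mul_sum]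
          refine Finset.sum_congr rfl fun γ hγ => ?_
          have h1 := (Finset.mem_filter.mp hγ).2
          rw [prod_ins (cz G Δ) hxT γ, mul_comm]
          congr 1
          rw [← h1]
        rw [e1]
        refine mul_le_mul_of_nonneg_left ?_ (Finset.prod_nonneg fun t _ => (cz_pos G _).le)
        rw [← Finset.sum_image (f := fun z => cz G Δ z)
          (g := fun γ : ↥(insert x T) → V => γ ⟨x, Finset.mem_insert_self x T⟩) hinj]
        refine le_trans (Finset.sum_le_sum_of_subset_of_nonneg ?_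
          fun z _ _ => (cz_pos G z).le) (sum_nb G hΔ (δ ⟨y, hy⟩))
        intro w hw
        obtain ⟨γ, hγ, rfl⟩ := Finset.mem_image.mp hw
        have hγ' := Finset.mem_filter.mp hγ
        have hγe := hγ'.1
        simp only [Embs, Finset.mem_filter, Finset.mem_univ, true_and] at hγe
        have h1 : δ ⟨y, hy⟩ = γ ⟨y, Finset.mem_insert_of_mem hy⟩ := by
          rw [← hγ'.2]
        rw [h1]
        exact Finset.mem_filter.2 ⟨mem_univ _,
          (hγe.2 ⟨y, Finset.mem_insert_of_mem hy⟩ ⟨x, Finset.mem_insert_self x T⟩).mp hadj⟩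
      calc ∑ γ ∈ Embs G (insert x T) G, ∏ t, cz G Δ (γ t)
          = ∑ δ ∈ Embs G T G, ∑ γ ∈ (Embs G (insert x T) G).filter (fun γ => res γ = δ),
              ∏ t, cz G Δ (γ t) := (Finset.sum_fiberwise_of_maps_to hmaps _).symm
        _ ≤ ∑ δ ∈ Embs G T G, (∏ t, cz G Δ (δ t)) * Δ := Finset.sum_le_sum hfib
        _ = (∑ δ ∈ Embs G T G, ∏ t, cz G Δ (δ t)) * Δ := (Finset.sum_mul _ _ _).symm
        _ ≤ _ := by gcongr

end EMB_

open EMB_ Pool.Agent.Lib.Recon in
theorem p_EMB : T_EMB := by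
  intro V _ _ G Δ hΔ A hA
  set P : ℝ := ∏ z, cz G Δ z with hPdef
  have hP : P * ∏ v ∈ univ.filter (fun v => Δ < dg G v), (dg G v : ℝ) ^ (dg G v) = 1 := by
    have h1 : P = ∏ v ∈ univ.filter (fun v => Δ < dg G v), (((dg G v : ℝ))⁻¹) ^ (dg G v) := by
      rw [hPdef]
      unfold cz
      rw [Finset.prod_comm]
      refine Finset.prod_congr rfl fun v _ => ?_
      rw [Finset.prod_ite, Finset.prod_const, Finset.prod_const_one, mul_one]
      rfl
    rw [h1, ← Finset.prod_mul_distrib]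
    refine Finset.prod_eq_one fun v hv => ?_
    have h0 : (0 : ℝ) < dg G v := by
      exact_mod_cast (Nat.zero_le _).trans_lt (Finset.mem_filter.1 hv).2
    rw [← mul_pow, inv_mul_cancel₀ h0.ne', one_pow]
  have hlow : ∀ γ ∈ Embs G A G, P ≤ ∏ t, cz G Δ (γ t) := by
    intro γ hγ
    simp only [Embs, Finset.mem_filter, Finset.mem_univ, true_and] at hγ
    have h1 : ∏ t, cz G Δ (γ t) = ∏ z ∈ univ.image γ, cz G Δ z :=
      (Finset.prod_image fun a _ b _ h => hγ.1 h).symm
    rw [h1, hPdef, ← Finset.prod_sdiff (Finset.subset_univ (univ.image γ))]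
    refine mul_le_of_le_one_left (Finset.prod_nonneg fun z _ => (cz_pos G z).le) ?_
    exact Finset.prod_le_one (fun z _ => (cz_pos G z).le) fun z _ => cz_le_one G z
  have h1 : ((Embs G A G).card : ℝ) * P ≤ ∑ γ ∈ Embs G A G, ∏ t, cz G Δ (γ t) := by
    rw [← nsmul_eq_mul]
    exact Finset.card_nsmul_le_sum _ _ _ hlow
  have h2 := h1.trans (claim G hΔ hA)
  calc ((Embs G A G).card : ℝ)
      = (Embs G A G).card *
          (P * ∏ v ∈ univ.filter (fun v => Δ < dg G v), (dg G v : ℝ) ^ (dg G v)) := by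
        rw [hP, mul_one]
    _ = (Embs G A G).card * P *
          ∏ v ∈ univ.filter (fun v => Δ < dg G v), (dg G v : ℝ) ^ (dg G v) := by ring
    _ ≤ _ := by gcongr

end Pool.Agent.SPC
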