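import Pool.Agent.SPC.Targets3

/-!
Project SPC, target GMS: graphs as sets of pairs.
-/

set_option autoImplicit false

namespace Pool.Agent.SPC

open Finset Classical Filter Topology
open Pool.Agent.Pend

namespace GMS_

lemma mem_prs {n : ℕ} (e : Sym2 (Fin n)) : e ∈ prs n ↔ ¬ e.IsDiag := by
  unfold prs
  rw [mem_filter]
  exact and_iff_right (mem_univ _)

lemma card_prs (n : ℕ) : (prs n).card = n.choose 2 := by
  have h1 := Sym2.card_subtype_not_diag (α := Fin n)
  rw [Fintype.card_fin] at h1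
  rw [← h1, Fintype.card_subtype]
  unfold prs
  congr 1

/-- the set of the edges -/
noncomputable def toS {n : ℕ} (G : SimpleGraph (Fin n)) : Finset (Sym2 (Fin n)) :=
  G.edgeSet.toFinset

lemma mem_toS {n : ℕ} (G : SimpleGraph (Fin n)) (e : Sym2 (Fin n)) :
    e ∈ toS G ↔ e ∈ G.edgeSet := by
  unfold toS
  exact Set.mem_toFinset

lemma toS_sub {n : ℕ} (G : SimpleGraph (Fin n)) : toS G ⊆ prs n := by
  intro e he
  unfold toS at he
  rw [Set.mem_toFinset] at he
  rw [mem_prs]
  exact G.not_isDiag_of_mem_edgeSet he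

lemma card_toS {n : ℕ} (G : SimpleGraph (Fin n)) : (toS G).card = G.edgeSet.ncard := by
  unfold toS
  rw [Set.ncard_eq_toFinset_card']

lemma from_toS {n : ℕ} (G : SimpleGraph (Fin n)) :
    SimpleGraph.fromEdgeSet (toS G : Set (Sym2 (Fin n))) = G := by
  unfold toS
  rw [Set.coe_toFinset]
  exact SimpleGraph.fromEdgeSet_edgeSet G

lemma toS_from {n : ℕ} (S : Finset (Sym2 (Fin n))) (hS : S ⊆ prs n) :
    toS (SimpleGraph.fromEdgeSet (S : Set (Sym2 (Fin n)))) = S := by
  ext e
  rw [mem_toS, SimpleGraph.edgeSet_fromEdgeSet]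
  constructor
  · intro h
    exact h.1
  · intro h
    refine ⟨h, ?_⟩
    have h1 := hS h
    rw [mem_prs] at h1
    exact h1

/-- The statement with finite sets of pairs. -/
lemma clean (n m : ℕ) (P : SimpleGraph (Fin n) → Prop) :
    gm n m P = (((prs n).powersetCard m).filter
      (fun S : Finset (Sym2 (Fin n)) =>
        P (SimpleGraph.fromEdgeSet (S : Set (Sym2 (Fin n)))))).card := by
  unfold gm
  refine Finset.card_bij' (fun G _ => toS G)
    (fun S _ => SimpleGraph.fromEdgeSet (S : Set (Sym2 (Fin n)))) ?_ ?_ ?_ ?_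
  · intro G hG
    rw [mem_filter] at hG
    rw [mem_filter, mem_powersetCard]
    refine ⟨⟨toS_sub G, ?_⟩, ?_⟩
    · rw [card_toS]
      exact hG.2.1
    · rw [from_toS]
      exact hG.2.2
  · intro S hS
    rw [mem_filter, mem_powersetCard] at hS
    rw [mem_filter]
    refine ⟨mem_univ _, ?_, hS.2⟩
    rw [← card_toS, toS_from S hS.1.1]
    exact hS.1.2
  · intro G _
    exact from_toS G
  · intro S hS
    rw [mem_filter, mem_powersetCard] at hS
    exact toS_from S hS.1.1

end GMS_

theorem p_GMS : T_GMS := by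
  intro n m P
  exact ⟨GMS_.clean n m P, GMS_.card_prs n⟩

end Pool.Agent.SPC
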