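import Pool.Agent.SPC.Targets3

/-!
# SPC, block HIA (helper29)
-/

set_option autoImplicit false

namespace Pool.Agent.SPC

open Finset Classical Filter Topology
open Pool.Agent.Pend

namespace HIA_

/-- logarithm of the degree -/
noncomputable def lv {n : ℕ} (G : SimpleGraph (Fin n)) (v : Fin n) : ℝ :=
  Real.logb 2 (dg G v : ℝ)

/-- the order of the vertices by the degrees -/
def bel {n : ℕ} (G : SimpleGraph (Fin n)) (x v : Fin n) : Prop :=
  dg G x < dg G v ∨ (dg G x = dg G v ∧ x < v)

/-- the first orientation -/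
noncomputable def F0 {n : ℕ} (G : SimpleGraph (Fin n)) (Δ : ℕ) (v : Fin n) : Finset (Fin n) :=
  univ.filter (fun x => Δ < dg G v ∧ G.Adj v x ∧ (¬ Δ < dg G x ∨ bel G x v))

/-- the second orientation -/
noncomputable def F1 {n : ℕ} (G : SimpleGraph (Fin n)) (Δ : ℕ) (v : Fin n) : Finset (Fin n) :=
  if dg G v ≤ 8 * (F0 G Δ v).card then F0 G Δ v else ∅

theorem lv_nonneg {n : ℕ} (G : SimpleGraph (Fin n)) (v : Fin n) : 0 ≤ lv G v := by
  unfold lv
  rcases Nat.eq_zero_or_pos (dg G v) with h | h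
  · rw [h]; simp
  · exact Real.logb_nonneg (by norm_num) (by exact_mod_cast h)

theorem mem_F1 {n : ℕ} (G : SimpleGraph (Fin n)) (Δ : ℕ) (v x : Fin n) (h : x ∈ F1 G Δ v) :
    x ∈ F0 G Δ v := by
  unfold F1 at h
  split_ifs at h with h1
  · exact h
  · simp at h

theorem WW_eq {n : ℕ} (G : SimpleGraph (Fin n)) (Δ : ℕ) :
    WW Δ G = ∑ v, ∑ x, (if Δ < dg G v ∧ G.Adj v x then lv G v else 0) := by
  unfold WW
  rw [sum_filter]
  refine sum_congr rfl fun v _ => ?_
  by_cases hv : Δ < dg G v
  · simp only [hv, true_and, if_true]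
    rw [← sum_filter, sum_const, nsmul_eq_mul]
    rfl
  · simp [hv]

theorem sum_F0 {n : ℕ} (G : SimpleGraph (Fin n)) (Δ : ℕ) (v : Fin n) :
    ∑ x, (if x ∈ F0 G Δ v then lv G v else 0) = ((F0 G Δ v).card : ℝ) * lv G v := by
  rw [← sum_filter, sum_const, nsmul_eq_mul]
  congr 2
  congr 1
  ext x
  simp

theorem point {n : ℕ} (G : SimpleGraph (Fin n)) (Δ : ℕ) (v x : Fin n) :
    (if Δ < dg G v ∧ G.Adj v x then lv G v else 0) ≤
      (if x ∈ F0 G Δ v then lv G v else 0) + (if v ∈ F0 G Δ x then lv G x else 0) := by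
  have h1 := lv_nonneg G v
  have h2 := lv_nonneg G x
  by_cases h : Δ < dg G v ∧ G.Adj v x
  · rw [if_pos h]
    by_cases hx : x ∈ F0 G Δ v
    · rw [if_pos hx]
      have : 0 ≤ (if v ∈ F0 G Δ x then lv G x else 0) := by split_ifs <;> linarith
      linarith
    · have hx' : Δ < dg G x ∧ ¬ bel G x v := by
        by_contra hc
        apply hx
        unfold F0
        rw [mem_filter]
        refine ⟨mem_univ _, h.1, h.2, ?_⟩
        by_cases hy : Δ < dg G x
        · exact Or.inr (not_not.1 fun hz => hc ⟨hy, hz⟩)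
        · exact Or.inl hy
      have hne : v ≠ x := G.ne_of_adj h.2
      have hb : bel G v x := by
        have h3 := hx'.2
        unfold bel at h3 ⊢
        push Not at h3
        rcases lt_or_eq_of_le h3.1 with h4 | h4
        · exact Or.inl h4
        · refine Or.inr ⟨h4, lt_of_le_of_ne (h3.2 h4.symm) hne⟩
      have hv : v ∈ F0 G Δ x := by
        unfold F0
        rw [mem_filter]
        exact ⟨mem_univ _, hx'.1, h.2.symm, Or.inr hb⟩
      rw [if_pos hv, if_neg hx, zero_add]
      unfold lv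
      have h5 : dg G v ≤ dg G x := by
        rcases hb with h6 | h6
        · exact h6.le
        · exact h6.1.le
      have h7 : (0 : ℝ) < dg G v := by
        exact_mod_cast lt_of_le_of_lt (Nat.zero_le _) h.1
      exact Real.logb_le_logb_of_le (by norm_num) h7 (by exact_mod_cast h5)
  · rw [if_neg h]
    have h3 : 0 ≤ (if x ∈ F0 G Δ v then lv G v else 0) := by split_ifs <;> linarith
    have h4 : 0 ≤ (if v ∈ F0 G Δ x then lv G x else 0) := by split_ifs <;> linarith
    linarith

theorem WW_le {n : ℕ} (G : SimpleGraph (Fin n)) (Δ : ℕ) :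
    WW Δ G ≤ 2 * ∑ v, ((F0 G Δ v).card : ℝ) * lv G v := by
  rw [WW_eq]
  calc _ ≤ ∑ v, ∑ x, ((if x ∈ F0 G Δ v then lv G v else 0) +
        (if v ∈ F0 G Δ x then lv G x else 0)) :=
        sum_le_sum fun v _ => sum_le_sum fun x _ => point G Δ v x
    _ = (∑ v, ∑ x, (if x ∈ F0 G Δ v then lv G v else 0)) +
        ∑ v, ∑ x, (if v ∈ F0 G Δ x then lv G x else 0) := by
        rw [← sum_add_distrib]
        exact sum_congr rfl fun v _ => sum_add_distrib
    _ = _ := by
        rw [sum_comm (f := fun v x => (if v ∈ F0 G Δ x then lv G x else 0))]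
        simp_rw [sum_F0]
        ring

theorem F0_le {n : ℕ} (G : SimpleGraph (Fin n)) (Δ : ℕ) (v : Fin n) :
    ((F0 G Δ v).card : ℝ) * lv G v ≤ ((F1 G Δ v).card : ℝ) * lv G v +
      (if Δ < dg G v then (dg G v : ℝ) * lv G v else 0) / 8 := by
  have h1 := lv_nonneg G v
  by_cases h : dg G v ≤ 8 * (F0 G Δ v).card
  · have h2 : F1 G Δ v = F0 G Δ v := by unfold F1; rw [if_pos h]
    rw [h2]
    have : 0 ≤ (if Δ < dg G v then (dg G v : ℝ) * lv G v else 0) := by
      split_ifs
      · positivity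
      · exact le_rfl
    linarith
  · have h2 : F1 G Δ v = ∅ := by unfold F1; rw [if_neg h]
    rw [h2]
    by_cases hv : Δ < dg G v
    · rw [if_pos hv]
      have h3 : (8 : ℝ) * (F0 G Δ v).card ≤ dg G v := by
        exact_mod_cast (not_le.1 h).le
      have h4 := mul_le_mul_of_nonneg_right h3 h1
      simp only [card_empty, Nat.cast_zero, zero_mul, zero_add]
      linarith
    · have h5 : F0 G Δ v = ∅ := by
        unfold F0
        rw [filter_eq_empty_iff]
        rintro x - ⟨h6, -⟩
        exact hv h6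
      rw [h5, if_neg hv]
      simp

theorem last {n : ℕ} (G : SimpleGraph (Fin n)) (Δ : ℕ) (hΔ : 64 ≤ Δ) (v : Fin n) :
    ((F1 G Δ v).card : ℝ) * lv G v ≤
      2 * (((F1 G Δ v).card : ℝ) * Real.logb 2 ((F1 G Δ v).card : ℝ)) := by
  by_cases h : F1 G Δ v = ∅
  · rw [h]; simp
  · obtain ⟨x, hx⟩ := nonempty_iff_ne_empty.2 h
    have h0 := mem_F1 G Δ v x hx
    unfold F0 at h0
    rw [mem_filter] at h0
    have h1 : Δ < dg G v := h0.2.1
    have h2 : dg G v ≤ 8 * (F1 G Δ v).card := by
      unfold F1 at h ⊢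
      split_ifs at h ⊢ with h3
      · exact h3
      · exact absurd rfl h
    have h4 : (0 : ℝ) < (F1 G Δ v).card := by
      exact_mod_cast card_pos.2 ⟨x, hx⟩
    have h5 : (dg G v : ℝ) ≤ 8 * (F1 G Δ v).card := by exact_mod_cast h2
    have h6 : (64 : ℝ) ≤ dg G v := by exact_mod_cast hΔ.trans h1.le
    have h7 : (6 : ℝ) ≤ lv G v := by
      unfold lv
      rw [Real.le_logb_iff_rpow_le (by norm_num) (by linarith)]
      norm_num
      exact_mod_cast h6
    have h8 : lv G v ≤ 3 + Real.logb 2 ((F1 G Δ v).card : ℝ) := by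
      have h9 : Real.logb 2 (8 * ((F1 G Δ v).card : ℝ)) =
          3 + Real.logb 2 ((F1 G Δ v).card : ℝ) := by
        rw [Real.logb_mul (by norm_num) h4.ne']
        congr 1
        rw [show (8 : ℝ) = 2 ^ (3 : ℝ) by norm_num]
        exact Real.logb_rpow (by norm_num) (by norm_num)
      rw [← h9]
      exact Real.logb_le_logb_of_le (by norm_num) (by linarith) h5
    nlinarith

end HIA_

open HIA_ in
theorem p_HIA : T_HIA := by
  intro n G Δ hΔ
  refine ⟨F1 G Δ, ?_, ?_, ?_⟩
  · intro v x hx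
    have h := mem_F1 G Δ v x hx
    unfold F0 at h
    rw [mem_filter] at h
    refine ⟨h.2.2.1, fun hv => ?_⟩
    have h' := mem_F1 G Δ x v hv
    unfold F0 at h'
    rw [mem_filter] at h'
    have h1 := h.2.2.2
    have h2 := h'.2.2.2
    have h3 : bel G x v := by
      rcases h1 with h4 | h4
      · exact absurd h'.2.1 h4
      · exact h4
    have h5 : bel G v x := by
      rcases h2 with h4 | h4
      · exact absurd h.2.1 h4
      · exact h4
    unfold bel at h3 h5
    rcases h3 with h6 | h6 <;> rcases h5 with h7 | h7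
    · omega
    · omega
    · omega
    · exact absurd h6.2 (not_lt.2 h7.2.le)
  · intro v
    by_cases h : F1 G Δ v = ∅
    · exact Or.inl h
    · right
      obtain ⟨x, hx⟩ := nonempty_iff_ne_empty.2 h
      have h0 := mem_F1 G Δ v x hx
      unfold F0 at h0
      rw [mem_filter] at h0
      have h1 : Δ < dg G v := h0.2.1
      unfold F1 at h ⊢
      split_ifs at h ⊢ with h3
      · omega
      · exact absurd rfl h
  · have h1 := WW_le G Δ
    have h2 : ∑ v, ((F0 G Δ v).card : ℝ) * lv G v ≤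
        ∑ v, ((F1 G Δ v).card : ℝ) * lv G v + WW Δ G / 8 := by
      have h3 : WW Δ G / 8 =
          ∑ v, (if Δ < dg G v then (dg G v : ℝ) * lv G v else 0) / 8 := by
        unfold WW
        rw [sum_filter, sum_div]
        rfl
      rw [h3, ← sum_add_distrib]
      exact sum_le_sum fun v _ => F0_le G Δ v
    have h4 : ∑ v, ((F1 G Δ v).card : ℝ) * lv G v ≤
        2 * ∑ v, ((F1 G Δ v).card : ℝ) * Real.logb 2 ((F1 G Δ v).card : ℝ) := by
      rw [mul_sum]
      exact sum_le_sum fun v _ => last G Δ hΔ v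
    linarith

end Pool.Agent.SPC
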