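import Pool.Agent.SPC.Targets3

/-!
SPC, block HIG: high degrees are rare.
-/

set_option autoImplicit false

namespace Pool.Agent.SPC

open Finset Classical Filter Topology
open Pool.Agent.Pend

/-- the pairs chosen by `F` -/
noncomputable def HIG_E {n : ℕ} (F : Fin n → Finset (Fin n)) : Finset (Sym2 (Fin n)) :=
  (univ : Finset (Fin n)).biUnion (fun v => (F v).image (fun x => s(v, x)))

lemma HIG_card {n : ℕ} (F : Fin n → Finset (Fin n)) (hc : ∀ v, ∀ x ∈ F v, v ∉ F x) :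
    (HIG_E F).card = ∑ v, (F v).card := by
  unfold HIG_E
  rw [Finset.card_biUnion]
  · refine Finset.sum_congr rfl (fun v _ => ?_)
    rw [Finset.card_image_of_injOn]
    intro x hx y hy hxy
    simp only [Sym2.eq_iff] at hxy
    rcases hxy with ⟨_, h⟩ | ⟨h1, h2⟩
    · exact h
    · exact h2.trans h1
  · intro v _ w _ hvw
    rw [Function.onFun, Finset.disjoint_left]
    intro e he hf
    simp only [Finset.mem_image] at he hf
    obtain ⟨x, hx, rfl⟩ := he
    obtain ⟨y, hy, hxy⟩ := hf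
    rw [Sym2.eq_iff] at hxy
    rcases hxy with ⟨h, _⟩ | ⟨h1, h2⟩
    · exact hvw h.symm
    · subst h1 h2
      exact hc _ _ hx hy

lemma HIG_prs {n : ℕ} (F : Fin n → Finset (Fin n)) (hc : ∀ v, ∀ x ∈ F v, v ∉ F x) :
    HIG_E F ⊆ prs n := by
  intro e he
  simp only [HIG_E, Finset.mem_biUnion, Finset.mem_univ, true_and, Finset.mem_image] at he
  obtain ⟨v, x, hx, rfl⟩ := he
  simp only [prs, Finset.mem_filter, Finset.mem_univ, true_and, Sym2.mk_isDiag_iff]
  rintro rfl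
  exact hc _ _ hx hx

lemma HIG_gm (hCNT : T_CNT) {n m : ℕ} (hN : 0 < n.choose 2) (F : Fin n → Finset (Fin n))
    (hc : ∀ v, ∀ x ∈ F v, v ∉ F x) :
    (gm n m (fun G => (HIG_E F : Set (Sym2 (Fin n))) ⊆ G.edgeSet) : ℝ) ≤
      ((n.choose 2).choose m : ℝ) * ∏ v, ((m : ℝ) / (n.choose 2 : ℕ)) ^ (F v).card := by
  have h := hCNT n m (HIG_E F) (HIG_prs F hc)
  rw [HIG_card F hc] at h
  rw [Finset.prod_pow_eq_pow_sum, div_pow, ← mul_div_assoc, le_div_iff₀ (by positivity)]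
  exact_mod_cast h

lemma HIG_term {n m Δ h : ℕ} (hn : 2 ≤ n) (hΔ : 1000 * (2 * m) ^ 2 ≤ Δ * (n - 1) ^ 2)
    (hh : Δ < 8 * h) :
    (n.choose h : ℝ) * ((m : ℝ) / (n.choose 2 : ℕ) * Real.sqrt h) ^ h ≤ (1 / 4) ^ h := by
  have hh0 : 0 < h := by omega
  have hhR : (0 : ℝ) < h := by exact_mod_cast hh0
  obtain ⟨k, rfl⟩ : ∃ k, n = k + 1 := ⟨n - 1, by omega⟩
  have hk : 1 ≤ k := by omega
  have hkR : (1 : ℝ) ≤ k := by exact_mod_cast hk
  have hN : (((k + 1).choose 2 : ℕ) : ℝ) = ((k : ℝ) + 1) * k / 2 := by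
    rw [Nat.cast_choose_two]
    push_cast
    ring
  have h1 : (((k + 1).choose h : ℕ) : ℝ) ≤ ((k : ℝ) + 1) ^ h / (h.factorial : ℝ) := by
    have := Nat.choose_le_pow_div (α := ℝ) h (k + 1)
    push_cast at this
    exact this
  have h2 : (h : ℝ) ^ h / (h.factorial : ℝ) ≤ Real.exp h :=
    Real.pow_div_factorial_le_exp (h : ℝ) (by positivity) h
  have hfac : (0 : ℝ) < h.factorial := by exact_mod_cast Nat.factorial_pos h
  have h3 : ((k : ℝ) + 1) ^ h / (h.factorial : ℝ) ≤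
      (Real.exp 1 * ((k : ℝ) + 1) / h) ^ h := by
    rw [div_pow, mul_pow, ← Real.exp_nat_mul, mul_one]
    rw [div_le_iff₀ hfac] at h2 ⊢
    rw [div_mul_eq_mul_div, le_div_iff₀ (by positivity)]
    nlinarith [mul_le_mul_of_nonneg_left h2 (by positivity : (0:ℝ) ≤ ((k : ℝ) + 1) ^ h)]
  have h4 : (0 : ℝ) ≤ (m : ℝ) / (((k + 1).choose 2 : ℕ) : ℝ) * Real.sqrt h := by positivity
  calc (((k + 1).choose h : ℕ) : ℝ) * ((m : ℝ) / (((k + 1).choose 2 : ℕ) : ℝ) * Real.sqrt h) ^ h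
      ≤ (Real.exp 1 * ((k : ℝ) + 1) / h) ^ h *
        ((m : ℝ) / (((k + 1).choose 2 : ℕ) : ℝ) * Real.sqrt h) ^ h :=
        mul_le_mul_of_nonneg_right (h1.trans h3) (by positivity)
    _ = (Real.exp 1 * ((k : ℝ) + 1) / h *
        ((m : ℝ) / (((k + 1).choose 2 : ℕ) : ℝ) * Real.sqrt h)) ^ h := (mul_pow _ _ _).symm
    _ ≤ (1 / 4) ^ h := by
        apply pow_le_pow_left₀ (by positivity)
        have hs : Real.sqrt h * Real.sqrt h = h := Real.mul_self_sqrt hhR.le
        have hs0 : 0 < Real.sqrt h := Real.sqrt_pos.mpr hhR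
        have e1 : Real.exp 1 * ((k : ℝ) + 1) / h *
            ((m : ℝ) / (((k + 1).choose 2 : ℕ) : ℝ) * Real.sqrt h) =
            Real.exp 1 * (2 * m / k) / Real.sqrt h := by
          rw [hN]
          field_simp
          nlinarith [hs]
        rw [e1, div_le_iff₀ hs0]
        have hΔR : 1000 * (2 * (m : ℝ)) ^ 2 ≤ Δ * (k : ℝ) ^ 2 := by
          have : 1000 * (2 * m) ^ 2 ≤ Δ * k ^ 2 := by simpa using hΔ
          exact_mod_cast this
        have hhΔ : (Δ : ℝ) < 8 * h := by exact_mod_cast hh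
        have hμ : 1000 * (2 * (m : ℝ) / k) ^ 2 ≤ 8 * h := by
          rw [div_pow, ← mul_div_assoc, div_le_iff₀ (by positivity)]
          nlinarith [mul_le_mul_of_nonneg_right hhΔ.le (by positivity : (0:ℝ) ≤ (k : ℝ) ^ 2)]
        have he : Real.exp 1 < 2.7182818286 := Real.exp_one_lt_d9
        have he0 : 0 < Real.exp 1 := Real.exp_pos 1
        apply le_of_sq_le_sq _ (by positivity)
        have hμ0 : (0 : ℝ) ≤ 2 * (m : ℝ) / k := by positivity
        have e2 : (Real.exp 1) ^ 2 ≤ 7.4 := by nlinarith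
        have e3 : (1 / 4 * Real.sqrt h) ^ 2 = 1 / 16 * h := by
          rw [mul_pow, Real.sq_sqrt hhR.le]; norm_num
        rw [e3, mul_pow]
        have e4 : (Real.exp 1) ^ 2 * (2 * (m : ℝ) / k) ^ 2 ≤ 7.4 * (2 * (m : ℝ) / k) ^ 2 :=
          mul_le_mul_of_nonneg_right e2 (by positivity)
        nlinarith

lemma HIG_tail (n Δ m : ℕ) (hn : 2 ≤ n) (h64 : 64 ≤ Δ)
    (hΔ : 1000 * (2 * m) ^ 2 ≤ Δ * (n - 1) ^ 2) :
    ∑ S ∈ (univ : Finset (Finset (Fin n))).filter (fun S => S = ∅ ∨ Δ < 8 * S.card),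
      ((m : ℝ) / (n.choose 2 : ℕ) * Real.sqrt (S.card : ℝ)) ^ S.card ≤ 1 + 1 / 196608 := by
  set G : ℕ → ℝ := fun h => ((m : ℝ) / (n.choose 2 : ℕ) * Real.sqrt (h : ℝ)) ^ h with hG
  have hG0 : ∀ h, 0 ≤ G h := fun h => by simp only [hG]; positivity
  have s1 : ∑ S ∈ (univ : Finset (Finset (Fin n))).filter (fun S => S = ∅ ∨ Δ < 8 * S.card),
      G S.card = ∑ S ∈ (univ : Finset (Fin n)).powerset,
        (if S.card = 0 ∨ Δ < 8 * S.card then G S.card else 0) := by
    rw [Finset.sum_filter, Finset.powerset_univ]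
    refine Finset.sum_congr rfl (fun S _ => ?_)
    simp only [Finset.card_eq_zero]
  have s2 := Finset.sum_powerset_apply_card
    (fun h => if h = 0 ∨ Δ < 8 * h then G h else 0) (x := (univ : Finset (Fin n)))
  simp only [Finset.card_univ, Fintype.card_fin] at s2
  change ∑ S ∈ (univ : Finset (Finset (Fin n))).filter (fun S => S = ∅ ∨ Δ < 8 * S.card),
      G S.card ≤ _
  rw [s1, s2, Finset.sum_range_succ']
  have hz : n.choose 0 • (if (0 : ℕ) = 0 ∨ Δ < 8 * 0 then G 0 else 0) = 1 := by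
    simp [hG]
  rw [hz, add_comm]
  have hterm : ∀ k ∈ range n, n.choose (k + 1) •
      (if k + 1 = 0 ∨ Δ < 8 * (k + 1) then G (k + 1) else 0) ≤
      if 8 ≤ k then ((1 : ℝ) / 4) ^ (k + 1) else 0 := by
    intro k _
    by_cases hk : Δ < 8 * (k + 1)
    · have hk8 : 8 ≤ k := by omega
      simp only [hk, or_true, if_true, hk8, nsmul_eq_mul]
      exact HIG_term hn hΔ hk
    · simp only [hk, Nat.succ_ne_zero, or_self, if_false, smul_zero]
      split_ifs <;> positivity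
  have h5 : ∑ k ∈ range n, (if 8 ≤ k then ((1 : ℝ) / 4) ^ (k + 1) else 0) ≤ 1 / 196608 := by
    have h6 : ∀ j : ℕ, ∑ k ∈ range j, (if 8 ≤ k then ((1 : ℝ) / 4) ^ (k + 1) else 0) ≤
        1 / 196608 - (if 8 ≤ j then 4 / 3 * ((1 : ℝ) / 4) ^ (j + 1) else 1 / 196608) := by
      intro j
      induction j with
      | zero => simp
      | succ j ih =>
        rw [Finset.sum_range_succ]
        by_cases hj : 8 ≤ j
        · have hj' : 8 ≤ j + 1 := by omega
          simp only [hj, hj', if_true] at ih ⊢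
          have : ((1 : ℝ) / 4) ^ (j + 1 + 1) = ((1 : ℝ) / 4) ^ (j + 1) / 4 := by
            rw [pow_succ]; ring
          rw [this]
          linarith
        · by_cases hj2 : 8 ≤ j + 1
          · have : j = 7 := by omega
            subst this
            norm_num at ih ⊢
            linarith
          · simp only [hj, hj2, if_false] at ih ⊢
            linarith
    refine (h6 n).trans ?_
    split_ifs
    · have : (0 : ℝ) < 4 / 3 * ((1 : ℝ) / 4) ^ (n + 1) := by positivity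
      linarith
    · linarith [(by norm_num : (0 : ℝ) ≤ 1 / 196608)]
  linarith [Finset.sum_le_sum hterm]

lemma HIG_two (h : ℕ) :
    (2 : ℝ) ^ (1 / 2 * ((h : ℝ) * Real.logb 2 (h : ℝ))) = Real.sqrt (h : ℝ) ^ h := by
  rcases Nat.eq_zero_or_pos h with rfl | hh
  · simp
  · have hhR : (0 : ℝ) < h := by exact_mod_cast hh
    have e : (1 : ℝ) / 2 * ((h : ℝ) * Real.logb 2 (h : ℝ)) =
        Real.logb 2 (h : ℝ) * (1 / 2) * (h : ℝ) := by ring
    rw [e, Real.rpow_mul (by norm_num), Real.rpow_mul (by norm_num),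
      Real.rpow_logb (by norm_num) (by norm_num) hhR, Real.rpow_natCast, Real.sqrt_eq_rpow]

theorem p_HIG (hCNT : T_CNT) (hHIA : T_HIA) : T_HIG := by
  intro n m Δ hn h64 hΔ
  have hN : 0 < n.choose 2 := Nat.choose_pos hn
  have hNR : (0 : ℝ) < (n.choose 2 : ℕ) := by exact_mod_cast hN
  set C : ℝ := ((n.choose 2).choose m : ℝ) with hC
  have hC0 : 0 ≤ C := by positivity
  set q : ℝ := (m : ℝ) / (n.choose 2 : ℕ) with hq
  have hq0 : 0 ≤ q := by positivity
  set FF : Finset (Fin n → Finset (Fin n)) := univ.filter (fun F =>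
    (∀ v, ∀ x ∈ F v, v ∉ F x) ∧ (∀ v, F v = ∅ ∨ Δ < 8 * (F v).card) ∧
      3 * (n : ℝ) / 1024 ≤ ∑ v, ((F v).card : ℝ) * Real.logb 2 ((F v).card : ℝ)) with hFF
  have step1 : gm n m (fun G => (n : ℝ) / 64 < WW Δ G) ≤
      ∑ F ∈ FF, gm n m (fun G => (HIG_E F : Set (Sym2 (Fin n))) ⊆ G.edgeSet) := by
    unfold gm
    refine le_trans (Finset.card_le_card ?_) Finset.card_biUnion_le
    intro G hG
    simp only [Finset.mem_filter, Finset.mem_univ, true_and] at hG
    obtain ⟨hm, hW⟩ := hG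
    obtain ⟨F, h1, h2, h3⟩ := hHIA n G Δ h64
    simp only [Finset.mem_biUnion, Finset.mem_filter, Finset.mem_univ, true_and]
    refine ⟨F, ?_, hm, ?_⟩
    · simp only [hFF, Finset.mem_filter, Finset.mem_univ, true_and]
      refine ⟨fun v x hx => (h1 v x hx).2, h2, ?_⟩
      linarith
    · intro e he
      simp only [HIG_E, Finset.coe_biUnion, Finset.coe_image, Set.mem_iUnion, Set.mem_image,
        Finset.mem_coe, Finset.mem_univ] at he
      obtain ⟨v, _, x, hx, rfl⟩ := he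
      exact (h1 v x hx).1
  have step2 : ∀ F ∈ FF, (gm n m (fun G => (HIG_E F : Set (Sym2 (Fin n))) ⊆ G.edgeSet) : ℝ) ≤
      C * (2 : ℝ) ^ (-(3 * (n : ℝ) / 2048)) *
        ∏ v, (q * Real.sqrt ((F v).card : ℝ)) ^ (F v).card := by
    intro F hF
    simp only [hFF, Finset.mem_filter, Finset.mem_univ, true_and] at hF
    obtain ⟨h1, h2, h3⟩ := hF
    refine (HIG_gm hCNT hN F h1).trans ?_
    rw [mul_assoc]
    refine mul_le_mul_of_nonneg_left ?_ hC0
    have e1 : ∏ v, (q * Real.sqrt ((F v).card : ℝ)) ^ (F v).card =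
        (∏ v, q ^ (F v).card) *
          (2 : ℝ) ^ (1 / 2 * ∑ v, ((F v).card : ℝ) * Real.logb 2 ((F v).card : ℝ)) := by
      rw [Finset.mul_sum, Real.rpow_sum_of_pos (by norm_num), ← Finset.prod_mul_distrib]
      refine Finset.prod_congr rfl (fun v _ => ?_)
      rw [HIG_two, mul_pow]
    rw [e1]
    have e2 : (1 : ℝ) ≤ (2 : ℝ) ^ (-(3 * (n : ℝ) / 2048)) *
        (2 : ℝ) ^ (1 / 2 * ∑ v, ((F v).card : ℝ) * Real.logb 2 ((F v).card : ℝ)) := by
      rw [← Real.rpow_add (by norm_num)]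
      exact Real.one_le_rpow (by norm_num) (by linarith)
    have e3 : 0 ≤ ∏ v, q ^ (F v).card := Finset.prod_nonneg (fun v _ => by positivity)
    calc ∏ v, q ^ (F v).card = (∏ v, q ^ (F v).card) * 1 := (mul_one _).symm
      _ ≤ (∏ v, q ^ (F v).card) * ((2 : ℝ) ^ (-(3 * (n : ℝ) / 2048)) *
          (2 : ℝ) ^ (1 / 2 * ∑ v, ((F v).card : ℝ) * Real.logb 2 ((F v).card : ℝ))) :=
          mul_le_mul_of_nonneg_left e2 e3
      _ = _ := by ring
  have step3 : ∑ F ∈ FF, ∏ v, (q * Real.sqrt ((F v).card : ℝ)) ^ (F v).card ≤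
      (∑ S ∈ (univ : Finset (Finset (Fin n))).filter (fun S => S = ∅ ∨ Δ < 8 * S.card),
        (q * Real.sqrt (S.card : ℝ)) ^ S.card) ^ n := by
    have e1 : (∑ S ∈ (univ : Finset (Finset (Fin n))).filter
        (fun S => S = ∅ ∨ Δ < 8 * S.card), (q * Real.sqrt (S.card : ℝ)) ^ S.card) ^ n =
        ∑ F ∈ Fintype.piFinset (fun _ : Fin n => (univ : Finset (Finset (Fin n))).filter
          (fun S => S = ∅ ∨ Δ < 8 * S.card)),
          ∏ v, (q * Real.sqrt ((F v).card : ℝ)) ^ (F v).card := by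
      have e0 := Finset.prod_univ_sum (fun _ : Fin n => (univ : Finset (Finset (Fin n))).filter
          (fun S => S = ∅ ∨ Δ < 8 * S.card))
          (fun (_ : Fin n) (S : Finset (Fin n)) => (q * Real.sqrt (S.card : ℝ)) ^ S.card)
      rw [← e0]
      simp
    rw [e1]
    refine Finset.sum_le_sum_of_subset_of_nonneg ?_ ?_
    · intro F hF
      simp only [hFF, Finset.mem_filter, Finset.mem_univ, true_and] at hF
      simp only [Fintype.mem_piFinset, Finset.mem_filter, Finset.mem_univ, true_and]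
      exact hF.2.1
    · intro F _ _
      exact Finset.prod_nonneg (fun v _ => by positivity)
  have step4 : (gm n m (fun G => (n : ℝ) / 64 < WW Δ G) : ℝ) ≤
      C * (2 : ℝ) ^ (-(3 * (n : ℝ) / 2048)) * (1 + 1 / 196608) ^ n := by
    calc (gm n m (fun G => (n : ℝ) / 64 < WW Δ G) : ℝ)
        ≤ ((∑ F ∈ FF, gm n m (fun G => (HIG_E F : Set (Sym2 (Fin n))) ⊆ G.edgeSet) : ℕ) : ℝ) :=
          by exact_mod_cast step1
      _ = ∑ F ∈ FF, (gm n m (fun G => (HIG_E F : Set (Sym2 (Fin n))) ⊆ G.edgeSet) : ℝ) := by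
          push_cast; rfl
      _ ≤ ∑ F ∈ FF, C * (2 : ℝ) ^ (-(3 * (n : ℝ) / 2048)) *
          ∏ v, (q * Real.sqrt ((F v).card : ℝ)) ^ (F v).card := Finset.sum_le_sum step2
      _ = C * (2 : ℝ) ^ (-(3 * (n : ℝ) / 2048)) *
          ∑ F ∈ FF, ∏ v, (q * Real.sqrt ((F v).card : ℝ)) ^ (F v).card := by
          rw [Finset.mul_sum]
      _ ≤ C * (2 : ℝ) ^ (-(3 * (n : ℝ) / 2048)) * (1 + 1 / 196608) ^ n := by
          refine mul_le_mul_of_nonneg_left (step3.trans ?_) (by positivity)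
          refine pow_le_pow_left₀ (Finset.sum_nonneg (fun S _ => by positivity)) ?_ n
          exact HIG_tail n Δ m hn h64 hΔ
  refine step4.trans ?_
  rw [mul_assoc]
  refine mul_le_mul_of_nonneg_left ?_ hC0
  have f1 : ((1 : ℝ) + 1 / 196608) ^ n ≤ Real.exp ((n : ℝ) * (1 / 196608)) := by
    rw [Real.exp_nat_mul]
    refine pow_le_pow_left₀ (by norm_num) ?_ n
    linarith [Real.add_one_le_exp ((1 : ℝ) / 196608)]
  have f2 : (2 : ℝ) ^ (-(3 * (n : ℝ) / 2048)) = Real.exp (Real.log 2 * (-(3 * (n : ℝ) / 2048))) :=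
    Real.rpow_def_of_pos (by norm_num) _
  rw [f2]
  calc Real.exp (Real.log 2 * (-(3 * (n : ℝ) / 2048))) * (1 + 1 / 196608) ^ n
      ≤ Real.exp (Real.log 2 * (-(3 * (n : ℝ) / 2048))) * Real.exp ((n : ℝ) * (1 / 196608)) :=
        mul_le_mul_of_nonneg_left f1 (Real.exp_pos _).le
    _ = Real.exp (Real.log 2 * (-(3 * (n : ℝ) / 2048)) + (n : ℝ) * (1 / 196608)) :=
        (Real.exp_add _ _).symm
    _ ≤ Real.exp (-((n : ℝ) / 2000)) := by
        apply Real.exp_le_exp.mpr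
        have hl : (0.6931471803 : ℝ) < Real.log 2 := Real.log_two_gt_d9
        have hn0 : (0 : ℝ) ≤ n := by positivity
        nlinarith [mul_le_mul_of_nonneg_right hl.le hn0]

end Pool.Agent.SPC
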