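import Pool.Agent.SPC.Targets3

/-!
# SPC, target HYP: the lower tail of the hypergeometric distribution
-/

set_option autoImplicit false

namespace Pool.Agent.SPC

open Finset Classical Filter Topology
open Pool.Agent.Pend

namespace HYP_

/-- one step -/
theorem step {N P m J i : ℕ} (hP : P ≤ N) (h1 : 8 * J ≤ P) (h2 : 8 * J ≤ m)
    (h3 : 8 * J * N ≤ P * m) (hi : i < J) :
    2 * (P.choose i * (N - P).choose (m - i)) ≤
      P.choose (i + 1) * (N - P).choose (m - (i + 1)) := by
  obtain ⟨j, hj⟩ : ∃ j, m - i = j + 1 := ⟨m - i - 1, by omega⟩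
  have hj' : m - (i + 1) = j := by omega
  have hN : 0 < N := by omega
  rw [hj', hj]
  have e1 := Nat.choose_succ_right_eq P i
  have e2 := Nat.choose_succ_right_eq (N - P) j
  have e3 : N - P - j ≤ N := by omega
  obtain ⟨p, hp⟩ : ∃ p, P = i + p := ⟨P - i, by omega⟩
  have hp' : P - i = p := by omega
  rw [hp'] at e1
  have e4 : 2 * ((i + 1) * N) ≤ p * (j + 1) := by
    have h4 : 7 * P ≤ 8 * p := by omega
    have h5 : 7 * m ≤ 8 * (j + 1) := by omega
    have h6 : (7 * P) * (7 * m) ≤ (8 * p) * (8 * (j + 1)) := Nat.mul_le_mul h4 h5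
    have h7 : 8 * ((i + 1) * N) ≤ P * m := by
      have h8 : 8 * (i + 1) ≤ 8 * J := by omega
      calc 8 * ((i + 1) * N) = 8 * (i + 1) * N := by ring
        _ ≤ 8 * J * N := Nat.mul_le_mul_right _ h8
        _ ≤ P * m := h3
    nlinarith
  have hpos : 0 < (i + 1) * N := Nat.mul_pos (Nat.succ_pos i) hN
  refine Nat.le_of_mul_le_mul_right ?_ hpos
  calc 2 * (P.choose i * (N - P).choose (j + 1)) * ((i + 1) * N) =
        (P.choose i * (N - P).choose (j + 1)) * (2 * ((i + 1) * N)) := by ring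
    _ ≤ (P.choose i * (N - P).choose (j + 1)) * (p * (j + 1)) := Nat.mul_le_mul_left _ e4
    _ = (P.choose i * p) * ((N - P).choose (j + 1) * (j + 1)) := by ring
    _ = (P.choose (i + 1) * (i + 1)) * ((N - P).choose j * (N - P - j)) := by rw [← e1, e2]
    _ ≤ (P.choose (i + 1) * (i + 1)) * ((N - P).choose j * N) :=
      Nat.mul_le_mul_left _ (Nat.mul_le_mul_left _ e3)
    _ = _ := by ring

theorem chain {N P m J : ℕ} (hP : P ≤ N) (h1 : 8 * J ≤ P) (h2 : 8 * J ≤ m)
    (h3 : 8 * J * N ≤ P * m) (k : ℕ) : ∀ i : ℕ, i + k = J →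
    P.choose i * (N - P).choose (m - i) * 2 ^ k ≤ P.choose J * (N - P).choose (m - J) := by
  induction k with
  | zero =>
    intro i hi
    have : i = J := by omega
    subst this
    simp
  | succ k ih =>
    intro i hi
    have h4 := step hP h1 h2 h3 (i := i) (by omega)
    have h5 := ih (i + 1) (by omega)
    calc P.choose i * (N - P).choose (m - i) * 2 ^ (k + 1) =
          2 * (P.choose i * (N - P).choose (m - i)) * 2 ^ k := by ring
      _ ≤ P.choose (i + 1) * (N - P).choose (m - (i + 1)) * 2 ^ k := Nat.mul_le_mul_right _ h4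
      _ ≤ _ := h5

/-- one term of the Vandermonde sum -/
theorem term {N P m J : ℕ} (hP : P ≤ N) (hJ : J ≤ m) :
    P.choose J * (N - P).choose (m - J) ≤ N.choose m := by
  obtain ⟨Q, rfl⟩ : ∃ Q, N = P + Q := ⟨N - P, by omega⟩
  rw [Nat.add_sub_cancel_left, Nat.add_choose_eq]
  exact Finset.single_le_sum (f := fun ij : ℕ × ℕ => P.choose ij.1 * Q.choose ij.2)
    (fun _ _ => Nat.zero_le _) (a := (J, m - J)) (by
      rw [HasAntidiagonal.mem_antidiagonal]
      change J + (m - J) = m
      omega)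

end HYP_

/-- HYP: the lower tail of the hypergeometric distribution -/
theorem p_HYP : T_HYP := by
  intro N P m J i hP hm h1 h2 h3 hi
  exact (HYP_.chain hP h1 h2 h3 (J - i) i (by omega)).trans (HYP_.term hP (by omega))

end Pool.Agent.SPC
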