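import Pool.Agent.SPC.Targets3

/-!
SPD-IIA: the range A n ≤ m ≤ n (log_2 n)^5 (assembly).
-/

set_option autoImplicit false

namespace Pool.Agent.SPC

open Finset Classical Filter Topology
open Pool.Agent.Pend

namespace IIA_

lemma gm_le3 (n m : ℕ) (P Q R S : SimpleGraph (Fin n) → Prop)
    (h : ∀ G, G.edgeSet.ncard = m → P G → Q G ∨ R G ∨ S G) :
    gm n m P ≤ gm n m Q + gm n m R + gm n m S := by
  unfold gm
  refine le_trans (card_le_card (t :=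
    (univ.filter fun G => G.edgeSet.ncard = m ∧ Q G) ∪
    (univ.filter fun G => G.edgeSet.ncard = m ∧ R G) ∪
    (univ.filter fun G => G.edgeSet.ncard = m ∧ S G)) ?_) ?_
  · intro G hG
    simp only [mem_filter, mem_univ, true_and, mem_union] at hG ⊢
    rcases h G hG.1 hG.2 with h1 | h1 | h1
    · exact Or.inl (Or.inl ⟨hG.1, h1⟩)
    · exact Or.inl (Or.inr ⟨hG.1, h1⟩)
    · exact Or.inr ⟨hG.1, h1⟩
  · exact (card_union_le _ _).trans (Nat.add_le_add_right (card_union_le _ _) _)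

lemma logb_two_pow (l : ℕ) : Real.logb 2 ((2 ^ l : ℕ) : ℝ) = l := by
  rw [Nat.cast_pow, Nat.cast_ofNat, Real.logb_pow, Real.logb_self_eq_one (by norm_num), mul_one]

lemma step {n₁ : ℕ} (h : ∀ n : ℕ, n₁ ≤ n → ∀ G : SimpleGraph (Fin n), G.Connected →
    ∀ (Δ K : ℕ) (X : Finset (Fin n)), 4 ≤ Δ → Δ ≤ n → 600 * (Real.logb 2 Δ) ^ 2 ≤ (K : ℝ) →
    64 * Real.logb 2 Δ * (X.card : ℝ) ≤ n →
    (∀ v, v ∉ X → K ≤ dg G v) →
    (∀ u v, u ∉ X → v ∉ X → u ≠ v → K ≤ ds G u v) →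
    WW Δ G ≤ (n : ℝ) / 64 → Rec G) (n l x k D : ℕ) (hn : n₁ ≤ n) (hl : 2 ≤ l)
    (hln : 2 ^ l ≤ n) (hKD : 600 * l ^ 2 ≤ D) (hx : 128 * l * x ≤ n) (hk : 384 * l * k ≤ n)
    (G : SimpleGraph (Fin n)) (hG : G.Connected) (hR : ¬ Rec G) :
    (n : ℝ) / 64 < WW (2 ^ l) G ∨ x ≤ (univ.filter (fun v => dg G v < D)).card ∨
    3 * k ≤ (univ.filter
      (fun v => D ≤ dg G v ∧ ∃ v', v' ≠ v ∧ ds G v v' < 600 * l ^ 2)).card := by
  by_contra hc
  rw [not_or, not_or, not_lt, not_le, not_le] at hc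
  obtain ⟨h1, h2, h3⟩ := hc
  refine hR (h n hn G hG (2 ^ l) (600 * l ^ 2) (univ.filter (fun v => dg G v < D) ∪
    univ.filter (fun v => D ≤ dg G v ∧ ∃ v', v' ≠ v ∧ ds G v v' < 600 * l ^ 2))
    ?_ hln ?_ ?_ ?_ ?_ h1)
  · calc 4 = 2 ^ 2 := by norm_num
      _ ≤ 2 ^ l := Nat.pow_le_pow_right (by norm_num) hl
  · rw [logb_two_pow]
    push_cast
    exact le_refl _
  · rw [logb_two_pow]
    have hcard := card_union_le (univ.filter (fun v => dg G v < D))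
      (univ.filter (fun v => D ≤ dg G v ∧ ∃ v', v' ≠ v ∧ ds G v v' < 600 * l ^ 2))
    generalize (univ.filter (fun v => dg G v < D) ∪ univ.filter
      (fun v => D ≤ dg G v ∧ ∃ v', v' ≠ v ∧ ds G v v' < 600 * l ^ 2)).card = c at hcard ⊢
    have hc : c ≤ x + 3 * k := by omega
    have h4 : 64 * l * c ≤ n := by
      have h5 : 64 * l * c ≤ 64 * l * (x + 3 * k) := Nat.mul_le_mul_left _ hc
      have h6 : 2 * (64 * l * (x + 3 * k)) = 128 * l * x + 384 * l * k := by ring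
      omega
    exact_mod_cast h4
  · intro v hv
    rw [mem_union, not_or, mem_filter, mem_filter] at hv
    have h4 : D ≤ dg G v := by
      by_contra h5
      exact hv.1 ⟨mem_univ _, not_le.1 h5⟩
    exact hKD.trans h4
  · intro u v hu _ huv
    rw [mem_union, not_or, mem_filter, mem_filter] at hu
    have h4 : D ≤ dg G u := by
      by_contra h5
      exact hu.1 ⟨mem_univ _, not_le.1 h5⟩
    by_contra h5
    exact hu.2 ⟨mem_univ _, h4, v, huv.symm, not_le.1 h5⟩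

lemma hig_cond (n m : ℕ) (hn : 2 ≤ n) :
    1000 * (2 * m) ^ 2 ≤ 2 ^ (lq (m / n + 1)) * (n - 1) ^ 2 := by
  have h1 : m < n * (m / n + 1) := Nat.lt_mul_div_succ m (by omega)
  generalize m / n + 1 = q at h1 ⊢
  have h2 : q < 2 ^ (Nat.log 2 q + 1) := Nat.lt_pow_succ_log_self (by norm_num) q
  have h3 : 2 ^ (lq q) = 2 ^ 18 * (2 ^ (Nat.log 2 q + 1)) ^ 2 := by
    unfold lq
    rw [← pow_mul, ← pow_add]
    congr 1
    ring
  obtain ⟨p, rfl⟩ : ∃ p, n = p + 2 := ⟨n - 2, by omega⟩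
  have h4 : p + 2 - 1 = p + 1 := by omega
  rw [h3, h4]
  generalize 2 ^ (Nat.log 2 q + 1) = z at h2 ⊢
  have h5 : m ≤ 2 * (p + 1) * z := by
    calc m ≤ (p + 2) * q := h1.le
      _ ≤ (2 * (p + 1)) * z := Nat.mul_le_mul (by omega) h2.le
  calc 1000 * (2 * m) ^ 2 ≤ 1000 * (2 * (2 * (p + 1) * z)) ^ 2 := by gcongr
    _ = 16000 * (z ^ 2 * (p + 1) ^ 2) := by ring
    _ ≤ 2 ^ 18 * (z ^ 2 * (p + 1) ^ 2) := Nat.mul_le_mul_right _ (by norm_num)
    _ = 2 ^ 18 * z ^ 2 * (p + 1) ^ 2 := by ring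

lemma lam_le (n m : ℕ) (hn : 1 ≤ n) (hm : 10000 * n ≤ m) :
    ((n : ℝ) - 1) ^ 2 / ((m : ℝ) + 1 - n) ≤ (n : ℝ) / 4000 := by
  have h1 : (1 : ℝ) ≤ n := by exact_mod_cast hn
  have h2 : (10000 : ℝ) * n ≤ m := by exact_mod_cast hm
  rw [div_le_div_iff₀ (by linarith) (by norm_num)]
  nlinarith

lemma exp_small (ε : ℝ) (hε : 0 < ε) :
    ∃ n₀ : ℕ, ∀ n : ℕ, n₀ ≤ n → Real.exp (-((n : ℝ) / 4000)) ≤ ε := by
  obtain ⟨n₀, hn₀⟩ := exists_nat_gt (4000 / ε)
  refine ⟨n₀, fun n hn => ?_⟩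
  have h1 : 4000 / ε < n := hn₀.trans_le (by exact_mod_cast hn)
  rw [div_lt_iff₀ hε] at h1
  rw [Real.exp_neg, inv_le_comm₀ (Real.exp_pos _) hε]
  have h2 := Real.add_one_le_exp ((n : ℝ) / 4000)
  refine le_trans ?_ h2
  rw [inv_eq_one_div, div_le_iff₀ hε]
  nlinarith

lemma fin1 {g c N e ε : ℝ} (he : 0 < e) (h1 : g * e ≤ ε * N) (h2 : N ≤ c * e)
    (hε : 0 ≤ ε) : g ≤ ε * c := by
  have h3 : g * e ≤ (ε * c) * e := by
    calc g * e ≤ ε * N := h1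
      _ ≤ ε * (c * e) := mul_le_mul_of_nonneg_left h2 hε
      _ = (ε * c) * e := by ring
  exact le_of_mul_le_mul_right h3 he

end IIA_

open IIA_ in
theorem p_IIA (hDET : T_DET3) (hHIG : T_HIG) (hLOW : T_LOW) (hNT : T_NT) (hCON : T_CON)
    (hQA : T_QA) (hLL : T_LL) (hNLO : T_NLO) (hNNT : T_NNT) (hDIS : T_DIS) : T_IIA := by
  obtain ⟨A, hA1, hA2⟩ := hQA
  refine ⟨A, fun ε hε => ?_⟩
  obtain ⟨n₁, hn₁⟩ := hDET
  obtain ⟨n₂, hn₂⟩ := hLL 1
  obtain ⟨n₃, hn₃⟩ := hNLO (ε / 3) (by positivity)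
  obtain ⟨n₄, hn₄⟩ := hNNT (ε / 3) (by positivity)
  obtain ⟨n₅, hn₅⟩ := exp_small (ε / 3) (by positivity)
  refine ⟨n₁ + n₂ + n₃ + n₄ + n₅ + 14, fun n m hn hAm hq => ?_⟩
  have hn0 : 0 < n := by omega
  have hAq : A ≤ m / n := (Nat.le_div_iff_mul_le hn0).2 hAm
  have h8 := hA2 (m / n + 1) (by omega)
  have hm4 : 10000 * n ≤ m := (Nat.mul_le_mul_right n hA1).trans hAm
  obtain ⟨-, hLn, -⟩ := hn₂ n (by omega) (m / n + 1) (by omega)
  obtain ⟨hx1, hx2, hx3, hx4⟩ := hn₃ n m (by omega) (by omega) h8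
  obtain ⟨hk1, hk2⟩ := hn₄ n m (by omega) (by omega) h8
  have hcon := hCON n m (by omega) (by omega)
  have hhig := hHIG n m (2 ^ lq (m / n + 1)) (by omega) ?_ (hig_cond n m (by omega))
  have hlow := hLOW n m _ _ _ (by omega) hx1 (by omega) hx2 hx3
  have hnt := hNT n m (600 * (lq (m / n + 1)) ^ 2) (m / n / 32)
    (n / (384 * lq (m / n + 1))) hk1
  swap
  · calc 64 = 2 ^ 6 := by norm_num
      _ ≤ 2 ^ lq (m / n + 1) := Nat.pow_le_pow_right (by norm_num) (by unfold lq; omega)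
  have hl20 : 20 ≤ lq (m / n + 1) := by unfold lq; omega
  have hlam := lam_le n m (by omega) hm4
  have hKD : 600 * (lq (m / n + 1)) ^ 2 ≤ m / n / 32 := by
    rw [Nat.le_div_iff_mul_le (by norm_num)]
    have h9 : 1 ≤ (lq (m / n + 1)) ^ 2 := Nat.one_le_pow _ _ (by omega)
    omega
  have hxl : 128 * lq (m / n + 1) * (n / (128 * lq (m / n + 1))) ≤ n := Nat.mul_div_le _ _
  have hkl : 384 * lq (m / n + 1) * (n / (384 * lq (m / n + 1))) ≤ n := Nat.mul_div_le _ _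
  have hgm := gm_le3 n m (fun G => ¬ Rec G)
    (fun G => (n : ℝ) / 64 < WW (2 ^ lq (m / n + 1)) G)
    (fun G => n / (128 * lq (m / n + 1)) ≤ (univ.filter (fun v => dg G v < m / n / 32)).card)
    (fun G => 3 * (n / (384 * lq (m / n + 1))) ≤ (univ.filter (fun v => m / n / 32 ≤ dg G v ∧
      ∃ v', v' ≠ v ∧ ds G v v' < 600 * (lq (m / n + 1)) ^ 2)).card)
    (fun G _ hR => step hn₁ n (lq (m / n + 1)) _ _ _ (by omega) (by omega) hLn hKD hxl hkl G
      (hDIS n G (by omega) hR) hR)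
  have he := Real.exp_pos (((n : ℝ) - 1) ^ 2 / ((m : ℝ) + 1 - n))
  have hc0 : (0 : ℝ) ≤ (ce n m : ℝ) := Nat.cast_nonneg _
  generalize ((n : ℝ) - 1) ^ 2 / ((m : ℝ) + 1 - n) = lam at *
  -- first number
  have a1 : (gm n m (fun G => (n : ℝ) / 64 < WW (2 ^ lq (m / n + 1)) G) : ℝ) ≤
      ε / 3 * (ce n m : ℝ) := by
    calc (gm n m (fun G => (n : ℝ) / 64 < WW (2 ^ lq (m / n + 1)) G) : ℝ)
        ≤ ((n.choose 2).choose m : ℝ) * Real.exp (-((n : ℝ) / 2000)) := hhig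
      _ ≤ ((ce n m : ℝ) * Real.exp lam) * Real.exp (-((n : ℝ) / 2000)) :=
          mul_le_mul_of_nonneg_right hcon (Real.exp_pos _).le
      _ = (ce n m : ℝ) * Real.exp (lam + -((n : ℝ) / 2000)) := by rw [Real.exp_add]; ring
      _ ≤ (ce n m : ℝ) * Real.exp (-((n : ℝ) / 4000)) := by
          refine mul_le_mul_of_nonneg_left (Real.exp_le_exp.2 ?_) hc0
          linarith
      _ ≤ (ce n m : ℝ) * (ε / 3) := mul_le_mul_of_nonneg_left (hn₅ n (by omega)) hc0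
      _ = ε / 3 * (ce n m : ℝ) := mul_comm _ _
  -- second number
  have a2 : (gm n m (fun G => n / (128 * lq (m / n + 1)) ≤
      (univ.filter (fun v => dg G v < m / n / 32)).card) : ℝ) ≤ ε / 3 * (ce n m : ℝ) := by
    refine fin1 he ?_ hcon (by positivity)
    generalize gm n m (fun G => n / (128 * lq (m / n + 1)) ≤
      (univ.filter (fun v => dg G v < m / n / 32)).card) = g at hlow ⊢
    generalize n / (128 * lq (m / n + 1)) * m / (8 * n) -
      n / (128 * lq (m / n + 1)) * (m / n / 32) = J at hlow hx4 ⊢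
    have hp : (0 : ℝ) < 2 ^ J := by positivity
    have h9 : (g : ℝ) * 2 ^ J ≤ ((n.choose (n / (128 * lq (m / n + 1))) *
        (n / (128 * lq (m / n + 1)) * (m / n / 32) + 1) : ℕ) : ℝ) *
        ((n.choose 2).choose m : ℝ) := by
      rw [← mul_assoc] at hlow
      exact_mod_cast hlow
    refine le_of_mul_le_mul_right ?_ hp
    calc (g : ℝ) * Real.exp lam * 2 ^ J = ((g : ℝ) * 2 ^ J) * Real.exp lam := by ring
      _ ≤ (((n.choose (n / (128 * lq (m / n + 1))) *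
        (n / (128 * lq (m / n + 1)) * (m / n / 32) + 1) : ℕ) : ℝ) *
        ((n.choose 2).choose m : ℝ)) * Real.exp lam :=
          mul_le_mul_of_nonneg_right h9 he.le
      _ = (((n.choose (n / (128 * lq (m / n + 1))) *
        (n / (128 * lq (m / n + 1)) * (m / n / 32) + 1) : ℕ) : ℝ) * Real.exp lam) *
        ((n.choose 2).choose m : ℝ) := by ring
      _ ≤ (ε / 3 * 2 ^ J) * ((n.choose 2).choose m : ℝ) :=
          mul_le_mul_of_nonneg_right hx4 (Nat.cast_nonneg _)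
      _ = ε / 3 * ((n.choose 2).choose m : ℝ) * 2 ^ J := by ring
  -- third number
  have a3 : (gm n m (fun G => 3 * (n / (384 * lq (m / n + 1))) ≤
      (univ.filter (fun v => m / n / 32 ≤ dg G v ∧
      ∃ v', v' ≠ v ∧ ds G v v' < 600 * (lq (m / n + 1)) ^ 2)).card) : ℝ) ≤
      ε / 3 * (ce n m : ℝ) := by
    refine fin1 he ?_ hcon (by positivity)
    refine le_trans (mul_le_mul_of_nonneg_right ?_ he.le) hk2
    exact_mod_cast hnt
  calc (gm n m (fun G => ¬ Rec G) : ℝ)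
      ≤ (gm n m (fun G => (n : ℝ) / 64 < WW (2 ^ lq (m / n + 1)) G) : ℝ) +
        (gm n m (fun G => n / (128 * lq (m / n + 1)) ≤
          (univ.filter (fun v => dg G v < m / n / 32)).card) : ℝ) +
        (gm n m (fun G => 3 * (n / (384 * lq (m / n + 1))) ≤
          (univ.filter (fun v => m / n / 32 ≤ dg G v ∧
          ∃ v', v' ≠ v ∧ ds G v v' < 600 * (lq (m / n + 1)) ^ 2)).card) : ℝ) := by
        exact_mod_cast hgm
    _ ≤ ε / 3 * (ce n m : ℝ) + ε / 3 * (ce n m : ℝ) + ε / 3 * (ce n m : ℝ) := by linarith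
    _ = ε * (ce n m : ℝ) := by ring

end Pool.Agent.SPC
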