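import Pool.Agent.SPC.Targets3

set_option autoImplicit false

/-! SPC, third part: the dense range. -/

namespace Pool.Agent.SPC

open Finset Classical Filter Topology
open Pool.Agent.Pend

namespace IIB_

lemma ncard_eq_ds {n : ℕ} (G : SimpleGraph (Fin n)) (u v : Fin n) :
    {w | w ≠ u ∧ w ≠ v ∧ ¬ (G.Adj w u ↔ G.Adj w v)}.ncard = ds G u v := by
  unfold ds
  rw [← Set.ncard_coe_finset]
  congr 1
  ext w
  simp

/-- a connected graph in which any two vertices are distinguished by many others -/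
lemma rec_of_ds {n : ℕ} (G : SimpleGraph (Fin n)) (t K : ℕ) (hn : 3 ≤ n) (hnt : n ≤ 2 ^ (t + 1))
    (hK : 16 * (t + 1) ^ 2 ≤ K) (hc : G.Connected)
    (hd : ∀ u v, u ≠ v → K ≤ ds G u v) : Rec G := by
  intro W _ H f hdeck
  have hK1 : 0 < K := by
    have : 0 < 16 * (t + 1) ^ 2 := by positivity
    omega
  refine Pool.Agent.Lib.Recon.local_clique G (by simpa using hn) n 1
    (Or.inl ⟨hc, fun v => ?_⟩) ?_ ?_ H f hdeck
  · refine (Set.ncard_le_ncard (Set.subset_univ _) (Set.toFinite _)).trans ?_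
    rw [Set.ncard_univ]
    simp
  · intro u
    have hsub : {v | ∀ w, w ≠ u → w ≠ v → (G.Adj w u ↔ G.Adj w v)} ⊆ {u} := by
      intro v hv
      by_contra hne
      have h1 : u ≠ v := fun h => hne (by rw [h]; exact Set.mem_singleton _)
      have h2 := hd u v h1
      have h3 : ds G u v = 0 := by
        rw [← ncard_eq_ds, Set.ncard_eq_zero (Set.toFinite _)]
        refine Set.eq_empty_iff_forall_notMem.2 ?_
        rintro w ⟨ha, hb, hcc⟩
        exact hcc (hv w ha hb)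
      omega
    refine (Set.ncard_le_ncard hsub (Set.toFinite _)).trans ?_
    rw [Set.ncard_singleton]
  · intro u v
    by_cases huv : u = v
    · left
      intro w _ _
      rw [huv]
    · right
      rw [ncard_eq_ds]
      have h1 := hd u v huv
      have hn0 : (0 : ℝ) < n := by exact_mod_cast (by omega : 0 < n)
      have h2 : Real.logb 2 (n : ℝ) ≤ (t : ℝ) + 1 := by
        rw [Real.logb_le_iff_le_rpow (by norm_num) hn0]
        have h3 : (n : ℝ) ≤ (2 : ℝ) ^ (t + 1) := by exact_mod_cast hnt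
        calc (n : ℝ) ≤ (2 : ℝ) ^ (t + 1) := h3
          _ = (2 : ℝ) ^ ((t : ℝ) + 1) := by
              rw [← Real.rpow_natCast]
              push_cast
              rfl
      have h0 : 0 ≤ Real.logb 2 (n : ℝ) :=
        Real.logb_nonneg (by norm_num) (by exact_mod_cast (by omega : 1 ≤ n))
      have h4 : (Real.logb 2 (n : ℝ)) ^ 2 ≤ ((t : ℝ) + 1) ^ 2 := pow_le_pow_left₀ h0 h2 2
      have h5 : (16 : ℝ) * ((t : ℝ) + 1) ^ 2 ≤ K := by exact_mod_cast hK
      have h6 : (K : ℝ) ≤ (ds G u v : ℝ) := by exact_mod_cast h1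
      push_cast
      linarith

lemma gm_mono (n m : ℕ) (P Q : SimpleGraph (Fin n) → Prop) (h : ∀ G, P G → Q G) :
    gm n m P ≤ gm n m Q := by
  unfold gm
  refine Finset.card_le_card fun G hG => ?_
  rw [Finset.mem_filter] at hG ⊢
  exact ⟨hG.1, hG.2.1, h G hG.2.2⟩

lemma pow4 : ∀ t : ℕ, 400 ≤ t → 4 * t ^ 4 ≤ 2 ^ t := by
  intro t ht
  induction t, ht using Nat.le_induction with
  | base =>
    calc 4 * 400 ^ 4 ≤ 2 ^ 40 := by norm_num
      _ ≤ 2 ^ 400 := Nat.pow_le_pow_right (by norm_num) (by norm_num)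
  | succ t ht ih =>
    have h1 : (t + 1) ^ 4 ≤ 2 * t ^ 4 := by
      have h3 : 400 * t ^ 3 ≤ t ^ 4 := by
        calc 400 * t ^ 3 ≤ t * t ^ 3 := Nat.mul_le_mul_right _ ht
          _ = t ^ 4 := by ring
      have h4 : 400 * t ^ 2 ≤ t ^ 3 := by
        calc 400 * t ^ 2 ≤ t * t ^ 2 := Nat.mul_le_mul_right _ ht
          _ = t ^ 3 := by ring
      have h5 : 400 * t ≤ t ^ 2 := by
        calc 400 * t ≤ t * t := Nat.mul_le_mul_right _ ht
          _ = t ^ 2 := by ring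
      have h6 : (t + 1) ^ 4 = t ^ 4 + 4 * t ^ 3 + 6 * t ^ 2 + 4 * t + 1 := by ring
      rw [h6]
      omega
    calc 4 * (t + 1) ^ 4 ≤ 4 * (2 * t ^ 4) := Nat.mul_le_mul_left _ h1
      _ = 2 * (4 * t ^ 4) := by ring
      _ ≤ 2 * 2 ^ t := Nat.mul_le_mul_left _ ih
      _ = 2 ^ (t + 1) := by ring

lemma pow4b (t : ℕ) (ht : 400 ≤ t) : 1 + 32 * (t + 1) ^ 2 ≤ t ^ 4 := by
  have h4 : 400 * t ^ 2 ≤ t ^ 3 := by
    calc 400 * t ^ 2 ≤ t * t ^ 2 := Nat.mul_le_mul_right _ ht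
      _ = t ^ 3 := by ring
  have h3 : 400 * t ^ 3 ≤ t ^ 4 := by
    calc 400 * t ^ 3 ≤ t * t ^ 3 := Nat.mul_le_mul_right _ ht
      _ = t ^ 4 := by ring
  have h5 : 400 * t ≤ t ^ 2 := by
    calc 400 * t ≤ t * t := Nat.mul_le_mul_right _ ht
      _ = t ^ 2 := by ring
  have h6 : (t + 1) ^ 2 = t ^ 2 + 2 * t + 1 := by ring
  rw [h6]
  omega

lemma hbig (t e : ℕ) (ht : 400 ≤ t) (he : e ≤ t) :
    (t + 1) * (16 * (t + 1) ^ 2 + 3) + e ≤ t ^ 4 / 12 := by
  rw [Nat.le_div_iff_mul_le (by norm_num)]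
  have h3 : 400 * t ^ 3 ≤ t ^ 4 := by
    calc 400 * t ^ 3 ≤ t * t ^ 3 := Nat.mul_le_mul_right _ ht
      _ = t ^ 4 := by ring
  have h4 : 400 * t ^ 2 ≤ t ^ 3 := by
    calc 400 * t ^ 2 ≤ t * t ^ 2 := Nat.mul_le_mul_right _ ht
      _ = t ^ 3 := by ring
  have h5 : 400 * t ≤ t ^ 2 := by
    calc 400 * t ≤ t * t := Nat.mul_le_mul_right _ ht
      _ = t ^ 2 := by ring
  have h6 : ((t + 1) * (16 * (t + 1) ^ 2 + 3) + e) * 12 =
      192 * t ^ 3 + 576 * t ^ 2 + 612 * t + 228 + 12 * e := by ring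
  rw [h6]
  omega

end IIB_

open IIB_ in
theorem p_IIB (hPRC : T_PRC) (hDIS : T_DIS) : T_IIB := by
  intro ε hε
  obtain ⟨e, he⟩ : ∃ e : ℕ, 1 / ε < (2 : ℝ) ^ e := pow_unbounded_of_one_lt _ (by norm_num)
  refine ⟨2 ^ (max 400 e), fun n m hn hm h2m => ?_⟩
  set t := Nat.log 2 n with ht
  have hn0 : n ≠ 0 := by
    have : 0 < 2 ^ (max 400 e) := by positivity
    omega
  have htl : max 400 e ≤ t := by
    have h1 := Nat.log_mono_right (b := 2) hn
    rwa [Nat.log_pow (by norm_num)] at h1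
  have ht4 : 400 ≤ t := (le_max_left _ _).trans htl
  have hte : e ≤ t := (le_max_right _ _).trans htl
  have hlow : 2 ^ t ≤ n := Nat.pow_log_le_self 2 hn0
  have hup : n ≤ 2 ^ (t + 1) := (Nat.lt_pow_succ_log_self (by norm_num) n).le
  have h4t := pow4 t ht4
  have h5t := pow4b t ht4
  set K := 16 * (t + 1) ^ 2 with hK
  set h := t ^ 4 / 12 with hh
  have h12 : 12 * h ≤ t ^ 4 := by
    rw [hh]
    exact Nat.mul_div_le _ _
  have hKn : 1 + 2 * K + 3 * t ^ 4 ≤ n := by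
    have : 1 + 2 * K ≤ t ^ 4 := by
      rw [hK]
      omega
    omega
  have c1 : 32 * h ≤ n - 1 - K := by omega
  have hN : 2 * n.choose 2 = n * (n - 1) := by
    rw [Nat.choose_two_right]
    exact Nat.mul_div_cancel' (Nat.even_mul_pred_self n).two_dvd
  have c2 : 12 * h * n.choose 2 ≤ (n - 1 - K) * m := by
    have h1 : n.choose 2 ≤ (n - 1 - K) * n := by
      have h2 : n - 1 ≤ 2 * (n - 1 - K) := by omega
      have h3 : n * (n - 1) ≤ n * (2 * (n - 1 - K)) := Nat.mul_le_mul_left _ h2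
      have h4 : n * (2 * (n - 1 - K)) = 2 * ((n - 1 - K) * n) := by ring
      omega
    calc 12 * h * n.choose 2 ≤ t ^ 4 * ((n - 1 - K) * n) := Nat.mul_le_mul h12 h1
      _ = (n - 1 - K) * (n * t ^ 4) := by ring
      _ ≤ (n - 1 - K) * m := Nat.mul_le_mul_left _ hm
  have hP := hPRC n m K h h2m c1 c2
  have hn14 : 14 ≤ n := by
    have : t < 2 ^ t := Nat.lt_two_pow_self
    omega
  have hmono : gm n m (fun G => ¬ Rec G) ≤
      gm n m (fun G => ∃ u v, u ≠ v ∧ ds G u v < K) := by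
    refine gm_mono n m _ _ fun G hG => ?_
    by_contra hcon
    push Not at hcon
    exact hG (rec_of_ds G t K (by omega) hup le_rfl (hDIS n G hn14 hG) hcon)
  have hA : (gm n m (fun G => ¬ Rec G) : ℝ) * 2 ^ h ≤
      (n : ℝ) ^ (K + 3) * ((n.choose 2).choose m : ℝ) := by
    have h1 : gm n m (fun G => ¬ Rec G) * 2 ^ h ≤ n ^ (K + 3) * (n.choose 2).choose m :=
      (Nat.mul_le_mul_right _ hmono).trans hP
    exact_mod_cast h1
  have hB : (n : ℝ) ^ (K + 3) ≤ ε * 2 ^ h := by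
    have h1 : n ^ (K + 3) * 2 ^ e ≤ 2 ^ h := by
      calc n ^ (K + 3) * 2 ^ e ≤ (2 ^ (t + 1)) ^ (K + 3) * 2 ^ e :=
            Nat.mul_le_mul_right _ (Nat.pow_le_pow_left hup _)
        _ = 2 ^ ((t + 1) * (K + 3) + e) := by rw [← pow_mul, ← pow_add]
        _ ≤ 2 ^ h := Nat.pow_le_pow_right (by norm_num) (hbig t e ht4 hte)
    have h2 : (n : ℝ) ^ (K + 3) * 2 ^ e ≤ 2 ^ h := by exact_mod_cast h1
    have h3 : 1 < ε * 2 ^ e := by
      rw [div_lt_iff₀ hε] at he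
      linarith
    have h4 : (0 : ℝ) ≤ (n : ℝ) ^ (K + 3) := by positivity
    calc (n : ℝ) ^ (K + 3) = (n : ℝ) ^ (K + 3) * 1 := (mul_one _).symm
      _ ≤ (n : ℝ) ^ (K + 3) * (ε * 2 ^ e) := mul_le_mul_of_nonneg_left h3.le h4
      _ = ε * ((n : ℝ) ^ (K + 3) * 2 ^ e) := by ring
      _ ≤ ε * 2 ^ h := mul_le_mul_of_nonneg_left h2 hε.le
  have hC : (0 : ℝ) ≤ ((n.choose 2).choose m : ℝ) := Nat.cast_nonneg _
  have hpos : (0 : ℝ) < 2 ^ h := by positivity
  have hfin : (gm n m (fun G => ¬ Rec G) : ℝ) * 2 ^ h ≤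
      (ε * ((n.choose 2).choose m : ℝ)) * 2 ^ h := by
    calc (gm n m (fun G => ¬ Rec G) : ℝ) * 2 ^ h ≤
          (n : ℝ) ^ (K + 3) * ((n.choose 2).choose m : ℝ) := hA
      _ ≤ (ε * 2 ^ h) * ((n.choose 2).choose m : ℝ) := mul_le_mul_of_nonneg_right hB hC
      _ = (ε * ((n.choose 2).choose m : ℝ)) * 2 ^ h := by ring
  exact le_of_mul_le_mul_right hfin hpos

end Pool.Agent.SPC
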