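import Pool.Agent.SPC.Targets3

/-!
# SPC, target IND: an independent set for a function
-/

set_option autoImplicit false

namespace Pool.Agent.SPC

open Finset Classical Filter Topology
open Pool.Agent.Pend

namespace IND_

/-- some element has at most one preimage -/
lemma few {V : Type} (B : Finset V) (f : V → V) (hB : B.Nonempty) :
    ∃ v ∈ B, (B.filter (fun w => f w = v)).card ≤ 1 := by
  by_contra h
  push Not at h
  have h1 : ∑ v ∈ B, (B.filter (fun w => f w = v)).card ≤ B.card := by
    rw [← Finset.card_biUnion]
    · exact Finset.card_le_card (by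
        intro w hw
        simp only [Finset.mem_biUnion, Finset.mem_filter] at hw
        obtain ⟨v, _, hw, _⟩ := hw
        exact hw)
    · intro v _ w _ hvw
      show Disjoint _ _
      rw [Finset.disjoint_left]
      intro u hu hu'
      simp only [Finset.mem_filter] at hu hu'
      exact hvw (hu.2.symm.trans hu'.2)
  have h2 : ∑ v ∈ B, 2 ≤ ∑ v ∈ B, (B.filter (fun w => f w = v)).card :=
    Finset.sum_le_sum fun v hv => h v hv
  rw [Finset.sum_const, smul_eq_mul] at h2
  have h3 := Finset.card_pos.2 hB
  omega

end IND_

open IND_ in
theorem p_IND : T_IND := by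
  intro V B f hf
  induction B using Finset.strongInduction with
  | H B ih =>
    rcases B.eq_empty_or_nonempty with rfl | hB
    · exact ⟨∅, by simp, by simp, by simp⟩
    obtain ⟨v, hv, hvc⟩ := few B f hB
    set R : Finset V := insert v (insert (f v) (B.filter (fun w => f w = v))) with hR
    have hRc : R.card ≤ 3 := by
      rw [hR]
      have h1 := Finset.card_insert_le v (insert (f v) (B.filter (fun w => f w = v)))
      have h2 := Finset.card_insert_le (f v) (B.filter (fun w => f w = v))
      omega
    have hBs : B \ R ⊂ B := by
      refine Finset.ssubset_iff_subset_ne.2 ⟨Finset.sdiff_subset, fun h => ?_⟩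
      have h1 : v ∈ B \ R := by
        rw [h]
        exact hv
      exact (Finset.mem_sdiff.1 h1).2 (by simp [hR])
    obtain ⟨T, hT, hTc, hTf⟩ := ih (B \ R) hBs
      (fun w hw => hf w (Finset.mem_sdiff.1 hw).1)
    have hBc : B.card ≤ (B \ R).card + 3 := by
      have h1 := Finset.le_card_sdiff R B
      omega
    have hvT : v ∉ T := fun h => (Finset.mem_sdiff.1 (hT h)).2 (by simp [hR])
    have hfT : f v ∉ T := fun h => (Finset.mem_sdiff.1 (hT h)).2 (by simp [hR])
    refine ⟨insert v T, ?_, ?_, ?_⟩
    · intro w hw
      rcases Finset.mem_insert.1 hw with rfl | hw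
      · exact hv
      · exact (Finset.mem_sdiff.1 (hT hw)).1
    · rw [Finset.card_insert_of_notMem hvT]
      omega
    · intro w hw
      rcases Finset.mem_insert.1 hw with rfl | hw
      · intro h
        rcases Finset.mem_insert.1 h with h | h
        · exact hf w hv h
        · exact hfT h
      · intro h
        rcases Finset.mem_insert.1 h with h | h
        · have h1 := Finset.mem_sdiff.1 (hT hw)
          exact h1.2 (by simp [hR, h1.1, h])
        · exact hTf w hw h

end Pool.Agent.SPC
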