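import Pool.Agent.SPC.Targets3

/-!
# Project SPC, target LL: numbers
-/

set_option autoImplicit false

namespace Pool.Agent.SPC

namespace LL_

lemma lin {s : ℕ} (hs : 18 ≤ s) : 6000 * s + 18000 ≤ 2 ^ s := by
  induction s, hs using Nat.le_induction with
  | base => norm_num
  | succ s hs ih =>
    have : 2 ^ (s + 1) = 2 ^ s + 2 ^ s := by ring
    rw [this]
    omega

lemma sq_le {t : ℕ} (ht : 4 ≤ t) : t * t ≤ 2 ^ t := by
  induction t, ht using Nat.le_induction with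
  | base => norm_num
  | succ t ht ih =>
    have : 2 ^ (t + 1) = 2 ^ t + 2 ^ t := by ring
    rw [this]
    nlinarith

lemma lq_le {t q : ℕ} (ht : 2 ^ 18 ≤ t) (hq : q ≤ t ^ 5 + 1) : 600 * lq q ≤ t := by
  have ht0 : t ≠ 0 := by
    intro h
    rw [h] at ht
    norm_num at ht
  have h1 : t < 2 ^ (Nat.log 2 t + 1) := Nat.lt_pow_succ_log_self (by norm_num) t
  have h2 : 2 ^ Nat.log 2 t ≤ t := Nat.pow_log_le_self 2 ht0
  have h3 : 18 ≤ Nat.log 2 t := by
    have := Nat.log_mono_right (b := 2) ht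
    rwa [Nat.log_pow (by norm_num)] at this
  have h4 : q ≤ 2 ^ (5 * (Nat.log 2 t + 1)) := by
    have h5 : t ^ 5 < (2 ^ (Nat.log 2 t + 1)) ^ 5 := Nat.pow_lt_pow_left h1 (by norm_num)
    rw [← pow_mul, mul_comm] at h5
    omega
  have h6 : Nat.log 2 q ≤ 5 * (Nat.log 2 t + 1) := by
    have := Nat.log_mono_right (b := 2) h4
    rwa [Nat.log_pow (by norm_num)] at this
  have h7 := lin h3
  unfold lq
  omega

end LL_

open LL_ in
theorem p_LL : T_LL := by
  intro B
  obtain ⟨T, hT, hB⟩ : ∃ T : ℕ, 2 ^ 18 ≤ T ∧ B ≤ T :=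
    ⟨max (2 ^ 18) B, le_max_left _ _, le_max_right _ _⟩
  refine ⟨2 ^ T, fun n hn q hq => ?_⟩
  have ht : T ≤ Nat.log 2 n := by
    have := Nat.log_mono_right (b := 2) hn
    rwa [Nat.log_pow (by norm_num)] at this
  have hn0 : n ≠ 0 := by
    intro h
    rw [h] at hn
    have : 0 < 2 ^ T := by positivity
    omega
  obtain ⟨t, h0⟩ : ∃ t : ℕ, t = Nat.log 2 n := ⟨_, rfl⟩
  have hp : 2 ^ t ≤ n := by
    rw [h0]
    exact Nat.pow_log_le_self 2 hn0
  rw [← h0] at hq ht
  have h1 := lq_le (hT.trans ht) hq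
  have h2 : lq q ≤ t := by omega
  refine ⟨?_, ?_, ?_⟩
  · have h3 : (t : ℝ) * Real.log 2 ≤ Real.log n := by
      have h4 : ((2 ^ t : ℕ) : ℝ) ≤ (n : ℝ) := by exact_mod_cast hp
      have h5 := Real.log_le_log (by positivity) h4
      push_cast at h5
      rwa [Real.log_pow] at h5
    have h6 := Real.log_two_gt_d9
    have h7 : (600 : ℝ) * lq q ≤ t := by exact_mod_cast h1
    have h8 : (0 : ℝ) ≤ t := by positivity
    nlinarith
  · exact (Nat.pow_le_pow_right (by norm_num) h2).trans hp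
  · have h9 : 4 ≤ t := by
      have : 2 ^ 18 ≤ t := hT.trans ht
      norm_num at this
      omega
    calc B * lq q ≤ t * t := Nat.mul_le_mul (hB.trans ht) h2
      _ ≤ 2 ^ t := sq_le h9
      _ ≤ n := hp

end Pool.Agent.SPC
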