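import Pool.Agent.SPC.Targets3

set_option autoImplicit false

/-!
# LOW: low degrees are rare
-/

namespace Pool.Agent.SPC

open Finset Classical Filter Topology
open Pool.Agent.Pend

namespace LOW_

variable {n : ℕ}

theorem gm_le_sum {ι : Type} (m : ℕ) (P : SimpleGraph (Fin n) → Prop) (s : Finset ι)
    (Q : ι → SimpleGraph (Fin n) → Prop)
    (h : ∀ G, G.edgeSet.ncard = m → P G → ∃ i ∈ s, Q i G) :
    gm n m P ≤ ∑ i ∈ s, gm n m (Q i) := by
  unfold gm
  refine (card_le_card ?_).trans card_biUnion_le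
  intro G hG
  obtain ⟨-, h1, h2⟩ := mem_filter.1 hG
  obtain ⟨i, hi, hQ⟩ := h G h1 h2
  exact mem_biUnion.2 ⟨i, hi, mem_filter.2 ⟨mem_univ _, h1, hQ⟩⟩

theorem gm_zero (m : ℕ) (P : SimpleGraph (Fin n) → Prop)
    (h : ∀ G, G.edgeSet.ncard = m → ¬ P G) : gm n m P = 0 := by
  unfold gm
  rw [card_eq_zero, filter_eq_empty_iff]
  rintro G - ⟨h1, h2⟩
  exact h G h1 h2

/-- the pairs which meet `X` -/
noncomputable def QQ (X : Finset (Fin n)) : Finset (Sym2 (Fin n)) :=
  (prs n).filter (fun e => ∃ v ∈ X, v ∈ e)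

theorem QQ_sub (X : Finset (Fin n)) : QQ X ⊆ prs n := filter_subset _ _

theorem card_prs (n : ℕ) : (prs n).card = n.choose 2 := by
  have h := Sym2.card_subtype_not_diag (α := Fin n)
  rw [Fintype.card_subtype, Fintype.card_fin] at h
  exact h

theorem two_Q (X : Finset (Fin n)) : X.card * (n - 1) ≤ (QQ X).card * 2 := by
  refine card_mul_le_card_mul (fun v e => v ∈ e) ?_ ?_
  · intro v hv
    have h1 : (univ.erase v).card = n - 1 := by
      rw [card_erase_of_mem (mem_univ v), card_univ, Fintype.card_fin]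
    rw [← h1]
    refine card_le_card_of_injOn (fun w => s(v, w)) ?_ ?_
    · intro w hw
      have hw' : w ≠ v := ne_of_mem_erase hw
      refine mem_bipartiteAbove _ |>.2 ⟨mem_filter.2 ⟨mem_filter.2 ⟨mem_univ _, ?_⟩, v, hv,
        Sym2.mem_mk_left v w⟩, Sym2.mem_mk_left v w⟩
      rw [Sym2.mk_isDiag_iff]
      exact fun h => hw' h.symm
    · intro w1 _ w2 _ h
      exact Sym2.congr_right.1 h
  · intro e _
    induction e with | _ a b
    refine (card_le_card (t := {a, b}) ?_).trans card_le_two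
    intro v hv
    have h2 := (mem_bipartiteBelow _ |>.1 hv).2
    rw [Sym2.mem_iff] at h2
    rw [mem_insert, mem_singleton]
    exact h2

theorem cnt_le (G : SimpleGraph (Fin n)) (X : Finset (Fin n)) (D : ℕ)
    (h : ∀ v ∈ X, dg G v < D) :
    (G.edgeSet ∩ (QQ X : Set (Sym2 (Fin n)))).ncard ≤ X.card * D := by
  have hsub : G.edgeSet ∩ (QQ X : Set (Sym2 (Fin n))) ⊆
      ((X.biUnion fun v => (univ.filter (fun w => G.Adj v w)).image (fun w => s(v, w)) :
        Finset (Sym2 (Fin n))) : Set (Sym2 (Fin n))) := by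
    rintro e ⟨he, heQ⟩
    obtain ⟨-, v, hv, hve⟩ := mem_filter.1 (mem_coe.1 heQ)
    obtain ⟨w, rfl⟩ := Sym2.mem_iff_exists.1 hve
    rw [SimpleGraph.mem_edgeSet] at he
    rw [mem_coe, mem_biUnion]
    exact ⟨v, hv, mem_image.2 ⟨w, mem_filter.2 ⟨mem_univ _, he⟩, rfl⟩⟩
  calc (G.edgeSet ∩ (QQ X : Set (Sym2 (Fin n)))).ncard
      ≤ ((X.biUnion fun v => (univ.filter (fun w => G.Adj v w)).image (fun w => s(v, w)) :
        Finset (Sym2 (Fin n))) : Set (Sym2 (Fin n))).ncard :=
        Set.ncard_le_ncard hsub (Finset.finite_toSet _)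
    _ = (X.biUnion fun v => (univ.filter (fun w => G.Adj v w)).image (fun w => s(v, w))).card :=
        Set.ncard_coe_finset _
    _ ≤ X.card * D := by
        refine card_biUnion_le_card_mul _ _ _ fun v hv => ?_
        exact card_image_le.trans (h v hv).le

theorem per_X (hSPL : T_SPL) (hHYP : T_HYP) {m x D J : ℕ} (hn : 1 ≤ n) (hx : x ≤ n)
    (hm : m ≤ n.choose 2) (hD : x * D ≤ J) (hJ : 8 * J * n ≤ x * m) (X : Finset (Fin n))
    (hX : X.card = x) :
    gm n m (fun G => ∀ v ∈ X, dg G v < D) * 2 ^ (J - x * D) ≤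
      (x * D + 1) * (n.choose 2).choose m := by
  have hN2 : n.choose 2 * 2 = n * (n - 1) := by
    rw [Nat.choose_two_right, Nat.div_mul_cancel (Nat.even_mul_pred_self n).two_dvd]
  have h8m : 8 * J ≤ m := by
    have h1 : 8 * J * n ≤ m * n := hJ.trans (by rw [mul_comm m n]; exact Nat.mul_le_mul_right _ hx)
    exact Nat.le_of_mul_le_mul_right h1 hn
  have hP2 := two_Q X
  rw [hX] at hP2
  have h8P : 8 * J ≤ (QQ X).card := by
    have h1 : 8 * J * n * 2 ≤ x * (n - 1) * n := by
      calc 8 * J * n * 2 ≤ x * m * 2 := Nat.mul_le_mul_right _ hJ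
        _ ≤ x * n.choose 2 * 2 := Nat.mul_le_mul_right _ (Nat.mul_le_mul_left _ hm)
        _ = x * (n.choose 2 * 2) := by ring
        _ = x * (n - 1) * n := by rw [hN2]; ring
    have h2 : 8 * J * 2 * n ≤ (QQ X).card * 2 * n := by
      calc 8 * J * 2 * n = 8 * J * n * 2 := by ring
        _ ≤ x * (n - 1) * n := h1
        _ ≤ (QQ X).card * 2 * n := Nat.mul_le_mul_right _ hP2
    have h3 := Nat.le_of_mul_le_mul_right h2 hn
    omega
  have h8N : 8 * J * n.choose 2 ≤ (QQ X).card * m := by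
    have h1 : 8 * J * n.choose 2 * 2 ≤ (QQ X).card * m * 2 := by
      calc 8 * J * n.choose 2 * 2 = 8 * J * (n.choose 2 * 2) := by ring
        _ = 8 * J * n * (n - 1) := by rw [hN2]; ring
        _ ≤ x * m * (n - 1) := Nat.mul_le_mul_right _ hJ
        _ = x * (n - 1) * m := by ring
        _ ≤ (QQ X).card * 2 * m := Nat.mul_le_mul_right _ hP2
        _ = (QQ X).card * m * 2 := by ring
    omega
  have hPN : (QQ X).card ≤ n.choose 2 := by
    rw [← card_prs n]
    exact card_le_card (QQ_sub X)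
  have hterm : ∀ i ∈ range (x * D + 1),
      gm n m (fun G => (G.edgeSet ∩ (QQ X : Set (Sym2 (Fin n)))).ncard = i) *
        2 ^ (J - x * D) ≤ (n.choose 2).choose m := by
    intro i hi
    have hi' : i ≤ x * D := Nat.lt_succ_iff.1 (mem_range.1 hi)
    by_cases him : i ≤ m
    · rw [hSPL n m i (QQ X) (QQ_sub X) him]
      calc (QQ X).card.choose i * (n.choose 2 - (QQ X).card).choose (m - i) * 2 ^ (J - x * D)
          ≤ (QQ X).card.choose i * (n.choose 2 - (QQ X).card).choose (m - i) * 2 ^ (J - i) :=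
            Nat.mul_le_mul_left _ (Nat.pow_le_pow_right (by norm_num) (by omega))
        _ ≤ (n.choose 2).choose m :=
            hHYP (n.choose 2) (QQ X).card m J i hPN hm h8P h8m h8N (hi'.trans hD)
    · have h0 : gm n m (fun G => (G.edgeSet ∩ (QQ X : Set (Sym2 (Fin n)))).ncard = i) = 0 := by
        refine gm_zero m _ fun G h1 h2 => ?_
        have h3 : (G.edgeSet ∩ (QQ X : Set (Sym2 (Fin n)))).ncard ≤ G.edgeSet.ncard :=
          Set.ncard_le_ncard Set.inter_subset_left (Set.toFinite _)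
        omega
      rw [h0, zero_mul]
      exact Nat.zero_le _
  have hun : gm n m (fun G => ∀ v ∈ X, dg G v < D) ≤
      ∑ i ∈ range (x * D + 1),
        gm n m (fun G => (G.edgeSet ∩ (QQ X : Set (Sym2 (Fin n)))).ncard = i) := by
    refine gm_le_sum m _ _ _ fun G h1 h2 => ?_
    have h3 := cnt_le G X D h2
    rw [hX] at h3
    exact ⟨_, mem_range.2 (Nat.lt_succ_iff.2 h3), rfl⟩
  calc gm n m (fun G => ∀ v ∈ X, dg G v < D) * 2 ^ (J - x * D)
      ≤ (∑ i ∈ range (x * D + 1),
        gm n m (fun G => (G.edgeSet ∩ (QQ X : Set (Sym2 (Fin n)))).ncard = i)) *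
          2 ^ (J - x * D) := Nat.mul_le_mul_right _ hun
    _ = ∑ i ∈ range (x * D + 1),
        gm n m (fun G => (G.edgeSet ∩ (QQ X : Set (Sym2 (Fin n)))).ncard = i) *
          2 ^ (J - x * D) := sum_mul _ _ _
    _ ≤ ∑ _i ∈ range (x * D + 1), (n.choose 2).choose m := sum_le_sum hterm
    _ = (x * D + 1) * (n.choose 2).choose m := by
        rw [sum_const, card_range, smul_eq_mul]

end LOW_

/-- **LOW** -/
theorem p_LOW (hSPL : T_SPL) (hHYP : T_HYP) : T_LOW := by
  intro n m x D J hn hx hm hD hJ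
  have hun : gm n m (fun G => x ≤ (univ.filter (fun v => dg G v < D)).card) ≤
      ∑ X ∈ powersetCard x (univ : Finset (Fin n)), gm n m (fun G => ∀ v ∈ X, dg G v < D) := by
    refine LOW_.gm_le_sum m _ _ _ fun G h1 h2 => ?_
    obtain ⟨X, hXs, hXc⟩ := exists_subset_card_eq h2
    exact ⟨X, mem_powersetCard.2 ⟨subset_univ X, hXc⟩, fun v hv => (mem_filter.1 (hXs hv)).2⟩
  calc gm n m (fun G => x ≤ (univ.filter (fun v => dg G v < D)).card) * 2 ^ (J - x * D)
      ≤ (∑ X ∈ powersetCard x (univ : Finset (Fin n)),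
          gm n m (fun G => ∀ v ∈ X, dg G v < D)) * 2 ^ (J - x * D) :=
        Nat.mul_le_mul_right _ hun
    _ = ∑ X ∈ powersetCard x (univ : Finset (Fin n)),
          gm n m (fun G => ∀ v ∈ X, dg G v < D) * 2 ^ (J - x * D) := sum_mul _ _ _
    _ ≤ ∑ _X ∈ powersetCard x (univ : Finset (Fin n)),
          (x * D + 1) * (n.choose 2).choose m :=
        sum_le_sum fun X hX => LOW_.per_X hSPL hHYP hn hx hm hD hJ X (mem_powersetCard.1 hX).2
    _ = n.choose x * ((x * D + 1) * (n.choose 2).choose m) := by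
        rw [sum_const, card_powersetCard, card_univ, Fintype.card_fin, smul_eq_mul]

end Pool.Agent.SPC
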