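import Pool.Agent.SPC.Targets3

/-!
Block NLO of the project SPC (helper39), written by helper3: numbers for the low degrees.
-/

set_option autoImplicit false

namespace Pool.Agent.SPC

open Finset Classical Filter Topology
open Pool.Agent.Pend

namespace NLO_

/-- Binomial coefficients: `n.choose x ≤ exp (256 l x)` if `n ≤ 256 l x`. -/
theorem choose_le (n x l : ℕ) (hx : 1 ≤ x) (hl : 1 ≤ l) (h : n ≤ 256 * l * x) :
    ((n.choose x : ℕ) : ℝ) ≤ Real.exp (256 * l * x) := by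
  have hx0 : (0 : ℝ) < x := by exact_mod_cast hx
  have hl0 : (1 : ℝ) ≤ l := by exact_mod_cast hl
  have h1 : ((n.choose x : ℕ) : ℝ) ≤ (n : ℝ) ^ x / (x.factorial : ℝ) :=
    Nat.choose_le_pow_div x n
  have h2 : (n : ℝ) ≤ 256 * l * x := by exact_mod_cast h
  have h3 : (n : ℝ) ^ x ≤ (256 * l * x : ℝ) ^ x :=
    pow_le_pow_left₀ (Nat.cast_nonneg n) h2 x
  have hf : (0 : ℝ) < (x.factorial : ℝ) := by exact_mod_cast Nat.factorial_pos x
  have h4 : ((x : ℝ)) ^ x / (x.factorial : ℝ) ≤ Real.exp x :=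
    Real.pow_div_factorial_le_exp x hx0.le x
  have h5 : (256 * l : ℝ) ^ x ≤ Real.exp ((256 * l - 1) * x) := by
    have h6 : (256 * l : ℝ) ≤ Real.exp (256 * l - 1) := by
      have := Real.add_one_le_exp (256 * l - 1 : ℝ)
      linarith
    calc (256 * l : ℝ) ^ x ≤ (Real.exp (256 * l - 1)) ^ x :=
          pow_le_pow_left₀ (by positivity) h6 x
      _ = Real.exp ((256 * l - 1) * x) := by
          rw [← Real.exp_nat_mul]
          ring_nf
  calc ((n.choose x : ℕ) : ℝ) ≤ (n : ℝ) ^ x / (x.factorial : ℝ) := h1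
    _ ≤ (256 * l * x : ℝ) ^ x / (x.factorial : ℝ) := by gcongr
    _ = (256 * l : ℝ) ^ x * ((x : ℝ) ^ x / (x.factorial : ℝ)) := by
        rw [mul_pow (256 * l : ℝ) (x : ℝ) x]
        ring
    _ ≤ Real.exp ((256 * l - 1) * x) * Real.exp x :=
        mul_le_mul h5 h4 (by positivity) (Real.exp_pos _).le
    _ = Real.exp (256 * l * x) := by
        rw [← Real.exp_add]
        congr 1
        ring

/-- `exp (k / 2) ≤ 2 ^ k`. -/
theorem exp_half_le (k : ℕ) : Real.exp ((k : ℝ) / 2) ≤ 2 ^ k := by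
  have h : Real.exp (1 / 2 : ℝ) ≤ 2 := by
    have h2 : (1 / 2 : ℝ) ≤ Real.log 2 := by
      have := Real.log_two_gt_d9
      linarith
    calc Real.exp (1 / 2 : ℝ) ≤ Real.exp (Real.log 2) := Real.exp_le_exp.mpr h2
      _ = 2 := Real.exp_log (by norm_num)
  calc Real.exp ((k : ℝ) / 2) = (Real.exp (1 / 2 : ℝ)) ^ k := by
        rw [← Real.exp_nat_mul]
        ring_nf
    _ ≤ 2 ^ k := pow_le_pow_left₀ (Real.exp_pos _).le h k

theorem core (ε : ℝ) (c n m l Y : ℕ) (hε : 0 < ε) (hc : -Real.log ε ≤ c) (hc1 : 1 ≤ c)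
    (hl : 20 ≤ l) (hB : 256 * c * l ≤ n) (hYn : Y * n ≤ m)
    (h8 : 80000 * l ^ 2 ≤ Y + 1) :
    n / (128 * l) ≤ n ∧
    n / (128 * l) * (Y / 32) ≤ n / (128 * l) * m / (8 * n) ∧
    8 * (n / (128 * l) * m / (8 * n)) * n ≤ n / (128 * l) * m ∧
    ((n.choose (n / (128 * l)) * (n / (128 * l) * (Y / 32) + 1) : ℕ) : ℝ) *
      Real.exp (((n : ℝ) - 1) ^ 2 / ((m : ℝ) + 1 - n)) ≤
    ε * 2 ^ (n / (128 * l) * m / (8 * n) - n / (128 * l) * (Y / 32)) := by
  have hn0 : 0 < n := by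
    have : 0 < 256 * c * l := by positivity
    omega
  have hxc : 2 * c ≤ n / (128 * l) := by
    rw [Nat.le_div_iff_mul_le (by positivity)]
    calc 2 * c * (128 * l) = 256 * c * l := by ring
      _ ≤ n := hB
  have hnx : n ≤ 256 * l * (n / (128 * l)) := by
    have h1 : n < 128 * l * (n / (128 * l) + 1) := by
      have := Nat.lt_mul_div_succ n (show 0 < 128 * l by positivity)
      simpa using this
    have h2 : 128 * l * (n / (128 * l) + 1) ≤ 256 * l * (n / (128 * l)) := by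
      have : 1 ≤ n / (128 * l) := by omega
      nlinarith
    omega
  generalize hx : n / (128 * l) = x at *
  have hxn : x ≤ n := by
    rw [← hx]
    exact Nat.div_le_self _ _
  have hD : 32 * (Y / 32) ≤ Y := Nat.mul_div_le Y 32
  have h1 : x * (Y / 32) ≤ x * m / (8 * n) := by
    rw [Nat.le_div_iff_mul_le (by positivity)]
    calc x * (Y / 32) * (8 * n) = x * ((8 * (Y / 32)) * n) := by ring
      _ ≤ x * (Y * n) := by
          apply Nat.mul_le_mul_left
          apply Nat.mul_le_mul_right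
          omega
      _ ≤ x * m := Nat.mul_le_mul_left _ hYn
  have h2 : 8 * (x * m / (8 * n)) * n ≤ x * m := by
    calc 8 * (x * m / (8 * n)) * n = x * m / (8 * n) * (8 * n) := by ring
      _ ≤ x * m := Nat.div_mul_le_self _ _
  refine ⟨hxn, h1, h2, ?_⟩
  have hJ : x * Y ≤ 8 * (x * m / (8 * n)) + 7 := by
    have h3 : x * Y / 8 ≤ x * m / (8 * n) := by
      rw [Nat.le_div_iff_mul_le (by positivity)]
      calc x * Y / 8 * (8 * n) = (x * Y / 8 * 8) * n := by ring
        _ ≤ (x * Y) * n := Nat.mul_le_mul_right _ (Nat.div_mul_le_self _ _)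
        _ = x * (Y * n) := by ring
        _ ≤ x * m := Nat.mul_le_mul_left _ hYn
    omega
  generalize hJd : x * m / (8 * n) = J at *
  have hDx : 32 * (x * (Y / 32)) ≤ x * Y := by
    calc 32 * (x * (Y / 32)) = x * (32 * (Y / 32)) := by ring
      _ ≤ x * Y := Nat.mul_le_mul_left _ hD
  generalize hE : x * (Y / 32) = E at *
  -- real versions
  have hx2 : 2 * c ≤ x := hxc
  have hx1 : (1 : ℝ) ≤ x := by
    have : 1 ≤ x := by omega
    exact_mod_cast this
  have hlR : (20 : ℝ) ≤ l := by exact_mod_cast hl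
  have hcx : 2 * (c : ℝ) ≤ x := by exact_mod_cast hx2
  have h8R : 80000 * (l : ℝ) ^ 2 ≤ Y + 1 := by exact_mod_cast h8
  have hJR : (x : ℝ) * Y ≤ 8 * J + 7 := by exact_mod_cast hJ
  have hDR : 32 * (E : ℝ) ≤ x * Y := by exact_mod_cast hDx
  have hYnR : (Y : ℝ) * n ≤ m := by exact_mod_cast hYn
  have hnR : (1 : ℝ) ≤ n := by exact_mod_cast hn0
  have hnxR : (n : ℝ) ≤ 256 * l * x := by exact_mod_cast hnx
  have hYl : 1600000 * (l : ℝ) ≤ Y + 1 := by nlinarith
  have hYbig : 1599999 * (l : ℝ) ≤ Y := by linarith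
  -- the exponent
  have hlam : ((n : ℝ) - 1) ^ 2 / ((m : ℝ) + 1 - n) ≤ x := by
    have hpos : (0 : ℝ) < (m : ℝ) + 1 - n := by nlinarith
    rw [div_le_iff₀ hpos]
    have h3 : ((n : ℝ) - 1) ^ 2 ≤ n * n := by nlinarith
    have h4 : (n : ℝ) * n ≤ (256 * l * x) * n := by
      apply mul_le_mul_of_nonneg_right hnxR (by linarith)
    have h5 : (256 * l : ℝ) * n ≤ (m : ℝ) + 1 - n := by nlinarith
    have h6 : (x : ℝ) * ((256 * l : ℝ) * n) ≤ x * ((m : ℝ) + 1 - n) :=
      mul_le_mul_of_nonneg_left h5 (by linarith)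
    nlinarith
  have hch := choose_le n x l (by omega) (by omega) hnx
  have hE1 : ((E + 1 : ℕ) : ℝ) ≤ 2 ^ E := by
    have : E + 1 ≤ 2 ^ E := Nat.lt_two_pow_self
    exact_mod_cast this
  have hkey : 2 * E ≤ J := by
    have : 2 * (E : ℝ) ≤ J := by nlinarith
    exact_mod_cast this
  have hk : (((J - 2 * E : ℕ) : ℝ)) = (J : ℝ) - 2 * E := by
    push_cast [Nat.cast_sub hkey]
    ring
  have hmain : Real.exp (256 * l * x) * Real.exp (x : ℝ) ≤ ε * 2 ^ (J - 2 * E) := by
    have h3 := exp_half_le (J - 2 * E)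
    have h4 : Real.exp (256 * l * x) * Real.exp (x : ℝ) ≤
        ε * Real.exp (((J - 2 * E : ℕ) : ℝ) / 2) := by
      have h5 : ε = Real.exp (Real.log ε) := (Real.exp_log hε).symm
      rw [h5, ← Real.exp_add, ← Real.exp_add]
      apply Real.exp_le_exp.mpr
      rw [hk]
      have h6 : 1599999 * ((l : ℝ) * x) ≤ x * Y := by
        have := mul_le_mul_of_nonneg_left hYbig (show (0 : ℝ) ≤ x by linarith)
        linarith
      have h7 : 20 * (x : ℝ) ≤ l * x :=
        mul_le_mul_of_nonneg_right hlR (by linarith)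
      linarith
    exact h4.trans (mul_le_mul_of_nonneg_left h3 hε.le)
  have hsplit : (2 : ℝ) ^ (J - E) = 2 ^ E * 2 ^ (J - 2 * E) := by
    rw [← pow_add]
    congr 1
    omega
  calc ((n.choose x * (E + 1) : ℕ) : ℝ) * Real.exp (((n : ℝ) - 1) ^ 2 / ((m : ℝ) + 1 - n))
      = (n.choose x : ℝ) * ((E + 1 : ℕ) : ℝ) *
        Real.exp (((n : ℝ) - 1) ^ 2 / ((m : ℝ) + 1 - n)) := by push_cast; ring
    _ ≤ Real.exp (256 * l * x) * 2 ^ E * Real.exp (x : ℝ) := by
        apply mul_le_mul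
        · exact mul_le_mul hch hE1 (by positivity) (Real.exp_pos _).le
        · exact Real.exp_le_exp.mpr hlam
        · exact (Real.exp_pos _).le
        · positivity
    _ = 2 ^ E * (Real.exp (256 * l * x) * Real.exp (x : ℝ)) := by ring
    _ ≤ 2 ^ E * (ε * 2 ^ (J - 2 * E)) :=
        mul_le_mul_of_nonneg_left hmain (by positivity)
    _ = ε * 2 ^ (J - E) := by rw [hsplit]; ring

end NLO_

theorem p_NLO (hLL : T_LL) : T_NLO := by
  intro ε hε
  obtain ⟨c, hc⟩ := exists_nat_ge (max 1 (-Real.log ε))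
  obtain ⟨n0, h0⟩ := hLL (256 * c)
  refine ⟨n0, fun n m hn hq h8 => ?_⟩
  obtain ⟨-, -, hB⟩ := h0 n hn _ hq
  have hc1 : 1 ≤ c := by exact_mod_cast (le_trans (le_max_left _ _) hc)
  have hc2 : -Real.log ε ≤ c := le_trans (le_max_right _ _) hc
  have hl : 20 ≤ lq (m / n + 1) := by
    unfold lq
    omega
  exact NLO_.core ε c n m (lq (m / n + 1)) (m / n) hε hc2 hc1 hl hB
    (Nat.div_mul_le_self m n) h8

end Pool.Agent.SPC
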