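import Pool.Agent.SPC.Targets3

/-!
# SPD-NNT: numbers for the near twins
-/

set_option autoImplicit false

namespace Pool.Agent.SPC

open Finset Classical Filter Topology
open Pool.Agent.Pend

namespace NNT_

/-- polynomial against exponential -/
lemma ev_pow : ∃ T : ℕ, ∀ t : ℕ, T ≤ t → 64 * (t ^ 5 + 1) ^ 2 ≤ 2 ^ t := by
  have h := tendsto_pow_const_div_const_pow_of_one_lt 10 (by norm_num : (1 : ℝ) < 2)
  have h2 : ∀ᶠ t : ℕ in atTop, ((t : ℝ) ^ 10 / 2 ^ t) < 1 / 256 :=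
    h.eventually (gt_mem_nhds (by norm_num))
  obtain ⟨T, hT⟩ := eventually_atTop.1 h2
  refine ⟨max T 1, fun t ht => ?_⟩
  have h3 := hT t (le_trans (le_max_left _ _) ht)
  have ht1 : 1 ≤ t := le_trans (le_max_right _ _) ht
  rw [div_lt_iff₀ (by positivity)] at h3
  have h4 : (256 : ℝ) * (t : ℝ) ^ 10 ≤ 2 ^ t := by linarith
  have h5 : 256 * t ^ 10 ≤ 2 ^ t := by exact_mod_cast h4
  have h6 : 1 ≤ t ^ 5 := Nat.one_le_pow _ _ ht1
  refine le_trans ?_ h5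
  have h7 : (t ^ 5 + 1) ^ 2 ≤ (2 * t ^ 5) ^ 2 := Nat.pow_le_pow_left (by omega) 2
  calc 64 * (t ^ 5 + 1) ^ 2 ≤ 64 * (2 * t ^ 5) ^ 2 := Nat.mul_le_mul_left _ h7
    _ = 256 * t ^ 10 := by ring

lemma ev_n : ∃ n₀ : ℕ, ∀ n : ℕ, n₀ ≤ n → 64 * ((Nat.log 2 n) ^ 5 + 1) ^ 2 ≤ n := by
  obtain ⟨T, hT⟩ := ev_pow
  refine ⟨2 ^ T, fun n hn => ?_⟩
  have hn0 : n ≠ 0 := by
    have : 0 < 2 ^ T := by positivity
    omega
  have h1 : T ≤ Nat.log 2 n := by
    have := Nat.log_mono_right (b := 2) hn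
    rwa [Nat.log_pow (by norm_num)] at this
  exact (hT _ h1).trans (Nat.pow_log_le_self 2 hn0)

/-- the final exponent -/
lemma ev_log (ε : ℝ) : ∃ n₀ : ℕ, ∀ n : ℕ, n₀ ≤ n →
    9 / 4 * Real.log n - n ≤ Real.log ε := by
  have h := Real.isLittleO_log_id_atTop.bound (by norm_num : (0 : ℝ) < 1 / 9)
  have h' : ∀ᶠ n : ℕ in atTop, ‖Real.log (n : ℝ)‖ ≤ 1 / 9 * ‖(n : ℝ)‖ :=
    (tendsto_natCast_atTop_atTop (R := ℝ)).eventually h
  obtain ⟨n1, h1⟩ := eventually_atTop.1 h'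
  obtain ⟨n2, h2⟩ := exists_nat_ge (-(4 / 3) * Real.log ε)
  refine ⟨max n1 n2, fun n hn => ?_⟩
  have h3 := h1 n (le_trans (le_max_left _ _) hn)
  have h4 : (n2 : ℝ) ≤ n := by exact_mod_cast le_trans (le_max_right _ _) hn
  rw [Real.norm_of_nonneg (Nat.cast_nonneg n)] at h3
  have h5 := (le_abs_self _).trans h3
  have h6 : -(4 / 3) * Real.log ε ≤ n := h2.trans h4
  linarith

/-- the ratio of the binomial coefficients -/
lemma ratio (hRT : T_RT) {N m r : ℕ} (hr : r ≤ m) (hm : m ≤ N) (hm0 : 0 < m) {Λ : ℝ}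
    (hs : (m : ℝ) * Real.exp (Λ / 2) ≤ (N : ℝ) - m) :
    ((N.choose (m - r) : ℕ) : ℝ) ≤ (N.choose m : ℝ) * Real.exp (-(r * Λ / 2)) := by
  have h1 := hRT N m r hr hm
  have h2 : ((N.choose (m - r) : ℕ) : ℝ) * ((N : ℝ) - m) ^ r ≤ (N.choose m : ℝ) * (m : ℝ) ^ r := by
    rw [← Nat.cast_sub hm]
    exact_mod_cast h1
  have hmp : (0 : ℝ) < m := by exact_mod_cast hm0
  have h3 : ((m : ℝ) * Real.exp (Λ / 2)) ^ r ≤ ((N : ℝ) - m) ^ r :=
    pow_le_pow_left₀ (by positivity) hs r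
  have h4 : ((N.choose (m - r) : ℕ) : ℝ) * ((m : ℝ) * Real.exp (Λ / 2)) ^ r ≤
      (N.choose m : ℝ) * (m : ℝ) ^ r :=
    (mul_le_mul_of_nonneg_left h3 (Nat.cast_nonneg _)).trans h2
  rw [mul_pow, ← Real.exp_nat_mul] at h4
  have h5 : ((N.choose (m - r) : ℕ) : ℝ) * Real.exp (r * (Λ / 2)) ≤ (N.choose m : ℝ) := by
    have h6 : (0 : ℝ) < (m : ℝ) ^ r := by positivity
    refine le_of_mul_le_mul_right ?_ h6
    linarith [h4]
  have h7 : Real.exp (r * (Λ / 2)) * Real.exp (-(r * Λ / 2)) = 1 := by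
    rw [← Real.exp_add]
    convert Real.exp_zero using 2
    ring
  calc ((N.choose (m - r) : ℕ) : ℝ)
      = ((N.choose (m - r) : ℕ) : ℝ) * Real.exp (r * (Λ / 2)) * Real.exp (-(r * Λ / 2)) := by
        rw [mul_assoc, h7, mul_one]
    _ ≤ (N.choose m : ℝ) * Real.exp (-(r * Λ / 2)) :=
        mul_le_mul_of_nonneg_right h5 (Real.exp_pos _).le

/-- the inequality with independent variables -/
lemma core (hRT : T_RT) {ε : ℝ} (hε : 0 < ε) {n m l k D r b K : ℕ} (hn2' : 2 ≤ n)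
    (a1 : 64 * b ^ 2 ≤ n) (a2 : 9 / 4 * Real.log n - n ≤ Real.log ε)
    (a3 : (384 * l : ℝ) ≤ Real.log n) (hD1 : 4 * K + 28 ≤ D) (hm2n : 2 * n ≤ m)
    (hmlt : m < n * b) (hb1 : 1 ≤ b) (hk3 : n ≤ 384 * l * (2 * k)) (hrm : r ≤ m)
    (hr2 : k * D ≤ 2 * r + 1) :
    2 * m ≤ n.choose 2 ∧
    (2 * (n : ℝ) ^ (K + 2)) ^ k * (((m : ℝ) + 1) * (((n.choose 2).choose (m - r) : ℕ) : ℝ)) *
      Real.exp (((n : ℝ) - 1) ^ 2 / ((m : ℝ) + 1 - n)) ≤ ε * ((n.choose 2).choose m : ℝ) := by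
  have hnR : (2 : ℝ) ≤ n := by exact_mod_cast hn2'
  have hn0 : (0 : ℝ) < n := by linarith
  have hlog0 : 0 ≤ Real.log n := Real.log_nonneg (by linarith)
  have hexp0 : Real.exp (Real.log n) = n := Real.exp_log hn0
  generalize Real.log (n : ℝ) = Λ at *
  have hss : Real.exp (Λ / 2) * Real.exp (Λ / 2) = n := by
    rw [← Real.exp_add, ← hexp0]
    congr 1
    ring
  have hs0 : 0 < Real.exp (Λ / 2) := Real.exp_pos _
  have hbR : 64 * (b : ℝ) ^ 2 ≤ n := by exact_mod_cast a1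
  have hb0 : (1 : ℝ) ≤ b := by exact_mod_cast hb1
  have hbs : 8 * (b : ℝ) ≤ Real.exp (Λ / 2) := by
    refine abs_le_of_sq_le_sq' (a := 8 * (b : ℝ)) ?_ hs0.le |>.2
    nlinarith
  have hmR : (m : ℝ) ≤ n * b := by exact_mod_cast hmlt.le
  have hN : ((n.choose 2 : ℕ) : ℝ) = n * ((n : ℝ) - 1) / 2 := by
    rw [Nat.cast_choose_two]
  have hN4 : (n : ℝ) * n / 4 ≤ ((n.choose 2 : ℕ) : ℝ) := by
    rw [hN]
    nlinarith
  have hm64 : (m : ℝ) ≤ n * n / 64 := by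
    have : (b : ℝ) ≤ n / 64 := by nlinarith
    calc (m : ℝ) ≤ n * b := hmR
      _ ≤ n * (n / 64) := mul_le_mul_of_nonneg_left this hn0.le
      _ = n * n / 64 := by ring
  have hms : (m : ℝ) * Real.exp (Λ / 2) ≤ ((n.choose 2 : ℕ) : ℝ) - m := by
    have h1 : (m : ℝ) * Real.exp (Λ / 2) ≤ n * b * Real.exp (Λ / 2) :=
      mul_le_mul_of_nonneg_right hmR hs0.le
    have h2 : (n : ℝ) * b * Real.exp (Λ / 2) ≤ n * n / 8 := by
      have h3 : (b : ℝ) * Real.exp (Λ / 2) ≤ n / 8 := by nlinarith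
      calc (n : ℝ) * b * Real.exp (Λ / 2) = n * (b * Real.exp (Λ / 2)) := by ring
        _ ≤ n * (n / 8) := mul_le_mul_of_nonneg_left h3 hn0.le
        _ = n * n / 8 := by ring
    have h4 : 0 ≤ (n : ℝ) * n := by positivity
    linarith
  have h2m : 2 * m ≤ n.choose 2 := by
    have h4 : 0 ≤ (n : ℝ) * n := by positivity
    have : 2 * (m : ℝ) ≤ ((n.choose 2 : ℕ) : ℝ) := by linarith
    exact_mod_cast this
  refine ⟨h2m, ?_⟩
  have hmN : m ≤ n.choose 2 := by omega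
  have hm0 : 0 < m := by omega
  have hrat := ratio hRT hrm hmN hm0 hms
  -- the four factors
  have f1 : ((2 * (n : ℝ) ^ (K + 2)) ^ k) ≤ Real.exp ((((K : ℝ) + 3) * k) * Λ) := by
    have h1 : 2 * (n : ℝ) ^ (K + 2) ≤ (n : ℝ) ^ (K + 3) := by
      rw [pow_succ (n : ℝ) (K + 2), mul_comm]
      exact mul_le_mul_of_nonneg_left hnR (by positivity)
    refine (pow_le_pow_left₀ (by positivity) h1 k).trans (le_of_eq ?_)
    rw [← hexp0, ← Real.exp_nat_mul, ← Real.exp_nat_mul]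
    congr 1
    push_cast
    ring
  have f2 : (m : ℝ) + 1 ≤ Real.exp (2 * Λ) := by
    have h1 : Real.exp (2 * Λ) = n * n := by
      rw [two_mul, Real.exp_add, hexp0]
    rw [h1]
    nlinarith
  have f4 : Real.exp (((n : ℝ) - 1) ^ 2 / ((m : ℝ) + 1 - n)) ≤ Real.exp n := by
    have hmR2 : 2 * (n : ℝ) ≤ m := by exact_mod_cast hm2n
    rw [Real.exp_le_exp, div_le_iff₀ (by linarith)]
    nlinarith
  have hCN : (0 : ℝ) ≤ ((n.choose 2).choose m : ℝ) := Nat.cast_nonneg _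
  have g1 : (2 * (n : ℝ) ^ (K + 2)) ^ k *
      (((m : ℝ) + 1) * (((n.choose 2).choose (m - r) : ℕ) : ℝ)) *
      Real.exp (((n : ℝ) - 1) ^ 2 / ((m : ℝ) + 1 - n)) ≤
      Real.exp ((((K : ℝ) + 3) * k) * Λ) *
      (Real.exp (2 * Λ) * (((n.choose 2).choose m : ℝ) * Real.exp (-(r * Λ / 2)))) *
      Real.exp n := by
    refine mul_le_mul (mul_le_mul f1 (mul_le_mul f2 hrat (Nat.cast_nonneg _) (by positivity))
      (by positivity) (by positivity)) f4 (by positivity) (by positivity)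
  refine g1.trans ?_
  have g2 : Real.exp ((((K : ℝ) + 3) * k) * Λ) *
      (Real.exp (2 * Λ) * (((n.choose 2).choose m : ℝ) * Real.exp (-(r * Λ / 2)))) *
      Real.exp n = Real.exp ((((K : ℝ) + 3) * k) * Λ + 2 * Λ + -(r * Λ / 2) + n) *
      ((n.choose 2).choose m : ℝ) := by
    rw [Real.exp_add, Real.exp_add, Real.exp_add]
    ring
  rw [g2]
  refine mul_le_mul_of_nonneg_right ?_ hCN
  rw [← Real.exp_log hε, Real.exp_le_exp]
  refine le_trans ?_ a2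
  -- the exponent
  have c1 : (k : ℝ) * D ≤ 2 * r + 1 := by exact_mod_cast hr2
  have c2 : 4 * (K : ℝ) + 28 ≤ D := by exact_mod_cast hD1
  have c3 : (k : ℝ) * (4 * (K : ℝ) + 28) ≤ k * D :=
    mul_le_mul_of_nonneg_left c2 (Nat.cast_nonneg _)
  have c4 : (n : ℝ) ≤ 384 * l * (2 * k) := by exact_mod_cast hk3
  have c5 : (384 * (l : ℝ)) * k ≤ Λ * k := mul_le_mul_of_nonneg_right a3 (Nat.cast_nonneg _)
  have c6 : 2 * (n : ℝ) ≤ 4 * k * Λ := by linarith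
  have c7 : (((K : ℝ) + 7) * k - 1 / 4) ≤ r / 2 := by linarith
  have c8 := mul_le_mul_of_nonneg_right c7 hlog0
  linarith

end NNT_

open NNT_

theorem p_NNT (hLL : T_LL) (hRT : T_RT) : T_NNT := by
  intro ε hε
  obtain ⟨n1, hn1⟩ := ev_n
  obtain ⟨n2, hn2⟩ := ev_log ε
  obtain ⟨n3, hn3⟩ := hLL 384
  refine ⟨max (max n1 n2) (max n3 2), fun n m hn hq hl => ?_⟩
  have a1 := hn1 n (le_trans (le_trans (le_max_left _ _) (le_max_left _ _)) hn)
  have a2 := hn2 n (le_trans (le_trans (le_max_right _ _) (le_max_left _ _)) hn)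
  obtain ⟨a3, _, a4⟩ :=
    hn3 n (le_trans (le_trans (le_max_left _ _) (le_max_right _ _)) hn) (m / n + 1) hq
  have hn2' : 2 ≤ n := le_trans (le_trans (le_max_right _ _) (le_max_right _ _)) hn
  have hl20 : 20 ≤ lq (m / n + 1) := by
    unfold lq
    omega
  generalize lq (m / n + 1) = l at *
  have hL2 : 400 ≤ l ^ 2 := le_trans (by norm_num) (Nat.pow_le_pow_left hl20 2)
  have hD1 : 4 * (600 * l ^ 2) + 28 ≤ m / n / 32 := by omega
  have hmn2 : 2 ≤ m / n := by omega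
  have hm2n : 2 * n ≤ m := (Nat.le_div_iff_mul_le (by omega)).1 hmn2
  have hmlt : m < n * ((Nat.log 2 n) ^ 5 + 1) := by
    have h1 : m < n * (m / n + 1) := Nat.lt_mul_div_succ m (by omega)
    exact h1.trans_le (Nat.mul_le_mul_left n hq)
  have hk1 : 1 ≤ n / (384 * l) := (Nat.le_div_iff_mul_le (by omega)).2 (by omega)
  have hk2 : n < 384 * l * (n / (384 * l) + 1) := Nat.lt_mul_div_succ n (by omega)
  have hkn : n / (384 * l) ≤ n := Nat.div_le_self _ _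
  have hkD : n / (384 * l) * (m / n / 32) ≤ m :=
    (Nat.mul_le_mul hkn (Nat.div_le_self _ _)).trans (Nat.mul_div_le m n)
  have hrm : n / (384 * l) * (m / n / 32) / 2 ≤ m := (Nat.div_le_self _ _).trans hkD
  have hr2 : n / (384 * l) * (m / n / 32) ≤ 2 * (n / (384 * l) * (m / n / 32) / 2) + 1 := by
    omega
  have hk3 : n ≤ 384 * l * (2 * (n / (384 * l))) :=
    hk2.le.trans (Nat.mul_le_mul_left _ (by omega))
  have hfin := core hRT hε hn2' a1 a2 a3 hD1 hm2n hmlt (by omega) hk3 hrm hr2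
  refine ⟨hfin.1, ?_⟩
  have h := hfin.2
  have e : (((2 * n ^ (600 * l ^ 2 + 2)) ^ (n / (384 * l)) *
      ((m + 1) * (n.choose 2).choose (m - n / (384 * l) * (m / n / 32) / 2)) : ℕ) : ℝ) =
      (2 * (n : ℝ) ^ (600 * l ^ 2 + 2)) ^ (n / (384 * l)) * (((m : ℝ) + 1) *
        (((n.choose 2).choose (m - n / (384 * l) * (m / n / 32) / 2) : ℕ) : ℝ)) := by
    rw [Nat.cast_mul, Nat.cast_pow, Nat.cast_mul, Nat.cast_pow, Nat.cast_mul, Nat.cast_add]
    norm_num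
  rw [e]
  exact h

end Pool.Agent.SPC
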