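import Pool.Agent.SPC.Targets3

set_option autoImplicit false

/-!
# NT: near twins are rare
-/

namespace Pool.Agent.SPC

open Finset Classical Filter Topology
open Pool.Agent.Pend

namespace NT_

/-- the graph without the edges which meet the range of `τ` -/
def del {n k : ℕ} (τ : Fin k → Fin n) (G : SimpleGraph (Fin n)) : SimpleGraph (Fin n) where
  Adj x y := G.Adj x y ∧ (∀ i, x ≠ τ i) ∧ (∀ i, y ≠ τ i)
  symm := ⟨fun _ _ h => ⟨h.1.symm, h.2.2, h.2.1⟩⟩
  loopless := ⟨fun x h => G.loopless.irrefl x h.1⟩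

theorem del_adj {n k : ℕ} (τ : Fin k → Fin n) (G : SimpleGraph (Fin n)) (x y : Fin n) :
    (del τ G).Adj x y ↔ G.Adj x y ∧ (∀ i, x ≠ τ i) ∧ (∀ i, y ≠ τ i) := Iff.rfl

/-- the properties of a code of `G` -/
structure Code {n k : ℕ} (K : ℕ) (τ φ : Fin k → Fin n) (Z : Fin k → Finset (Fin n))
    (G : SimpleGraph (Fin n)) : Prop where
  out : ∀ i j, φ i ≠ τ j
  small : ∀ i, (Z i).card < K
  dist : ∀ i w, w ≠ τ i → w ≠ φ i → (w ∈ Z i ↔ ¬ (G.Adj w (τ i) ↔ G.Adj w (φ i)))

theorem determined {n k K : ℕ} {τ φ : Fin k → Fin n} {Z : Fin k → Finset (Fin n)}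
    {G1 G2 : SimpleGraph (Fin n)} (h1 : Code K τ φ Z G1) (h2 : Code K τ φ Z G2)
    (hb : ∀ i, G1.Adj (τ i) (φ i) ↔ G2.Adj (τ i) (φ i)) (hd : del τ G1 = del τ G2) : G1 = G2 := by
  have hout : ∀ x y, (∀ i, x ≠ τ i) → (∀ i, y ≠ τ i) → (G1.Adj x y ↔ G2.Adj x y) := by
    intro x y hx hy
    have e : (del τ G1).Adj x y ↔ (del τ G2).Adj x y := by rw [hd]
    rw [del_adj, del_adj] at e
    exact ⟨fun h => (e.1 ⟨h, hx, hy⟩).1, fun h => (e.2 ⟨h, hx, hy⟩).1⟩
  have hA : ∀ u, (∀ i, u ≠ τ i) → ∀ w, (G1.Adj w u ↔ G2.Adj w u) := by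
    intro u hu w
    by_cases hw : ∀ i, w ≠ τ i
    · exact hout w u hw hu
    · simp only [not_forall, not_not] at hw
      obtain ⟨j, rfl⟩ := hw
      by_cases hj : u = φ j
      · subst hj
        exact hb j
      · have e1 := h1.dist j u (hu j) hj
        have e2 := h2.dist j u (hu j) hj
        have e3 := hout u (φ j) hu (fun i => h1.out j i)
        rw [G1.adj_comm, G2.adj_comm]
        tauto
  ext x y
  by_cases hy : ∀ i, y ≠ τ i
  · exact hA y hy x
  · by_cases hx : ∀ i, x ≠ τ i
    · rw [G1.adj_comm, G2.adj_comm]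
      exact hA x hx y
    · simp only [not_forall, not_not] at hy hx
      obtain ⟨i, rfl⟩ := hy
      obtain ⟨j, rfl⟩ := hx
      by_cases hij : τ j = τ i
      · rw [hij]
        exact ⟨fun h => absurd h (G1.loopless.irrefl _), fun h => absurd h (G2.loopless.irrefl _)⟩
      · have e1 := h1.dist i (τ j) hij (fun h => h1.out i j h.symm)
        have e2 := h2.dist i (τ j) hij (fun h => h1.out i j h.symm)
        have e3 := hA (φ i) (fun l => h1.out i l) (τ j)
        tauto

theorem fib {n k : ℕ} {τ : Fin k → Fin n} (hτ : Function.Injective τ) (e : Sym2 (Fin n)) :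
    (univ.filter (fun i => τ i ∈ e)).card ≤ 2 := by
  induction e using Sym2.ind with
  | _ x y =>
    rw [← Finset.card_image_of_injective _ hτ]
    refine (Finset.card_le_card ?_).trans (Finset.card_le_two (a := x) (b := y))
    intro z hz
    simp only [Finset.mem_image, Finset.mem_filter, Finset.mem_univ, true_and, Sym2.mem_iff] at hz
    obtain ⟨i, hi, rfl⟩ := hz
    simpa using hi

theorem edges {n k m D : ℕ} {τ : Fin k → Fin n} (hτ : Function.Injective τ)
    {G : SimpleGraph (Fin n)} (hm : G.edgeSet.ncard = m) (hD : ∀ i, D ≤ dg G (τ i)) :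
    (del τ G).edgeSet.ncard ≤ m - k * D / 2 := by
  set E : Finset (Sym2 (Fin n)) := G.edgeFinset with hE
  set ET : Finset (Sym2 (Fin n)) := E.filter (fun e => ∃ i, τ i ∈ e) with hET
  have hEm : E.card = m := by
    rw [← hm, hE, ← Set.ncard_coe_finset, SimpleGraph.coe_edgeFinset]
  have hdel : (del τ G).edgeSet.ncard = (E.filter (fun e => ¬ ∃ i, τ i ∈ e)).card := by
    rw [← Set.ncard_coe_finset]
    congr 1
    ext e
    induction e using Sym2.ind with
    | _ x y =>
      simp only [SimpleGraph.mem_edgeSet, Finset.coe_filter, Set.mem_ofPred_eq, hE,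
        SimpleGraph.mem_edgeFinset, del_adj, Sym2.mem_iff, not_exists, not_or]
      constructor
      · rintro ⟨h1, h2, h3⟩
        exact ⟨h1, fun i => ⟨fun h => h2 i h.symm, fun h => h3 i h.symm⟩⟩
      · rintro ⟨h1, h2⟩
        exact ⟨h1, fun i h => (h2 i).1 h.symm, fun i h => (h2 i).2 h.symm⟩
  have hsum : ET.card + (E.filter (fun e => ¬ ∃ i, τ i ∈ e)).card = m := by
    rw [← hEm, hET]
    exact Finset.card_filter_add_card_filter_not _
  have hdeg : ∀ i, dg G (τ i) = (ET.filter (fun e => τ i ∈ e)).card := by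
    intro i
    have e1 : dg G (τ i) = (G.neighborFinset (τ i)).card := by
      unfold dg
      rw [SimpleGraph.neighborFinset_eq_filter]
    rw [e1, SimpleGraph.card_neighborFinset_eq_degree, ← SimpleGraph.card_incidenceFinset_eq_degree,
      SimpleGraph.incidenceFinset_eq_filter]
    congr 1
    ext e
    simp only [hET, hE, Finset.mem_filter]
    constructor
    · rintro ⟨h1, h2⟩
      exact ⟨⟨h1, i, h2⟩, h2⟩
    · rintro ⟨⟨h1, _⟩, h2⟩
      exact ⟨h1, h2⟩
  have hk : k * D ≤ 2 * ET.card := by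
    calc k * D = ∑ _i : Fin k, D := by simp
      _ ≤ ∑ i : Fin k, (ET.filter (fun e => τ i ∈ e)).card :=
          Finset.sum_le_sum fun i _ => by rw [← hdeg i]; exact hD i
      _ = ∑ e ∈ ET, (univ.filter (fun i => τ i ∈ e)).card := by
          simp only [Finset.card_filter]
          rw [Finset.sum_comm]
      _ ≤ ∑ _e ∈ ET, 2 := Finset.sum_le_sum fun e _ => fib hτ e
      _ = 2 * ET.card := by rw [Finset.sum_const, smul_eq_mul, mul_comm]
  rw [hdel]
  omega

theorem exists_code (hIND : T_IND) {n m K D k : ℕ} {G : SimpleGraph (Fin n)}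
    (hm : G.edgeSet.ncard = m)
    (hB : 3 * k ≤
      (univ.filter (fun v => D ≤ dg G v ∧ ∃ v', v' ≠ v ∧ ds G v v' < K)).card) :
    ∃ (τ φ : Fin k → Fin n) (Z : Fin k → Finset (Fin n)), Code K τ φ Z G ∧
      (del τ G).edgeSet.ncard ≤ m - k * D / 2 := by
  set B : Finset (Fin n) :=
    univ.filter (fun v => D ≤ dg G v ∧ ∃ v', v' ≠ v ∧ ds G v v' < K) with hBd
  have hf : ∀ v : Fin n, ∃ v' : Fin n, v ∈ B → v' ≠ v ∧ ds G v v' < K := by
    intro v
    by_cases hv : v ∈ B
    · have h := (Finset.mem_filter.1 hv).2.2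
      obtain ⟨v', h1, h2⟩ := h
      exact ⟨v', fun _ => ⟨h1, h2⟩⟩
    · exact ⟨v, fun h => absurd h hv⟩
  choose f hf using hf
  obtain ⟨T, hT, hTc, hTf⟩ := hIND (Fin n) B f (fun v hv => (hf v hv).1)
  obtain ⟨T', hT', hT'c⟩ := Finset.exists_subset_card_eq (s := T) (n := k) (by omega)
  set τ : Fin k → Fin n := fun i => T'.orderEmbOfFin hT'c i with hτ
  have hτi : Function.Injective τ := (T'.orderEmbOfFin hT'c).injective
  have hτm : ∀ i, τ i ∈ T' := fun i => T'.orderEmbOfFin_mem hT'c i
  have hτB : ∀ i, τ i ∈ B := fun i => hT (hT' (hτm i))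
  refine ⟨τ, fun i => f (τ i), fun i => univ.filter (fun w => w ≠ τ i ∧ w ≠ f (τ i) ∧
    ¬ (G.Adj w (τ i) ↔ G.Adj w (f (τ i)))), ⟨?_, ?_, ?_⟩, ?_⟩
  · intro i j h
    have h1 := hTf (τ i) (hT' (hτm i))
    have h2 : f (τ i) = τ j := h
    rw [h2] at h1
    exact h1 (hT' (hτm j))
  · intro i
    have h := (hf (τ i) (hτB i)).2
    unfold ds at h
    refine lt_of_le_of_lt (Finset.card_le_card fun w hw => ?_) h
    simp only [Finset.mem_filter, Finset.mem_univ, true_and] at hw ⊢
    exact hw
  · intro i w h1 h2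
    simp only [Finset.mem_filter, Finset.mem_univ, true_and]
    exact ⟨fun h => h.2.2, fun h => ⟨h1, h2, h⟩⟩
  · exact edges hτi hm fun i => (Finset.mem_filter.1 (hτB i)).2.1

theorem z_le {n : ℕ} (hn : 2 ≤ n) (K : ℕ) :
    ((univ : Finset (Finset (Fin n))).filter (fun Z => Z.card < K)).card ≤ n ^ K := by
  induction K with
  | zero => simp
  | succ K ih =>
    have hsub : (univ : Finset (Finset (Fin n))).filter (fun Z => Z.card < K + 1) ⊆
        (univ : Finset (Finset (Fin n))).filter (fun Z => Z.card < K) ∪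
          (univ : Finset (Fin n)).powersetCard K := by
      intro Z hZ
      simp only [Finset.mem_filter, Finset.mem_univ, true_and, Finset.mem_union,
        Finset.mem_powersetCard, Finset.subset_univ] at hZ ⊢
      omega
    have h1 := (Finset.card_le_card hsub).trans (Finset.card_union_le _ _)
    rw [Finset.card_powersetCard, Finset.card_univ, Fintype.card_fin] at h1
    have h2 := Nat.choose_le_pow n K
    have h3 : n ^ (K + 1) = n ^ K * n := pow_succ n K
    have h4 : n ^ K * 2 ≤ n ^ K * n := Nat.mul_le_mul_left _ hn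
    omega

theorem choose_mono {N : ℕ} : ∀ M : ℕ, M ≤ N / 2 → ∀ j ≤ M, N.choose j ≤ N.choose M := by
  intro M
  induction M with
  | zero =>
    intro _ j hj
    rw [Nat.le_zero.1 hj]
  | succ M ih =>
    intro hM j hj
    rcases Nat.lt_or_ge j (M + 1) with h | h
    · exact (ih (by omega) j (by omega)).trans (Nat.choose_le_succ_of_lt_half_left (by omega))
    · rw [le_antisymm hj h]

theorem filt {α : Type} (s : Finset α) (p : α → Prop) [DecidablePred p] (h : ∀ x, p x) :
    (s.filter p).card = s.card := by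
  rw [Finset.filter_true_of_mem (fun x _ => h x)]

theorem gm_true (hGMS : T_GMS) (n m : ℕ) : gm n m (fun _ => True) = (n.choose 2).choose m := by
  obtain ⟨h1, h2⟩ := hGMS n m (fun _ => True)
  rw [h1, filt]
  · rw [Finset.card_powersetCard, h2]
  · intro S
    trivial

theorem gm_mono {n m : ℕ} {P Q : SimpleGraph (Fin n) → Prop}
    (h : ∀ G : SimpleGraph (Fin n), G.edgeSet.ncard = m → P G → Q G) : gm n m P ≤ gm n m Q := by
  unfold gm
  refine Finset.card_le_card fun G hG => ?_
  simp only [Finset.mem_filter, Finset.mem_univ, true_and] at hG ⊢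
  exact ⟨hG.1, h G hG.1 hG.2⟩

theorem gm_le {n m : ℕ} {P : SimpleGraph (Fin n) → Prop} {β : Type} (t : Finset β)
    (r : SimpleGraph (Fin n) → β → Prop)
    (hs : ∀ G : SimpleGraph (Fin n), G.edgeSet.ncard = m → P G → ∃ b ∈ t, r G b)
    (ht : ∀ b G1 G2, r G1 b → r G2 b → G1 = G2) : gm n m P ≤ t.card := by
  unfold gm
  refine Finset.card_le_card_of_forall_subsingleton r ?_ ?_
  · intro G hG
    simp only [Finset.mem_filter, Finset.mem_univ, true_and] at hG
    obtain ⟨b, h1, h2⟩ := hs G hG.1 hG.2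
    exact ⟨b, h1, h2⟩
  · intro b _ G1 h1 G2 h2
    exact ht b G1 G2 h1.2 h2.2

theorem g_le (hGMS : T_GMS) {n m M : ℕ} (h2m : 2 * m ≤ n.choose 2) (hM : M ≤ m) :
    ((univ : Finset (SimpleGraph (Fin n))).filter (fun G => G.edgeSet.ncard ≤ M)).card ≤
      (m + 1) * (n.choose 2).choose M := by
  have hsub : (univ : Finset (SimpleGraph (Fin n))).filter (fun G => G.edgeSet.ncard ≤ M) ⊆
      (Finset.range (M + 1)).biUnion (fun j =>
        (univ : Finset (SimpleGraph (Fin n))).filter (fun G => G.edgeSet.ncard = j ∧ True)) := by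
    intro G hG
    simp only [Finset.mem_filter, Finset.mem_univ, true_and, Finset.mem_biUnion,
      Finset.mem_range] at hG ⊢
    exact ⟨G.edgeSet.ncard, by omega, rfl, trivial⟩
  refine (Finset.card_le_card hsub).trans (Finset.card_biUnion_le.trans ?_)
  calc ∑ j ∈ Finset.range (M + 1),
        ((univ : Finset (SimpleGraph (Fin n))).filter (fun G => G.edgeSet.ncard = j ∧ True)).card
      ≤ ∑ _j ∈ Finset.range (M + 1), (n.choose 2).choose M := by
        refine Finset.sum_le_sum fun j hj => ?_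
        have h3 := gm_true hGMS n j
        have h4 := choose_mono M (by omega) j (N := n.choose 2)
          (by have := Finset.mem_range.1 hj; omega)
        rw [← h3] at h4
        refine le_trans ?_ h4
        unfold gm
        refine Finset.card_le_card fun G hG => ?_
        simp only [Finset.mem_filter, Finset.mem_univ, true_and] at hG ⊢
        exact hG
    _ = (M + 1) * (n.choose 2).choose M := by
        rw [Finset.sum_const, Finset.card_range, smul_eq_mul]
    _ ≤ (m + 1) * (n.choose 2).choose M := Nat.mul_le_mul_right _ (by omega)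

end NT_

open NT_ in
/-- NT -/
theorem p_NT (hIND : T_IND) (hGMS : T_GMS) : T_NT := by
  intro n m K D k h2m
  rcases Nat.lt_or_ge n 2 with hn | hn
  · rcases Nat.eq_zero_or_pos k with hk | hk
    · subst hk
      have h1 : gm n m (fun G => 3 * 0 ≤
          (univ.filter (fun v => D ≤ dg G v ∧ ∃ v', v' ≠ v ∧ ds G v v' < K)).card) ≤
          gm n m (fun _ => True) := gm_mono fun _ _ _ => trivial
      refine h1.trans ?_
      rw [gm_true hGMS]
      simp only [pow_zero, zero_mul, Nat.zero_div, Nat.sub_zero, one_mul]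
      exact Nat.le_mul_of_pos_left _ (Nat.succ_pos m)
    · refine (gm_le (∅ : Finset Unit) (fun _ _ => False) ?_ (fun _ _ _ h => h.elim)).trans
        (Nat.zero_le _)
      intro G _ h
      exfalso
      have h2 : (univ.filter
          (fun v : Fin n => D ≤ dg G v ∧ ∃ v', v' ≠ v ∧ ds G v v' < K)) = ∅ := by
        rw [Finset.filter_eq_empty_iff]
        rintro v _ ⟨_, v', hv', _⟩
        apply hv'
        apply Fin.ext
        have := v.2
        have := v'.2
        omega
      rw [h2, Finset.card_empty] at h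
      omega
  · set M := m - k * D / 2 with hM
    set C : Finset ((Fin k → Fin n) × (Fin k → Fin n) × (Fin k → Finset (Fin n)) ×
        (Fin k → Bool) × SimpleGraph (Fin n)) :=
      univ ×ˢ (univ ×ˢ ((Fintype.piFinset fun _ =>
        (univ : Finset (Finset (Fin n))).filter (fun Z => Z.card < K)) ×ˢ (univ ×ˢ
          (univ : Finset (SimpleGraph (Fin n))).filter (fun G => G.edgeSet.ncard ≤ M)))) with hC
    have hcard : C.card ≤ (2 * n ^ (K + 2)) ^ k * ((m + 1) * (n.choose 2).choose M) := by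
      rw [hC, Finset.card_product, Finset.card_product, Finset.card_product, Finset.card_product]
      simp only [Finset.card_univ, Fintype.card_fun, Fintype.card_fin, Fintype.card_bool,
        Fintype.card_piFinset, Finset.prod_const]
      have h1 := Nat.pow_le_pow_left (z_le hn K) k
      have h2 := g_le hGMS h2m (M := M) (by omega)
      have h3 : (2 * n ^ (K + 2)) ^ k * ((m + 1) * (n.choose 2).choose M) =
          n ^ k * (n ^ k * ((n ^ K) ^ k * (2 ^ k * ((m + 1) * (n.choose 2).choose M)))) := by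
        have h4 : n ^ (2 * k) = n ^ k * n ^ k := by rw [two_mul, pow_add]
        rw [mul_pow, pow_add, mul_pow, ← pow_mul, ← pow_mul, h4]
        ring
      rw [h3]
      gcongr
    refine le_trans ?_ hcard
    refine gm_le C (fun G c => Code K c.1 c.2.1 c.2.2.1 G ∧
      (∀ i, c.2.2.2.1 i = true ↔ G.Adj (c.1 i) (c.2.1 i)) ∧ c.2.2.2.2 = del c.1 G) ?_ ?_
    · intro G hG1 hG2
      obtain ⟨τ, φ, Z, h1, h2⟩ := exists_code hIND hG1 hG2
      refine ⟨(τ, φ, Z, fun i => decide (G.Adj (τ i) (φ i)), del τ G), ?_, h1, ?_, rfl⟩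
      · rw [hC]
        simp only [Finset.mem_product, Finset.mem_univ, true_and, Fintype.mem_piFinset,
          Finset.mem_filter]
        exact ⟨fun i => h1.small i, h2⟩
      · intro i
        simp
    · intro c G1 G2 a1 a2
      refine determined a1.1 a2.1 (fun i => ?_) ?_
      · rw [← a1.2.1 i, ← a2.2.1 i]
      · rw [← a1.2.2, ← a2.2.2]

end Pool.Agent.SPC
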