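import Pool.Agent.SPC.Targets3

set_option autoImplicit false

/-!
# PRC: counting graphs in which two vertices have almost the same neighbours
-/

namespace Pool.Agent.SPC

open Finset Classical Filter Topology
open Pool.Agent.Pend

namespace PRC_

/-- the pairs of `u` with the members of `R` -/
noncomputable def st {n : ℕ} (R : Finset (Fin n)) (u : Fin n) : Finset (Sym2 (Fin n)) :=
  R.image (fun w => s(w, u))

theorem st_card {n : ℕ} (R : Finset (Fin n)) (u : Fin n) : (st R u).card = R.card := by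
  unfold st
  refine Finset.card_image_of_injective _ ?_
  intro w w' h
  exact Sym2.congr_left.1 h

theorem mem_st {n : ℕ} {R : Finset (Fin n)} {u : Fin n} {e : Sym2 (Fin n)} :
    e ∈ st R u ↔ ∃ w ∈ R, s(w, u) = e := by
  unfold st
  exact Finset.mem_image

theorem mem_prs {n : ℕ} (e : Sym2 (Fin n)) : e ∈ prs n ↔ ¬ e.IsDiag := by
  unfold prs
  rw [Finset.mem_filter]
  exact and_iff_right (Finset.mem_univ _)

theorem st_prs {n : ℕ} {R : Finset (Fin n)} {u : Fin n} (hu : u ∉ R) : st R u ⊆ prs n := by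
  intro e he
  obtain ⟨w, hw, rfl⟩ := mem_st.1 he
  rw [mem_prs, Sym2.mk_isDiag_iff]
  intro h
  have h' : w = u := h
  exact hu (h' ▸ hw)

theorem st_disj {n : ℕ} {R : Finset (Fin n)} {u v : Fin n} (huv : u ≠ v) (hv : v ∉ R) :
    Disjoint (st R u) (st R v) := by
  rw [Finset.disjoint_left]
  intro e h1 h2
  obtain ⟨w, hw, rfl⟩ := mem_st.1 h1
  obtain ⟨w', hw', h3⟩ := mem_st.1 h2
  rw [Sym2.eq_iff] at h3
  rcases h3 with ⟨_, h4⟩ | ⟨_, h4⟩
  · exact huv h4.symm
  · have h5 : v = w := h4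
    exact hv (h5 ▸ hw)

theorem gm_le {n m : ℕ} {P : SimpleGraph (Fin n) → Prop} {β : Type} (t : Finset β)
    (r : SimpleGraph (Fin n) → β → Prop)
    (hs : ∀ G : SimpleGraph (Fin n), G.edgeSet.ncard = m → P G → ∃ b ∈ t, r G b)
    (ht : ∀ b G1 G2, r G1 b → r G2 b → G1 = G2) : gm n m P ≤ t.card := by
  unfold gm
  refine Finset.card_le_card_of_forall_subsingleton r ?_ ?_
  · intro G hG
    simp only [Finset.mem_filter, Finset.mem_univ, true_and] at hG
    obtain ⟨b, h1, h2⟩ := hs G hG.1 hG.2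
    exact ⟨b, h1, h2⟩
  · intro b _ G1 h1 G2 h2
    exact ht b G1 G2 h1.2 h2.2

theorem gm_bU {n m : ℕ} {P : SimpleGraph (Fin n) → Prop} {β : Type} (t : Finset β)
    (R : β → SimpleGraph (Fin n) → Prop)
    (h : ∀ G : SimpleGraph (Fin n), P G → ∃ b ∈ t, R b G) :
    gm n m P ≤ ∑ b ∈ t, gm n m (R b) := by
  unfold gm
  refine (Finset.card_le_card ?_).trans (Finset.card_biUnion_le (s := t) (t := fun b =>
    (univ : Finset (SimpleGraph (Fin n))).filter (fun G => G.edgeSet.ncard = m ∧ R b G)))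
  intro G hG
  simp only [Finset.mem_filter, Finset.mem_univ, true_and, Finset.mem_biUnion] at hG ⊢
  obtain ⟨b, hb, hR⟩ := h G hG.2
  exact ⟨b, hb, hG.1, hR⟩

/-- the common part -/
noncomputable def jj {n : ℕ} (R : Finset (Fin n)) (u : Fin n) (G : SimpleGraph (Fin n)) :
    Finset (Fin n) := R.filter (fun w => G.Adj w u)

/-- the edges -/
noncomputable def ee {n : ℕ} (G : SimpleGraph (Fin n)) : Finset (Sym2 (Fin n)) :=
  G.edgeFinset

theorem mem_ee {n : ℕ} {G : SimpleGraph (Fin n)} {x y : Fin n} : s(x, y) ∈ ee G ↔ G.Adj x y := by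
  unfold ee
  rw [SimpleGraph.mem_edgeFinset, SimpleGraph.mem_edgeSet]

theorem ee_prs {n : ℕ} (G : SimpleGraph (Fin n)) : ee G ⊆ prs n := by
  intro e he
  rw [mem_prs]
  unfold ee at he
  rw [SimpleGraph.mem_edgeFinset] at he
  exact G.not_isDiag_of_mem_edgeSet he

theorem ee_card {n : ℕ} (G : SimpleGraph (Fin n)) : (ee G).card = G.edgeSet.ncard := by
  unfold ee
  rw [← Set.ncard_coe_finset, SimpleGraph.coe_edgeFinset]

theorem count {n m : ℕ} {u v : Fin n} {R : Finset (Fin n)} (huv : u ≠ v) (hu : u ∉ R)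
    (hv : v ∉ R) (hN : (prs n).card = n.choose 2) :
    gm n m (fun G => ∀ w ∈ R, (G.Adj w u ↔ G.Adj w v)) ≤
      ∑ j ∈ (range (R.card + 1)).filter (fun j => 2 * j ≤ m),
        R.card.choose j * (n.choose 2 - 2 * R.card).choose (m - 2 * j) := by
  set W : Finset (Sym2 (Fin n)) := st R u ∪ st R v with hW
  have hWc : W.card = 2 * R.card := by
    rw [hW, Finset.card_union_of_disjoint (st_disj huv hv), st_card, st_card]
    ring
  have hWp : W ⊆ prs n := Finset.union_subset (st_prs hu) (st_prs hv)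
  have hc : (prs n \ W).card = n.choose 2 - 2 * R.card := by
    rw [Finset.card_sdiff_of_subset hWp, hN, hWc]
  set t : Finset (Finset (Fin n) × Finset (Sym2 (Fin n))) :=
    ((range (R.card + 1)).filter (fun j => 2 * j ≤ m)).biUnion
      (fun j => R.powersetCard j ×ˢ (prs n \ W).powersetCard (m - 2 * j)) with ht
  have htc : t.card ≤ ∑ j ∈ (range (R.card + 1)).filter (fun j => 2 * j ≤ m),
        R.card.choose j * (n.choose 2 - 2 * R.card).choose (m - 2 * j) := by
    rw [ht]
    refine Finset.card_biUnion_le.trans (Finset.sum_le_sum fun j _ => ?_)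
    rw [Finset.card_product, Finset.card_powersetCard, Finset.card_powersetCard, hc]
  refine le_trans ?_ htc
  refine gm_le t (fun G b => b = (jj R u G, ee G \ W) ∧
    ∀ w ∈ R, (G.Adj w u ↔ G.Adj w v)) ?_ ?_
  · intro G hG hP
    refine ⟨(jj R u G, ee G \ W), ?_, rfl, hP⟩
    have h1 : ee G ∩ W = st (jj R u G) u ∪ st (jj R u G) v := by
      ext e
      rw [Finset.mem_inter, hW, Finset.mem_union, Finset.mem_union]
      constructor
      · rintro ⟨h2, h3 | h3⟩
        · obtain ⟨w, hw, rfl⟩ := mem_st.1 h3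
          refine Or.inl (mem_st.2 ⟨w, ?_, rfl⟩)
          unfold jj
          rw [Finset.mem_filter]
          exact ⟨hw, mem_ee.1 h2⟩
        · obtain ⟨w, hw, rfl⟩ := mem_st.1 h3
          refine Or.inr (mem_st.2 ⟨w, ?_, rfl⟩)
          unfold jj
          rw [Finset.mem_filter]
          exact ⟨hw, (hP w hw).2 (mem_ee.1 h2)⟩
      · rintro (h3 | h3)
        · obtain ⟨w, hw, rfl⟩ := mem_st.1 h3
          unfold jj at hw
          rw [Finset.mem_filter] at hw
          exact ⟨mem_ee.2 hw.2, Or.inl (mem_st.2 ⟨w, hw.1, rfl⟩)⟩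
        · obtain ⟨w, hw, rfl⟩ := mem_st.1 h3
          unfold jj at hw
          rw [Finset.mem_filter] at hw
          exact ⟨mem_ee.2 ((hP w hw.1).1 hw.2), Or.inr (mem_st.2 ⟨w, hw.1, rfl⟩)⟩
    have hjR : jj R u G ⊆ R := Finset.filter_subset _ _
    have h2 : (ee G ∩ W).card = 2 * (jj R u G).card := by
      rw [h1, Finset.card_union_of_disjoint (st_disj huv (fun h => hv (hjR h))), st_card,
        st_card]
      ring
    have h3 : (ee G \ W).card + (ee G ∩ W).card = m := by
      rw [Finset.card_sdiff_add_card_inter, ee_card, hG]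
    have h4 := Finset.card_le_card hjR
    rw [ht, Finset.mem_biUnion]
    refine ⟨(jj R u G).card, ?_, ?_⟩
    · rw [Finset.mem_filter, Finset.mem_range]
      exact ⟨by omega, by omega⟩
    · rw [Finset.mem_product, Finset.mem_powersetCard, Finset.mem_powersetCard]
      refine ⟨⟨hjR, rfl⟩, ?_, ?_⟩
      · exact Finset.sdiff_subset_sdiff (ee_prs G) (Finset.Subset.refl _)
      · show (ee G \ W).card = m - 2 * (jj R u G).card
        omega
  · rintro b G1 G2 ⟨h1, h2⟩ ⟨h3, h4⟩
    rw [h1] at h3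
    obtain ⟨h5, h6⟩ := Prod.mk.inj h3
    have hJ : ∀ w ∈ R, (G1.Adj w u ↔ G2.Adj w u) := by
      intro w hw
      have e1 : w ∈ jj R u G1 ↔ w ∈ jj R u G2 := by rw [h5]
      unfold jj at e1
      rw [Finset.mem_filter, Finset.mem_filter] at e1
      exact ⟨fun h => (e1.1 ⟨hw, h⟩).2, fun h => (e1.2 ⟨hw, h⟩).2⟩
    ext x y
    by_cases hxy : s(x, y) ∈ W
    · rw [hW, Finset.mem_union] at hxy
      rcases hxy with h | h
      · obtain ⟨w, hw, he⟩ := mem_st.1 h
        rw [← mem_ee, ← mem_ee, ← he, mem_ee, mem_ee]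
        exact hJ w hw
      · obtain ⟨w, hw, he⟩ := mem_st.1 h
        rw [← mem_ee, ← mem_ee, ← he, mem_ee, mem_ee, ← h2 w hw, ← h4 w hw]
        exact hJ w hw
    · have e1 : s(x, y) ∈ ee G1 \ W ↔ s(x, y) ∈ ee G2 \ W := by rw [h6]
      rw [Finset.mem_sdiff, Finset.mem_sdiff, mem_ee, mem_ee] at e1
      exact ⟨fun h => (e1.1 ⟨h, hxy⟩).1, fun h => (e1.2 ⟨h, hxy⟩).1⟩

theorem z_le {n : ℕ} (hn : 2 ≤ n) (K : ℕ) :
    ((univ : Finset (Finset (Fin n))).filter (fun Z => Z.card < K)).card ≤ n ^ K := by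
  induction K with
  | zero => simp
  | succ K ih =>
    have hsub : (univ : Finset (Finset (Fin n))).filter (fun Z => Z.card < K + 1) ⊆
        (univ : Finset (Finset (Fin n))).filter (fun Z => Z.card < K) ∪
          (univ : Finset (Fin n)).powersetCard K := by
      intro Z hZ
      simp only [Finset.mem_filter, Finset.mem_univ, true_and, Finset.mem_union,
        Finset.mem_powersetCard, Finset.subset_univ] at hZ ⊢
      omega
    have h1 := (Finset.card_le_card hsub).trans (Finset.card_union_le _ _)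
    rw [Finset.card_powersetCard, Finset.card_univ, Fintype.card_fin] at h1
    have h2 := Nat.choose_le_pow n K
    have h3 : n ^ (K + 1) = n ^ K * n := pow_succ n K
    have h4 : n ^ K * 2 ≤ n ^ K * n := Nat.mul_le_mul_left _ hn
    omega

/-- for one pair and one set of exceptions -/
theorem one (hAGR : T_AGR) {n m K h : ℕ} {u v : Fin n} {Z : Finset (Fin n)} (huv : u ≠ v)
    (hZ : Z.card < K) (hN : (prs n).card = n.choose 2) (h2m : 2 * m ≤ n.choose 2)
    (hh : 32 * h ≤ n - 1 - K) (hh2 : 12 * h * n.choose 2 ≤ (n - 1 - K) * m) :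
    gm n m (fun G => ∀ w, w ≠ u → w ≠ v → w ∉ Z → (G.Adj w u ↔ G.Adj w v)) * 2 ^ h ≤
      n * (n.choose 2).choose m := by
  set R : Finset (Fin n) := univ.filter (fun w => w ≠ u ∧ w ≠ v ∧ w ∉ Z) with hR
  have hu : u ∉ R := by
    rw [hR, Finset.mem_filter]
    exact fun h => h.2.1 rfl
  have hv : v ∉ R := by
    rw [hR, Finset.mem_filter]
    exact fun h => h.2.2.1 rfl
  have hsub : (univ : Finset (Fin n)) ⊆ R ∪ ({u, v} ∪ Z) := by
    intro w _
    rw [Finset.mem_union, Finset.mem_union, Finset.mem_insert, Finset.mem_singleton, hR,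
      Finset.mem_filter]
    by_cases h1 : w = u
    · exact Or.inr (Or.inl (Or.inl h1))
    by_cases h2 : w = v
    · exact Or.inr (Or.inl (Or.inr h2))
    by_cases h3 : w ∈ Z
    · exact Or.inr (Or.inr h3)
    exact Or.inl ⟨Finset.mem_univ _, h1, h2, h3⟩
  have c1 : n ≤ R.card + (2 + Z.card) := by
    have h1 := Finset.card_le_card hsub
    rw [Finset.card_univ, Fintype.card_fin] at h1
    have h2 := Finset.card_union_le R ({u, v} ∪ Z)
    have h3 := Finset.card_union_le {u, v} Z
    have h4 : ({u, v} : Finset (Fin n)).card ≤ 2 := Finset.card_le_two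
    omega
  have c2 : R.card + 2 ≤ n := by
    have h1 : insert u (insert v R) ⊆ (univ : Finset (Fin n)) := Finset.subset_univ _
    have h2 := Finset.card_le_card h1
    rw [Finset.card_univ, Fintype.card_fin, Finset.card_insert_of_notMem, 
      Finset.card_insert_of_notMem hv] at h2
    · omega
    · rw [Finset.mem_insert]
      rintro (h3 | h3)
      · exact huv h3
      · exact hu h3
  have c3 : n - 1 - K ≤ R.card := by omega
  have c4 : 2 * R.card ≤ n.choose 2 := by
    have h1 : st R u ∪ st R v ⊆ prs n := Finset.union_subset (st_prs hu) (st_prs hv)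
    have h2 := Finset.card_le_card h1
    rw [hN, Finset.card_union_of_disjoint (st_disj huv hv), st_card, st_card] at h2
    omega
  have h1 : gm n m (fun G => ∀ w, w ≠ u → w ≠ v → w ∉ Z → (G.Adj w u ↔ G.Adj w v)) ≤
      gm n m (fun G => ∀ w ∈ R, (G.Adj w u ↔ G.Adj w v)) := by
    unfold gm
    refine Finset.card_le_card fun G hG => ?_
    simp only [Finset.mem_filter, Finset.mem_univ, true_and] at hG ⊢
    refine ⟨hG.1, fun w hw => ?_⟩
    rw [hR, Finset.mem_filter] at hw
    exact hG.2 w hw.2.1 hw.2.2.1 hw.2.2.2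
  have h2 := h1.trans (count huv hu hv hN)
  calc gm n m (fun G => ∀ w, w ≠ u → w ≠ v → w ∉ Z → (G.Adj w u ↔ G.Adj w v)) * 2 ^ h
      ≤ (∑ j ∈ (range (R.card + 1)).filter (fun j => 2 * j ≤ m),
        R.card.choose j * (n.choose 2 - 2 * R.card).choose (m - 2 * j)) * 2 ^ h := by
        gcongr
    _ = ∑ j ∈ (range (R.card + 1)).filter (fun j => 2 * j ≤ m),
        R.card.choose j * (n.choose 2 - 2 * R.card).choose (m - 2 * j) * 2 ^ h := by
        rw [Finset.sum_mul]
    _ ≤ ∑ _j ∈ (range (R.card + 1)).filter (fun j => 2 * j ≤ m), (n.choose 2).choose m := by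
        refine Finset.sum_le_sum fun j hj => ?_
        rw [Finset.mem_filter] at hj
        exact hAGR (n.choose 2) m R.card h j c4 h2m (hh.trans c3)
          (hh2.trans (Nat.mul_le_mul_right _ c3)) hj.2
    _ = ((range (R.card + 1)).filter (fun j => 2 * j ≤ m)).card * (n.choose 2).choose m := by
        rw [Finset.sum_const, smul_eq_mul]
    _ ≤ n * (n.choose 2).choose m := by
        gcongr
        refine (Finset.card_filter_le _ _).trans ?_
        rw [Finset.card_range]
        omega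

end PRC_

open PRC_ in
theorem p_PRC (hGMS : T_GMS) (hAGR : T_AGR) : T_PRC := by
  intro n m K h h2m hh hh2
  have hN : (prs n).card = n.choose 2 := (hGMS n m (fun _ => True)).2
  rcases Nat.lt_or_ge n 2 with hn | hn
  · have h0 : gm n m (fun G => ∃ u v, u ≠ v ∧ ds G u v < K) = 0 := by
      refine Nat.le_zero.1 (gm_le (∅ : Finset Unit) (fun _ _ => False) ?_ (fun _ _ _ h => h.elim))
      rintro G _ ⟨u, v, huv, _⟩
      exfalso
      apply huv
      apply Fin.ext
      have := u.2
      have := v.2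
      omega
    rw [h0, zero_mul]
    exact Nat.zero_le _
  · set t : Finset (Fin n × Fin n × Finset (Fin n)) :=
      (univ ×ˢ (univ ×ˢ (univ : Finset (Finset (Fin n))).filter (fun Z => Z.card < K))).filter
        (fun b => b.1 ≠ b.2.1) with ht
    have htc : t.card ≤ n ^ (K + 2) := by
      rw [ht]
      refine (Finset.card_filter_le _ _).trans ?_
      rw [Finset.card_product, Finset.card_product, Finset.card_univ, Fintype.card_fin]
      have h1 := z_le hn K
      calc n * (n * ((univ : Finset (Finset (Fin n))).filter (fun Z => Z.card < K)).card)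
          ≤ n * (n * n ^ K) := by gcongr
        _ = n ^ (K + 2) := by ring
    have h1 : gm n m (fun G => ∃ u v, u ≠ v ∧ ds G u v < K) ≤
        ∑ b ∈ t, gm n m (fun G => ∀ w, w ≠ b.1 → w ≠ b.2.1 → w ∉ b.2.2 →
          (G.Adj w b.1 ↔ G.Adj w b.2.1)) := by
      refine gm_bU t (fun b G => ∀ w, w ≠ b.1 → w ≠ b.2.1 → w ∉ b.2.2 →
          (G.Adj w b.1 ↔ G.Adj w b.2.1)) ?_
      rintro G ⟨u, v, huv, hd⟩
      refine ⟨(u, v, univ.filter (fun w => w ≠ u ∧ w ≠ v ∧ ¬ (G.Adj w u ↔ G.Adj w v))), ?_, ?_⟩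
      · rw [ht, Finset.mem_filter, Finset.mem_product, Finset.mem_product, Finset.mem_filter]
        refine ⟨⟨Finset.mem_univ _, Finset.mem_univ _, Finset.mem_univ _, ?_⟩, huv⟩
        unfold ds at hd
        convert hd
      · intro w h1 h2 h3
        by_contra h4
        apply h3
        show w ∈ univ.filter (fun w => w ≠ u ∧ w ≠ v ∧ ¬ (G.Adj w u ↔ G.Adj w v))
        rw [Finset.mem_filter]
        exact ⟨Finset.mem_univ _, h1, h2, h4⟩
    calc gm n m (fun G => ∃ u v, u ≠ v ∧ ds G u v < K) * 2 ^ h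
        ≤ (∑ b ∈ t, gm n m (fun G => ∀ w, w ≠ b.1 → w ≠ b.2.1 → w ∉ b.2.2 →
          (G.Adj w b.1 ↔ G.Adj w b.2.1))) * 2 ^ h := by gcongr
      _ = ∑ b ∈ t, gm n m (fun G => ∀ w, w ≠ b.1 → w ≠ b.2.1 → w ∉ b.2.2 →
          (G.Adj w b.1 ↔ G.Adj w b.2.1)) * 2 ^ h := by rw [Finset.sum_mul]
      _ ≤ ∑ _b ∈ t, n * (n.choose 2).choose m := by
          refine Finset.sum_le_sum fun b hb => ?_
          rw [ht, Finset.mem_filter, Finset.mem_product, Finset.mem_product,
            Finset.mem_filter] at hb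
          exact one hAGR hb.2 hb.1.2.2.2 hN h2m hh hh2
      _ = t.card * (n * (n.choose 2).choose m) := by rw [Finset.sum_const, smul_eq_mul]
      _ ≤ n ^ (K + 2) * (n * (n.choose 2).choose m) := by gcongr
      _ = n ^ (K + 3) * (n.choose 2).choose m := by ring

end Pool.Agent.SPC
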