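import Pool.Agent.SPC.Targets3

/-!
# SPC, target QA: polylogarithmic against linear
-/

set_option autoImplicit false

namespace Pool.Agent.SPC

open Finset Classical Filter Topology
open Pool.Agent.Pend

theorem QA_num (t : ℕ) : 80000 * (2 * (t + 40) + 20) ^ 2 ≤ 2 ^ (t + 40) := by
  induction t with
  | zero => norm_num
  | succ t ih =>
    have h1 : 2 ^ (t + 1 + 40) = 2 * 2 ^ (t + 40) := by
      rw [show t + 1 + 40 = (t + 40) + 1 by ring, Nat.pow_succ, Nat.mul_comm]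
    have h2 : (2 * (t + 1 + 40) + 20) ^ 2 ≤ 2 * (2 * (t + 40) + 20) ^ 2 := by
      have h3 : 2 * (t + 1 + 40) + 20 = (2 * (t + 40) + 20) + 2 := by ring
      rw [h3]
      have h4 : 100 ≤ 2 * (t + 40) + 20 := by omega
      generalize 2 * (t + 40) + 20 = a at h4
      nlinarith
    rw [h1]
    calc 80000 * (2 * (t + 1 + 40) + 20) ^ 2 ≤ 80000 * (2 * (2 * (t + 40) + 20) ^ 2) :=
          Nat.mul_le_mul_left _ h2
      _ = 2 * (80000 * (2 * (t + 40) + 20) ^ 2) := by ring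
      _ ≤ 2 * 2 ^ (t + 40) := Nat.mul_le_mul_left _ ih

/-- QA -/
theorem p_QA : T_QA := by
  refine ⟨2 ^ 40, by norm_num, fun q hq => ?_⟩
  have hq0 : q ≠ 0 := by
    rintro rfl
    norm_num at hq
  have h1 : 40 ≤ Nat.log 2 q := (Nat.le_log_iff_pow_le (by norm_num) hq0).2 hq
  obtain ⟨t, ht⟩ := Nat.exists_eq_add_of_le' h1
  have h2 := QA_num t
  rw [← ht] at h2
  exact h2.trans (Nat.pow_log_le_self 2 hq0)

end Pool.Agent.SPC
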