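import Pool.Agent.SPC.Targets3

set_option autoImplicit false

/-!
Project SPC, target RT (helper66).
-/

namespace Pool.Agent.SPC

open Finset Classical Filter Topology
open Pool.Agent.Pend

theorem p_RT : T_RT := by
  intro N m r hr hm
  induction r with
  | zero => simp
  | succ r ih =>
    have h1 := ih (by omega)
    obtain ⟨j, hj⟩ : ∃ j, m - r = j + 1 := ⟨m - r - 1, by omega⟩
    have e : m - (r + 1) = j := by omega
    rw [e]
    rw [hj] at h1
    have h2 := Nat.choose_succ_right_eq N j
    have h3 : N - m ≤ N - j := by omega
    have h4 : j + 1 ≤ m := by omega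
    calc N.choose j * (N - m) ^ (r + 1) = N.choose j * (N - m) * (N - m) ^ r := by ring
      _ ≤ N.choose j * (N - j) * (N - m) ^ r := by gcongr
      _ = N.choose (j + 1) * (N - m) ^ r * (j + 1) := by rw [← h2]; ring
      _ ≤ N.choose m * m ^ r * m := by gcongr
      _ = N.choose m * m ^ (r + 1) := by ring

end Pool.Agent.SPC
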