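import Pool.Agent.SPC.Targets3
import Pool.Agent.Lib.Recon.Local

/-!
SPC, third part: SEL, a small connected distinguishing set.
-/

set_option autoImplicit false
set_option linter.unusedSectionVars false

namespace Pool.Agent.SPC

open Finset Classical Filter Topology
open Pool.Agent.Pend

namespace SEL_

open Pool.Agent.Lib.Recon

variable {V : Type} [Fintype V] [DecidableEq V]

lemma dg_eq (G : SimpleGraph V) (v : V) : dg G v = (nb G v).card := rfl

lemma ds_eq (G : SimpleGraph V) (u v : V) : ds G u v = (dset G u v).card := by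
  unfold ds
  congr 1
  ext w
  rw [mem_dset]
  simp

theorem main (G : SimpleGraph V) (hG : G.Connected) (Δ K k : ℕ) (X : Finset V) (hΔ : 1 ≤ Δ)
    (hk : 1 ≤ k) (hK : K ≤ Fintype.card V) (hX : ∀ v, v ∉ X → K ≤ dg G v)
    (hD : ∀ u v, u ∉ X → v ∉ X → u ≠ v → K ≤ ds G u v) :
    ∃ A : Finset V, Built G A ∧
      (∀ u v, u ∉ A → v ∉ A → (∀ a ∈ A, G.Adj a u ↔ G.Adj a v) → u = v) ∧
      (A.card : ℝ) + 2 ≤ 3 * ((k : ℝ) + X.card +
        ∑ v ∈ univ.filter (fun v => Δ < dg G v), ((dg G v : ℝ) + 1) +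
        2 * (Fintype.card V : ℝ) * (Δ : ℝ) ^ 2 * (1 - (K : ℝ) / Fintype.card V) ^ k) := by
  have hV : 0 < Fintype.card V := by
    have := hG.nonempty
    exact Fintype.card_pos
  have hnR : (0 : ℝ) < Fintype.card V := by exact_mod_cast hV
  -- the closed neighbourhoods of the high vertices
  let Y : Finset V := (univ.filter (fun v => Δ < dg G v)).biUnion
    (fun v => insert v (nb G v))
  have hYcard : Y.card ≤ ∑ v ∈ univ.filter (fun v => Δ < dg G v), (dg G v + 1) := by
    refine Finset.card_biUnion_le.trans (Finset.sum_le_sum fun v _ => ?_)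
    rw [dg_eq]
    exact Finset.card_insert_le _ _
  let I : Finset (V × V) := univ.filter
    (fun p => (p.1 ≠ p.2 ∧ p.1 ∉ X ∧ p.2 ∉ X ∧ p.1 ∉ Y) ∧ ∃ a, G.Adj a p.1 ∧ G.Adj a p.2)
  let J : Finset V := univ.filter (fun u => u ∉ X)
  have hIcard : I.card ≤ Fintype.card V * Δ ^ 2 := by
    have hsub : I ⊆ (univ.filter (fun b => dg G b ≤ Δ)).biUnion
        (fun a => (nb G a) ×ˢ (nb G a)) := by
      intro p hp
      simp only [I, Finset.mem_filter, Finset.mem_univ, true_and] at hp
      obtain ⟨⟨_, _, _, h3⟩, a, h1, h2⟩ := hp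
      rw [Finset.mem_biUnion]
      refine ⟨a, ?_, ?_⟩
      · rw [Finset.mem_filter]
        refine ⟨Finset.mem_univ a, ?_⟩
        by_contra h4
        apply h3
        rw [Finset.mem_biUnion]
        refine ⟨a, Finset.mem_filter.2 ⟨Finset.mem_univ a, not_le.1 h4⟩, ?_⟩
        rw [Finset.mem_insert, mem_nb]
        exact Or.inr h1
      · rw [Finset.mem_product, mem_nb, mem_nb]
        exact ⟨h1, h2⟩
    calc I.card ≤ _ := Finset.card_le_card hsub
      _ ≤ ∑ a ∈ univ.filter (fun b => dg G b ≤ Δ), ((nb G a) ×ˢ (nb G a)).card :=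
          Finset.card_biUnion_le
      _ ≤ ∑ a ∈ univ.filter (fun b => dg G b ≤ Δ), Δ ^ 2 := by
          apply Finset.sum_le_sum
          intro a ha
          have h1 := (Finset.mem_filter.1 ha).2
          rw [dg_eq] at h1
          rw [Finset.card_product, sq]
          exact Nat.mul_le_mul h1 h1
      _ = (univ.filter (fun b => dg G b ≤ Δ)).card * Δ ^ 2 := by
          rw [Finset.sum_const, smul_eq_mul]
      _ ≤ _ := Nat.mul_le_mul_right _ (Finset.card_le_univ _)
  have hJcard : J.card ≤ Fintype.card V := Finset.card_le_univ J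
  obtain ⟨a, ha⟩ := exists_seq k I (fun p => dset G p.1 p.2) (K : ℝ)
    (by
      intro p hp
      simp only [I, Finset.mem_filter, Finset.mem_univ, true_and] at hp
      have h1 := hD p.1 p.2 hp.1.2.1 hp.1.2.2.1 hp.1.1
      rw [ds_eq] at h1
      exact_mod_cast h1)
    J (fun u => nb G u) (K : ℝ)
    (by
      intro u hu
      simp only [J, Finset.mem_filter, Finset.mem_univ, true_and] at hu
      have h1 := hX u hu
      rw [dg_eq] at h1
      exact_mod_cast h1) hV
  set U1 := I.filter (fun i => ∀ j, a j ∉ dset G i.1 i.2) with hU1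
  set U2 := J.filter (fun i => ∀ j, a j ∉ nb G i) with hU2
  let S : Finset V := (Finset.univ.image a) ∪ X ∪ Y ∪ (U1.image Prod.fst) ∪ U2
  have hSmem : ∀ v, v ∉ S → v ∉ X ∧ v ∉ Y ∧ (∀ p ∈ U1, p.1 ≠ v) ∧ v ∉ U2 := by
    intro v hv
    simp only [S, Finset.mem_union, not_or] at hv
    obtain ⟨⟨⟨⟨h1, h2⟩, h3⟩, h4⟩, h5⟩ := hv
    exact ⟨h2, h3, fun p hp hpv => h4 (Finset.mem_image.mpr ⟨p, hp, hpv⟩), h5⟩
  have haS : ∀ j, a j ∈ S := by
    intro j
    simp only [S, Finset.mem_union]
    exact Or.inl (Or.inl (Or.inl (Or.inl (Finset.mem_image.mpr ⟨j, Finset.mem_univ j, rfl⟩))))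
  have hhitn : ∀ v, v ∉ S → ∃ j, G.Adj (a j) v := by
    intro v hv
    obtain ⟨h1, h2, h3, h4⟩ := hSmem v hv
    by_contra hcon
    push Not at hcon
    apply h4
    rw [hU2, Finset.mem_filter]
    refine ⟨Finset.mem_filter.2 ⟨Finset.mem_univ v, h1⟩, fun j hj => ?_⟩
    exact hcon j ((mem_nb.1 hj).symm)
  -- S is dominating
  have hdom : ∀ v, v ∉ S → ∃ s ∈ S, G.Adj s v := by
    intro v hv
    obtain ⟨j, hj⟩ := hhitn v hv
    exact ⟨a j, haS j, hj⟩
  obtain ⟨A, hA, hSA, hAc⟩ := exists_built G hG S ⟨a ⟨0, hk⟩, haS _⟩ hdom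
  refine ⟨A, hA, ?_, ?_⟩
  · intro u v hu hv htr
    have huS : u ∉ S := fun h => hu (hSA h)
    have hvS : v ∉ S := fun h => hv (hSA h)
    by_contra huv
    obtain ⟨i, hi⟩ := hhitn u huS
    have hi2 : G.Adj (a i) v := (htr (a i) (hSA (haS i))).1 hi
    have hpI : (u, v) ∈ I := by
      simp only [I, Finset.mem_filter, Finset.mem_univ, true_and]
      exact ⟨⟨huv, (hSmem u huS).1, (hSmem v hvS).1, (hSmem u huS).2.1⟩, a i, hi, hi2⟩
    have hhit : ∃ j, a j ∈ dset G u v := by
      by_contra hcon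
      push Not at hcon
      have : (u, v) ∈ U1 := Finset.mem_filter.mpr ⟨hpI, hcon⟩
      exact (hSmem u huS).2.2.1 _ this rfl
    obtain ⟨j, hj⟩ := hhit
    exact (mem_dset.mp hj).2.2 (htr (a j) (hSA (haS j)))
  · have hScard : S.card ≤ k + X.card + Y.card + U1.card + U2.card := by
      have e1 : (Finset.univ.image a).card ≤ k := by
        refine le_trans Finset.card_image_le ?_
        simp
      have e2 : (U1.image Prod.fst).card ≤ U1.card := Finset.card_image_le
      have e3 := Finset.card_union_le ((Finset.univ.image a) ∪ X ∪ Y ∪ (U1.image Prod.fst)) U2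
      have e4 := Finset.card_union_le ((Finset.univ.image a) ∪ X ∪ Y) (U1.image Prod.fst)
      have e5 := Finset.card_union_le ((Finset.univ.image a) ∪ X) Y
      have e6 := Finset.card_union_le (Finset.univ.image a) X
      have e7 : S.card = ((Finset.univ.image a) ∪ X ∪ Y ∪ (U1.image Prod.fst) ∪ U2).card := rfl
      omega
    have hAcR : (A.card : ℝ) + 2 ≤ 3 * S.card := by exact_mod_cast hAc
    have hScR : (S.card : ℝ) ≤ k + X.card + Y.card + U1.card + U2.card := by
      exact_mod_cast hScard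
    have hYR : (Y.card : ℝ) ≤ ∑ v ∈ univ.filter (fun v => Δ < dg G v), ((dg G v : ℝ) + 1) := by
      have : (Y.card : ℝ) ≤
          ((∑ v ∈ univ.filter (fun v => Δ < dg G v), (dg G v + 1) : ℕ) : ℝ) := by
        exact_mod_cast hYcard
      push_cast at this
      exact this
    have hq : (0 : ℝ) ≤ (1 - (K : ℝ) / Fintype.card V) ^ k := by
      apply pow_nonneg
      rw [sub_nonneg, div_le_one hnR]
      exact_mod_cast hK
    have hI' : (I.card : ℝ) ≤ Fintype.card V * Δ ^ 2 := by exact_mod_cast hIcard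
    have hJ' : (J.card : ℝ) ≤ Fintype.card V * Δ ^ 2 := by
      have h1 : (J.card : ℝ) ≤ Fintype.card V := by exact_mod_cast hJcard
      have h2 : (1 : ℝ) ≤ (Δ : ℝ) ^ 2 := by
        have : (1 : ℝ) ≤ Δ := by exact_mod_cast hΔ
        nlinarith
      nlinarith
    have h1 := mul_le_mul_of_nonneg_right hI' hq
    have h2 := mul_le_mul_of_nonneg_right hJ' hq
    linarith

end SEL_

theorem p_SEL : T_SEL := fun V _ _ G hG Δ K k X hΔ hk hK hX hD =>
  SEL_.main G hG Δ K k X hΔ hk hK hX hD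

end Pool.Agent.SPC
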