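import Pool.Agent.SPC.Targets3

/-!
SPL: prescribing the number of edges in a set of pairs.
-/

set_option autoImplicit false

namespace Pool.Agent.SPC

open Finset Classical Filter Topology
open Pool.Agent.Pend

namespace SPL_

/-- Splitting a subset of `P` of size `m` with `i` elements in `Q`. -/
theorem card_split {α : Type} [DecidableEq α] (P Q : Finset α) (m i : ℕ) (hQ : Q ⊆ P)
    (hi : i ≤ m) :
    ((P.powersetCard m).filter (fun S => (S ∩ Q).card = i)).card =
      Q.card.choose i * (P.card - Q.card).choose (m - i) := by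
  have h1 : Q.card.choose i * (P.card - Q.card).choose (m - i) =
      ((Q.powersetCard i) ×ˢ ((P \ Q).powersetCard (m - i))).card := by
    rw [card_product, card_powersetCard, card_powersetCard, card_sdiff_of_subset hQ]
  rw [h1]
  refine card_bij' (fun S _ => (S ∩ Q, S \ Q)) (fun T _ => T.1 ∪ T.2) ?_ ?_ ?_ ?_
  · intro S hS
    simp only [mem_filter, mem_powersetCard] at hS
    simp only [mem_product, mem_powersetCard]
    refine ⟨⟨inter_subset_right, hS.2⟩, sdiff_subset_sdiff hS.1.1 (Subset.refl _), ?_⟩
    have := card_sdiff_add_card_inter S Q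
    omega
  · intro T hT
    simp only [mem_product, mem_powersetCard] at hT
    obtain ⟨⟨h2, h3⟩, h4, h5⟩ := hT
    have hd : Disjoint T.1 T.2 := by
      refine disjoint_of_subset_left h2 ?_
      refine disjoint_of_subset_right h4 ?_
      exact disjoint_sdiff
    simp only [mem_filter, mem_powersetCard]
    refine ⟨⟨union_subset (h2.trans hQ) (h4.trans sdiff_subset), ?_⟩, ?_⟩
    · rw [card_union_of_disjoint hd]
      omega
    · have : (T.1 ∪ T.2) ∩ Q = T.1 := by
        ext x
        simp only [mem_inter, mem_union]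
        constructor
        · rintro ⟨h | h, hx⟩
          · exact h
          · exact absurd hx (Finset.mem_sdiff.mp (h4 h)).2
        · intro h
          exact ⟨Or.inl h, h2 h⟩
      rw [this]
      exact h3
  · intro S hS
    ext x
    simp only [mem_union, mem_inter, Finset.mem_sdiff]
    tauto
  · intro T hT
    simp only [mem_product, mem_powersetCard] at hT
    obtain ⟨⟨h2, h3⟩, h4, h5⟩ := hT
    refine Prod.ext ?_ ?_
    · ext x
      simp only [mem_inter, mem_union]
      constructor
      · rintro ⟨h | h, hx⟩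
        · exact h
        · exact absurd hx (Finset.mem_sdiff.mp (h4 h)).2
      · intro h
        exact ⟨Or.inl h, h2 h⟩
    · ext x
      simp only [Finset.mem_sdiff, mem_union]
      constructor
      · rintro ⟨h | h, hx⟩
        · exact absurd (h2 h) hx
        · exact h
      · intro h
        exact ⟨Or.inr h, (Finset.mem_sdiff.mp (h4 h)).2⟩

/-- The edge set of the graph of a set of pairs. -/
theorem edgeSet_of_prs {n : ℕ} (S : Finset (Sym2 (Fin n))) (hS : S ⊆ prs n) :
    (SimpleGraph.fromEdgeSet (S : Set (Sym2 (Fin n)))).edgeSet = (S : Set (Sym2 (Fin n))) := by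
  rw [SimpleGraph.edgeSet_fromEdgeSet]
  ext e
  simp only [Set.mem_sdiff, mem_coe]
  constructor
  · intro h
    exact h.1
  · intro h
    refine ⟨h, ?_⟩
    have := hS h
    simp only [prs, mem_filter] at this
    exact this.2

end SPL_

theorem p_SPL (hGMS : T_GMS) : T_SPL := by
  intro n m i Q hQ hi
  have h1 := hGMS n m (fun G => (G.edgeSet ∩ (Q : Set (Sym2 (Fin n)))).ncard = i)
  rw [h1.1, ← h1.2, ← SPL_.card_split (prs n) Q m i hQ hi]
  have h2 : ∀ S ∈ (prs n).powersetCard m,
      (((SimpleGraph.fromEdgeSet (S : Set (Sym2 (Fin n)))).edgeSet ∩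
        (Q : Set (Sym2 (Fin n)))).ncard = i ↔ (S ∩ Q).card = i) := by
    intro S hS
    rw [mem_powersetCard] at hS
    rw [SPL_.edgeSet_of_prs S hS.1, ← coe_inter, Set.ncard_coe_finset]
  apply congrArg Finset.card
  ext S
  simp only [Finset.mem_filter]
  constructor
  · rintro ⟨hS, h⟩
    exact ⟨hS, (h2 S hS).mp h⟩
  · rintro ⟨hS, h⟩
    exact ⟨hS, (h2 S hS).mpr h⟩

end Pool.Agent.SPC
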