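import Pool.Agent.SPC.Targets3

/-!
# SPC, block SW (helper29)
-/

set_option autoImplicit false

namespace Pool.Agent.SPC

open Finset Classical Filter Topology
open Pool.Agent.Pend

namespace SW_

/-- the pairs of vertices in different components -/
noncomputable def NR {n : ℕ} (G : SimpleGraph (Fin n)) : Finset (Sym2 (Fin n)) :=
  univ.filter (fun f => ∃ u v, f = s(u, v) ∧ ¬ G.Reachable u v)

theorem out_card {n : ℕ} (G : SimpleGraph (Fin n)) (c : ℕ) (h : cp G = c + 1) (u : Fin n) :
    c ≤ (univ.filter (fun v => ¬ G.Reachable u v)).card := by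
  have h1 : Function.Surjective (fun o : Option {v // ¬ G.Reachable u v} =>
      (Option.elim o (G.connectedComponentMk u) (fun v => G.connectedComponentMk v.1) :
        G.ConnectedComponent)) := by
    intro K
    induction K using SimpleGraph.ConnectedComponent.ind with
    | _ v =>
      by_cases hv : G.Reachable u v
      · exact ⟨none, SimpleGraph.ConnectedComponent.sound hv⟩
      · exact ⟨some ⟨v, hv⟩, rfl⟩
  have h2 := Nat.card_le_card_of_surjective _ h1
  rw [Finite.card_option, Nat.card_eq_fintype_card (α := {v // ¬ G.Reachable u v}),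
    Fintype.card_subtype] at h2
  unfold cp at h
  omega

theorem nr_card {n : ℕ} (G : SimpleGraph (Fin n)) (c : ℕ) (h : cp G = c + 1) :
    n * c ≤ 2 * (NR G).card := by
  set P : Finset (Fin n × Fin n) := univ.filter (fun p => ¬ G.Reachable p.1 p.2) with hP
  have h1 : P.image (fun p => s(p.1, p.2)) ⊆ NR G := by
    intro f hf
    obtain ⟨p, hp, rfl⟩ := mem_image.1 hf
    rw [hP, mem_filter] at hp
    exact mem_filter.2 ⟨mem_univ _, p.1, p.2, rfl, hp.2⟩
  have h2 : P.card ≤ 2 * (P.image (fun p => s(p.1, p.2))).card := by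
    apply card_le_mul_card_image
    intro f _
    induction f using Sym2.ind with
    | _ u v =>
      have h3 : P.filter (fun p => s(p.1, p.2) = s(u, v)) ⊆ {(u, v), (v, u)} := by
        rintro ⟨a, b⟩ hp
        have := (mem_filter.1 hp).2
        simp only at this
        rw [Sym2.eq_iff] at this
        rcases this with ⟨rfl, rfl⟩ | ⟨rfl, rfl⟩ <;> simp
      exact (card_le_card h3).trans card_le_two
  have h3 : n * c ≤ P.card := by
    rw [hP, card_filter, Fintype.sum_prod_type]
    calc n * c = ∑ _u : Fin n, c := by simp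
      _ ≤ _ := sum_le_sum fun u _ => by
        have := out_card G c h u
        rw [card_filter] at this
        exact this
  have h4 := card_le_card h1
  omega

theorem es {n : ℕ} (G : SimpleGraph (Fin n)) (e : Sym2 (Fin n)) (u v : Fin n) (h : u ≠ v) :
    (G.deleteEdges {e} ⊔ SimpleGraph.fromEdgeSet {s(u, v)}).edgeSet =
      insert s(u, v) (G.edgeSet \ {e}) := by
  rw [SimpleGraph.edgeSet_sup, SimpleGraph.edgeSet_deleteEdges, SimpleGraph.edgeSet_fromEdgeSet]
  ext x
  simp only [Set.mem_union, Set.mem_sdiff, Set.mem_singleton_iff, Set.mem_insert_iff]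
  constructor
  · rintro (h1 | ⟨h1, -⟩)
    · exact Or.inr h1
    · exact Or.inl h1
  · rintro (h1 | h1)
    · refine Or.inr ⟨h1, ?_⟩
      rw [h1]
      intro h2
      exact h (by simpa using h2)
    · exact Or.inl h1

end SW_

open SW_ in
theorem p_SW (hFOR : T_FOR) (hCC : T_CC) : T_SW := by
  intro n m c hn hm hc
  choose F hF1 hF2 hF3 using hFOR n
  set A : Finset (SimpleGraph (Fin n)) :=
    univ.filter (fun G => G.edgeSet.ncard = m ∧ cp G = c + 1) with hA
  set A' : Finset (SimpleGraph (Fin n)) :=
    univ.filter (fun G => G.edgeSet.ncard = m ∧ cp G = c) with hA'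
  set pr : Finset (Sym2 (Fin n)) := univ.filter (fun e => ¬ e.IsDiag) with hpr
  have hprc : pr.card = n.choose 2 := by
    have h1 := Sym2.card_subtype_not_diag (α := Fin n)
    rw [Fintype.card_fin] at h1
    rw [← h1, Fintype.card_subtype]
  set T : Finset (Σ _ : SimpleGraph (Fin n), Sym2 (Fin n) × Sym2 (Fin n)) :=
    A.sigma (fun G => (G.edgeSet \ (F G).edgeSet).toFinset ×ˢ NR G) with hT
  set B : Finset (Σ _ : SimpleGraph (Fin n), Sym2 (Fin n) × Sym2 (Fin n)) :=
    A'.sigma (fun G => pr ×ˢ (F G).edgeSet.toFinset) with hB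
  have hlow : (m + 1 - n) * (n * c) * A.card ≤ 2 * T.card := by
    rw [hT, card_sigma, mul_sum]
    calc (m + 1 - n) * (n * c) * A.card = ∑ _G ∈ A, (m + 1 - n) * (n * c) := by
          rw [sum_const, smul_eq_mul, mul_comm]
      _ ≤ _ := sum_le_sum fun G hG => ?_
    rw [hA, mem_filter] at hG
    obtain ⟨-, h1, h2⟩ := hG
    have h3 := nr_card G c h2
    have h4 : m + 1 - n ≤ ((G.edgeSet \ (F G).edgeSet).toFinset).card := by
      rw [← Set.ncard_eq_toFinset_card']
      have h5 : (G.edgeSet \ (F G).edgeSet).ncard + (F G).edgeSet.ncard = G.edgeSet.ncard :=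
        Set.ncard_sdiff_add_ncard_of_subset
          (SimpleGraph.edgeSet_mono (hF1 G)) (Set.toFinite _)
      have h6 := hF3 G
      omega
    rw [card_product]
    calc (m + 1 - n) * (n * c) ≤ ((G.edgeSet \ (F G).edgeSet).toFinset).card *
          (2 * (NR G).card) := Nat.mul_le_mul h4 h3
      _ = _ := by ring
  have hmap : T.card ≤ B.card := by
    apply card_le_card_of_injOn
      (fun t : (Σ _ : SimpleGraph (Fin n), Sym2 (Fin n) × Sym2 (Fin n)) =>
      (⟨t.1.deleteEdges {t.2.1} ⊔ SimpleGraph.fromEdgeSet {t.2.2}, t.2⟩ :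
        Σ _ : SimpleGraph (Fin n), Sym2 (Fin n) × Sym2 (Fin n)))
    · rintro ⟨G, e, f⟩ ht
      rw [hT, mem_coe, mem_sigma, mem_product, hA, mem_filter] at ht
      obtain ⟨⟨-, h1, h2⟩, h3, h4⟩ := ht
      simp only [Set.mem_toFinset, Set.mem_sdiff] at h3
      simp only [NR, mem_filter, mem_univ, true_and] at h4
      obtain ⟨u, v, rfl, h5⟩ := h4
      have huv : u ≠ v := fun h => h5 (h ▸ SimpleGraph.Reachable.refl _)
      set K := G.deleteEdges {e} with hK
      have hKG : K ≤ G := SimpleGraph.deleteEdges_le _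
      have hFK : F G ≤ K := by
        rw [← SimpleGraph.edgeSet_subset_edgeSet, hK, SimpleGraph.edgeSet_deleteEdges]
        intro x hx
        refine ⟨SimpleGraph.edgeSet_mono (hF1 G) hx, ?_⟩
        rintro rfl
        exact h3.2 hx
      have hKc : cp K = c + 1 := by
        rw [← h2]
        exact (hCC n G).2 K hKG fun a b hab => (hF2 G a b hab).mono hFK
      have hKn : ¬ K.Reachable u v := fun h => h5 (h.mono hKG)
      have hG'c := (hCC n K).1 u v hKn
      have hes := es G e u v huv
      rw [← hK] at hes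
      have hfG : s(u, v) ∉ G.edgeSet := by
        intro h
        exact h5 (SimpleGraph.Adj.reachable h)
      rw [hB, mem_coe, mem_sigma, mem_product, hA', mem_filter]
      refine ⟨⟨mem_univ _, ?_, ?_⟩, ?_, ?_⟩
      · simp only
        rw [hes, Set.ncard_insert_of_notMem (fun h => hfG h.1) (Set.toFinite _),
          Set.ncard_sdiff_singleton_add_one h3.1 (Set.toFinite _), h1]
      · change cp (K ⊔ SimpleGraph.fromEdgeSet {s(u, v)}) = c
        omega
      · simp only
        rw [hpr, mem_filter]
        exact ⟨mem_univ _, G.not_isDiag_of_mem_edgeSet h3.1⟩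
      · simp only [Set.mem_toFinset]
        by_contra hcon
        set G' := K ⊔ SimpleGraph.fromEdgeSet {s(u, v)} with hG'
        have h6 : F G' ≤ G := by
          rw [← SimpleGraph.edgeSet_subset_edgeSet]
          intro x hx
          have h7 := SimpleGraph.edgeSet_mono (hF1 G') hx
          rw [hes] at h7
          rcases h7 with h8 | h8
          · exact absurd (h8 ▸ hx) hcon
          · exact h8.1
        have h9 : G'.Reachable u v := by
          have : s(u, v) ∈ G'.edgeSet := by
            rw [hes]
            exact Set.mem_insert _ _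
          exact SimpleGraph.Adj.reachable this
        exact h5 ((hF2 G' u v h9).mono h6)
    · rintro ⟨G, e, f⟩ ht ⟨G₂, e₂, f₂⟩ ht₂ heq
      simp only [Sigma.mk.injEq, heq_eq_eq, Prod.mk.injEq] at heq
      obtain ⟨h0, rfl, rfl⟩ := heq
      rw [hT, mem_coe, mem_sigma, mem_product, hA, mem_filter] at ht ht₂
      obtain ⟨-, h3, h4⟩ := ht
      obtain ⟨-, h3', h4'⟩ := ht₂
      simp only [Set.mem_toFinset, Set.mem_sdiff] at h3 h3'
      simp only [NR, mem_filter, mem_univ, true_and] at h4 h4'
      obtain ⟨u, v, rfl, h5⟩ := h4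
      obtain ⟨u', v', huv', h5'⟩ := h4'
      have huv : u ≠ v := fun h => h5 (h ▸ SimpleGraph.Reachable.refl _)
      have hf1 : s(u, v) ∉ G.edgeSet := fun h => h5 (SimpleGraph.Adj.reachable h)
      have hf2 : s(u, v) ∉ G₂.edgeSet := by
        rw [huv']
        exact fun h => h5' (SimpleGraph.Adj.reachable h)
      have h6 : insert s(u, v) (G.edgeSet \ {e}) = insert s(u, v) (G₂.edgeSet \ {e}) := by
        rw [← es G e u v huv, ← es G₂ e u v huv, h0]
      have h7 : G.edgeSet = G₂.edgeSet := by
        ext x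
        by_cases hxe : x = e
        · rw [hxe]
          exact ⟨fun _ => h3'.1, fun _ => h3.1⟩
        · have h8 : x ∈ insert s(u, v) (G.edgeSet \ {e}) ↔
              x ∈ insert s(u, v) (G₂.edgeSet \ {e}) := by rw [h6]
          by_cases hxf : x = s(u, v)
          · rw [hxf]
            exact ⟨fun h => absurd h hf1, fun h => absurd h hf2⟩
          · simpa [hxe, hxf] using h8
      have h8 := SimpleGraph.edgeSet_injective h7
      subst h8
      rfl
  have hup : B.card ≤ (n - 1) * n.choose 2 * A'.card := by
    rw [hB, card_sigma]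
    calc _ ≤ ∑ _G ∈ A', (n - 1) * n.choose 2 := sum_le_sum fun G hG => ?_
      _ = _ := by rw [sum_const, smul_eq_mul, mul_comm]
    rw [hA', mem_filter] at hG
    rw [card_product, hprc, ← Set.ncard_eq_toFinset_card']
    have h1 := hF3 G
    rw [mul_comm]
    exact Nat.mul_le_mul_right _ (by omega)
  have hfin : gm n m (fun G => cp G = c + 1) = A.card := by
    unfold gm
    rw [hA]
    congr
  have hfin' : gm n m (fun G => cp G = c) = A'.card := by
    unfold gm
    rw [hA']
    congr
  rw [hfin, hfin']
  calc _ ≤ 2 * T.card := hlow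
    _ ≤ 2 * ((n - 1) * n.choose 2 * A'.card) := Nat.mul_le_mul_left _ (hmap.trans hup)
    _ = _ := by ring

end Pool.Agent.SPC
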