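import Pool.Agent.SPC.MainD
import Pool.Agent.SPC.P_EMB
import Pool.Agent.SPC.P_SEL
import Pool.Agent.SPC.P_DETN
import Pool.Agent.SPC.P_DET3
import Pool.Agent.SPC.P_GMS
import Pool.Agent.SPC.P_SPL
import Pool.Agent.SPC.P_CNT
import Pool.Agent.SPC.P_HYP
import Pool.Agent.SPC.P_HIA
import Pool.Agent.SPC.P_HIG
import Pool.Agent.SPC.P_LOW
import Pool.Agent.SPC.P_IND
import Pool.Agent.SPC.P_NT
import Pool.Agent.SPC.P_RT
import Pool.Agent.SPC.P_CC
import Pool.Agent.SPC.P_FOR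
import Pool.Agent.SPC.P_SW
import Pool.Agent.SPC.P_CON
import Pool.Agent.SPC.P_QA
import Pool.Agent.SPC.P_LL
import Pool.Agent.SPC.P_NLO
import Pool.Agent.SPC.P_NNT
import Pool.Agent.SPC.P_IIA
import Pool.Agent.SPC.P_AGR
import Pool.Agent.SPC.P_PRC
import Pool.Agent.SPC.P_IIB
import Pool.Agent.SPC.P_DISC
import Pool.Agent.SPC.P_CONV
import Pool.Agent.SPC.P_CMP

/-!
SPC: all unconditional statements of the third part.
-/

set_option autoImplicit false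

namespace Pool.Agent.SPC

open Finset Classical Filter Topology
open Pool.Agent.Pend

theorem a_DET3 : T_DET3 := p_DET3 p_EMB p_SEL p_DETN
theorem a_SPL : T_SPL := p_SPL p_GMS
theorem a_CNT : T_CNT := p_CNT p_GMS
theorem a_HIG : T_HIG := p_HIG a_CNT p_HIA
theorem a_LOW : T_LOW := p_LOW a_SPL p_HYP
theorem a_NT : T_NT := p_NT p_IND p_GMS
theorem a_FOR : T_FOR := p_FOR p_CC
theorem a_SW : T_SW := p_SW a_FOR p_CC
theorem a_CON : T_CON := p_CON a_SW p_GMS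
theorem a_NLO : T_NLO := p_NLO p_LL
theorem a_NNT : T_NNT := p_NNT p_LL p_RT
theorem a_IIA : T_IIA := p_IIA a_DET3 a_HIG a_LOW a_NT a_CON p_QA p_LL a_NLO a_NNT p_DIS
theorem a_PRC : T_PRC := p_PRC p_GMS (p_AGR p_HYP)
theorem a_IIB : T_IIB := p_IIB a_PRC p_DIS
theorem a_DISC : T_DISC := p_DISC a_SPL p_HYP p_GMS
theorem a_CMP : T_CMP := p_CMP p_START p_CONV

/-- all connected graphs with `n` vertices and `m` edges, uniformly in all `m` -/
theorem a_ALLD (ε : ℝ) (hε : 0 < ε) : ∃ n₀ : ℕ, ∀ n m : ℕ, n₀ ≤ n →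
    (bb (EX m) n : ℝ) ≤ ε * (cnt (EX m) n : ℝ) :=
  p_ALLD p_GMS a_IIA a_IIB a_DISC a_CMP ε hε

end Pool.Agent.SPC
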