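import Pool.Agent.SPC.Targets2

set_option autoImplicit false

namespace Pool.Agent.SPC

open Finset Classical Filter Topology
open Pool.Agent.Pend

theorem p_XCN : T_XCN := by
  intro a b n m h
  unfold cnt cc ce XC
  congr 1
  ext G
  simp only [mem_filter, mem_univ, true_and, Nat.card_eq_fintype_card, Fintype.card_fin]
  constructor
  · rintro ⟨h1, h2⟩
    exact ⟨h1, by omega⟩
  · rintro ⟨h1, h2⟩
    exact ⟨h1, by omega⟩

end Pool.Agent.SPC
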