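import Pool.Agent.SPC.Targets
import Pool.Agent.Pend.CNTM

/-!
# CTR: counting by contraction of an edge
-/

set_option autoImplicit false

namespace Pool.Agent.SPC

open Finset Classical Filter Topology
open Pool.Agent.Pend

namespace CTR_

theorem mem_cc' (C : (V : Type) → SimpleGraph V → Prop) (V : Type) [Fintype V]
    (G : SimpleGraph V) : G ∈ cc C V ↔ G.Connected ∧ C V G := by
  unfold cc
  rw [mem_filter]
  exact ⟨fun h => h.2, fun h => ⟨mem_univ _, h⟩⟩

/-- the quotient of a connected graph is connected -/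
theorem conn {n N : ℕ} (p : Fin n → Fin N) (hp : Function.Surjective p)
    (G : SimpleGraph (Fin n)) (hG : G.Connected) : (CNTM_.Qg p G).Connected := by
  have h1 : ∀ x y, G.Reachable x y → (CNTM_.Qg p G).Reachable (p x) (p y) := by
    rintro x y ⟨q⟩
    induction q with
    | nil => exact SimpleGraph.Reachable.refl _
    | @cons a b c h _ ih =>
      refine SimpleGraph.Reachable.trans ?_ ih
      by_cases hq : p a = p b
      · rw [hq]
      · exact SimpleGraph.Adj.reachable ⟨hq, a, b, rfl, rfl, h⟩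
  obtain ⟨x⟩ : Nonempty (Fin n) := hG.nonempty
  rw [SimpleGraph.connected_iff_exists_forall_reachable]
  refine ⟨p x, fun b => ?_⟩
  obtain ⟨y, rfl⟩ := hp b
  exact h1 x y (hG.preconnected x y)

/-- the contraction map -/
theorem exists_q {n : ℕ} (v w : Fin n) (hvw : v ≠ w) : ∃ p : Fin n → Fin (n - 1),
    (∀ x y, p x = p y → x = y ∨ (x ∈ ({v} : Finset (Fin n)) ∧ (fun _ : Fin n => w) x = y) ∨
      (y ∈ ({v} : Finset (Fin n)) ∧ (fun _ : Fin n => w) y = x)) ∧
    Function.Surjective p ∧ p v = p w := by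
  have h := CNTM_.exists_p ({v} : Finset (Fin n)) (fun _ => w) (by
    intro x hx y hy _
    rw [mem_coe, mem_singleton] at hx hy
    rw [hx, hy]) (by
    intro x _
    rw [mem_singleton]
    exact hvw.symm)
  rw [card_singleton] at h
  obtain ⟨p, h1, h2, _⟩ := h
  refine ⟨p, h1, h2, ?_⟩
  have hn : 0 < n := v.pos
  obtain ⟨x, y, hxy, he⟩ := Fintype.exists_ne_map_eq_of_card_lt p (by
    rw [Fintype.card_fin, Fintype.card_fin]; omega)
  rcases h1 x y he with h | ⟨h3, h4⟩ | ⟨h3, h4⟩
  · exact absurd h hxy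
  · rw [mem_singleton] at h3
    have h4' : w = y := h4
    rw [← h3, h4']
    exact he
  · rw [mem_singleton] at h3
    have h4' : w = x := h4
    rw [← h3, h4']
    exact he.symm

/-- the fibre of the contraction -/
theorem fib {n E : ℕ} (v w : Fin n) (hvw : v ≠ w) (p : Fin n → Fin (n - 1))
    (hp1 : ∀ x y, p x = p y → x = y ∨ (x ∈ ({v} : Finset (Fin n)) ∧ (fun _ : Fin n => w) x = y) ∨
      (y ∈ ({v} : Finset (Fin n)) ∧ (fun _ : Fin n => w) y = x))
    (hpv : p v = p w) (S : Finset (SimpleGraph (Fin n)))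
    (hS : ∀ G ∈ S, G.Adj v w ∧ dg G v ≤ E ∧ dg G w ≤ E)
    (K : SimpleGraph (Fin (n - 1))) (hK : ∀ G ∈ S, CNTM_.Qg p G = K) : S.card ≤ 16 ^ E := by
  rcases S.eq_empty_or_nonempty with h0 | ⟨G₀, hG₀⟩
  · rw [h0, card_empty]
    exact Nat.zero_le _
  -- fibres of `p`
  have hf : ∀ x y, p x = p y → x = y ∨ (x = v ∧ y = w) ∨ (x = w ∧ y = v) := by
    intro x y h
    rcases hp1 x y h with h | ⟨h3, h4⟩ | ⟨h3, h4⟩
    · exact Or.inl h
    · exact Or.inr (Or.inl ⟨mem_singleton.1 h3, h4.symm⟩)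
    · exact Or.inr (Or.inr ⟨h4.symm, mem_singleton.1 h3⟩)
  obtain ⟨R, hR⟩ : ∃ R : Finset (Fin n), ∀ x, x ∈ R ↔ K.Adj (p w) (p x) :=
    ⟨univ.filter (fun x => K.Adj (p w) (p x)), fun x => by simp⟩
  have hadj : ∀ G ∈ S, ∀ a b, K.Adj a b ↔ a ≠ b ∧ ∃ x y, p x = a ∧ p y = b ∧ G.Adj x y := by
    intro G hG a b
    rw [← hK G hG]
    exact CNTM_.Qg_adj p G a b
  -- members of `R`
  have hRv : ∀ G ∈ S, ∀ x, x ∈ R → G.Adj v x ∨ G.Adj w x := by
    intro G hG x hx
    rw [hR, hadj G hG] at hx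
    obtain ⟨hne, a, b, ha, hb, hab⟩ := hx
    have hbx : b = x := by
      rcases hf b x hb with h | ⟨h, h'⟩ | ⟨h, h'⟩
      · exact h
      · exact absurd (by rw [h']) hne
      · exact absurd (by rw [h', hpv]) hne
    subst hbx
    rcases hf a w ha with h | ⟨h, _⟩ | ⟨_, h⟩
    · right; rw [← h]; exact hab
    · left; rw [← h]; exact hab
    · exact absurd h hvw.symm
  have hRcard : R.card ≤ 2 * E := by
    obtain ⟨_, h1, h2⟩ := hS G₀ hG₀
    have h3 : R ⊆ univ.filter (fun x => G₀.Adj v x) ∪ univ.filter (fun x => G₀.Adj w x) := by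
      intro x hx
      rw [mem_union, mem_filter, mem_filter]
      rcases hRv G₀ hG₀ x hx with h | h
      · exact Or.inl ⟨mem_univ _, h⟩
      · exact Or.inr ⟨mem_univ _, h⟩
    have h4 := (card_le_card h3).trans (card_union_le _ _)
    unfold dg at h1 h2
    omega
  have hinj : S.card ≤ (R.powerset ×ˢ R.powerset).card := by
    refine card_le_card_of_injOn (fun G : SimpleGraph (Fin n) =>
      ((univ : Finset (Fin n)).filter (fun x => G.Adj v x ∧ x ≠ w),
        (univ : Finset (Fin n)).filter (fun x => G.Adj w x ∧ x ≠ v))) ?_ ?_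
    · intro G hG
      rw [mem_coe] at hG
      rw [mem_coe, mem_product, mem_powerset, mem_powerset]
      constructor
      · intro x hx
        rw [mem_filter] at hx
        rw [hR, hadj G hG]
        refine ⟨?_, v, x, hpv, rfl, hx.2.1⟩
        intro h
        rcases hf w x h with h | ⟨h, _⟩ | ⟨_, h⟩
        · exact hx.2.2 h.symm
        · exact hvw h.symm
        · exact hx.2.1.ne h.symm
      · intro x hx
        rw [mem_filter] at hx
        rw [hR, hadj G hG]
        refine ⟨?_, w, x, rfl, rfl, hx.2.1⟩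
        intro h
        rcases hf w x h with h | ⟨h, _⟩ | ⟨_, h⟩
        · exact hx.2.1.ne h
        · exact hvw h.symm
        · exact hx.2.2 h
    · intro G hG G' hG' h
      rw [mem_coe] at hG hG'
      have h' : ((univ : Finset (Fin n)).filter (fun x => G.Adj v x ∧ x ≠ w),
          (univ : Finset (Fin n)).filter (fun x => G.Adj w x ∧ x ≠ v)) =
          ((univ : Finset (Fin n)).filter (fun x => G'.Adj v x ∧ x ≠ w),
          (univ : Finset (Fin n)).filter (fun x => G'.Adj w x ∧ x ≠ v)) := h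
      rw [Prod.mk.injEq] at h'
      obtain ⟨hP, hQ⟩ := h'
      have hv : ∀ x, G.Adj v x ↔ G'.Adj v x := by
        intro x
        by_cases hx : x = w
        · rw [hx]
          exact ⟨fun _ => (hS G' hG').1, fun _ => (hS G hG).1⟩
        · have h1 : x ∈ (univ : Finset (Fin n)).filter (fun x => G.Adj v x ∧ x ≠ w) ↔
              x ∈ (univ : Finset (Fin n)).filter (fun x => G'.Adj v x ∧ x ≠ w) := by rw [hP]
          rw [mem_filter, mem_filter] at h1
          exact ⟨fun h2 => (h1.1 ⟨mem_univ _, h2, hx⟩).2.1,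
            fun h2 => (h1.2 ⟨mem_univ _, h2, hx⟩).2.1⟩
      have hw : ∀ x, G.Adj w x ↔ G'.Adj w x := by
        intro x
        by_cases hx : x = v
        · rw [hx]
          exact ⟨fun _ => (hS G' hG').1.symm, fun _ => (hS G hG).1.symm⟩
        · have h1 : x ∈ (univ : Finset (Fin n)).filter (fun x => G.Adj w x ∧ x ≠ v) ↔
              x ∈ (univ : Finset (Fin n)).filter (fun x => G'.Adj w x ∧ x ≠ v) := by rw [hQ]
          rw [mem_filter, mem_filter] at h1
          exact ⟨fun h2 => (h1.1 ⟨mem_univ _, h2, hx⟩).2.1,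
            fun h2 => (h1.2 ⟨mem_univ _, h2, hx⟩).2.1⟩
      have ho : ∀ G₁ ∈ S, ∀ x y, x ≠ v → x ≠ w → y ≠ v → y ≠ w →
          (G₁.Adj x y ↔ K.Adj (p x) (p y)) := by
        intro G₁ hG₁ x y hxv hxw hyv hyw
        rw [hadj G₁ hG₁]
        constructor
        · intro hxy
          refine ⟨?_, x, y, rfl, rfl, hxy⟩
          intro he
          rcases hf x y he with h | ⟨h, _⟩ | ⟨h, _⟩
          · exact hxy.ne h
          · exact hxv h
          · exact hxw h
        · rintro ⟨_, a, b, ha, hb, hab⟩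
          have h1 : a = x := by
            rcases hf a x ha with h | ⟨_, h⟩ | ⟨_, h⟩
            · exact h
            · exact absurd h hxw
            · exact absurd h hxv
          have h2 : b = y := by
            rcases hf b y hb with h | ⟨_, h⟩ | ⟨_, h⟩
            · exact h
            · exact absurd h hyw
            · exact absurd h hyv
          rw [← h1, ← h2]
          exact hab
      ext x y
      by_cases hxv : x = v
      · rw [hxv]; exact hv y
      by_cases hxw : x = w
      · rw [hxw]; exact hw y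
      by_cases hyv : y = v
      · rw [hyv, G.adj_comm, G'.adj_comm]; exact hv x
      by_cases hyw : y = w
      · rw [hyw, G.adj_comm, G'.adj_comm]; exact hw x
      rw [ho G hG x y hxv hxw hyv hyw, ho G' hG' x y hxv hxw hyv hyw]
  rw [card_product, card_powerset] at hinj
  refine hinj.trans ?_
  calc 2 ^ R.card * 2 ^ R.card ≤ 2 ^ (2 * E) * 2 ^ (2 * E) :=
        Nat.mul_le_mul (Nat.pow_le_pow_right (by norm_num) hRcard)
          (Nat.pow_le_pow_right (by norm_num) hRcard)
    _ = 16 ^ E := by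
        rw [← pow_add, show 2 * E + 2 * E = 4 * E by ring, pow_mul]
        norm_num

/-- the graphs with a given light edge -/
theorem one (hMT : T_MTRANS) (F : (W : Type) → SimpleGraph W → Prop) (n E : ℕ) (v w : Fin n) :
    ((cc (FreeOf F) (Fin n)).filter (fun G => G.Adj v w ∧ dg G v ≤ E ∧ dg G w ≤ E)).card ≤
      16 ^ E * cnt (FreeOf F) (n - 1) := by
  by_cases hvw : v = w
  · have h0 : (cc (FreeOf F) (Fin n)).filter
        (fun G => G.Adj v w ∧ dg G v ≤ E ∧ dg G w ≤ E) = ∅ := by
      apply filter_eq_empty_iff.2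
      intro G _ h
      exact h.1.ne hvw
    rw [h0, card_empty]
    exact Nat.zero_le _
  obtain ⟨p, hp1, hp2, hp3⟩ := exists_q v w hvw
  unfold cnt
  refine card_le_mul_card_image_of_maps_to (f := fun G => CNTM_.Qg p G) ?_ _ ?_
  · intro G hG
    rw [mem_filter] at hG
    obtain ⟨hG1, hG2, _⟩ := hG
    rw [mem_cc'] at hG1 ⊢
    refine ⟨conn p hp2 G hG1.1, ?_⟩
    intro W H hF hm
    refine hG1.2 W H hF (hMT _ _ _ _ _ _ hm (CNTM_.minor {v} (fun _ => w) p hp1 hp2 G ?_))
    intro x hx
    rw [mem_singleton] at hx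
    rw [hx]
    exact hG2
  · intro K _
    refine fib v w hvw p hp1 hp3 _ ?_ K ?_
    · intro G hG
      rw [mem_filter, mem_filter] at hG
      exact hG.1.2
    · intro G hG
      rw [mem_filter] at hG
      exact hG.2

end CTR_

/-- CTR -/
theorem p_CTR (hMT : T_MTRANS) : T_CTR := by
  intro F _ n E
  have hsub : ((univ : Finset (SimpleGraph (Fin n) × Fin n)).filter
      (fun p => p.1 ∈ cc (FreeOf F) (Fin n) ∧
        ∃ w, p.1.Adj p.2 w ∧ dg p.1 p.2 ≤ E ∧ dg p.1 w ≤ E)) ⊆
      (univ : Finset (Fin n × Fin n)).biUnion (fun q =>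
        ((cc (FreeOf F) (Fin n)).filter
          (fun G => G.Adj q.1 q.2 ∧ dg G q.1 ≤ E ∧ dg G q.2 ≤ E)).image (fun G => (G, q.1))) := by
    rintro ⟨G, v⟩ h
    rw [mem_filter] at h
    obtain ⟨_, h1, w, h2⟩ := h
    rw [mem_biUnion]
    refine ⟨(v, w), mem_univ _, ?_⟩
    rw [mem_image]
    exact ⟨G, mem_filter.2 ⟨h1, h2⟩, rfl⟩
  refine (card_le_card hsub).trans (card_biUnion_le.trans ?_)
  calc ∑ q : Fin n × Fin n, (((cc (FreeOf F) (Fin n)).filter
          (fun G => G.Adj q.1 q.2 ∧ dg G q.1 ≤ E ∧ dg G q.2 ≤ E)).image (fun G => (G, q.1))).card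
      ≤ ∑ _q : Fin n × Fin n, 16 ^ E * cnt (FreeOf F) (n - 1) :=
        sum_le_sum fun q _ => card_image_le.trans (CTR_.one hMT F n E q.1 q.2)
    _ = n ^ 2 * 16 ^ E * cnt (FreeOf F) (n - 1) := by
        rw [sum_const, card_univ, Fintype.card_prod, Fintype.card_fin, smul_eq_mul]
        ring

end Pool.Agent.SPC
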