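import Pool.Agent.SPC.Targets2
import Pool.Agent.SPC.P_CTR

/-!
# XCTR: counting by contraction of an edge, with the number of edges
-/

set_option autoImplicit false

namespace Pool.Agent.SPC

open Finset Classical Filter Topology
open Pool.Agent.Pend

namespace XCTR_

/-- the number of edges of the contraction -/
theorem edges {n E : ℕ} (v w : Fin n) (hvw : v ≠ w) (p : Fin n → Fin (n - 1))
    (hf : ∀ x y, p x = p y → x = y ∨ (x = v ∧ y = w) ∨ (x = w ∧ y = v))
    (hpv : p v = p w) (G : SimpleGraph (Fin n)) (hG : G.Adj v w) (hd : dg G v ≤ E) :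
    ∃ t ≤ E, (CNTM_.Qg p G).edgeSet.ncard + (t + 1) = G.edgeSet.ncard := by
  set T : Set (Sym2 (Fin n)) := (fun x => s(v, x)) '' {x | G.Adj v x ∧ G.Adj w x} with hT
  have hTfin : T.Finite := Set.toFinite _
  have hvT : s(v, w) ∉ T := by
    rintro ⟨x, ⟨_, h2⟩, h3⟩
    have h3' : s(v, x) = s(v, w) := h3
    rw [Sym2.congr_right] at h3'
    rw [h3'] at h2
    exact h2.ne rfl
  have hTE : T ⊆ G.edgeSet := by
    rintro _ ⟨x, ⟨h1, _⟩, rfl⟩
    exact h1
  have hUE : insert s(v, w) T ⊆ G.edgeSet := by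
    rintro e (rfl | he)
    · exact hG
    · exact hTE he
  have hTc : T.ncard ≤ E := by
    refine le_trans ?_ hd
    unfold dg
    rw [← Set.ncard_coe_finset]
    refine (Set.ncard_image_le (Set.toFinite _)).trans (Set.ncard_le_ncard ?_ (Set.toFinite _))
    intro x hx
    rw [mem_coe, mem_filter]
    exact ⟨mem_univ _, hx.1⟩
  have himg : (CNTM_.Qg p G).edgeSet = Sym2.map p '' (G.edgeSet \ insert s(v, w) T) := by
    ext e
    induction e using Sym2.ind with
    | _ a b =>
      rw [SimpleGraph.mem_edgeSet, CNTM_.Qg_adj]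
      constructor
      · rintro ⟨hab, x, y, rfl, rfl, hxy⟩
        by_cases hTxy : s(x, y) ∈ T
        · obtain ⟨c, ⟨hc1, hc2⟩, hc3⟩ := hTxy
          refine ⟨s(w, c), ⟨hc2, ?_⟩, ?_⟩
          · rintro (h | ⟨d, ⟨hd1, hd2⟩, h⟩)
            · rw [Sym2.eq_iff] at h
              rcases h with ⟨h, _⟩ | ⟨_, h⟩
              · exact hvw h.symm
              · exact hc1.ne h.symm
            · have h' : s(v, d) = s(w, c) := h
              rw [Sym2.eq_iff] at h'
              rcases h' with ⟨h, _⟩ | ⟨_, h⟩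
              · exact hvw h
              · exact hd2.ne h.symm
          · rw [Sym2.map_mk, ← hpv, ← Sym2.map_mk, ← Sym2.map_mk]
            exact congrArg (Sym2.map p) hc3
        · refine ⟨s(x, y), ⟨hxy, ?_⟩, by rw [Sym2.map_mk]⟩
          rintro (h | h)
          · rw [Sym2.eq_iff] at h
            rcases h with ⟨h1, h2⟩ | ⟨h1, h2⟩
            · exact hab (by rw [h1, h2, hpv])
            · exact hab (by rw [h1, h2, hpv])
          · exact hTxy h
      · rintro ⟨e, ⟨he1, he2⟩, he3⟩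
        induction e using Sym2.ind with
        | _ x y =>
          have hxy : G.Adj x y := he1
          have hne : p x ≠ p y := by
            intro h
            rcases hf x y h with h | ⟨h1, h2⟩ | ⟨h1, h2⟩
            · exact hxy.ne h
            · exact he2 (Or.inl (by rw [h1, h2]))
            · exact he2 (Or.inl (by rw [h1, h2, Sym2.eq_swap]))
          rw [Sym2.map_mk, Sym2.eq_iff] at he3
          rcases he3 with ⟨h1, h2⟩ | ⟨h1, h2⟩
          · exact ⟨by rw [← h1, ← h2]; exact hne, x, y, h1, h2, hxy⟩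
          · exact ⟨by rw [← h1, ← h2]; exact hne.symm, y, x, h2, h1, hxy.symm⟩
  have hinj : Set.InjOn (Sym2.map p) (G.edgeSet \ insert s(v, w) T) := by
    have key : ∀ a b c d : Fin n, G.Adj a b → G.Adj c d → s(a, b) ∉ insert s(v, w) T →
        s(c, d) ∉ insert s(v, w) T → p a = p c → p b = p d → s(a, b) = s(c, d) := by
      intro a b c d hab hcd h1 h2 hac hbd
      rcases hf a c hac with h | ⟨ha, hc⟩ | ⟨ha, hc⟩
      · rcases hf b d hbd with h' | ⟨hb, hd'⟩ | ⟨hb, hd'⟩
        · rw [h, h']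
        · exfalso
          subst h hb hd'
          exact h1 (Or.inr ⟨a, ⟨hab.symm, hcd.symm⟩, Sym2.eq_swap⟩)
        · exfalso
          subst h hb hd'
          exact h2 (Or.inr ⟨a, ⟨hcd.symm, hab.symm⟩, Sym2.eq_swap⟩)
      · rcases hf b d hbd with h' | ⟨hb, hd'⟩ | ⟨hb, hd'⟩
        · exfalso
          subst h' ha hc
          exact h1 (Or.inr ⟨b, ⟨hab, hcd⟩, rfl⟩)
        · exact absurd (ha.trans hb.symm) hab.ne
        · exact absurd (Or.inl (by rw [ha, hb])) h1
      · rcases hf b d hbd with h' | ⟨hb, hd'⟩ | ⟨hb, hd'⟩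
        · exfalso
          subst h' ha hc
          exact h2 (Or.inr ⟨b, ⟨hcd, hab⟩, rfl⟩)
        · exact absurd (Or.inl (by rw [ha, hb, Sym2.eq_swap])) h1
        · exact absurd (ha.trans hb.symm) hab.ne
    intro e he e' he' h
    induction e using Sym2.ind with
    | _ a b =>
      induction e' using Sym2.ind with
      | _ c d =>
        rw [Sym2.map_mk, Sym2.map_mk, Sym2.eq_iff] at h
        have hcd : G.Adj c d := he'.1
        rcases h with ⟨h1, h2⟩ | ⟨h1, h2⟩
        · exact key a b c d he.1 hcd he.2 he'.2 h1 h2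
        · have h4 : s(d, c) ∉ insert s(v, w) T := by
            rw [Sym2.eq_swap (a := d)]
            exact he'.2
          have h3 := key a b d c he.1 hcd.symm he.2 h4 h1 h2
          rw [h3, Sym2.eq_swap]
  refine ⟨T.ncard, hTc, ?_⟩
  rw [himg, hinj.ncard_image, ← Set.ncard_insert_of_notMem hvT hTfin]
  exact Set.ncard_sdiff_add_ncard_of_subset hUE (Set.toFinite _)

/-- the graphs with a given light edge -/
theorem one (n m E : ℕ) (v w : Fin (n + 1)) :
    ((univ : Finset (SimpleGraph (Fin (n + 1)))).filter (fun G =>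
      (G.Connected ∧ G.edgeSet.ncard = m + 1) ∧ G.Adj v w ∧ dg G v ≤ E ∧ dg G w ≤ E)).card ≤
      16 ^ E * ∑ t ∈ range (E + 1), ce n (m - t) := by
  by_cases hvw : v = w
  · have h0 : (univ : Finset (SimpleGraph (Fin (n + 1)))).filter (fun G =>
        (G.Connected ∧ G.edgeSet.ncard = m + 1) ∧ G.Adj v w ∧ dg G v ≤ E ∧ dg G w ≤ E) = ∅ := by
      apply filter_eq_empty_iff.2
      intro G _ h
      exact h.2.1.ne hvw
    rw [h0, card_empty]
    exact Nat.zero_le _
  obtain ⟨p, hp1, hp2, hp3⟩ := CTR_.exists_q v w hvw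
  have hf : ∀ x y, p x = p y → x = y ∨ (x = v ∧ y = w) ∨ (x = w ∧ y = v) := by
    intro x y h
    rcases hp1 x y h with h | ⟨h3, h4⟩ | ⟨h3, h4⟩
    · exact Or.inl h
    · exact Or.inr (Or.inl ⟨mem_singleton.1 h3, h4.symm⟩)
    · exact Or.inr (Or.inr ⟨h4.symm, mem_singleton.1 h3⟩)
  set U : Finset (SimpleGraph (Fin n)) := (range (E + 1)).biUnion (fun t =>
    (univ : Finset (SimpleGraph (Fin n))).filter
      (fun K => K.Connected ∧ K.edgeSet.ncard = m - t)) with hU
  have hUc : U.card ≤ ∑ t ∈ range (E + 1), ce n (m - t) := by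
    rw [hU]
    exact card_biUnion_le
  refine le_trans ?_ (Nat.mul_le_mul_left (16 ^ E) hUc)
  refine card_le_mul_card_image_of_maps_to (f := fun G => CNTM_.Qg p G) ?_ _ ?_
  · intro G hG
    rw [mem_filter] at hG
    obtain ⟨_, ⟨hG1, hG2⟩, hG3, hG4, _⟩ := hG
    obtain ⟨t, ht, hte⟩ := edges v w hvw p hf hp3 G hG3 hG4
    rw [hU, mem_biUnion]
    refine ⟨t, mem_range.2 (by omega), ?_⟩
    rw [mem_filter]
    refine ⟨mem_univ _, CTR_.conn p hp2 G hG1, ?_⟩
    have h5 : (CNTM_.Qg p G).edgeSet.ncard = m - t := by omega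
    exact h5
  · intro K _
    refine CTR_.fib v w hvw p hp1 hp3 _ ?_ K ?_
    · intro G hG
      rw [mem_filter, mem_filter] at hG
      exact hG.1.2.2
    · intro G hG
      rw [mem_filter] at hG
      exact hG.2

end XCTR_

/-- XCTR -/
theorem p_XCTR : T_XCTR := by
  intro n m E
  have hsub : ((univ : Finset (SimpleGraph (Fin (n + 1)) × Fin (n + 1))).filter (fun p =>
      (p.1.Connected ∧ p.1.edgeSet.ncard = m + 1) ∧
      ∃ w, p.1.Adj p.2 w ∧ dg p.1 p.2 ≤ E ∧ dg p.1 w ≤ E)) ⊆
      (univ : Finset (Fin (n + 1) × Fin (n + 1))).biUnion (fun q =>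
        ((univ : Finset (SimpleGraph (Fin (n + 1)))).filter (fun G =>
          (G.Connected ∧ G.edgeSet.ncard = m + 1) ∧
            G.Adj q.1 q.2 ∧ dg G q.1 ≤ E ∧ dg G q.2 ≤ E)).image (fun G => (G, q.1))) := by
    rintro ⟨G, v⟩ h
    rw [mem_filter] at h
    obtain ⟨_, h1, w, h2⟩ := h
    rw [mem_biUnion]
    refine ⟨(v, w), mem_univ _, ?_⟩
    rw [mem_image]
    exact ⟨G, mem_filter.2 ⟨mem_univ _, h1, h2⟩, rfl⟩
  refine (card_le_card hsub).trans (card_biUnion_le.trans ?_)
  calc ∑ q : Fin (n + 1) × Fin (n + 1), (((univ : Finset (SimpleGraph (Fin (n + 1)))).filter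
          (fun G => (G.Connected ∧ G.edgeSet.ncard = m + 1) ∧
            G.Adj q.1 q.2 ∧ dg G q.1 ≤ E ∧ dg G q.2 ≤ E)).image (fun G => (G, q.1))).card
      ≤ ∑ _q : Fin (n + 1) × Fin (n + 1), 16 ^ E * ∑ t ∈ range (E + 1), ce n (m - t) :=
        sum_le_sum fun q _ => card_image_le.trans (XCTR_.one n m E q.1 q.2)
    _ = (n + 1) ^ 2 * 16 ^ E * ∑ t ∈ range (E + 1), ce n (m - t) := by
        rw [sum_const, card_univ, Fintype.card_prod, Fintype.card_fin, smul_eq_mul]
        ring

end Pool.Agent.SPC
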