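import Pool.Agent.SPC.Targets2

set_option autoImplicit false

namespace Pool.Agent.SPC

open Finset Classical Filter Topology
open Pool.Agent.Pend

theorem p_XLOW (hXLS : T_XLS) (hXCN : T_XCN) (hL1 : T_L1) : T_XLOW := by
  intro n
  induction n with
  | zero =>
    unfold ce
    rw [Nat.factorial_zero, Nat.one_le_iff_ne_zero, Ne, card_eq_zero]
    refine Finset.nonempty_iff_ne_empty.1 ⟨⊥, mem_filter.2 ⟨mem_univ _, ?_, ?_⟩⟩
    · have : Nonempty (Fin (0 + 1)) := ⟨0⟩
      exact { preconnected := fun a b => by
                have : a = b := Subsingleton.elim (α := Fin 1) a b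
                rw [this] }
    · simp
  | succ n ih =>
    have h := hL1 (XC 1 0) (hXLS 1 0) (n + 1) (by omega)
    rw [hXCN 1 0 (n + 1) n (by omega)] at h
    have hle : ∑ G ∈ cc (XC 1 0) (Fin (n + 1 + 1)), lv G ≤
        (n + 2) * ce (n + 2) (n + 1) := by
      calc _ ≤ ∑ G ∈ cc (XC 1 0) (Fin (n + 1 + 1)), (n + 2) := by
            refine sum_le_sum fun G _ => ?_
            unfold lv
            refine (card_le_univ _).trans ?_
            rw [Fintype.card_fin]
        _ = (n + 2) * ce (n + 2) (n + 1) := by
            rw [sum_const, smul_eq_mul, mul_comm]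
            have := hXCN 1 0 (n + 1 + 1) (n + 1) (by omega)
            unfold cnt at this
            rw [this]
    rw [h] at hle
    have h2 : (n + 2) * ((n + 1) * ce (n + 1) n) ≤ (n + 2) * ce (n + 2) (n + 1) := by
      calc _ = (n + 1 + 1) * (n + 1) * ce (n + 1) n := by ring
        _ ≤ _ := hle
    have h3 := Nat.le_of_mul_le_mul_left h2 (by omega)
    rw [Nat.factorial_succ]
    calc (n + 1) * n.factorial ≤ (n + 1) * ce (n + 1) n := Nat.mul_le_mul_left _ ih
      _ ≤ _ := h3

end Pool.Agent.SPC
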