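import Pool.Agent.SPC.Targets2

set_option autoImplicit false

namespace Pool.Agent.SPC

open Finset Classical Filter Topology
open Pool.Agent.Pend

namespace XLS_

lemma edge_eq {V : Type} (G : SimpleGraph V) (v u : V) (h : Lf G v u) :
    G.edgeSet = insert s(v, u) ((Sym2.map (Subtype.val : ({w | w ≠ v} : Set V) → V)) ''
      (G.induce {w | w ≠ v}).edgeSet) := by
  ext e
  induction e with
  | h a b =>
    constructor
    · intro hab
      rw [SimpleGraph.mem_edgeSet] at hab
      by_cases ha : a = v
      · left
        rw [ha] at hab ⊢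
        rw [(h b).1 hab]
      · by_cases hb : b = v
        · left
          rw [hb] at hab ⊢
          rw [(h a).1 hab.symm, Sym2.eq_swap]
        · right
          exact ⟨s(⟨a, ha⟩, ⟨b, hb⟩), hab, rfl⟩
    · rintro (h1 | ⟨e', he', h2⟩)
      · rw [h1]
        exact (h u).2 rfl
      · rw [← h2]
        induction e' with
        | h x y => exact he'

lemma not_mem {V : Type} (G : SimpleGraph V) (v u : V) :
    s(v, u) ∉ ((Sym2.map (Subtype.val : ({w | w ≠ v} : Set V) → V)) ''
      (G.induce {w | w ≠ v}).edgeSet) := by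
  rintro ⟨e', _, h2⟩
  induction e' with
  | h x y =>
    rw [Sym2.map_mk] at h2
    rcases Sym2.eq_iff.1 h2 with ⟨h3, _⟩ | ⟨_, h3⟩
    · exact x.2 h3
    · exact y.2 h3

end XLS_

theorem p_XLS : T_XLS := by
  intro a b
  refine ⟨?_, ?_⟩
  · rintro V W G H ⟨e⟩ h
    unfold XC at h ⊢
    have h1 : Nat.card V = Nat.card W := Nat.card_congr e.toEquiv
    have h2 : G.edgeSet.ncard = H.edgeSet.ncard := by
      rw [← Nat.card_coe_set_eq, ← Nat.card_coe_set_eq]
      exact Nat.card_congr e.mapEdgeSet
    omega
  · intro V _ G v u _ hl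
    unfold XC
    have h1 : G.edgeSet.ncard = (G.induce {w | w ≠ v}).edgeSet.ncard + 1 := by
      rw [XLS_.edge_eq G v u hl, Set.ncard_insert_of_notMem (XLS_.not_mem G v u)
        (Set.toFinite _), Set.ncard_image_of_injective _
        (Sym2.map.injective Subtype.val_injective)]
    have h2 : Nat.card V = Nat.card ({w | w ≠ v} : Set V) + 1 := by
      have h3 : (insert v ({w | w ≠ v} : Set V)) = Set.univ := by
        ext x
        by_cases hx : x = v <;> simp [hx]
      rw [Nat.card_coe_set_eq, ← Set.ncard_insert_of_notMem (a := v) (by simp)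
        (Set.toFinite _), h3, Set.ncard_univ]
    omega

end Pool.Agent.SPC
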