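import Pool.Agent.SPC.Targets2

set_option autoImplicit false

namespace Pool.Agent.SPC

open Finset Classical Filter Topology
open Pool.Agent.Pend

namespace XMON_

lemma card_edges {n : ℕ} (G : SimpleGraph (Fin n)) :
    ((univ : Finset (Sym2 (Fin n))).filter (fun e => e ∈ G.edgeSet)).card = G.edgeSet.ncard := by
  rw [← Set.ncard_coe_finset]
  congr 1
  ext e
  simp

lemma card_non {n : ℕ} (G : SimpleGraph (Fin n)) :
    ((univ : Finset (Sym2 (Fin n))).filter (fun e => ¬ e.IsDiag ∧ e ∉ G.edgeSet)).card =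
      n.choose 2 - G.edgeSet.ncard := by
  have h1 : ((univ : Finset (Sym2 (Fin n))).filter (fun e => ¬ e.IsDiag ∧ e ∉ G.edgeSet)) =
      ((univ : Finset (Sym2 (Fin n))).filter (fun e => ¬ e.IsDiag)) \
        ((univ : Finset (Sym2 (Fin n))).filter (fun e => e ∈ G.edgeSet)) := by
    ext e
    simp
  have h2 : ((univ : Finset (Sym2 (Fin n))).filter (fun e => e ∈ G.edgeSet)) ⊆
      ((univ : Finset (Sym2 (Fin n))).filter (fun e => ¬ e.IsDiag)) := by
    intro e he
    rw [mem_filter] at he ⊢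
    exact ⟨he.1, G.not_isDiag_of_mem_edgeSet he.2⟩
  have h3 : ((univ : Finset (Sym2 (Fin n))).filter (fun e => ¬ e.IsDiag)).card = n.choose 2 := by
    have := Sym2.card_subtype_not_diag (α := Fin n)
    rw [Fintype.card_fin] at this
    rw [← this, Fintype.card_subtype]
  rw [h1, card_sdiff_of_subset h2, h3, card_edges]

lemma add_edge {n : ℕ} (G : SimpleGraph (Fin n)) (e : Sym2 (Fin n)) (he : ¬ e.IsDiag) :
    (G ⊔ SimpleGraph.fromEdgeSet {e}).edgeSet = insert e G.edgeSet := by
  rw [SimpleGraph.edgeSet_sup, SimpleGraph.edgeSet_fromEdgeSet]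
  ext x
  simp only [Set.mem_union, Set.mem_sdiff, Set.mem_singleton_iff, Set.mem_insert_iff]
  constructor
  · rintro (h | ⟨h, _⟩)
    · exact Or.inr h
    · exact Or.inl h
  · rintro (h | h)
    · right
      refine ⟨h, ?_⟩
      rw [h]
      simpa using he
    · exact Or.inl h

/-- the edges -/
noncomputable def ef {n : ℕ} (G : SimpleGraph (Fin n)) : Finset (Sym2 (Fin n)) :=
  (univ : Finset (Sym2 (Fin n))).filter (fun e => e ∈ G.edgeSet)

/-- the pairs which are not edges -/
noncomputable def nf {n : ℕ} (G : SimpleGraph (Fin n)) : Finset (Sym2 (Fin n)) :=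
  (univ : Finset (Sym2 (Fin n))).filter (fun e => ¬ e.IsDiag ∧ e ∉ G.edgeSet)

lemma mem_ef {n : ℕ} (G : SimpleGraph (Fin n)) (e : Sym2 (Fin n)) :
    e ∈ ef G ↔ e ∈ G.edgeSet := by
  unfold ef
  rw [mem_filter]
  exact and_iff_right (mem_univ _)

lemma mem_nf {n : ℕ} (G : SimpleGraph (Fin n)) (e : Sym2 (Fin n)) :
    e ∈ nf G ↔ ¬ e.IsDiag ∧ e ∉ G.edgeSet := by
  unfold nf
  rw [mem_filter]
  exact and_iff_right (mem_univ _)

end XMON_

open XMON_ in
theorem p_XMON : T_XMON := by
  intro n m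
  set A : Finset (SimpleGraph (Fin n)) := (univ : Finset (SimpleGraph (Fin n))).filter
    (fun G => G.Connected ∧ G.edgeSet.ncard = m) with hA
  set B : Finset (SimpleGraph (Fin n)) := (univ : Finset (SimpleGraph (Fin n))).filter
    (fun G => G.Connected ∧ G.edgeSet.ncard = m + 1) with hB
  have hce : ce n m = A.card := rfl
  have hce2 : ce n (m + 1) = B.card := rfl
  set S : Finset (Σ _ : SimpleGraph (Fin n), Sym2 (Fin n)) := A.sigma (fun G => nf G) with hS
  set T : Finset (Σ _ : SimpleGraph (Fin n), Sym2 (Fin n)) := B.sigma (fun G => ef G) with hT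
  have cS : S.card = (n.choose 2 - m) * A.card := by
    rw [hS, card_sigma, sum_congr rfl (g := fun _ => n.choose 2 - m), sum_const, smul_eq_mul,
      mul_comm]
    intro G hG
    exact (card_non G).trans (by rw [(mem_filter.1 hG).2.2])
  have cT : T.card = (m + 1) * B.card := by
    rw [hT, card_sigma, sum_congr rfl (g := fun _ => m + 1), sum_const, smul_eq_mul,
      mul_comm]
    intro G hG
    exact (card_edges G).trans (mem_filter.1 hG).2.2
  rw [hce, hce2, ← cS, ← cT]
  refine card_le_card_of_injOn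
    (fun p => (⟨p.1 ⊔ SimpleGraph.fromEdgeSet {p.2}, p.2⟩ :
      Σ _ : SimpleGraph (Fin n), Sym2 (Fin n))) ?_ ?_
  · rintro ⟨G, e⟩ hp
    have hp' := mem_sigma.1 (Finset.mem_coe.1 hp)
    obtain ⟨h1, h2⟩ := hp'
    have h1' := (mem_filter.1 h1).2
    have h2' := (mem_nf _ _).1 h2
    simp only at h2'
    refine Finset.mem_coe.2 (mem_sigma.2 ⟨?_, ?_⟩)
    · refine mem_filter.2 ⟨mem_univ _, h1'.1.mono le_sup_left, ?_⟩
      simp only
      rw [add_edge G e h2'.1, Set.ncard_insert_of_notMem h2'.2 (Set.toFinite _), h1'.2]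
    · refine (mem_ef _ _).2 ?_
      simp only
      rw [add_edge G e h2'.1]
      exact Set.mem_insert _ _
  · rintro ⟨G, e⟩ hp ⟨G', e'⟩ hp' heq
    obtain ⟨-, h2⟩ := mem_sigma.1 (Finset.mem_coe.1 hp)
    obtain ⟨-, h2'⟩ := mem_sigma.1 (Finset.mem_coe.1 hp')
    have k2 := (mem_nf _ _).1 h2
    have k2' := (mem_nf _ _).1 h2'
    simp only at k2 k2' heq
    injection heq with q1 q2
    subst q2
    have q3 : (G ⊔ SimpleGraph.fromEdgeSet {e}).edgeSet =
        (G' ⊔ SimpleGraph.fromEdgeSet {e}).edgeSet := by rw [q1]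
    rw [add_edge G e k2.1, add_edge G' e k2'.1] at q3
    have q4 : G.edgeSet = G'.edgeSet := by
      have h3 : insert e G.edgeSet \ {e} = insert e G'.edgeSet \ {e} := by rw [q3]
      rwa [Set.insert_sdiff_self_of_notMem k2.2, Set.insert_sdiff_self_of_notMem k2'.2] at h3
    rw [SimpleGraph.edgeSet_inj.1 q4]

end Pool.Agent.SPC
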