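import Pool.Agent.SPC.Targets2

set_option autoImplicit false

/-!
# SPC-XNUM: graphs with a small vertex cover are few
-/

namespace Pool.Agent.SPC

open Finset Classical Filter Topology
open Pool.Agent.Pend

namespace XNUM_

theorem iter (hXMON : T_XMON) (n M k : ℕ) : ∀ j : ℕ, k + j ≤ M →
    k.factorial * (n.choose 2 - M) ^ j * ce n k ≤ (k + j).factorial * ce n (k + j) := by
  intro j
  induction j with
  | zero => intro _; simp
  | succ j ih =>
    intro hj
    have h1 := ih (by omega)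
    have h2 := hXMON n (k + j)
    have h3 : n.choose 2 - M ≤ n.choose 2 - (k + j) := by omega
    have h4 : (k + (j + 1)).factorial = (k + j + 1) * (k + j).factorial := by
      rw [← add_assoc, Nat.factorial_succ]
    rw [h4, ← add_assoc]
    calc k.factorial * (n.choose 2 - M) ^ (j + 1) * ce n k
        = (n.choose 2 - M) * (k.factorial * (n.choose 2 - M) ^ j * ce n k) := by ring
      _ ≤ (n.choose 2 - (k + j)) * ((k + j).factorial * ce n (k + j)) :=
          Nat.mul_le_mul h3 h1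
      _ = (k + j).factorial * ((n.choose 2 - (k + j)) * ce n (k + j)) := by ring
      _ ≤ (k + j).factorial * ((k + j + 1) * ce n (k + j + 1)) := Nat.mul_le_mul_left _ h2
      _ = (k + j + 1) * (k + j).factorial * ce n (k + j + 1) := by ring

theorem fact_low (k : ℕ) (hk : 1 ≤ k) :
    ((k : ℝ) + 1) ^ k ≤ 3 * 3 ^ k * (k.factorial : ℝ) := by
  have hk0 : (0 : ℝ) < k := by exact_mod_cast hk
  have he : Real.exp 1 ≤ 3 := by
    have := Real.exp_one_lt_d9
    linarith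
  have h1 : (k : ℝ) ^ k ≤ 3 ^ k * (k.factorial : ℝ) := by
    have h := Real.pow_div_factorial_le_exp (k : ℝ) hk0.le k
    have hf : (0 : ℝ) < k.factorial := by exact_mod_cast k.factorial_pos
    rw [div_le_iff₀ hf] at h
    refine h.trans (mul_le_mul_of_nonneg_right ?_ hf.le)
    calc Real.exp (k : ℝ) = Real.exp 1 ^ k := by rw [← Real.exp_nat_mul, mul_one]
      _ ≤ 3 ^ k := pow_le_pow_left₀ (Real.exp_pos _).le he k
  have h2 : (1 + 1 / (k : ℝ)) ^ k ≤ 3 := by
    calc (1 + 1 / (k : ℝ)) ^ k ≤ Real.exp (1 / (k : ℝ)) ^ k := by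
          refine pow_le_pow_left₀ (by positivity) ?_ k
          rw [add_comm]
          exact Real.add_one_le_exp _
      _ = Real.exp 1 := by
          rw [← Real.exp_nat_mul]
          congr 1
          field_simp
      _ ≤ 3 := he
  have h3 : ((k : ℝ) + 1) ^ k = (1 + 1 / (k : ℝ)) ^ k * (k : ℝ) ^ k := by
    rw [← mul_pow]
    congr 1
    field_simp
  rw [h3]
  calc (1 + 1 / (k : ℝ)) ^ k * (k : ℝ) ^ k ≤ 3 * (3 ^ k * (k.factorial : ℝ)) :=
        mul_le_mul h2 h1 (by positivity) (by norm_num)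
    _ = _ := by ring

theorem num (k : ℕ) (hk : 2 ≤ k) : (36 : ℝ) * 18 ^ k ≤ 200 ^ k := by
  obtain ⟨j, rfl⟩ := Nat.exists_eq_add_of_le hk
  rw [pow_add, pow_add]
  have h : (18 : ℝ) ^ j ≤ 200 ^ j := pow_le_pow_left₀ (by norm_num) (by norm_num) j
  nlinarith [pow_pos (show (0 : ℝ) < 18 by norm_num) j]

theorem main (A k q : ℕ) (hk : 2 ≤ k) (hA : 4 * A + 2 ≤ k + 1)
    (hM : k + q ≤ A * (k + 1)) :
    (2 : ℝ) * 2 ^ (k + 1) * (((k + 1) / 200 * (k + 1) : ℕ) : ℝ) ^ (k + q) ≤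
      (k.factorial : ℝ) ^ 2 * (((k + 1).choose 2 - (k + q) : ℕ) : ℝ) ^ q := by
  set x : ℝ := (k : ℝ) + 1 with hx
  have hx0 : 0 < x := by positivity
  have h1 : (((k + 1) / 200 * (k + 1) : ℕ) : ℝ) ≤ x ^ 2 / 200 := by
    push_cast
    have : (((k + 1) / 200 : ℕ) : ℝ) ≤ x / 200 := by
      have h := @Nat.cast_div_le ℝ _ _ _ (k + 1) 200
      push_cast at h
      exact h
    calc (((k + 1) / 200 : ℕ) : ℝ) * ((k : ℝ) + 1) ≤ x / 200 * x :=
          mul_le_mul_of_nonneg_right this hx0.le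
      _ = x ^ 2 / 200 := by ring
  have h2 : x ^ 2 / 4 ≤ (((k + 1).choose 2 - (k + q) : ℕ) : ℝ) := by
    have hc : (((k + 1).choose 2 : ℕ) : ℝ) = x * (x - 1) / 2 := by
      rw [Nat.cast_choose_two]
      push_cast
      ring
    have hA' : 4 * (A : ℝ) + 2 ≤ x := by
      have : ((4 * A + 2 : ℕ) : ℝ) ≤ ((k + 1 : ℕ) : ℝ) := by exact_mod_cast hA
      push_cast at this
      exact this
    have hM' : (k : ℝ) + q ≤ A * x := by
      have : ((k + q : ℕ) : ℝ) ≤ ((A * (k + 1) : ℕ) : ℝ) := by exact_mod_cast hM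
      push_cast at this
      exact this
    have h3 : (((k + 1).choose 2 : ℕ) : ℝ) - ((k + q : ℕ) : ℝ) ≤
        (((k + 1).choose 2 - (k + q) : ℕ) : ℝ) := by
      rw [sub_le_iff_le_add]
      exact_mod_cast (by omega :
        (k + 1).choose 2 ≤ ((k + 1).choose 2 - (k + q)) + (k + q))
    refine le_trans ?_ h3
    rw [hc]
    push_cast
    nlinarith
  have h3 := fact_low k (by omega)
  have h4 := num k hk
  have h5 : (4 : ℝ) ^ q ≤ 200 ^ q := pow_le_pow_left₀ (by norm_num) (by norm_num) q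
  have h6 : (x ^ k) ^ 2 ≤ 9 * 9 ^ k * (k.factorial : ℝ) ^ 2 := by
    calc (x ^ k) ^ 2 ≤ (3 * 3 ^ k * (k.factorial : ℝ)) ^ 2 :=
          pow_le_pow_left₀ (by positivity) h3 2
      _ = 9 * 9 ^ k * (k.factorial : ℝ) ^ 2 := by
          rw [mul_pow, mul_pow, ← pow_mul, mul_comm k 2, pow_mul]
          norm_num
  have h7 : (x ^ 2) ^ q ≤ 4 ^ q * (((k + 1).choose 2 - (k + q) : ℕ) : ℝ) ^ q := by
    rw [← mul_pow]
    refine pow_le_pow_left₀ (by positivity) ?_ q
    linarith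
  have h8 : (2 : ℝ) * 2 ^ (k + 1) * (((k + 1) / 200 * (k + 1) : ℕ) : ℝ) ^ (k + q) * 200 ^ (k + q)
      ≤ 4 * 2 ^ k * ((x ^ k) ^ 2 * (x ^ 2) ^ q) := by
    have h9 : (((k + 1) / 200 * (k + 1) : ℕ) : ℝ) ^ (k + q) * 200 ^ (k + q) ≤
        (x ^ k) ^ 2 * (x ^ 2) ^ q := by
      rw [← mul_pow]
      calc _ ≤ (x ^ 2) ^ (k + q) := by
            refine pow_le_pow_left₀ (by positivity) ?_ _
            linarith
        _ = _ := by ring
    calc _ = 4 * 2 ^ k * ((((k + 1) / 200 * (k + 1) : ℕ) : ℝ) ^ (k + q) * 200 ^ (k + q)) := by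
          ring
      _ ≤ _ := mul_le_mul_of_nonneg_left h9 (by positivity)
  have h9 : 4 * 2 ^ k * ((x ^ k) ^ 2 * (x ^ 2) ^ q) ≤
      ((k.factorial : ℝ) ^ 2 * (((k + 1).choose 2 - (k + q) : ℕ) : ℝ) ^ q) * 200 ^ (k + q) := by
    calc 4 * 2 ^ k * ((x ^ k) ^ 2 * (x ^ 2) ^ q)
        ≤ 4 * 2 ^ k * ((9 * 9 ^ k * (k.factorial : ℝ) ^ 2) *
          (4 ^ q * (((k + 1).choose 2 - (k + q) : ℕ) : ℝ) ^ q)) := by
          refine mul_le_mul_of_nonneg_left ?_ (by positivity)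
          exact mul_le_mul h6 h7 (by positivity) (by positivity)
      _ = ((k.factorial : ℝ) ^ 2 * (((k + 1).choose 2 - (k + q) : ℕ) : ℝ) ^ q) *
          ((36 * 18 ^ k) * 4 ^ q) := by
          have : (18 : ℝ) ^ k = 2 ^ k * 9 ^ k := by rw [← mul_pow]; norm_num
          rw [this]
          ring
      _ ≤ _ := by
          refine mul_le_mul_of_nonneg_left ?_ (by positivity)
          rw [pow_add]
          exact mul_le_mul h4 h5 (by positivity) (by positivity)
  exact le_of_mul_le_mul_right (h8.trans h9) (by positivity)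

end XNUM_

theorem p_XNUM (hXMON : T_XMON) (hXLOW : T_XLOW) : T_XNUM := by
  intro A
  refine ⟨4 * A + 3, fun n M hn hM1 hM2 => ?_⟩
  obtain ⟨k, rfl⟩ : ∃ k, n = k + 1 := ⟨n - 1, by omega⟩
  obtain ⟨q, rfl⟩ : ∃ q, M = k + q := ⟨M - k, by omega⟩
  have h1 := XNUM_.iter hXMON (k + 1) (k + q) k q le_rfl
  have h2 := hXLOW k
  have h3 := XNUM_.main A k q (by omega) (by omega) hM2
  have h4 : 2 * 2 ^ (k + 1) * ((k + 1) / 200 * (k + 1)) ^ (k + q) ≤
      k.factorial ^ 2 * ((k + 1).choose 2 - (k + q)) ^ q := by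
    exact_mod_cast h3
  have h5 : (k + q).factorial * ((k + 1) / 200 * (k + 1)).choose (k + q) ≤
      ((k + 1) / 200 * (k + 1)) ^ (k + q) := by
    rw [← Nat.descFactorial_eq_factorial_mul_choose]
    exact Nat.descFactorial_le_pow _ _
  refine Nat.le_of_mul_le_mul_left ?_ (k + q).factorial_pos
  calc (k + q).factorial * (2 * (2 ^ (k + 1) * ((k + 1) / 200 * (k + 1)).choose (k + q)))
      = 2 * 2 ^ (k + 1) * ((k + q).factorial * ((k + 1) / 200 * (k + 1)).choose (k + q)) := by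
        ring
    _ ≤ 2 * 2 ^ (k + 1) * ((k + 1) / 200 * (k + 1)) ^ (k + q) := Nat.mul_le_mul_left _ h5
    _ ≤ k.factorial ^ 2 * ((k + 1).choose 2 - (k + q)) ^ q := h4
    _ = k.factorial * ((k + 1).choose 2 - (k + q)) ^ q * k.factorial := by ring
    _ ≤ k.factorial * ((k + 1).choose 2 - (k + q)) ^ q * ce (k + 1) k :=
        Nat.mul_le_mul_left _ h2
    _ ≤ _ := h1

end Pool.Agent.SPC
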