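import Pool.Agent.SPC.Targets2

/-!
XRAT: bounded ratios for connected graphs with a given number of edges.
-/

set_option autoImplicit false

namespace Pool.Agent.SPC

open Finset Classical Filter Topology
open Pool.Agent.Pend

namespace XRAT_

/-- The number of edges of a connected graph. -/
lemma ce_zero (n m : ℕ) (h : m + 1 < n) : ce n m = 0 := by
  unfold ce
  rw [card_eq_zero, filter_eq_empty_iff]
  rintro G - ⟨hc, he⟩
  have h1 := hc.card_vert_le_card_edgeSet_add_one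
  rw [Nat.card_eq_fintype_card, Fintype.card_fin, Nat.card_coe_set_eq, he] at h1
  omega

/-- `ce n j` is increasing for small `j`. -/
lemma ce_step (hXMON : T_XMON) (n j : ℕ) (h : 2 * j + 1 ≤ n.choose 2) :
    ce n j ≤ ce n (j + 1) := by
  have h1 := hXMON n j
  have h2 : (j + 1) * ce n j ≤ (n.choose 2 - j) * ce n j :=
    Nat.mul_le_mul_right _ (by omega)
  exact Nat.le_of_mul_le_mul_left (h2.trans h1) (Nat.succ_pos j)

lemma ce_mono (hXMON : T_XMON) (n m : ℕ) (h : 2 * m ≤ n.choose 2) (t : ℕ) :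
    ce n (m - t) ≤ ce n m := by
  induction t with
  | zero => simp
  | succ t ih =>
    rcases Nat.lt_or_ge t m with h1 | h1
    · have h2 := ce_step hXMON n (m - (t + 1)) (by omega)
      have h3 : m - (t + 1) + 1 = m - t := by omega
      rw [h3] at h2
      exact h2.trans ih
    · have h3 : m - (t + 1) = m - t := by omega
      rw [h3]
      exact ih

lemma choose_big (A n : ℕ) (h : 8 * A + 1 ≤ n) : 2 * (A * (n + 1)) ≤ n.choose 2 := by
  rw [Nat.choose_two_right, Nat.le_div_iff_mul_le (by norm_num)]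
  obtain ⟨k, rfl⟩ : ∃ k, n = k + 1 := ⟨n - 1, by omega⟩
  have h1 : 8 * A ≤ k := by omega
  calc 2 * (A * (k + 1 + 1)) * 2 ≤ 2 * (A * (2 * (k + 1))) * 2 := by gcongr; omega
    _ = (k + 1) * (8 * A) := by ring
    _ ≤ (k + 1) * k := Nat.mul_le_mul_left _ h1
    _ = (k + 1) * (k + 1 - 1) := by simp

/-- The main counting inequality. -/
lemma main (hXMON : T_XMON) (hXCTR : T_XCTR) (hXSPL : T_XSPL) (hXVC : T_XVC)
    (A : ℕ) (hA : 1 ≤ A) (n m : ℕ) (hm : m + 1 ≤ A * (n + 1)) (hn : 8 * A + 1 ≤ n)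
    (hnum : 2 * (2 ^ (n + 1) * ((n + 1) / 200 * (n + 1)).choose (m + 1)) ≤
      ce (n + 1) (m + 1)) :
    ce (n + 1) (m + 1) ≤
      800 * 16 ^ (800 * A) * (800 * A + 1) * (n + 1) * ce n m := by
  set E := 800 * A with hE
  let S := (univ : Finset (SimpleGraph (Fin (n + 1)))).filter
    (fun G => G.Connected ∧ G.edgeSet.ncard = m + 1)
  let gd : SimpleGraph (Fin (n + 1)) → Finset (Fin (n + 1)) := fun G =>
    univ.filter (fun v => ∃ w, G.Adj v w ∧ dg G v ≤ E ∧ dg G w ≤ E)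
  let Sa := S.filter (fun G => n + 1 ≤ 400 * (gd G).card)
  let Sb := (univ : Finset (SimpleGraph (Fin (n + 1)))).filter (fun G =>
    G.edgeSet.ncard = m + 1 ∧ ∃ R : Finset (Fin (n + 1)), R.card ≤ (n + 1) / 200 ∧
      ∀ a b, G.Adj a b → a ∈ R ∨ b ∈ R)
  have hS : S.card = ce (n + 1) (m + 1) := rfl
  have hsub : S ⊆ Sa ∪ Sb := by
    intro G hG
    have hG' := (mem_filter.mp hG).2
    rw [mem_union]
    have h1 := hXSPL A hA (Fin (n + 1)) G (by rw [hG'.2, Fintype.card_fin]; exact hm)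
    rw [Fintype.card_fin] at h1
    rcases h1 with h1 | ⟨R, hR, hR2⟩
    · refine Or.inl (mem_filter.mpr ⟨hG, ?_⟩)
      convert h1
    · refine Or.inr (mem_filter.mpr ⟨mem_univ _, hG'.2, R, ?_, hR2⟩)
      rw [Nat.le_div_iff_mul_le (by norm_num)]
      omega
  have h1 : S.card ≤ Sa.card + Sb.card := (card_le_card hsub).trans (card_union_le _ _)
  have h2 : Sb.card ≤ 2 ^ (n + 1) * ((n + 1) / 200 * (n + 1)).choose (m + 1) :=
    hXVC (n + 1) (m + 1) ((n + 1) / 200)
  have h3 : S.card ≤ 2 * Sa.card := by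
    rw [← hS] at hnum
    omega
  -- double counting
  let P := (univ : Finset (SimpleGraph (Fin (n + 1)) × Fin (n + 1))).filter (fun p =>
    (p.1.Connected ∧ p.1.edgeSet.ncard = m + 1) ∧
    ∃ w, p.1.Adj p.2 w ∧ dg p.1 p.2 ≤ E ∧ dg p.1 w ≤ E)
  have h4 : ∑ G ∈ Sa, (gd G).card ≤ P.card := by
    rw [← card_sigma]
    refine card_le_card_of_injOn (fun x => (x.1, x.2)) ?_ ?_
    · intro x hx
      have hx' := mem_sigma.mp (mem_coe.mp hx)
      have hx1 := (mem_filter.mp (mem_filter.mp hx'.1).1).2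
      have hx2 := (mem_filter.mp hx'.2).2
      exact mem_coe.mpr (mem_filter.mpr ⟨mem_univ _, hx1, hx2⟩)
    · rintro ⟨G, v⟩ - ⟨G', v'⟩ - h
      simp only [Prod.mk.injEq] at h
      obtain ⟨rfl, rfl⟩ := h
      rfl
  have h5 : Sa.card * (n + 1) ≤ 400 * ∑ G ∈ Sa, (gd G).card := by
    rw [mul_sum, ← smul_eq_mul, ← sum_const]
    exact sum_le_sum (fun G hG => (mem_filter.mp hG).2)
  have h6 : P.card ≤ (n + 1) ^ 2 * 16 ^ E * ∑ t ∈ range (E + 1), ce n (m - t) :=
    hXCTR n m E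
  have h7 : ∑ t ∈ range (E + 1), ce n (m - t) ≤ (E + 1) * ce n m := by
    have h8 : ∀ t ∈ range (E + 1), ce n (m - t) ≤ ce n m := fun t _ =>
      ce_mono hXMON n m (by have := choose_big A n hn; omega) t
    have h9 := sum_le_card_nsmul _ _ _ h8
    rwa [card_range, smul_eq_mul] at h9
  have h8 : (n + 1) * ce (n + 1) (m + 1) ≤
      (n + 1) * (800 * 16 ^ E * (E + 1) * (n + 1) * ce n m) := by
    calc (n + 1) * ce (n + 1) (m + 1) = (n + 1) * S.card := by rw [hS]
      _ ≤ (n + 1) * (2 * Sa.card) := Nat.mul_le_mul_left _ h3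
      _ = 2 * (Sa.card * (n + 1)) := by ring
      _ ≤ 2 * (400 * ∑ G ∈ Sa, (gd G).card) := Nat.mul_le_mul_left _ h5
      _ ≤ 2 * (400 * P.card) := by gcongr
      _ ≤ 2 * (400 * ((n + 1) ^ 2 * 16 ^ E * ((E + 1) * ce n m))) := by
          gcongr
          exact h6.trans (Nat.mul_le_mul_left _ h7)
      _ = (n + 1) * (800 * 16 ^ E * (E + 1) * (n + 1) * ce n m) := by ring
  exact Nat.le_of_mul_le_mul_left h8 (Nat.succ_pos n)

end XRAT_

theorem p_XRAT (hXMON : T_XMON) (hXCTR : T_XCTR) (hXSPL : T_XSPL) (hXVC : T_XVC)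
    (hXNUM : T_XNUM) : T_XRAT := by
  intro A
  rcases Nat.eq_zero_or_pos A with hA | hA
  · subst hA
    exact ⟨0, 0, fun n m _ h => absurd h (by omega)⟩
  obtain ⟨n₁, h₁⟩ := hXNUM A
  refine ⟨((800 * 16 ^ (800 * A) * (800 * A + 1) : ℕ) : ℝ), max n₁ (8 * A + 1),
    fun n m hn hm => ?_⟩
  have hn1 : n₁ ≤ n := (le_max_left _ _).trans hn
  have hn2 : 8 * A + 1 ≤ n := (le_max_right _ _).trans hn
  have key : ce (n + 1) (m + 1) ≤
      800 * 16 ^ (800 * A) * (800 * A + 1) * (n + 1) * ce n m := by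
    rcases Nat.lt_or_ge (m + 1 + 1) (n + 1) with h | h
    · rw [XRAT_.ce_zero (n + 1) (m + 1) h]
      exact Nat.zero_le _
    · exact XRAT_.main hXMON hXCTR hXSPL hXVC A hA n m hm hn2
        (h₁ (n + 1) (m + 1) (by omega) h hm)
  exact_mod_cast key

end Pool.Agent.SPC
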