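import Pool.Agent.SPC.Targets2

/-!
# SPC, target XSPL: sparse graphs have many edges with small degrees or a small vertex cover
-/

set_option autoImplicit false

namespace Pool.Agent.SPC

open Finset Classical Filter Topology
open Pool.Agent.Pend

namespace XSPL_

theorem sum_dg {V : Type} [Fintype V] (G : SimpleGraph V) :
    ∑ v, dg G v = 2 * G.edgeSet.ncard := by
  have h1 : ∀ v, dg G v = G.degree v := by
    intro v
    unfold dg
    rw [← SimpleGraph.card_neighborFinset_eq_degree, SimpleGraph.neighborFinset_eq_filter]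
  have h2 : G.edgeSet.ncard = G.edgeFinset.card := by
    rw [Set.ncard_eq_toFinset_card']
    rfl
  rw [h2, ← SimpleGraph.sum_degrees_eq_twice_card_edges]
  exact Finset.sum_congr rfl fun v _ => h1 v

theorem big_le {V : Type} [Fintype V] (G : SimpleGraph V) (E : ℕ) :
    E * (univ.filter (fun v => E < dg G v)).card ≤ 2 * G.edgeSet.ncard := by
  rw [← sum_dg]
  have h1 : (univ.filter (fun v => E < dg G v)).card • E ≤
      ∑ v ∈ univ.filter (fun v => E < dg G v), dg G v :=
    Finset.card_nsmul_le_sum _ _ _ fun v hv => (Finset.mem_filter.1 hv).2.le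
  rw [smul_eq_mul, mul_comm] at h1
  exact h1.trans (Finset.sum_le_sum_of_subset (Finset.filter_subset _ _))

end XSPL_

open XSPL_

theorem p_XSPL : T_XSPL := by
  intro A hA V _ G hG
  set n : ℕ := Fintype.card V with hn
  set B : Finset V := univ.filter (fun v => 800 * A < dg G v) with hB
  set S : Finset V := univ.filter (fun v => ∃ w, G.Adj v w ∧ dg G v ≤ 800 * A ∧
    dg G w ≤ 800 * A) with hS
  by_cases hc : n ≤ 400 * S.card
  · exact Or.inl hc
  right
  have hb : 400 * B.card ≤ n := by
    have h1 := big_le G (800 * A)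
    rw [← hB] at h1
    have h2 : 2 * A * (400 * B.card) ≤ 2 * A * n := by
      calc 2 * A * (400 * B.card) = 800 * A * B.card := by ring
        _ ≤ 2 * G.edgeSet.ncard := h1
        _ ≤ 2 * (A * n) := Nat.mul_le_mul_left 2 hG
        _ = 2 * A * n := by ring
    exact Nat.le_of_mul_le_mul_left h2 (by omega)
  refine ⟨B ∪ S, ?_, ?_⟩
  · have h3 := Finset.card_union_le B S
    omega
  · intro a b hab
    by_cases ha : a ∈ B
    · exact Or.inl (Finset.mem_union_left _ ha)
    by_cases hb' : b ∈ B
    · exact Or.inr (Finset.mem_union_left _ hb')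
    · left
      refine Finset.mem_union_right _ ?_
      rw [hB, Finset.mem_filter, not_and, not_lt] at ha hb'
      rw [hS, Finset.mem_filter]
      exact ⟨Finset.mem_univ _, b, hab, ha (Finset.mem_univ _), hb' (Finset.mem_univ _)⟩

end Pool.Agent.SPC
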