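import Pool.Agent.SPC.Targets2

/-!
# SPC: target XVC, graphs with a small vertex cover
-/

set_option autoImplicit false

namespace Pool.Agent.SPC

open Finset Classical Filter Topology
open Pool.Agent.Pend

namespace XVC_

/-- the graphs covered by a given set -/
theorem fixed (n M r : ℕ) (R : Finset (Fin n)) (hR : R.card ≤ r) :
    ((univ : Finset (SimpleGraph (Fin n))).filter (fun G => G.edgeSet.ncard = M ∧
      ∀ a b, G.Adj a b → a ∈ R ∨ b ∈ R)).card ≤ (r * n).choose M := by
  set T : Finset (Sym2 (Fin n)) := (R ×ˢ (univ : Finset (Fin n))).image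
    (fun p : Fin n × Fin n => s(p.1, p.2)) with hT
  have hTc : T.card ≤ r * n := by
    refine Finset.card_image_le.trans ?_
    rw [Finset.card_product, Finset.card_univ, Fintype.card_fin]
    exact Nat.mul_le_mul_right n hR
  have h1 : ((univ : Finset (SimpleGraph (Fin n))).filter (fun G => G.edgeSet.ncard = M ∧
      ∀ a b, G.Adj a b → a ∈ R ∨ b ∈ R)).card ≤ (T.powersetCard M).card := by
    refine Finset.card_le_card_of_injOn (fun G => G.edgeSet.toFinset) (fun G hG => ?_)
      (fun G _ H _ h => ?_)
    · have hG' := (Finset.mem_filter.1 hG).2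
      rw [Finset.mem_coe, Finset.mem_powersetCard]
      refine ⟨fun e he => ?_, ?_⟩
      · rw [Set.mem_toFinset] at he
        induction e using Sym2.ind with
        | _ a b =>
          rw [SimpleGraph.mem_edgeSet] at he
          rw [hT, Finset.mem_image]
          rcases hG'.2 a b he with h | h
          · exact ⟨(a, b), Finset.mem_product.2 ⟨h, Finset.mem_univ _⟩, rfl⟩
          · exact ⟨(b, a), Finset.mem_product.2 ⟨h, Finset.mem_univ _⟩, Sym2.eq_swap⟩
      · rw [← Set.ncard_eq_toFinset_card']
        exact hG'.1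
    · exact SimpleGraph.edgeSet_injective (Set.toFinset_inj.1 h)
  rw [Finset.card_powersetCard] at h1
  exact h1.trans (Nat.choose_le_choose M hTc)

end XVC_

theorem p_XVC : T_XVC := by
  intro n M r
  have hsub : (univ : Finset (SimpleGraph (Fin n))).filter (fun G => G.edgeSet.ncard = M ∧
      ∃ R : Finset (Fin n), R.card ≤ r ∧ ∀ a b, G.Adj a b → a ∈ R ∨ b ∈ R) ⊆
      ((univ : Finset (Finset (Fin n))).filter (fun R => R.card ≤ r)).biUnion (fun R =>
        (univ : Finset (SimpleGraph (Fin n))).filter (fun G => G.edgeSet.ncard = M ∧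
          ∀ a b, G.Adj a b → a ∈ R ∨ b ∈ R)) := by
    intro G hG
    obtain ⟨-, hM, R, hR, h⟩ := Finset.mem_filter.1 hG
    rw [Finset.mem_biUnion]
    exact ⟨R, Finset.mem_filter.2 ⟨Finset.mem_univ _, hR⟩,
      Finset.mem_filter.2 ⟨Finset.mem_univ _, hM, h⟩⟩
  refine (Finset.card_le_card hsub).trans (Finset.card_biUnion_le.trans ?_)
  refine (Finset.sum_le_card_nsmul _ _ ((r * n).choose M) fun R hR =>
    XVC_.fixed n M r R (Finset.mem_filter.1 hR).2).trans ?_
  rw [smul_eq_mul]
  refine Nat.mul_le_mul_right _ ((Finset.card_filter_le _ _).trans ?_)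
  rw [Finset.card_univ, Fintype.card_finset, Fintype.card_fin]

end Pool.Agent.SPC
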