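import Pool.Agent.SPC.All
import Pool.Agent.SPC.P_XLS
import Pool.Agent.SPC.P_XCN
import Pool.Agent.SPC.P_XMON
import Pool.Agent.SPC.P_XCTR
import Pool.Agent.SPC.P_XSPL
import Pool.Agent.SPC.P_XVC
import Pool.Agent.SPC.P_XLOW
import Pool.Agent.SPC.P_XNUM
import Pool.Agent.SPC.P_XRAT

/-!
SPC: all unconditional statements of the second part.
-/

set_option autoImplicit false

namespace Pool.Agent.SPC

open Finset Classical Filter Topology
open Pool.Agent.Pend

theorem a_XLOW : T_XLOW := p_XLOW p_XLS p_XCN a_L1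
theorem a_XRAT : T_XRAT := p_XRAT p_XMON p_XCTR p_XSPL p_XVC (p_XNUM p_XMON a_XLOW)

/-- The graphs with exactly `m` edges. -/
def EX (m : ℕ) (V : Type) (G : SimpleGraph V) : Prop := G.edgeSet.ncard = m

theorem bb_congr (C D : (V : Type) → SimpleGraph V → Prop) (n : ℕ)
    (h : ∀ G : SimpleGraph (Fin n), C (Fin n) G ↔ D (Fin n) G) : bb C n = bb D n := by
  unfold bb
  congr 1
  apply filter_congr
  intro G _
  rw [h G]

theorem cnt_congr (C D : (V : Type) → SimpleGraph V → Prop) (n : ℕ)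
    (h : ∀ G : SimpleGraph (Fin n), C (Fin n) G ↔ D (Fin n) G) : cnt C n = cnt D n := by
  have h1 : cc C (Fin n) = cc D (Fin n) := by
    ext G
    rw [MAIN_.mem_cc, MAIN_.mem_cc, h G]
  unfold cnt
  rw [h1]

/-- connected graphs with `m ≤ A n` edges -/
theorem a_XFIN (A : ℕ) (ε : ℝ) (hε : 0 < ε) : ∃ n₀ : ℕ, ∀ n m : ℕ, n₀ ≤ n → m ≤ A * n →
    (bb (EX m) n : ℝ) ≤ ε * (cnt (EX m) n : ℝ) := by
  obtain ⟨B, n₁, hB⟩ := a_XRAT (A + 1)
  obtain ⟨n₂, h⟩ := a_MAINV B ε hε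
  refine ⟨max n₁ n₂, fun n m hn hm => ?_⟩
  have h1 := hB n m (le_of_max_le_left hn) (by nlinarith)
  have h2 := h n (le_of_max_le_right hn) (XC n m) (p_XLS n m)
  rw [p_XCN n m n m (by omega), p_XCN n m (n + 1) (m + 1) (by omega)] at h2
  have h3 := h2 h1
  have hc : Nat.card (Fin n) = n := by rw [Nat.card_eq_fintype_card, Fintype.card_fin]
  have hiff : ∀ G : SimpleGraph (Fin n), EX m (Fin n) G ↔ XC n m (Fin n) G := by
    intro G
    unfold EX XC
    rw [hc]
    omega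
  have e1 : bb (EX m) n = bb (XC n m) n := bb_congr _ _ n hiff
  have e2 : cnt (EX m) n = ce n m := by
    rw [← p_XCN n m n m (by omega)]
    exact cnt_congr _ _ n hiff
  rw [e1, e2]
  exact h3

end Pool.Agent.SPC
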