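import Pool.Agent.SPC.Targets
import Pool.Agent.Pend.ASY

/-!
SPC, ESTK: the main estimate with a threshold which does not depend on the class. The proof is
that of Pool.Agent.Pend.ASY, whose hypothesis on the sequence is only used at n.
-/

set_option autoImplicit false

namespace Pool.Agent.SPC

open Finset Classical Filter Topology
open Pool.Agent.Pend

namespace EST_

theorem core (a φ : ℕ → ℝ) (h0 : ∀ n, 0 ≤ a n)
    (h2 : ∀ k : ℕ, φ k ≤ ((k : ℝ) + 3) ^ (k + 3) / ((k + 3).factorial : ℝ))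
    (h3 : ∀ k : ℕ,
      ((k : ℝ) + 3) ^ (k + 3) / ((k + 3).factorial : ℝ) / (2 * ((k : ℝ) + 3)) ^ 2 ≤ φ k)
    (δ G c A : ℝ) (hδ : 0 < δ) (hG : G = |Real.log (1 / δ)| + 1) (hc : c = 2 / 100 / (G + 1))
    (hA : A = 4 * Real.exp 1 * 9 ^ 3 * Real.exp (2 * G) + 19 / δ + 3 * 19 ^ 3 * Real.exp G)
    (n : ℕ) (an : 0 < a n) (h71 : a n ≤ 71 / 100 * a (n + 1))
    (hgood : Good a δ n) (hw : 30 * Real.log n + 2 ≤ n) (hL10 : 10 ≤ Real.log n)
    (hL6 : 6 * G ≤ Real.log n) : ∃ k : ℕ, 4 * (k + 3) + 2 ≤ n ∧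
    a (n + 2 * (k + 3)) / ((n : ℝ) * φ k) + (2 * ((k : ℝ) + 3) + 1) * a (n + 1) / (n : ℝ) +
      (n : ℝ) ^ 2 * (2 * ((k : ℝ) + 3) + 1) ^ 3 * φ k *
        (a (n - (4 * (k + 3) - 1)) + a (n - 4 * (k + 3)) + a (n - (4 * (k + 3) + 1))) ≤
      A * Real.log n ^ 3 * Real.exp (-(c * Real.log n)) * a n := by
  set L := Real.log n with hLdef
  have hL0 : 0 < L := by linarith
  have hn0 : (0 : ℝ) < n := by linarith
  have an1 : 0 < a (n + 1) := by linarith
  set g := Real.log (a (n + 1) / a n) with hg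
  have hr : 0 < a (n + 1) / a n := by positivity
  have hexpg : Real.exp g = a (n + 1) / a n := Real.exp_log hr
  have g34 : 34 / 100 ≤ g := by
    rw [hg, Real.le_log_iff_exp_le hr]
    refine ASY_.exp34.trans ?_
    rw [le_div_iff₀ an]
    linarith
  have gG : g ≤ G - 1 := by
    have h4 := (hgood n n (by linarith) (by linarith) (by linarith) (by linarith)).1
    have h5 : a (n + 1) / a n ≤ 1 / δ := by
      rw [div_le_div_iff₀ an hδ]; linarith
    have h6 : g ≤ Real.log (1 / δ) := Real.log_le_log hr h5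
    have h7 := le_abs_self (Real.log (1 / δ))
    rw [hG]; linarith
  have hGpos : 1 ≤ G := by rw [hG]; have := abs_nonneg (Real.log (1 / δ)); linarith
  have hup : ∀ j : ℕ, (n : ℝ) ≤ (j : ℝ) + 30 * L → (j : ℝ) ≤ n + 30 * L →
      a (j + 1) ≤ Real.exp (g + 1 / 100) * a j := by
    intro j hj1 hj2
    have h4 := (hgood n j (by linarith) (by linarith) hj1 hj2).2
    have h5 : a (j + 1) ≤ Real.exp (1 / 100) * (a j * a (n + 1)) / a n := by
      rw [le_div_iff₀ an]; linarith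
    refine h5.trans (le_of_eq ?_)
    rw [Real.exp_add, hexpg]
    field_simp
  have hdn : ∀ j : ℕ, (n : ℝ) ≤ (j : ℝ) + 30 * L → (j : ℝ) ≤ n + 30 * L →
      Real.exp (g - 1 / 100) * a j ≤ a (j + 1) := by
    intro j hj1 hj2
    have h4 := (hgood j n hj1 hj2 (by linarith) (by linarith)).2
    have h5 : Real.exp (g - 1 / 100) * a j = a j * a (n + 1) / a n / Real.exp (1 / 100) := by
      rw [Real.exp_sub, hexpg]; field_simp
    rw [h5, div_le_iff₀ (Real.exp_pos _), div_le_iff₀ an]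
    linarith
  have hD : 7 / 100 ≤ g - 27 / 100 := by linarith
  have hD0 : 0 < g - 27 / 100 := by linarith
  obtain ⟨K, hKdef⟩ : ∃ K, K = ⌈L / (2 * (g - 27 / 100))⌉₊ := ⟨_, rfl⟩
  have hK1 : L / (2 * (g - 27 / 100)) ≤ K := by rw [hKdef]; exact Nat.le_ceil _
  have hK2 : (K : ℝ) ≤ L / (2 * (g - 27 / 100)) + 1 := by
    rw [hKdef]; exact (Nat.ceil_lt_add_one (by positivity)).le
  have hK3 : L / (2 * (g - 27 / 100)) ≤ L / (14 / 100) :=
    div_le_div_of_nonneg_left hL0.le (by norm_num) (by linarith)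
  have hK4 : (K : ℝ) ≤ L / (14 / 100) + 1 := by linarith
  have hK5 : (3 : ℝ) ≤ K := by
    refine le_trans ?_ hK1
    rw [le_div_iff₀ (by linarith)]
    linarith
  have hK6 : 3 ≤ K := by exact_mod_cast hK5
  obtain ⟨k, rfl⟩ : ∃ k, K = k + 3 := ⟨K - 3, by omega⟩
  have hcast : ((k + 3 : ℕ) : ℝ) = (k : ℝ) + 3 := by push_cast; ring
  rw [hcast] at hK1 hK2 hK4 hK5
  set κ : ℝ := (k : ℝ) + 3 with hκ
  have hκ0 : 0 < κ := by linarith
  have hLd : L / (14 / 100) = 50 / 7 * L := by field_simp; norm_num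
  rw [hLd] at hK4
  have hκ30 : 4 * κ + 1 ≤ 30 * L := by linarith
  have hκ9 : κ ≤ 9 * L := by linarith
  have hκ19 : 2 * κ + 1 ≤ 19 * L := by linarith
  have hnL : (n : ℝ) = Real.exp L := by rw [hLdef, Real.exp_log hn0]
  have hbig : (4 * (k + 3) + 2 : ℕ) ≤ n := by
    have : ((4 * (k + 3) + 2 : ℕ) : ℝ) ≤ n := by
      push_cast
      rw [hκ] at hκ30
      linarith
    exact_mod_cast this
  refine ⟨k, hbig, ?_⟩
  have hf0 : (0 : ℝ) < ((k + 3).factorial : ℝ) := by exact_mod_cast Nat.factorial_pos _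
  have hφ1 : φ k ≤ Real.exp κ := (h2 k).trans (Real.pow_div_factorial_le_exp κ hκ0.le (k + 3))
  have hφ2 : Real.exp κ / (Real.exp 1 * κ * (2 * κ) ^ 2) ≤ φ k := by
    refine le_trans ?_ (h3 k)
    have h4 := ASY_.fact_le (k + 3) (by omega)
    rw [hcast] at h4
    rw [← div_div]
    apply div_le_div_of_nonneg_right _ (by positivity)
    rw [div_le_div_iff₀ (by positivity) hf0]
    linarith
  have hφ0 : 0 < φ k := lt_of_lt_of_le (by positivity) hφ2
  -- term 1
  have T1 : a (n + 2 * (k + 3)) / ((n : ℝ) * φ k) ≤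
      4 * Real.exp 1 * κ ^ 3 * Real.exp (2 * G - c * L) * a n := by
    have h4 := ASY_.up a (Real.exp (g + 1 / 100)) (Real.exp_pos _).le n (2 * (k + 3))
      (fun j hj1 hj2 => hup j (by
          have : (n : ℝ) ≤ j := by exact_mod_cast hj1
          linarith) (by
          have : (j : ℝ) < n + 2 * (k + 3) := by exact_mod_cast hj2
          linarith))
    rw [← Real.exp_nat_mul] at h4
    have e1 : ((2 * (k + 3) : ℕ) : ℝ) * (g + 1 / 100) = 2 * κ * (g + 1 / 100) := by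
      push_cast; ring
    rw [e1] at h4
    have h5 : (n : ℝ) * (Real.exp κ / (Real.exp 1 * κ * (2 * κ) ^ 2)) ≤ n * φ k :=
      mul_le_mul_of_nonneg_left hφ2 hn0.le
    have h6 : 0 < (n : ℝ) * (Real.exp κ / (Real.exp 1 * κ * (2 * κ) ^ 2)) := by positivity
    calc a (n + 2 * (k + 3)) / ((n : ℝ) * φ k)
        ≤ Real.exp (2 * κ * (g + 1 / 100)) * a n /
            ((n : ℝ) * (Real.exp κ / (Real.exp 1 * κ * (2 * κ) ^ 2))) := by
          apply div_le_div₀ (by positivity) h4 h6 h5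
      _ = 4 * Real.exp 1 * κ ^ 3 * Real.exp (2 * κ * (g + 1 / 100) - κ - L) * a n := by
          rw [hnL, Real.exp_sub, Real.exp_sub]
          field_simp
          try ring
      _ ≤ _ := by
          have h7 := ASY_.expo1 g L κ G c g34 (by linarith) hL0.le hc hκ0.le hK2
          apply mul_le_mul_of_nonneg_right _ an.le
          apply mul_le_mul_of_nonneg_left (Real.exp_le_exp.mpr h7) (by positivity)
  have hc0 : 0 < c := by rw [hc]; positivity
  have hc1 : c ≤ 1 := by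
    rw [hc, div_le_one (by linarith)]; linarith
  have T2 : (2 * κ + 1) * a (n + 1) / (n : ℝ) ≤
      19 / δ * L * Real.exp (-(c * L)) * a n := by
    have h4 := (hgood n n (by linarith) (by linarith) (by linarith) (by linarith)).1
    have h5 : a (n + 1) ≤ a n / δ := by rw [le_div_iff₀ hδ]; linarith
    have h6 : Real.exp (-L) ≤ Real.exp (-(c * L)) := by
      apply Real.exp_le_exp.mpr; nlinarith
    calc (2 * κ + 1) * a (n + 1) / (n : ℝ) ≤ (19 * L) * (a n / δ) / n := by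
          apply div_le_div_of_nonneg_right _ hn0.le
          exact mul_le_mul hκ19 h5 an1.le (by positivity)
      _ = 19 / δ * L * Real.exp (-L) * a n := by
          rw [hnL, Real.exp_neg]; field_simp
      _ ≤ _ := by
          apply mul_le_mul_of_nonneg_right _ an.le
          exact mul_le_mul_of_nonneg_left h6 (by positivity)
  have T3 : ∀ q : ℕ, q ≤ 4 * (k + 3) + 1 → 4 * (k + 3) - 1 ≤ q →
      (n : ℝ) ^ 2 * (2 * κ + 1) ^ 3 * φ k * a (n - q) ≤
        (2 * κ + 1) ^ 3 * Real.exp (G - c * L) * a n := by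
    intro q hq1 hq2
    have hq1' : (q : ℝ) ≤ 4 * κ + 1 := by
      have : (q : ℝ) ≤ ((4 * (k + 3) + 1 : ℕ) : ℝ) := by exact_mod_cast hq1
      push_cast at this
      rw [hκ]; linarith
    have hq2' : 4 * κ - 1 ≤ (q : ℝ) := by
      have h4 : 4 * (k + 3) ≤ q + 1 := by omega
      have : ((4 * (k + 3) : ℕ) : ℝ) ≤ ((q + 1 : ℕ) : ℝ) := by exact_mod_cast h4
      push_cast at this
      rw [hκ]; linarith
    have h4 := ASY_.down a (Real.exp (g - 1 / 100)) (Real.exp_pos _).le n q (by omega)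
      (fun j hj1 hj2 => hdn j (by
          have : (n : ℝ) ≤ j + q := by exact_mod_cast hj1
          linarith) (by
          have : (j : ℝ) < n := by exact_mod_cast hj2
          linarith))
    rw [← Real.exp_nat_mul] at h4
    have h5 : a (n - q) ≤ Real.exp (-((q : ℝ) * (g - 1 / 100))) * a n := by
      rw [Real.exp_neg, ← div_eq_inv_mul, le_div_iff₀ (Real.exp_pos _)]
      linarith
    calc (n : ℝ) ^ 2 * (2 * κ + 1) ^ 3 * φ k * a (n - q)
        ≤ (n : ℝ) ^ 2 * (2 * κ + 1) ^ 3 * Real.exp κ *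
            (Real.exp (-((q : ℝ) * (g - 1 / 100))) * a n) := by
          apply mul_le_mul _ h5 (h0 _) (by positivity)
          exact mul_le_mul_of_nonneg_left hφ1 (by positivity)
      _ = (2 * κ + 1) ^ 3 * Real.exp (2 * L + κ - q * (g - 1 / 100)) * a n := by
          rw [hnL, ASY_.expsplit]
          ring
      _ ≤ _ := by
          have h7 := ASY_.expo3 g L κ G c q g34 (by linarith) hL0.le hc hK1 hq2'
          apply mul_le_mul_of_nonneg_right _ an.le
          apply mul_le_mul_of_nonneg_left (Real.exp_le_exp.mpr h7) (by positivity)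
  have T3a := T3 (4 * (k + 3) - 1) (by omega) le_rfl
  have T3b := T3 (4 * (k + 3)) (by omega) (by omega)
  have T3c := T3 (4 * (k + 3) + 1) le_rfl (by omega)
  have hL1 : (1 : ℝ) ≤ L := by linarith
  have hLL : L ≤ L ^ 3 := by nlinarith [sq_nonneg L, mul_pos hL0 hL0]
  have e2 : Real.exp (2 * G - c * L) = Real.exp (2 * G) * Real.exp (-(c * L)) := by
    rw [← Real.exp_add]; ring_nf
  have e3 : Real.exp (G - c * L) = Real.exp G * Real.exp (-(c * L)) := by
    rw [← Real.exp_add]; ring_nf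
  have F1 : 4 * Real.exp 1 * κ ^ 3 * Real.exp (2 * G - c * L) * a n ≤
      4 * Real.exp 1 * 9 ^ 3 * Real.exp (2 * G) * (L ^ 3 * Real.exp (-(c * L)) * a n) := by
    have : κ ^ 3 ≤ (9 * L) ^ 3 := pow_le_pow_left₀ hκ0.le hκ9 3
    calc 4 * Real.exp 1 * κ ^ 3 * Real.exp (2 * G - c * L) * a n
        ≤ 4 * Real.exp 1 * (9 * L) ^ 3 * Real.exp (2 * G - c * L) * a n := by
          apply mul_le_mul_of_nonneg_right _ an.le
          apply mul_le_mul_of_nonneg_right _ (Real.exp_pos _).le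
          exact mul_le_mul_of_nonneg_left this (by positivity)
      _ = _ := by rw [e2]; ring
  have F2 : 19 / δ * L * Real.exp (-(c * L)) * a n ≤
      19 / δ * (L ^ 3 * Real.exp (-(c * L)) * a n) := by
    calc 19 / δ * L * Real.exp (-(c * L)) * a n
        = 19 / δ * (L * Real.exp (-(c * L)) * a n) := by ring
      _ ≤ _ := by
          apply mul_le_mul_of_nonneg_left _ (by positivity)
          apply mul_le_mul_of_nonneg_right _ an.le
          exact mul_le_mul_of_nonneg_right hLL (Real.exp_pos _).le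
  have F3 : (2 * κ + 1) ^ 3 * Real.exp (G - c * L) * a n ≤
      19 ^ 3 * Real.exp G * (L ^ 3 * Real.exp (-(c * L)) * a n) := by
    have : (2 * κ + 1) ^ 3 ≤ (19 * L) ^ 3 := pow_le_pow_left₀ (by positivity) hκ19 3
    calc (2 * κ + 1) ^ 3 * Real.exp (G - c * L) * a n
        ≤ (19 * L) ^ 3 * Real.exp (G - c * L) * a n := by
          apply mul_le_mul_of_nonneg_right _ an.le
          exact mul_le_mul_of_nonneg_right this (Real.exp_pos _).le
      _ = _ := by rw [e3]; ring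
  have e4 : (n : ℝ) ^ 2 * (2 * κ + 1) ^ 3 * φ k *
        (a (n - (4 * (k + 3) - 1)) + a (n - 4 * (k + 3)) + a (n - (4 * (k + 3) + 1))) =
      (n : ℝ) ^ 2 * (2 * κ + 1) ^ 3 * φ k * a (n - (4 * (k + 3) - 1)) +
      (n : ℝ) ^ 2 * (2 * κ + 1) ^ 3 * φ k * a (n - 4 * (k + 3)) +
      (n : ℝ) ^ 2 * (2 * κ + 1) ^ 3 * φ k * a (n - (4 * (k + 3) + 1)) := by ring
  rw [e4]
  have e5 : A * L ^ 3 * Real.exp (-(c * L)) * a n =
      4 * Real.exp 1 * 9 ^ 3 * Real.exp (2 * G) * (L ^ 3 * Real.exp (-(c * L)) * a n) +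
      19 / δ * (L ^ 3 * Real.exp (-(c * L)) * a n) +
      3 * (19 ^ 3 * Real.exp G * (L ^ 3 * Real.exp (-(c * L)) * a n)) := by
    rw [hA]; ring
  rw [e5]
  linarith


theorem uasy (φ : ℕ → ℝ)
    (h2 : ∀ k : ℕ, φ k ≤ ((k : ℝ) + 3) ^ (k + 3) / ((k + 3).factorial : ℝ))
    (h3 : ∀ k : ℕ,
      ((k : ℝ) + 3) ^ (k + 3) / ((k + 3).factorial : ℝ) / (2 * ((k : ℝ) + 3)) ^ 2 ≤ φ k)
    (δ ε : ℝ) (hδ : 0 < δ) (hε : 0 < ε) : ∃ n₁ : ℕ, ∀ n, n₁ ≤ n → ∀ a : ℕ → ℝ, (∀ m, 0 ≤ a m) →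
    0 < a n → a n ≤ 71 / 100 * a (n + 1) → Good a δ n → ∃ k : ℕ,
    4 * (k + 3) + 2 ≤ n ∧
    a (n + 2 * (k + 3)) / ((n : ℝ) * φ k) + (2 * ((k : ℝ) + 3) + 1) * a (n + 1) / (n : ℝ) +
      (n : ℝ) ^ 2 * (2 * ((k : ℝ) + 3) + 1) ^ 3 * φ k *
        (a (n - (4 * (k + 3) - 1)) + a (n - 4 * (k + 3)) + a (n - (4 * (k + 3) + 1))) ≤
      ε * a n := by
  have hG1 : 0 < |Real.log (1 / δ)| + 1 + 1 := by positivity
  have hc : 0 < 2 / 100 / (|Real.log (1 / δ)| + 1 + 1) := by positivity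
  have hlog := Real.tendsto_log_atTop.comp (tendsto_natCast_atTop_atTop (R := ℝ))
  have E1 := hlog.eventually (ASY_.small
    (4 * Real.exp 1 * 9 ^ 3 * Real.exp (2 * (|Real.log (1 / δ)| + 1)) + 19 / δ +
      3 * 19 ^ 3 * Real.exp (|Real.log (1 / δ)| + 1)) _ ε hc hε)
  have E2 := hlog.eventually (eventually_ge_atTop (10 : ℝ))
  have E3 := hlog.eventually (eventually_ge_atTop (6 * (|Real.log (1 / δ)| + 1)))
  have E4 := ASY_.large 0
  obtain ⟨n₁, hn₁⟩ := Filter.eventually_atTop.mp (E1.and (E2.and (E3.and E4)))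
  refine ⟨n₁, fun n hn a h0 an h71 hgood => ?_⟩
  obtain ⟨e1, e2, e3, e4⟩ := hn₁ n hn
  have e4' : 30 * Real.log n + 2 ≤ n := by
    have := e4
    simp only [Nat.cast_zero, add_zero] at this
    exact this
  obtain ⟨k, hk, hle⟩ := core a φ h0 h2 h3 δ _ _ _ hδ rfl rfl rfl n an h71 hgood e4' e2 e3
  refine ⟨k, hk, hle.trans ?_⟩
  exact mul_le_mul_of_nonneg_right e1 (h0 n)

/-- members which are not reconstructible are connected -/
theorem bb_le_cnt (h1 : T_START) (h2 : T_DET) (h3 : T_DSC1) (h4 : T_DSC2) (h5 : T_DSC3)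
    (C : (V : Type) → SimpleGraph V → Prop) (n : ℕ) (hn : 14 ≤ n) : bb C n ≤ cnt C n := by
  unfold bb cnt
  refine card_le_card fun G hG => ?_
  obtain ⟨hG1, hG2⟩ := (mem_filter.1 hG).2
  obtain ⟨hc, -⟩ := MAIN_.rec_cases h1 h2 h3 h4 h5 G 0 (by rw [Fintype.card_fin]; omega) hG2
  exact (MAIN_.mem_cc C G).2 ⟨hc, hG1⟩

end EST_

theorem p_ESTK (h1 : T_START) (h2 : T_DET) (h3 : T_DSC1) (h4 : T_DSC2) (h5 : T_DSC3)
    (h6 : T_FEWL) (h7 : T_EXI) (h8 : T_COLL) (h9 : T_FLO) (h10 : T_FUP) : T_ESTK := by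
  intro δ ε hδ hε
  obtain ⟨n₁, hn₁⟩ := EST_.uasy MAIN_.ph (MAIN_.ph_up h10) (MAIN_.ph_lo h9) δ ε hδ hε
  refine ⟨max n₁ 14, fun n hn C hC hg h71 => ?_⟩
  by_cases h0 : cnt C n = 0
  · have h := EST_.bb_le_cnt h1 h2 h3 h4 h5 C n (le_of_max_le_right hn)
    have hb : bb C n = 0 := by omega
    rw [hb, h0]
    simp
  · have hpos : 0 < aa C n := MAIN_.aa_pos C n (Nat.pos_of_ne_zero h0)
    obtain ⟨k, hk1, hk2⟩ := hn₁ n (le_of_max_le_left hn) (aa C) (MAIN_.aa_nonneg C) hpos h71 hg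
    have h := MAIN_.est h1 h2 h3 h4 h5 h6 h7 h8 h9 C hC n k hk1
    rw [MAIN_.cnt_eq]
    unfold bb
    calc _ ≤ _ := h
      _ ≤ ε * aa C n * (n.factorial : ℝ) := by gcongr
      _ = _ := by ring

end Pool.Agent.SPC
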