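import Pool.Agent.SPC.P_MAINU

set_option autoImplicit false

/-!
MAINV: the uniform form of MAINU. The threshold does not depend on the class, and the ratio is
bounded only at one `n`.
-/

namespace Pool.Agent.SPC

open Finset Classical Filter Topology
open Pool.Agent.Pend

/-- MAINV: uniform version. -/
def T_MAINV : Prop := ∀ A ε : ℝ, 0 < ε → ∃ n₁ : ℕ, ∀ n : ℕ, n₁ ≤ n →
  ∀ C : (V : Type) → SimpleGraph V → Prop, LeafStable C →
  (cnt C (n + 1) : ℝ) ≤ A * ((n : ℝ) + 1) * (cnt C n : ℝ) → (bb C n : ℝ) ≤ ε * (cnt C n : ℝ)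

open MAINU_ in
theorem p_MAINV (hCKS : T_CKS) (hCOR : T_COR) (hFORM : T_FORM) (hGOODK : T_GOODK)
    (hGOODT : T_GOODT) (hESTK : T_ESTK) (hSUM : T_SUM) (hFEWL : T_FEWL)
    (hbb : ∀ (C : (V : Type) → SimpleGraph V → Prop) (n : ℕ), 14 ≤ n → bb C n ≤ cnt C n) :
    T_MAINV := by
  intro A₀ ε hε
  obtain ⟨A, hA1, hAA⟩ : ∃ A : ℝ, 1 ≤ A ∧ A₀ ≤ A := ⟨max A₀ 1, le_max_right _ _, le_max_left _ _⟩
  have hA0 : 0 < A := by linarith
  set δ₀ : ℝ := min (1 / 2) (ε / (4 * A)) with hδ₀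
  have hδ₀pos : 0 < δ₀ := lt_min (by norm_num) (by positivity)
  have hδ₀A : A * δ₀ ≤ ε / 4 := by
    have h1 : δ₀ ≤ ε / (4 * A) := min_le_right _ _
    calc A * δ₀ ≤ A * (ε / (4 * A)) := mul_le_mul_of_nonneg_left h1 hA0.le
      _ = ε / 4 := by field_simp
  obtain ⟨δ₁, hδ₁, n₁, gk⟩ := hGOODK δ₀ hδ₀pos
  obtain ⟨n₂, gt⟩ := hGOODT
  obtain ⟨n₃, ek⟩ := hESTK δ₁ (ε / 2) hδ₁ (by linarith)
  obtain ⟨n₄, et⟩ := hESTK (1 / 4) (ε / 2) (by norm_num) (by linarith)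
  obtain ⟨n₅, hn₅⟩ := exists_nat_ge (4 * A / ε)
  refine ⟨max 14 (max n₁ (max n₂ (max n₃ (max n₄ n₅)))), fun n hn C hC hA' => ?_⟩
  simp only [max_le_iff] at hn
  obtain ⟨hn14, hn1, hn2, hn3, hn4, hn5⟩ := hn
  have hA : (cnt C (n + 1) : ℝ) ≤ A * ((n : ℝ) + 1) * (cnt C n : ℝ) := by
    refine hA'.trans ?_
    apply mul_le_mul_of_nonneg_right _ (Nat.cast_nonneg _)
    apply mul_le_mul_of_nonneg_right hAA
    positivity
  have hnpos : (0 : ℝ) < n := by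
    have : (14 : ℝ) ≤ n := by exact_mod_cast hn14
    linarith
  have hAn : A ≤ ε / 4 * n := by
    have h1 : 4 * A / ε ≤ n := hn₅.trans (by exact_mod_cast hn5)
    rw [div_le_iff₀ hε] at h1
    linarith
  have key : ∀ k ∈ range (n + 1), (bb (CK C k) n : ℝ) ≤ ε / 2 * (cnt (CK C k) n : ℝ) +
      (δ₀ * n + 1) / (((n : ℝ) + 1) * n) * (cnt (CK C k) (n + 1) : ℝ) := by
    intro k hk
    exact step hCKS hCOR hFORM hFEWL hbb C hC δ₀ ε δ₁ hδ₀pos hε n hn14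
      (fun k hk a h1 h2 => gk n k hn1 hk a h1 h2) (fun a h1 h2 => gt n hn2 a h1 h2)
      (fun C h1 h2 h3 => ek n hn3 C h1 h2 h3) (fun C h1 h2 h3 => et n hn4 C h1 h2 h3) k
      (by simpa [Nat.lt_succ_iff] using hk)
  have s1 : (bb C n : ℝ) = ∑ k ∈ range (n + 1), (bb (CK C k) n : ℝ) := by
    rw [(hSUM C n).2]
    push_cast
    rfl
  have s2 : (cnt C n : ℝ) = ∑ k ∈ range (n + 1), (cnt (CK C k) n : ℝ) := by
    rw [(hSUM C n).1]
    push_cast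
    rfl
  have s3 : ∑ k ∈ range (n + 1), (cnt (CK C k) (n + 1) : ℝ) ≤ (cnt C (n + 1) : ℝ) := by
    rw [(hSUM C (n + 1)).1, Finset.sum_range_succ _ (n + 1)]
    push_cast
    linarith [(Nat.cast_nonneg (cnt (CK C (n + 1)) (n + 1)) : (0 : ℝ) ≤ _)]
  have hcoef : 0 ≤ (δ₀ * n + 1) / (((n : ℝ) + 1) * n) := by positivity
  have hc : 0 ≤ (cnt C n : ℝ) := Nat.cast_nonneg _
  calc (bb C n : ℝ) ≤ ∑ k ∈ range (n + 1), (ε / 2 * (cnt (CK C k) n : ℝ) +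
      (δ₀ * n + 1) / (((n : ℝ) + 1) * n) * (cnt (CK C k) (n + 1) : ℝ)) := by
        rw [s1]; exact Finset.sum_le_sum key
    _ = ε / 2 * (cnt C n : ℝ) + (δ₀ * n + 1) / (((n : ℝ) + 1) * n) *
        ∑ k ∈ range (n + 1), (cnt (CK C k) (n + 1) : ℝ) := by
        rw [Finset.sum_add_distrib, ← Finset.mul_sum, ← Finset.mul_sum, ← s2]
    _ ≤ ε / 2 * (cnt C n : ℝ) + (δ₀ * n + 1) / (((n : ℝ) + 1) * n) *
        (A * ((n : ℝ) + 1) * (cnt C n : ℝ)) := by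
        gcongr
        exact s3.trans hA
    _ = (ε / 2 + (A * δ₀ + A / n)) * (cnt C n : ℝ) := by
        field_simp
    _ ≤ ε * (cnt C n : ℝ) := by
        apply mul_le_mul_of_nonneg_right _ hc
        have : A / n ≤ ε / 4 := by
          rw [div_le_iff₀ hnpos]
          exact hAn
        linarith

end Pool.Agent.SPC
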