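import Pool.Agent.SPC.Targets

/-!
# SPC: ALT, inclusion and exclusion over sets of leaves
-/

set_option autoImplicit false

namespace Pool.Agent.SPC

open Finset Classical Filter Topology
open Pool.Agent.Pend

namespace ALT_

/-- the set of leaves -/
noncomputable def LL {n : ℕ} (G : SimpleGraph (Fin n)) : Finset (Fin n) :=
  univ.filter (fun v => ∃ u, Lf G v u)

theorem sub_iff {n : ℕ} (G : SimpleGraph (Fin n)) (S : Finset (Fin n)) :
    S ⊆ LL G ↔ ∀ v ∈ S, ∃ u, Lf G v u := by
  unfold LL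
  constructor
  · intro h v hv
    exact (mem_filter.mp (h hv)).2
  · intro h v hv
    exact mem_filter.mpr ⟨mem_univ _, h v hv⟩

theorem one_graph {n : ℕ} (G : SimpleGraph (Fin n)) :
    (∑ S : Finset (Fin n), if (∀ v ∈ S, ∃ u, Lf G v u) then (-1 : ℤ) ^ S.card else 0) =
      if lv G = 0 then 1 else 0 := by
  have h1 : (∑ S : Finset (Fin n), if (∀ v ∈ S, ∃ u, Lf G v u) then (-1 : ℤ) ^ S.card else 0) =
      ∑ S ∈ (LL G).powerset, (-1 : ℤ) ^ S.card := by
    rw [← Finset.sum_filter]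
    refine Finset.sum_congr ?_ fun _ _ => rfl
    ext S
    rw [mem_filter, mem_powerset, sub_iff]
    simp
  rw [h1, Finset.sum_powerset_neg_one_pow_card]
  have h2 : LL G = ∅ ↔ lv G = 0 := by
    have h3 : (LL G).card = lv G := by
      unfold LL lv
      congr!
    rw [← Finset.card_eq_zero, h3]
  by_cases h : lv G = 0
  · rw [if_pos (h2.mpr h), if_pos h]
  · rw [if_neg (fun h' => h (h2.mp h')), if_neg h]

end ALT_

open ALT_ in
/-- ALT. -/
theorem p_ALT (hLVS : T_LVS) : T_ALT := by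
  intro C hC n hn
  have hR : (((cc C (Fin n)).filter (fun G => lv G = 0)).card : ℤ) =
      ∑ G ∈ cc C (Fin n), ∑ S : Finset (Fin n),
        if (∀ v ∈ S, ∃ u, Lf G v u) then (-1 : ℤ) ^ S.card else 0 := by
    rw [Finset.card_filter]
    push_cast
    refine Finset.sum_congr rfl fun G _ => ?_
    rw [one_graph]
  rw [hR, Finset.sum_comm]
  have h1 : ∀ S : Finset (Fin n), (∑ G ∈ cc C (Fin n),
      if (∀ v ∈ S, ∃ u, Lf G v u) then (-1 : ℤ) ^ S.card else 0) =
      (-1 : ℤ) ^ S.card * (((n - S.card : ℕ) : ℤ) ^ S.card * (cnt C (n - S.card) : ℤ)) := by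
    intro S
    have h2 := hLVS C hC n hn S
    rw [← Finset.sum_filter, Finset.sum_const, h2, nsmul_eq_mul]
    push_cast
    ring
  rw [Finset.sum_congr rfl fun S _ => h1 S]
  have h3 := Finset.sum_powerset_apply_card (x := (univ : Finset (Fin n)))
    (fun s => (-1 : ℤ) ^ s * (((n - s : ℕ) : ℤ) ^ s * (cnt C (n - s) : ℤ)))
  rw [Finset.powerset_univ, Finset.card_univ, Fintype.card_fin] at h3
  rw [h3]
  refine Finset.sum_congr rfl fun s _ => ?_
  rw [nsmul_eq_mul]
  ring

end Pool.Agent.SPC
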