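import Pool.Agent.SPC.Targets

/-!
# SPC: prescribing the size of the core keeps leaf stability (target T_CKS)
-/

set_option autoImplicit false

namespace Pool.Agent.SPC

open Finset Classical Filter Topology
open Pool.Agent.Pend

namespace CKS_

lemma map_sub {V W : Type} {G : SimpleGraph V} {H : SimpleGraph W} (f : V → W)
    (hf : Function.Injective f) (h : ∀ a b, G.Adj a b → H.Adj (f a) (f b)) {v : V}
    (hv : v ∈ Cor G) : f v ∈ Cor H := by
  obtain ⟨S, hvS, hS⟩ := hv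
  refine ⟨f '' S, ⟨v, hvS, rfl⟩, ?_⟩
  rintro _ ⟨x, hx, rfl⟩
  obtain ⟨a, b, hab, ha, hb, h1, h2⟩ := hS x hx
  exact ⟨f a, f b, fun e => hab (hf e), ⟨a, ha, rfl⟩, ⟨b, hb, rfl⟩, h _ _ h1, h _ _ h2⟩

lemma iso_card {V W : Type} {G : SimpleGraph V} {H : SimpleGraph W} (e : G ≃g H) :
    (Cor G).ncard = (Cor H).ncard := by
  have h : (e : V → W) '' (Cor G) = Cor H := by
    ext w
    constructor
    · rintro ⟨v, hv, rfl⟩
      exact map_sub e e.injective (fun a b hab => e.map_adj_iff.2 hab) hv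
    · intro hw
      refine ⟨e.symm w, ?_, e.apply_symm_apply w⟩
      exact map_sub e.symm e.symm.injective (fun a b hab => e.symm.map_adj_iff.2 hab) hw
  rw [← h, Set.ncard_image_of_injective _ e.injective]

lemma leaf_card {V : Type} (G : SimpleGraph V) (v u : V) (h : Lf G v u) :
    (Cor G).ncard = (Cor (G.induce {w | w ≠ v})).ncard := by
  have hS0 : ∀ S : Set V, (∀ x ∈ S, ∃ a b, a ≠ b ∧ a ∈ S ∧ b ∈ S ∧ G.Adj x a ∧ G.Adj x b) →
      v ∉ S := by
    intro S hS hv
    obtain ⟨a, b, hab, -, -, h1, h2⟩ := hS v hv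
    exact hab (((h a).1 h1).trans ((h b).1 h2).symm)
  have e : (Subtype.val : ({w | w ≠ v} : Set V) → V) '' (Cor (G.induce {w | w ≠ v})) = Cor G := by
    ext w
    constructor
    · rintro ⟨x, hx, rfl⟩
      exact map_sub Subtype.val Subtype.val_injective (fun a b hab => hab) hx
    · rintro ⟨S, hwS, hS⟩
      have hvS := hS0 S hS
      have hne : ∀ x ∈ S, x ∈ ({w | w ≠ v} : Set V) := fun x hx (e : x = v) => hvS (e ▸ hx)
      refine ⟨⟨w, hne w hwS⟩, ⟨Subtype.val ⁻¹' S, hwS, ?_⟩, rfl⟩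
      rintro ⟨x, hxv⟩ hx
      obtain ⟨a, b, hab, ha, hb, h1, h2⟩ := hS x hx
      exact ⟨⟨a, hne a ha⟩, ⟨b, hne b hb⟩, fun e => hab (congrArg Subtype.val e), ha, hb, h1, h2⟩
  rw [← e, Set.ncard_image_of_injective _ Subtype.val_injective]

end CKS_

open CKS_ in
theorem p_CKS : T_CKS := by
  intro C hC k
  refine ⟨?_, ?_⟩
  · intro V W G H e
    have h1 := hC.iso V W G H e
    unfold CK
    rw [iso_card (Classical.choice e)] at *
    tauto
  · intro V _ G v u hG hv
    unfold CK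
    rw [hC.leaf V G v u hG hv, leaf_card G v u hv]

end Pool.Agent.SPC
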