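import Pool.Agent.SPC.Targets

/-!
SPC, COR: simple facts on the core.
-/

set_option autoImplicit false

namespace Pool.Agent.SPC

open Finset Classical Filter Topology
open Pool.Agent.Pend

namespace COR_

theorem ncard_eq {V : Type} [Fintype V] (S : Set V) :
    S.ncard = (univ.filter (fun v => v ∈ S)).card := by
  rw [← Set.ncard_coe_finset]
  congr 1
  ext v
  simp

theorem not_leaf {V : Type} {G : SimpleGraph V} {v u : V} (h : Lf G v u) : v ∉ Cor G := by
  rintro ⟨S, hv, hS⟩
  obtain ⟨a, b, hab, -, -, ha, hb⟩ := hS v hv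
  exact hab (((h a).mp ha).trans ((h b).mp hb).symm)

theorem exists_adj {V : Type} [Fintype V] {G : SimpleGraph V} (hG : G.Connected)
    (h2 : 2 ≤ Fintype.card V) (v : V) : ∃ a, G.Adj v a := by
  have hnt : Nontrivial V := Fintype.one_lt_card_iff_nontrivial.mp h2
  obtain ⟨w, hw⟩ := exists_ne v
  obtain ⟨p⟩ := hG.preconnected v w
  cases p with
  | nil => exact absurd rfl hw
  | cons h q => exact ⟨_, h⟩

end COR_

theorem p_COR : T_COR := by
  intro V _ G
  refine ⟨?_, ?_, ?_⟩
  · rw [COR_.ncard_eq]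
    unfold lv
    rw [← card_union_of_disjoint]
    · exact card_le_univ _
    · rw [disjoint_left]
      intro v hv hv'
      obtain ⟨u, hu⟩ := (mem_filter.mp hv).2
      exact COR_.not_leaf hu (mem_filter.mp hv').2
  · intro h
    rw [COR_.ncard_eq] at h ⊢
    obtain ⟨x, hx⟩ := card_pos.mp (Nat.pos_of_ne_zero h)
    obtain ⟨S, hxS, hS⟩ := (mem_filter.mp hx).2
    obtain ⟨a, b, hab, haS, hbS, hxa, hxb⟩ := hS x hxS
    have h3 : ({x, a, b} : Finset V).card = 3 :=
      card_eq_three.mpr ⟨x, a, b, hxa.ne, hxb.ne, hab, rfl⟩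
    rw [← h3]
    apply card_le_card
    intro y hy
    simp only [mem_insert, mem_singleton] at hy
    refine mem_filter.mpr ⟨mem_univ _, S, ?_, hS⟩
    rcases hy with rfl | rfl | rfl
    · exact hxS
    · exact haS
    · exact hbS
  · intro hG h2 hl
    have huniv : Cor G = Set.univ := by
      ext v
      refine ⟨fun _ => trivial, fun _ => ⟨Set.univ, trivial, ?_⟩⟩
      intro x _
      obtain ⟨a, ha⟩ := COR_.exists_adj hG h2 x
      have hx : ¬ Lf G x a := by
        intro hLf
        unfold lv at hl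
        rw [card_eq_zero] at hl
        have : x ∈ univ.filter (fun v => ∃ u, Lf G v u) := mem_filter.mpr ⟨mem_univ _, a, hLf⟩
        rw [hl] at this
        exact absurd this (notMem_empty x)
      unfold Lf at hx
      push Not at hx
      obtain ⟨w, hw⟩ := hx
      rcases hw with ⟨h1, h2⟩ | ⟨h1, h2⟩
      · exact ⟨a, w, fun h => h2 h.symm, trivial, trivial, ha, h1⟩
      · exact absurd (h2 ▸ ha) h1
    rw [huniv, Set.ncard_univ, Nat.card_eq_fintype_card]

end Pool.Agent.SPC
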