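import Pool.Agent.SPC.Targets

set_option autoImplicit false

namespace Pool.Agent.SPC

open Finset Classical Filter Topology
open Pool.Agent.Pend

namespace FORM_

variable {C : (V : Type) → SimpleGraph V → Prop}

lemma mem_cc {V : Type} [Fintype V] {G : SimpleGraph V} :
    G ∈ cc C V ↔ G.Connected ∧ C V G := by
  simp [cc]

lemma cnt_lt (hCOR : T_COR) {k n : ℕ} (h : n < k) : cnt (CK C k) n = 0 := by
  unfold cnt
  rw [Finset.card_eq_zero, Finset.eq_empty_iff_forall_notMem]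
  intro G hG
  rw [mem_cc] at hG
  have h1 := (hCOR (Fin n) G).1
  have h2 := hG.2.2
  rw [Fintype.card_fin] at h1
  omega

lemma cnt_one_two (hCOR : T_COR) {k : ℕ} (hk : k = 1 ∨ k = 2) (n : ℕ) :
    cnt (CK C k) n = 0 := by
  unfold cnt
  rw [Finset.card_eq_zero, Finset.eq_empty_iff_forall_notMem]
  intro G hG
  rw [mem_cc] at hG
  have h1 := (hCOR (Fin n) G).2.1
  have h2 := hG.2.2
  omega

lemma nolv (hCOR : T_COR) {k n : ℕ} (hn : 2 ≤ n) (h : n ≠ k) :
    ((cc (CK C k) (Fin n)).filter (fun G => lv G = 0)).card = 0 := by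
  rw [Finset.card_eq_zero, Finset.eq_empty_iff_forall_notMem]
  intro G hG
  rw [Finset.mem_filter, mem_cc] at hG
  have h1 := (hCOR (Fin n) G).2.2 hG.1.1 (by rw [Fintype.card_fin]; exact hn) hG.2
  have h2 := hG.1.2.2
  rw [Fintype.card_fin] at h1
  omega

lemma lv_two (G : SimpleGraph (Fin 2)) (hG : G.Connected) : lv G = 2 := by
  have h01 : G.Adj 0 1 := by
    by_contra hcon
    have hb : G = ⊥ := by
      ext a b
      simp only [SimpleGraph.bot_adj, iff_false]
      intro hab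
      have h10 : ¬ G.Adj 1 0 := fun h => hcon h.symm
      fin_cases a <;> fin_cases b <;> simp_all
    rw [hb] at hG
    exact SimpleGraph.not_connected_bot hG
  have h10 := h01.symm
  have key : ∀ v : Fin 2, ∃ u, Lf G v u := by
    intro v
    fin_cases v
    · refine ⟨1, fun w => ?_⟩
      fin_cases w <;> simp [h01]
    · refine ⟨0, fun w => ?_⟩
      fin_cases w <;> simp [h10]
  unfold lv
  simp only [key]
  simp

end FORM_

open FORM_ in
theorem p_FORM (hCKS : T_CKS) (hCOR : T_COR) (hALT : T_ALT) (hSEQK : T_SEQK)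
    (hSEQT : T_SEQT) (hL1 : T_L1) : T_FORM := by
  intro C hC
  constructor
  · intro k i hk hki
    rcases Nat.lt_or_ge k 3 with hk3 | hk3
    · have hk' : k = 1 ∨ k = 2 := by omega
      simp [aa, cnt_one_two hCOR hk']
    have h := hSEQK (fun n => (cnt (CK C k) n : ℤ)) k hk
      (fun n hn => by simp [cnt_lt hCOR hn])
      (fun n hn => by
        have h1 := hALT (CK C k) (hCKS C hC k) n (by omega)
        rw [nolv hCOR (by omega) (by omega)] at h1
        simpa using h1)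
    have h1 := h i hki
    have h2 := h (i + 1) (by omega)
    have h1' : (i : ℝ) * (cnt (CK C k) i : ℝ) =
        (i.choose k : ℝ) * k * (i : ℝ) ^ (i - k) * (cnt (CK C k) k : ℝ) := by
      exact_mod_cast h1
    have h2' : ((i : ℝ) + 1) * (cnt (CK C k) (i + 1) : ℝ) =
        ((i + 1).choose k : ℝ) * k * ((i : ℝ) + 1) ^ (i - k + 1) *
          (cnt (CK C k) k : ℝ) := by
      rw [show i + 1 - k = i - k + 1 by omega] at h2
      exact_mod_cast h2
    have h3 : (i.choose k : ℝ) * ((i : ℝ) + 1) =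
        ((i + 1).choose k : ℝ) * ((i : ℝ) + 1 - k) := by
      have := Nat.choose_mul_succ_eq i k
      have h4 : ((i + 1 - k : ℕ) : ℝ) = (i : ℝ) + 1 - k := by
        rw [Nat.cast_sub (by omega)]
        push_cast
        ring
      rw [← h4]
      exact_mod_cast this
    have hf : ((i.factorial : ℕ) : ℝ) ≠ 0 := by exact_mod_cast Nat.factorial_ne_zero i
    have hi1 : (i : ℝ) + 1 ≠ 0 := by positivity
    unfold aa
    rw [Nat.factorial_succ]
    push_cast
    rw [div_mul_eq_mul_div, div_mul_eq_mul_div, div_eq_div_iff hf (by positivity)]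
    apply mul_left_cancel₀ hi1
    have e1 : ((i : ℝ) + 1) * ((cnt (CK C k) i : ℝ) * ((i : ℝ) * ((i : ℝ) + 1) ^ (i - k)) *
        (((i : ℝ) + 1) * (i.factorial : ℝ))) =
        ((i : ℝ) * (cnt (CK C k) i : ℝ)) * ((i : ℝ) + 1) ^ (i - k) * ((i : ℝ) + 1) ^ 2 *
          (i.factorial : ℝ) := by ring
    have e2 : ((i : ℝ) + 1) * ((cnt (CK C k) (i + 1) : ℝ) *
        (((i : ℝ) + 1 - k) * (i : ℝ) ^ (i - k)) * (i.factorial : ℝ)) =
        (((i : ℝ) + 1) * (cnt (CK C k) (i + 1) : ℝ)) * ((i : ℝ) + 1 - k) *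
          (i : ℝ) ^ (i - k) * (i.factorial : ℝ) := by ring
    rw [e1, e2, h1', h2']
    have e3 : ((i + 1).choose k : ℝ) * k * ((i : ℝ) + 1) ^ (i - k + 1) *
        (cnt (CK C k) k : ℝ) * ((i : ℝ) + 1 - k) * (i : ℝ) ^ (i - k) * (i.factorial : ℝ) =
        (((i + 1).choose k : ℝ) * ((i : ℝ) + 1 - k)) * k * ((i : ℝ) + 1) ^ (i - k + 1) *
        (cnt (CK C k) k : ℝ) * (i : ℝ) ^ (i - k) * (i.factorial : ℝ) := by ring
    rw [e3, ← h3]
    ring
  · intro i hi
    have hN0 : cnt (CK C 0) 0 = 0 := by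
      unfold cnt
      rw [Finset.card_eq_zero, Finset.eq_empty_iff_forall_notMem]
      intro G hG
      rw [mem_cc] at hG
      obtain ⟨x⟩ := hG.1.nonempty
      exact x.elim0
    have hN2 : cnt (CK C 0) 2 = cnt (CK C 0) 1 := by
      have h1 := hL1 (CK C 0) (hCKS C hC 0) 1 le_rfl
      have h2 : ∑ G ∈ cc (CK C 0) (Fin (1 + 1)), lv G =
          ∑ G ∈ cc (CK C 0) (Fin (1 + 1)), 2 := by
        refine Finset.sum_congr rfl fun G hG => ?_
        rw [mem_cc] at hG
        exact lv_two G hG.1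
      rw [h2, Finset.sum_const, smul_eq_mul] at h1
      have h3 : (cc (CK C 0) (Fin (1 + 1))).card = cnt (CK C 0) 2 := rfl
      rw [h3] at h1
      omega
    have h := hSEQT (fun n => (cnt (CK C 0) n : ℤ)) (by simp [hN0]) (by simp [hN2])
      (fun n hn => by
        have h1 := hALT (CK C 0) (hCKS C hC 0) n hn
        rw [nolv hCOR (by omega) (by omega)] at h1
        simpa using h1)
    have h1 := h i (by omega)
    have h2 := h (i + 1) (by omega)
    obtain ⟨j, rfl⟩ := Nat.exists_eq_add_of_le' hi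
    rw [show j + 2 - 2 = j by omega]
    have h1' : ((j : ℝ) + 2) ^ 2 * (cnt (CK C 0) (j + 2) : ℝ) =
        ((j : ℝ) + 2) ^ (j + 2) * (cnt (CK C 0) 1 : ℝ) := by
      exact_mod_cast h1
    have h2' : ((j : ℝ) + 2 + 1) ^ 2 * (cnt (CK C 0) (j + 2 + 1) : ℝ) =
        ((j : ℝ) + 2 + 1) ^ (j + 2 + 1) * (cnt (CK C 0) 1 : ℝ) := by
      exact_mod_cast h2
    have hj : ((j : ℝ) + 2) ^ 2 ≠ 0 := by positivity
    have hj1 : ((j : ℝ) + 2 + 1) ^ 2 ≠ 0 := by positivity
    have h1'' : (cnt (CK C 0) (j + 2) : ℝ) = ((j : ℝ) + 2) ^ j * (cnt (CK C 0) 1 : ℝ) := by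
      apply mul_left_cancel₀ hj
      rw [h1']
      ring
    have h2'' : (cnt (CK C 0) (j + 2 + 1) : ℝ) =
        ((j : ℝ) + 2 + 1) ^ (j + 1) * (cnt (CK C 0) 1 : ℝ) := by
      apply mul_left_cancel₀ hj1
      rw [h2']
      ring
    have hf : (((j + 2).factorial : ℕ) : ℝ) ≠ 0 := by
      exact_mod_cast Nat.factorial_ne_zero (j + 2)
    unfold aa
    rw [Nat.factorial_succ (j + 2)]
    push_cast
    rw [div_mul_eq_mul_div, div_mul_eq_mul_div, div_eq_div_iff hf (by positivity),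
      h1'', h2'']
    ring

end Pool.Agent.SPC
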