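import Pool.Agent.SPC.Targets

set_option autoImplicit false

/-!
# SPC: GOODK, uniform smoothness of an explicit sequence
-/

namespace Pool.Agent.SPC

open Finset Classical Filter Topology
open Pool.Agent.Pend

namespace GOODK_

/-- The ratio `a i / a (i+1)`. -/
noncomputable def lam (i m : ℕ) : ℝ := (((m : ℝ) + 1) * (i : ℝ) ^ m) / ((i : ℝ) * ((i : ℝ) + 1) ^ m)

theorem lam_eq (i m : ℕ) :
    lam i m = ((m : ℝ) + 1) / i * ((i : ℝ) / ((i : ℝ) + 1)) ^ m := by
  unfold lam
  rw [div_pow, div_mul_div_comm]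

theorem lam_le {i : ℕ} (hi : 1 ≤ i) (m : ℕ) :
    lam i m ≤ ((m : ℝ) + 1) / i * Real.exp (-((m : ℝ) / ((i : ℝ) + 1))) := by
  rw [lam_eq]
  have h0 : (0 : ℝ) < i := by exact_mod_cast hi
  refine mul_le_mul_of_nonneg_left ?_ (by positivity)
  have h1 : (i : ℝ) / ((i : ℝ) + 1) ≤ Real.exp (-(1 / ((i : ℝ) + 1))) := by
    have h2 := Real.add_one_le_exp (-(1 / ((i : ℝ) + 1)))
    have h3 : (i : ℝ) / ((i : ℝ) + 1) = -(1 / ((i : ℝ) + 1)) + 1 := by
      field_simp
      ring
    rw [h3]
    exact h2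
  calc ((i : ℝ) / ((i : ℝ) + 1)) ^ m ≤ Real.exp (-(1 / ((i : ℝ) + 1))) ^ m :=
        pow_le_pow_left₀ (by positivity) h1 m
    _ = Real.exp (-((m : ℝ) / ((i : ℝ) + 1))) := by
        rw [← Real.exp_nat_mul]
        congr 1
        ring

theorem le_lam {i : ℕ} (hi : 1 ≤ i) (m : ℕ) :
    ((m : ℝ) + 1) / i * Real.exp (-((m : ℝ) / i)) ≤ lam i m := by
  rw [lam_eq]
  have h0 : (0 : ℝ) < i := by exact_mod_cast hi
  refine mul_le_mul_of_nonneg_left ?_ (by positivity)
  have h1 : Real.exp (-(1 / (i : ℝ))) ≤ (i : ℝ) / ((i : ℝ) + 1) := by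
    have h2 := Real.add_one_le_exp (1 / (i : ℝ))
    rw [Real.exp_neg, inv_le_comm₀ (Real.exp_pos _) (by positivity), inv_div]
    refine le_trans (le_of_eq ?_) h2
    field_simp
    ring
  calc Real.exp (-((m : ℝ) / i)) = Real.exp (-(1 / (i : ℝ))) ^ m := by
        rw [← Real.exp_nat_mul]
        congr 1
        ring
    _ ≤ ((i : ℝ) / ((i : ℝ) + 1)) ^ m := pow_le_pow_left₀ (Real.exp_pos _).le h1 m

theorem rel {a : ℕ → ℝ} {k : ℕ} (h : ∀ i : ℕ, k ≤ i → a i * ((i : ℝ) * ((i : ℝ) + 1) ^ (i - k)) =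
    a (i + 1) * (((i : ℝ) + 1 - k) * (i : ℝ) ^ (i - k))) {i : ℕ} (hk : k ≤ i) (hi : 1 ≤ i) :
    a i = lam i (i - k) * a (i + 1) := by
  have h0 : (0 : ℝ) < i := by exact_mod_cast hi
  have h1 := h i hk
  have h2 : (((i - k : ℕ) : ℝ)) = (i : ℝ) - k := by
    rw [Nat.cast_sub hk]
  have h3 : (0 : ℝ) < (i : ℝ) * ((i : ℝ) + 1) ^ (i - k) := by positivity
  unfold lam
  rw [h2, div_mul_eq_mul_div, eq_div_iff h3.ne', h1]
  ring

theorem exp_le_one_div (y : ℝ) : y * Real.exp (-y) ≤ Real.exp (-1) := by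
  have h1 := Real.add_one_le_exp (y - 1)
  have h2 : y ≤ Real.exp (y - 1) := by linarith
  calc y * Real.exp (-y) ≤ Real.exp (y - 1) * Real.exp (-y) :=
        mul_le_mul_of_nonneg_right h2 (Real.exp_pos _).le
    _ = Real.exp (-1) := by
        rw [← Real.exp_add]
        congr 1
        ring

end GOODK_

open GOODK_ in
/-- Uniform smoothness of the explicit sequence. -/
theorem p_GOODK : T_GOODK := by
  intro δ₀ hδ₀
  set d : ℝ := min δ₀ 1 with hd
  have hd0 : 0 < d := lt_min hδ₀ one_pos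
  have hd1 : d ≤ 1 := min_le_right _ _
  have hdd : d ≤ δ₀ := min_le_left _ _
  set M : ℝ := 80 / d + 242 with hM
  have hM0 : 0 < M := by positivity
  refine ⟨d / 8, by positivity, ?_⟩
  have hev : ∀ᶠ n : ℕ in atTop, Real.log n ≤ 1 / (100 * M) * n := by
    have h1 := (Real.isLittleO_log_id_atTop.comp_tendsto tendsto_natCast_atTop_atTop).bound
      (show (0 : ℝ) < 1 / (100 * M) by positivity)
    filter_upwards [h1] with n hn
    simp only [Function.comp_apply, id_eq, Real.norm_eq_abs, Nat.abs_cast] at hn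
    exact (le_abs_self _).trans hn
  obtain ⟨n₂, hn₂⟩ := eventually_atTop.mp hev
  refine ⟨max n₂ 10, fun n k hn hk a ha h => ?_⟩
  have hn10 : (10 : ℝ) ≤ n := by exact_mod_cast (le_max_right _ _).trans hn
  have hn0 : (0 : ℝ) < n := by linarith
  have hL := hn₂ n ((le_max_left _ _).trans hn)
  set L : ℝ := Real.log n with hLdef
  have hL1 : 1 ≤ L := by
    rw [hLdef, Real.le_log_iff_exp_le hn0]
    have := Real.exp_one_lt_d9
    linarith
  have hML : M * L ≤ n / 100 := by
    calc M * L ≤ M * (1 / (100 * M) * n) := mul_le_mul_of_nonneg_left hL hM0.le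
      _ = n / 100 := by
        field_simp
  have hdL : 80 * L + 242 * L * d ≤ d * (n / 100) := by
    have h1 : d * (M * L) ≤ d * (n / 100) := mul_le_mul_of_nonneg_left hML hd0.le
    have h2 : d * (M * L) = 80 * L + 242 * L * d := by
      rw [hM]
      field_simp
    rwa [h2] at h1
  have hLd : 30 * L ≤ d * n / 200 := by
    have : 0 ≤ L * d := by positivity
    nlinarith
  have hkd : (k : ℝ) ≤ (1 - d) * n :=
    hk.trans (mul_le_mul_of_nonneg_right (by linarith) hn0.le)
  have hdn : d * n ≤ n := by nlinarith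
  -- facts on the window
  have hwin : ∀ i : ℕ, (n : ℝ) ≤ (i : ℝ) + 30 * L → (i : ℝ) ≤ (n : ℝ) + 30 * L →
      k ≤ i ∧ 1 ≤ i ∧ (n : ℝ) / 2 ≤ i ∧ (i : ℝ) ≤ 5 / 4 * n ∧
        3 / 4 * d * n ≤ ((i - k : ℕ) : ℝ) := by
    intro i h1 h2
    have h3 : (n : ℝ) / 2 ≤ i := by nlinarith
    have h4 : (k : ℝ) + 3 / 4 * d * n ≤ i := by nlinarith
    have h5 : 0 ≤ 3 / 4 * d * n := by positivity
    have h6 : k ≤ i := by
      have : (k : ℝ) ≤ i := by linarith
      exact_mod_cast this
    refine ⟨h6, ?_, h3, by nlinarith, ?_⟩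
    · have : (1 : ℝ) ≤ i := by linarith
      exact_mod_cast this
    · rw [Nat.cast_sub h6]
      linarith
  have hwn := hwin n (by linarith) (by linarith)
  refine ⟨?_, ?_⟩
  · intro i j hi1 hi2 hj1 hj2
    obtain ⟨ik, i1, i2, i3, i4⟩ := hwin i hi1 hi2
    obtain ⟨jk, j1, j2, j3, j4⟩ := hwin j hj1 hj2
    have ri := rel h ik i1
    have rj := rel h jk j1
    set mi : ℕ := i - k with hmi
    set mj : ℕ := j - k with hmj
    have cmi : (mi : ℝ) = (i : ℝ) - k := by rw [hmi, Nat.cast_sub ik]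
    have cmj : (mj : ℝ) = (j : ℝ) - k := by rw [hmj, Nat.cast_sub jk]
    have hi0 : (0 : ℝ) < i := by linarith
    have hj0 : (0 : ℝ) < j := by linarith
    have hk0 : (0 : ℝ) ≤ k := Nat.cast_nonneg k
    have hmi0 : (0 : ℝ) ≤ mi := Nat.cast_nonneg _
    have hmj0 : (0 : ℝ) ≤ mj := Nat.cast_nonneg _
    constructor
    · rw [ri]
      refine mul_le_mul_of_nonneg_right ?_ (ha _)
      refine le_trans ?_ (le_lam i1 mi)
      have e1 : (3 / 5 : ℝ) * d ≤ ((mi : ℝ) + 1) / i := by
        rw [le_div_iff₀ hi0]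
        nlinarith
      have e2 : Real.exp (-1) ≤ Real.exp (-((mi : ℝ) / i)) := by
        rw [Real.exp_le_exp, neg_le_neg_iff, div_le_one hi0, cmi]
        linarith
      have e3 : (1 / 3 : ℝ) ≤ Real.exp (-1) := by
        rw [Real.exp_neg, one_div, inv_le_inv₀ (by norm_num) (Real.exp_pos _)]
        have := Real.exp_one_lt_d9
        linarith
      calc d / 8 ≤ (3 / 5 * d) * (1 / 3) := by nlinarith
        _ ≤ ((mi : ℝ) + 1) / i * Real.exp (-((mi : ℝ) / i)) :=
          mul_le_mul e1 (e3.trans e2) (by norm_num) (by positivity)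
    · have key : lam i mi ≤ Real.exp (1 / 100) * lam j mj := by
        refine (lam_le i1 mi).trans ?_
        refine le_trans ?_ (mul_le_mul_of_nonneg_left (le_lam j1 mj) (Real.exp_pos _).le)
        have f1 : ((mi : ℝ) + 1) ≤ ((mj : ℝ) + 1) * Real.exp (80 * L / (d * n)) := by
          have g1 : 1 + 80 * L / (d * n) ≤ Real.exp (80 * L / (d * n)) := by
            have := Real.add_one_le_exp (80 * L / (d * n))
            linarith
          refine le_trans ?_ (mul_le_mul_of_nonneg_left g1 (by positivity))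
          have g2 : (mi : ℝ) - mj ≤ 60 * L := by
            rw [cmi, cmj]
            linarith
          have g3 : 60 * L ≤ ((mj : ℝ) + 1) * (80 * L / (d * n)) := by
            rw [← mul_div_assoc, le_div_iff₀ (by positivity)]
            have : 3 / 4 * d * n * (80 * L) ≤ ((mj : ℝ) + 1) * (80 * L) :=
              mul_le_mul_of_nonneg_right (by linarith) (by positivity)
            linarith
          linarith
        have f2 : (1 : ℝ) / i ≤ 1 / j * Real.exp (120 * L / n) := by
          have g1 : 1 + 120 * L / n ≤ Real.exp (120 * L / n) := by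
            have := Real.add_one_le_exp (120 * L / n)
            linarith
          refine le_trans ?_ (mul_le_mul_of_nonneg_left g1 (by positivity))
          have g2 : (j : ℝ) - i ≤ 60 * L := by linarith
          have g3 : 60 * L ≤ i * (120 * L / n) := by
            rw [← mul_div_assoc, le_div_iff₀ hn0]
            have : (n : ℝ) / 2 * (120 * L) ≤ i * (120 * L) :=
              mul_le_mul_of_nonneg_right i2 (by positivity)
            linarith
          rw [div_mul_eq_mul_div, one_mul, div_le_div_iff₀ hi0 hj0]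
          linarith
        have f3 : -((mi : ℝ) / ((i : ℝ) + 1)) ≤ -((mj : ℝ) / j) + (2 + 120 * L) / n := by
          have g1 : (mj : ℝ) / j - (mi : ℝ) / ((i : ℝ) + 1) =
              ((j : ℝ) - k + k * (j - i)) / (j * ((i : ℝ) + 1)) := by
            rw [cmi, cmj]
            field_simp
            ring
          have g2 : ((j : ℝ) - k + k * (j - i)) ≤ j * (1 + 60 * L) := by
            have h1 : (k : ℝ) * (j - i) ≤ j * (60 * L) := by
              rcases le_total (0 : ℝ) ((j : ℝ) - i) with h2 | h2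
              · exact mul_le_mul (by linarith) (by linarith) h2 hj0.le
              · have : (k : ℝ) * (j - i) ≤ 0 := mul_nonpos_of_nonneg_of_nonpos hk0 h2
                have : 0 ≤ (j : ℝ) * (60 * L) := by positivity
                linarith
            linarith
          have g3 : ((j : ℝ) - k + k * (j - i)) / (j * ((i : ℝ) + 1)) ≤ (2 + 120 * L) / n := by
            rw [div_le_div_iff₀ (by positivity) hn0]
            have h1 : ((j : ℝ) - k + k * (j - i)) * n ≤ j * (1 + 60 * L) * n :=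
              mul_le_mul_of_nonneg_right g2 hn0.le
            have h2 : (j : ℝ) * (1 + 60 * L) * n ≤ j * (1 + 60 * L) * (2 * (i + 1)) :=
              mul_le_mul_of_nonneg_left (by linarith) (by positivity)
            linarith
          linarith
        have f4 : 80 * L / (d * n) + 120 * L / n + (2 + 120 * L) / n ≤ 1 / 100 := by
          have g1 : 80 * L / (d * n) + 120 * L / n + (2 + 120 * L) / n =
              (80 * L + (240 * L + 2) * d) / (d * n) := by
            field_simp
            ring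
          rw [g1, div_le_iff₀ (by positivity)]
          nlinarith
        calc ((mi : ℝ) + 1) / i * Real.exp (-((mi : ℝ) / ((i : ℝ) + 1)))
            = ((mi : ℝ) + 1) * (1 / i) * Real.exp (-((mi : ℝ) / ((i : ℝ) + 1))) := by ring
          _ ≤ (((mj : ℝ) + 1) * Real.exp (80 * L / (d * n))) *
              (1 / j * Real.exp (120 * L / n)) *
              Real.exp (-((mj : ℝ) / j) + (2 + 120 * L) / n) := by
                gcongr
          _ = Real.exp (80 * L / (d * n) + 120 * L / n + (2 + 120 * L) / n) *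
              (((mj : ℝ) + 1) / j * Real.exp (-((mj : ℝ) / j))) := by
                rw [Real.exp_add, Real.exp_add, Real.exp_add]
                ring
          _ ≤ _ := by
                refine mul_le_mul_of_nonneg_right (Real.exp_le_exp.mpr f4) (by positivity)
      rw [ri, rj]
      have h1 : 0 ≤ a (i + 1) * a (j + 1) := mul_nonneg (ha _) (ha _)
      have h2 := mul_le_mul_of_nonneg_right key h1
      linarith
  · obtain ⟨nk, n1, -, -, -⟩ := hwn
    have rn := rel h nk n1
    set m : ℕ := n - k with hm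
    have cm : (m : ℝ) = (n : ℝ) - k := by rw [hm, Nat.cast_sub nk]
    rw [rn]
    refine mul_le_mul_of_nonneg_right ?_ (ha _)
    refine (lam_le n1 m).trans ?_
    have e0 : (0 : ℝ) ≤ (m : ℝ) / ((n : ℝ) + 1) := by positivity
    have e1 := exp_le_one_div ((m : ℝ) / ((n : ℝ) + 1))
    have e2 : Real.exp (-((m : ℝ) / ((n : ℝ) + 1))) ≤ 1 := by
      rw [Real.exp_le_one_iff]
      linarith
    have e3 : Real.exp (-1) ≤ 3 / 8 := by
      rw [Real.exp_neg, inv_le_comm₀ (Real.exp_pos _) (by norm_num)]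
      have := Real.exp_one_gt_d9
      linarith
    have e4 : ((m : ℝ) + 1) / n * Real.exp (-((m : ℝ) / ((n : ℝ) + 1))) =
        ((n : ℝ) + 1) / n * ((m : ℝ) / ((n : ℝ) + 1) * Real.exp (-((m : ℝ) / ((n : ℝ) + 1)))) +
          1 / n * Real.exp (-((m : ℝ) / ((n : ℝ) + 1))) := by
      field_simp
    rw [e4]
    have e5 : ((n : ℝ) + 1) / n ≤ 11 / 10 := by
      rw [div_le_iff₀ hn0]
      linarith
    have e6 : (1 : ℝ) / n ≤ 1 / 10 := one_div_le_one_div_of_le (by norm_num) hn10
    have e7 : ((n : ℝ) + 1) / n * ((m : ℝ) / ((n : ℝ) + 1) *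
        Real.exp (-((m : ℝ) / ((n : ℝ) + 1)))) ≤ 11 / 10 * (3 / 8) :=
      mul_le_mul e5 (e1.trans e3) (by positivity) (by norm_num)
    have e8 : (1 : ℝ) / n * Real.exp (-((m : ℝ) / ((n : ℝ) + 1))) ≤ 1 / 10 * 1 :=
      mul_le_mul e6 e2 (Real.exp_pos _).le (by norm_num)
    linarith

end Pool.Agent.SPC
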