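import Pool.Agent.SPC.Targets

set_option autoImplicit false

namespace Pool.Agent.SPC

open Finset Classical Filter Topology
open Pool.Agent.Pend

namespace GOODT_

/-- the logarithm of the ratio -/
noncomputable def ll (i : ℕ) : ℝ := ((i : ℝ) - 2) * Real.log (1 + 1 / (i : ℝ))

lemma ratio (a : ℕ → ℝ) (i : ℕ) (hi : 2 ≤ i)
    (h : a i * ((i : ℝ) + 1) ^ (i - 2) = a (i + 1) * (i : ℝ) ^ (i - 2)) :
    a i = Real.exp (-ll i) * a (i + 1) := by
  have hi0 : (0 : ℝ) < i := by exact_mod_cast (by omega : 0 < i)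
  have h1 : (0 : ℝ) < 1 + 1 / (i : ℝ) := by positivity
  have h2 : ((i : ℝ) + 1) ^ (i - 2) = (i : ℝ) ^ (i - 2) * Real.exp (ll i) := by
    have h3 : ((i : ℝ) + 1) = i * (1 + 1 / (i : ℝ)) := by field_simp
    rw [h3, mul_pow, ll]
    congr 1
    rw [show ((i : ℝ) - 2) = ((i - 2 : ℕ) : ℝ) by push_cast [hi]; ring, Real.exp_nat_mul,
      Real.exp_log h1]
  rw [h2] at h
  have h4 : (i : ℝ) ^ (i - 2) ≠ 0 := by positivity
  have h5 : a i * Real.exp (ll i) = a (i + 1) := by
    apply mul_left_cancel₀ h4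
    linarith
  rw [← h5, Real.exp_neg]
  field_simp

lemma ll_le (i : ℕ) (hi : 2 ≤ i) : ll i ≤ 1 := by
  have hi0 : (2 : ℝ) ≤ i := by exact_mod_cast hi
  have h1 : (0 : ℝ) < 1 + 1 / (i : ℝ) := by positivity
  have h2 : Real.log (1 + 1 / (i : ℝ)) ≤ 1 / (i : ℝ) := by
    have := Real.log_le_sub_one_of_pos h1
    linarith
  calc ll i ≤ ((i : ℝ) - 2) * (1 / (i : ℝ)) := mul_le_mul_of_nonneg_left h2 (by linarith)
    _ ≤ (i : ℝ) * (1 / (i : ℝ)) := mul_le_mul_of_nonneg_right (by linarith) (by positivity)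
    _ = 1 := by field_simp

lemma le_ll (i : ℕ) (hi : 2 ≤ i) : 1 - 3 / ((i : ℝ) + 1) ≤ ll i := by
  have hi0 : (2 : ℝ) ≤ i := by exact_mod_cast hi
  have h1 : (0 : ℝ) < 1 + 1 / (i : ℝ) := by positivity
  have h2 : 1 / ((i : ℝ) + 1) ≤ Real.log (1 + 1 / (i : ℝ)) := by
    have h3 := Real.one_sub_inv_le_log_of_pos h1
    have h4 : 1 - (1 + 1 / (i : ℝ))⁻¹ = 1 / ((i : ℝ) + 1) := by
      have : (i : ℝ) + 1 ≠ 0 := by positivity
      field_simp
      ring
    linarith
  calc 1 - 3 / ((i : ℝ) + 1) = ((i : ℝ) - 2) * (1 / ((i : ℝ) + 1)) := by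
        have : (i : ℝ) + 1 ≠ 0 := by positivity
        field_simp
        ring
    _ ≤ ll i := mul_le_mul_of_nonneg_left h2 (by linarith)

lemma log_le (n : ℕ) (hn : 14400 ≤ n) : 60 * Real.log n ≤ n := by
  have hn0 : (14400 : ℝ) ≤ n := by exact_mod_cast hn
  have h1 : Real.log (Real.sqrt n) = Real.log n / 2 := Real.log_sqrt (by linarith)
  have h2 : 120 ≤ Real.sqrt n := by
    apply Real.le_sqrt_of_sq_le
    linarith
  have h3 : Real.log (Real.sqrt n) ≤ Real.sqrt n - 1 :=
    Real.log_le_sub_one_of_pos (by linarith)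
  have h4 : Real.sqrt n * Real.sqrt n = n := Real.mul_self_sqrt (by linarith)
  nlinarith

end GOODT_

open GOODT_ in
theorem p_GOODT : T_GOODT := by
  refine ⟨14400, fun n hn a ha h => ?_⟩
  have hn0 : (14400 : ℝ) ≤ n := by exact_mod_cast hn
  have hlog := log_le n hn
  have hw : ∀ i : ℕ, (n : ℝ) ≤ (i : ℝ) + 30 * Real.log n → 2 ≤ i ∧ (7200 : ℝ) ≤ i := by
    intro i hi
    have h1 : (7200 : ℝ) ≤ i := by linarith
    exact ⟨by have : (2 : ℝ) ≤ (i : ℝ) := by linarith
              exact_mod_cast this, h1⟩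
  constructor
  · intro i j hi _ hj _
    obtain ⟨hi2, hi3⟩ := hw i hi
    obtain ⟨hj2, hj3⟩ := hw j hj
    have ri := ratio a i hi2 (h i hi2)
    have rj := ratio a j hj2 (h j hj2)
    constructor
    · rw [ri]
      refine mul_le_mul_of_nonneg_right ?_ (ha _)
      have h1 : Real.exp (-1) ≤ Real.exp (-ll i) := Real.exp_le_exp.mpr (by
        have := ll_le i hi2
        linarith)
      have h2 : (1 : ℝ) / 4 ≤ Real.exp (-1) := by
        rw [Real.exp_neg, ← one_div]
        apply one_div_le_one_div_of_le (Real.exp_pos 1)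
        have := Real.exp_one_lt_d9
        linarith
      linarith
    · rw [ri, rj]
      have h1 : Real.exp (-ll i) ≤ Real.exp (1 / 100) * Real.exp (-ll j) := by
        rw [← Real.exp_add]
        apply Real.exp_le_exp.mpr
        have h2 := le_ll i hi2
        have h3 := ll_le j hj2
        have h4 : 3 / ((i : ℝ) + 1) ≤ 1 / 100 := by
          rw [div_le_div_iff₀ (by linarith) (by norm_num)]
          linarith
        linarith
      calc Real.exp (-ll i) * a (i + 1) * a (j + 1)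
          = Real.exp (-ll i) * (a (i + 1) * a (j + 1)) := by ring
        _ ≤ (Real.exp (1 / 100) * Real.exp (-ll j)) * (a (i + 1) * a (j + 1)) :=
            mul_le_mul_of_nonneg_right h1 (mul_nonneg (ha _) (ha _))
        _ = _ := by ring
  · have hn2 : 2 ≤ n := by omega
    rw [ratio a n hn2 (h n hn2)]
    refine mul_le_mul_of_nonneg_right ?_ (ha _)
    have h1 : 9 / 10 ≤ ll n := by
      have h2 := le_ll n hn2
      have h4 : 3 / ((n : ℝ) + 1) ≤ 1 / 10 := by
        rw [div_le_div_iff₀ (by linarith) (by norm_num)]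
        linarith
      linarith
    have h3 : Real.exp (-ll n) ≤ Real.exp (-(9 / 10)) := Real.exp_le_exp.mpr (by linarith)
    have h5 : Real.exp (-(9 / 10)) ≤ 71 / 100 := by
      rw [Real.exp_neg]
      have h6 : (19 : ℝ) / 10 ≤ Real.exp (9 / 10) := by
        have := Real.add_one_le_exp (9 / 10 : ℝ)
        linarith
      calc (Real.exp (9 / 10))⁻¹ ≤ (19 / 10 : ℝ)⁻¹ := inv_anti₀ (by norm_num) h6
        _ ≤ 71 / 100 := by norm_num
    linarith

end Pool.Agent.SPC
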