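import Pool.Agent.SPC.Targets

/-!
# SPC, target LOC: many edges with small degrees or many twins
-/

set_option autoImplicit false

namespace Pool.Agent.SPC

open Finset Classical Filter Topology
open Pool.Agent.Pend

namespace LOC_

theorem eo_eq {V : Type} [Fintype V] (G : SimpleGraph V) : eo G = ∑ v, dg G v := by
  unfold eo dg
  rw [Finset.card_filter, Fintype.sum_prod_type]
  refine Finset.sum_congr rfl fun v _ => ?_
  rw [Finset.card_filter]

theorem big_le {V : Type} [Fintype V] (G : SimpleGraph V) (E : ℕ) :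
    E * (univ.filter (fun v => E < dg G v)).card ≤ eo G := by
  rw [eo_eq]
  have h1 : (univ.filter (fun v => E < dg G v)).card • E ≤
      ∑ v ∈ univ.filter (fun v => E < dg G v), dg G v :=
    Finset.card_nsmul_le_sum _ _ _ fun v hv => (Finset.mem_filter.1 hv).2.le
  rw [smul_eq_mul, mul_comm] at h1
  exact h1.trans (Finset.sum_le_sum_of_subset (Finset.filter_subset _ _))

end LOC_

open LOC_ in
theorem p_LOC (hST : T_STRUCT) (hMA : T_MADER) : T_LOC := by
  intro t
  set c₁ : ℕ := 4 + 2 * 2 ^ t + 2 * 2 ^ (2 ^ t) with hc₁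
  have hc1 : 4 ≤ c₁ := by omega
  refine ⟨8 * c₁ * 2 ^ t, 4 * c₁, by omega, ?_⟩
  intro V _ G hG hV
  set n : ℕ := Fintype.card V with hn
  set s : ℕ := (n - 1) / c₁ with hs
  have hs1 : s * c₁ ≤ n - 1 := Nat.div_mul_le_self _ _
  have hs2 : n - 1 < (s + 1) * c₁ := by
    have := Nat.lt_div_mul_add (a := n - 1) (b := c₁) (by omega)
    rw [← hs] at this
    rw [Nat.add_mul]
    omega
  have hs3 : n ≤ 2 * (c₁ * s) := by
    have h1 : (s + 1) * c₁ = c₁ * s + c₁ := by ring
    rw [h1] at hs2
    omega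
  obtain ⟨D, φ, hD, hinj, hout, hcase⟩ := hST t s V G hG (by
    rw [← hc₁]
    omega)
  rcases hcase with hadj | htw
  · left
    set big : Finset V := univ.filter (fun v => 8 * c₁ * 2 ^ t < dg G v) with hbig
    have hb1 : 8 * c₁ * 2 ^ t * big.card ≤ 2 ^ t * n := (big_le G _).trans (hMA t V G hG)
    have hb2 : 8 * c₁ * big.card ≤ n := by
      have h2 : 0 < 2 ^ t := by positivity
      have h3 : 2 ^ t * (8 * c₁ * big.card) ≤ 2 ^ t * n := by
        calc 2 ^ t * (8 * c₁ * big.card) = 8 * c₁ * 2 ^ t * big.card := by ring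
          _ ≤ _ := hb1
      exact Nat.le_of_mul_le_mul_left h3 h2
    have hb3 : 4 * big.card ≤ s := by
      have h4 : c₁ * (4 * big.card) ≤ c₁ * s := by
        have h5 : 8 * c₁ * big.card = 2 * (c₁ * (4 * big.card)) := by ring
        rw [h5] at hb2
        omega
      exact Nat.le_of_mul_le_mul_left h4 (by omega)
    set D' : Finset V := D.filter (fun v => v ∉ big ∧ φ v ∉ big) with hD'
    have hcard : D.card ≤ D'.card + (big.card + big.card) := by
      have h6 : D ⊆ D' ∪ (D.filter (fun v => v ∈ big) ∪ D.filter (fun v => φ v ∈ big)) := by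
        intro v hv
        simp only [hD', Finset.mem_union, Finset.mem_filter]
        by_cases h7 : v ∈ big
        · exact Or.inr (Or.inl ⟨hv, h7⟩)
        · by_cases h8 : φ v ∈ big
          · exact Or.inr (Or.inr ⟨hv, h8⟩)
          · exact Or.inl ⟨hv, h7, h8⟩
      have h9 : (D.filter (fun v => v ∈ big)).card ≤ big.card :=
        Finset.card_le_card fun v hv => (Finset.mem_filter.1 hv).2
      have h10 : (D.filter (fun v => φ v ∈ big)).card ≤ big.card := by
        refine Finset.card_le_card_of_injOn φ (fun v hv => (Finset.mem_filter.1 hv).2) ?_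
        intro a ha b hb hab
        exact hinj (Finset.mem_filter.1 ha).1 (Finset.mem_filter.1 hb).1 hab
      calc D.card ≤ (D' ∪ (D.filter (fun v => v ∈ big) ∪ D.filter (fun v => φ v ∈ big))).card :=
            Finset.card_le_card h6
        _ ≤ D'.card + (D.filter (fun v => v ∈ big) ∪ D.filter (fun v => φ v ∈ big)).card :=
            Finset.card_union_le _ _
        _ ≤ D'.card + ((D.filter (fun v => v ∈ big)).card +
            (D.filter (fun v => φ v ∈ big)).card) :=
            Nat.add_le_add_left (Finset.card_union_le _ _) _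
        _ ≤ _ := by omega
    have hsub : D'.card ≤ (univ.filter (fun v => ∃ w, G.Adj v w ∧ dg G v ≤ 8 * c₁ * 2 ^ t ∧
        dg G w ≤ 8 * c₁ * 2 ^ t)).card := by
      refine Finset.card_le_card fun v hv => ?_
      obtain ⟨hvD, hv1, hv2⟩ := Finset.mem_filter.1 hv
      rw [Finset.mem_filter]
      refine ⟨Finset.mem_univ _, φ v, hadj v hvD, ?_, ?_⟩
      · by_contra hcon
        exact hv1 (Finset.mem_filter.2 ⟨Finset.mem_univ _, not_le.1 hcon⟩)
      · by_contra hcon
        exact hv2 (Finset.mem_filter.2 ⟨Finset.mem_univ _, not_le.1 hcon⟩)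
    have h11 : s ≤ 2 * D'.card := by omega
    calc n ≤ 2 * (c₁ * s) := hs3
      _ ≤ 2 * (c₁ * (2 * D'.card)) := by gcongr
      _ = 4 * c₁ * D'.card := by ring
      _ ≤ _ := Nat.mul_le_mul_left _ hsub
  · right
    have hsub : D.card ≤ (univ.filter (fun v => ∃ w, w ≠ v ∧
        ∀ x, (G.Adj v x ↔ G.Adj w x))).card := by
      refine Finset.card_le_card fun v hv => ?_
      rw [Finset.mem_filter]
      refine ⟨Finset.mem_univ _, φ v, ?_, htw v hv⟩
      intro h
      exact hout v hv (h.symm ▸ hv)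
    calc n ≤ 2 * (c₁ * s) := hs3
      _ ≤ 4 * c₁ * s := by nlinarith
      _ = 4 * c₁ * D.card := by rw [hD]
      _ ≤ _ := Nat.mul_le_mul_left _ hsub

end Pool.Agent.SPC
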