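import Pool.Agent.SPC.Targets

set_option autoImplicit false

/-!
# SPC: the number of members in which all vertices of a given set are leaves (target LVS)
-/

namespace Pool.Agent.SPC

open Finset Classical Filter Topology
open Pool.Agent.Pend

namespace LVS_

lemma card_filter_congr {α : Type} (s : Finset α) (p q : α → Prop) (hp : DecidablePred p)
    (hq : DecidablePred q) (h : ∀ a ∈ s, (p a ↔ q a)) :
    (@Finset.filter α p hp s).card = (@Finset.filter α q hq s).card := by
  refine congrArg Finset.card (Finset.ext fun a => ?_)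
  rw [@Finset.mem_filter _ _ hp, @Finset.mem_filter _ _ hq]
  exact and_congr_right fun ha => h a ha

lemma card_filter_zero {α : Type} (s : Finset α) (p : α → Prop) (hp : DecidablePred p)
    (h : ∀ a ∈ s, ¬ p a) : (@Finset.filter α p hp s).card = 0 := by
  rw [card_eq_zero, Finset.eq_empty_iff_forall_notMem]
  intro a ha
  rw [@Finset.mem_filter _ _ hp] at ha
  exact h a ha.1 ha.2

/-- the members on `U` in which all vertices of `S` are leaves with neighbours outside `S` -/
noncomputable def AA {V : Type} [Fintype V] (C : (V : Type) → SimpleGraph V → Prop)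
    (U S : Finset V) : ℕ := ((cS C U).filter (fun K => ∀ v ∈ S, ∃ u ∈ U \ S, Lf K v u)).card

lemma tree {V : Type} (v : V) :
    ((⊥ : SimpleGraph V).induce ((({v} : Finset V) : Set V))).IsTree := by
  have : Subsingleton (({v} : Finset V) : Set V) := by
    constructor
    rintro ⟨a, ha⟩ ⟨b, hb⟩
    simp only [coe_singleton, Set.mem_singleton_iff] at ha hb
    exact Subtype.ext (ha.trans hb.symm)
  have : Nonempty (({v} : Finset V) : Set V) := ⟨⟨v, by simp⟩⟩
  exact SimpleGraph.IsTree.of_subsingleton

lemma cond {V : Type} [Fintype V] {C : (V : Type) → SimpleGraph V → Prop} {U S : Finset V} {v : V}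
    (hv : v ∉ S) (hU : insert v S ⊆ U) {G : SimpleGraph V} (hG : G ∈ cS C U) :
    (rs G {v} = ⊥ ∧ ∃ x, PndS G U {v} v x ∧ (x ∉ insert v S ∧ ∀ w ∈ S, ∃ u ∈ U \ insert v S,
      Lf (rs G (U \ {v})) w u)) ↔ ∀ w ∈ insert v S, ∃ u ∈ U \ insert v S, Lf G w u := by
  have hGU : ∀ a b, G.Adj a b → a ∈ U ∧ b ∈ U := (mem_filter.1 hG).2.1
  have hvU : v ∈ U := hU (mem_insert_self v S)
  have hSU : ∀ w ∈ S, w ∈ U := fun w hw => hU (mem_insert_of_mem hw)
  constructor
  · rintro ⟨-, x, hP, hx, hQ⟩ w hw
    obtain ⟨-, -, hxU, hxv, hadj⟩ := hP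
    have hvx : Lf G v x := by
      intro z
      by_cases hz : z ∈ U
      · by_cases hzv : z ∈ ({v} : Finset V)
        · rw [mem_singleton] at hzv
          subst hzv
          constructor
          · intro h
            exact absurd h (G.irrefl)
          · intro h
            exact absurd (by rw [h]; exact mem_singleton_self _) hxv
        · have := hadj v (mem_singleton_self v) z hz hzv
          rw [this]
          simp
      · constructor
        · intro h
          exact absurd (hGU _ _ h).2 hz
        · rintro rfl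
          exact absurd hxU hz
    rcases mem_insert.1 hw with rfl | hwS
    · exact ⟨x, Finset.mem_sdiff.2 ⟨hxU, hx⟩, hvx⟩
    · obtain ⟨u, hu, hl⟩ := hQ w hwS
      refine ⟨u, hu, fun z => ⟨fun h => ?_, fun h => ?_⟩⟩
      · have hwv : w ≠ v := fun h0 => hv (h0 ▸ hwS)
        by_cases hzv : z = v
        · subst hzv
          exact absurd (mem_insert_of_mem ((hvx w).1 h.symm ▸ hwS)) hx
        · refine (hl z).1 ⟨h, ?_, ?_⟩
          · exact Finset.mem_sdiff.2 ⟨hSU w hwS, by rwa [mem_singleton]⟩
          · exact Finset.mem_sdiff.2 ⟨(hGU _ _ h).2, by rwa [mem_singleton]⟩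
      · exact ((hl z).2 h).1
  · intro h
    constructor
    · ext a b
      simp only [rs, mem_singleton, SimpleGraph.bot_adj, iff_false]
      rintro ⟨h1, rfl, rfl⟩
      exact G.irrefl h1
    · obtain ⟨x, hx, hvx⟩ := h v (mem_insert_self v S)
      rw [Finset.mem_sdiff] at hx
      have hxv : x ≠ v := fun h0 => hx.2 (h0 ▸ mem_insert_self v S)
      refine ⟨x, ⟨singleton_subset_iff.2 hvU, mem_singleton_self v, hx.1,
        by rwa [mem_singleton], ?_⟩, hx.2, fun w hw => ?_⟩
      · intro a ha b _ _
        rw [mem_singleton] at ha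
        subst ha
        rw [hvx b]
        simp
      · obtain ⟨u, hu, hl⟩ := h w (mem_insert_of_mem hw)
        refine ⟨u, hu, fun z => ⟨fun h1 => (hl z).1 h1.1, fun h1 => ⟨(hl z).2 h1, ?_, ?_⟩⟩⟩
        · exact Finset.mem_sdiff.2 ⟨hSU w hw, by rw [mem_singleton]; exact fun h0 => hv (h0 ▸ hw)⟩
        · rw [h1]
          rw [Finset.mem_sdiff] at hu
          exact Finset.mem_sdiff.2 ⟨hu.1, by
            rw [mem_singleton]; exact fun h0 => hu.2 (h0 ▸ mem_insert_self v S)⟩

lemma sd {V : Type} (U S : Finset V) (v : V) : (U \ {v}) \ S = U \ insert v S := by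
  ext z
  simp only [Finset.mem_sdiff, mem_singleton, mem_insert]
  tauto

lemma step (hGLS : T_GLS) {C : (V : Type) → SimpleGraph V → Prop} (hC : LeafStable C) {V : Type}
    [Fintype V] {U S : Finset V} {v : V} (hv : v ∉ S) (hU : insert v S ⊆ U) :
    AA C U (insert v S) = (U \ insert v S).card * AA C (U \ {v}) S := by
  have hvU : v ∈ U := hU (mem_insert_self v S)
  have h := hGLS C hC V U {v} ⊥ v (fun x K => x ∉ insert v S ∧ ∀ w ∈ S, ∃ u ∈ U \ insert v S,
    Lf K w u) (singleton_subset_iff.2 hvU) (mem_singleton_self v) (fun a b hab => hab.elim) (tree v)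
  refine Eq.trans (Eq.trans ?_ h) ?_
  · unfold AA
    exact card_filter_congr _ _ _ _ _ fun G hG => (cond hv hU hG).symm
  refine (Finset.sum_congr rfl (g := fun x => if x ∉ insert v S then AA C (U \ {v}) S else 0)
    fun x _ => ?_).trans ?_
  · by_cases hx : x ∉ insert v S
    · rw [if_pos hx]
      unfold AA
      rw [sd]
      exact card_filter_congr _ _ _ _ _ fun K _ => and_iff_right hx
    · rw [if_neg hx]
      exact card_filter_zero _ _ _ fun K _ hK => hx hK.1
  rw [← sum_filter, sum_const, smul_eq_mul]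
  congr 2
  refine Finset.ext fun z => ?_
  rw [mem_filter, Finset.mem_sdiff, Finset.mem_sdiff, mem_singleton, mem_insert]
  tauto

lemma main (hGLS : T_GLS) (hCA : T_CARDS) {C : (V : Type) → SimpleGraph V → Prop}
    (hC : LeafStable C) {V : Type} [Fintype V] (S : Finset V) :
    ∀ U : Finset V, S ⊆ U → AA C U S = (U \ S).card ^ S.card * cnt C (U \ S).card := by
  induction S using Finset.induction_on with
  | empty =>
    intro U _
    rw [card_empty, pow_zero, one_mul, sdiff_empty, ← (hCA C hC.iso V).1 U]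
    unfold AA
    congr 1
    refine filter_true_of_mem fun K _ v hv => ?_
    exact absurd hv (notMem_empty v)
  | insert v S hv ih =>
    intro U hU
    have h1 : S ⊆ U \ {v} := fun z hz => Finset.mem_sdiff.2 ⟨hU (mem_insert_of_mem hz), by
      rw [mem_singleton]; exact fun h0 => hv (h0 ▸ hz)⟩
    rw [step hGLS hC hv hU, ih _ h1, sd, card_insert_of_notMem hv, pow_succ]
    ring

lemma main2 (hGLS : T_GLS) (hCA : T_CARDS) {C : (V : Type) → SimpleGraph V → Prop}
    (hC : LeafStable C) {V : Type} [Fintype V] (S : Finset V) :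
    AA C univ S = (Fintype.card V - S.card) ^ S.card * cnt C (Fintype.card V - S.card) := by
  have h := main hGLS hCA hC S univ (subset_univ S)
  rwa [card_sdiff_of_subset (subset_univ S), card_univ] at h

lemma no_adj {V : Type} [Fintype V] (hn : 3 ≤ Fintype.card V) {G : SimpleGraph V}
    (hG : G.Connected) {v u : V} (h1 : Lf G v u) (h2 : ∃ u', Lf G u u') : False := by
  obtain ⟨u', h2⟩ := h2
  have h3 : u' = v := ((h2 v).1 ((h1 u).2 rfl).symm).symm
  subst h3
  have key : ∀ a b : V, G.Walk a b → (a = u' ∨ a = u) → (b = u' ∨ b = u) := by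
    intro a b p
    induction p with
    | nil => exact id
    | cons hadj p ih =>
      rintro (rfl | rfl)
      · exact ih (Or.inr ((h1 _).1 hadj))
      · exact ih (Or.inl ((h2 _).1 hadj))
  have hc : ({u', u} : Finset V).card < (univ : Finset V).card := by
    rw [card_univ]
    exact lt_of_le_of_lt card_le_two hn
  obtain ⟨z, -, hz⟩ := exists_mem_notMem_of_card_lt_card hc
  obtain ⟨p⟩ := hG.preconnected u' z
  have h4 := key _ _ p (Or.inl rfl)
  exact hz (by rw [mem_insert, mem_singleton]; exact h4)

lemma fin {C : (V : Type) → SimpleGraph V → Prop}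
    (hGLS : T_GLS) (hCA : T_CARDS) (hC : LeafStable C) {V : Type} [Fintype V]
    (hn : 3 ≤ Fintype.card V) (S : Finset V) :
    ((cc C V).filter (fun G => ∀ v ∈ S, ∃ u, Lf G v u)).card =
      (Fintype.card V - S.card) ^ S.card * cnt C (Fintype.card V - S.card) := by
  rw [← main2 hGLS hCA hC S]
  unfold AA
  rw [(hCA C hC.iso V).2.1]
  refine card_filter_congr _ _ _ _ _ fun G hG => ?_
  have hconn : G.Connected := (mem_filter.1 hG).2.1
  constructor
  · intro h1 v hv
    obtain ⟨u, hu⟩ := h1 v hv
    refine ⟨u, Finset.mem_sdiff.2 ⟨mem_univ u, fun huS => ?_⟩, hu⟩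
    exact no_adj hn hconn hu (h1 u huS)
  · intro h1 v hv
    obtain ⟨u, -, hu⟩ := h1 v hv
    exact ⟨u, hu⟩

end LVS_

open LVS_ in
/-- LVS. -/
theorem p_LVS (hGLS : T_GLS) (hCA : T_CARDS) : T_LVS := by
  intro C hC n hn S
  have hn' : 3 ≤ Fintype.card (Fin n) := by rwa [Fintype.card_fin]
  have h := fin hGLS hCA hC hn' S
  rw [Fintype.card_fin] at h
  rw [← h]
  exact card_filter_congr _ _ _ _ _ fun _ _ => Iff.rfl


end Pool.Agent.SPC
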