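import Pool.Agent.SPC.Targets

set_option autoImplicit false

/-!
MAINU: leaf stable classes with bounded ratios.
-/

namespace Pool.Agent.SPC

open Finset Classical Filter Topology
open Pool.Agent.Pend

namespace MAINU_

theorem aa_nonneg (C : (V : Type) → SimpleGraph V → Prop) (n : ℕ) : 0 ≤ aa C n := by
  unfold aa
  positivity

/-- A class with a large core has few leaves. -/
theorem few (hCKS : T_CKS) (hCOR : T_COR) (hFEWL : T_FEWL)
    (C : (V : Type) → SimpleGraph V → Prop) (hC : LeafStable C) (n k : ℕ) (hn : 2 ≤ n)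
    (hk : k ≤ n) : cnt (CK C k) n * ((n + 1) * n) ≤ (n - k + 1) * cnt (CK C k) (n + 1) := by
  have h := hFEWL (CK C k) (hCKS C hC k) n (n - k) hn
  have h1 : (cc (CK C k) (Fin n)).filter (fun G => lv G ≤ n - k) = cc (CK C k) (Fin n) := by
    apply Finset.filter_true_of_mem
    intro G hG
    have h2 := (hCOR (Fin n) G).1
    have h3 : (Cor G).ncard = k := by
      simp only [cc, Finset.mem_filter] at hG
      exact hG.2.2.2
    rw [h3, Fintype.card_fin] at h2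
    omega
  rw [h1] at h
  exact h

/-- The estimate for a given size of the core. -/
theorem step (hCKS : T_CKS) (hCOR : T_COR) (hFORM : T_FORM) (hFEWL : T_FEWL)
    (hbb : ∀ (C : (V : Type) → SimpleGraph V → Prop) (n : ℕ), 14 ≤ n → bb C n ≤ cnt C n)
    (C : (V : Type) → SimpleGraph V → Prop) (hC : LeafStable C) (δ₀ ε δ₁ : ℝ) (hδ₀ : 0 < δ₀)
    (hε : 0 < ε) (n : ℕ) (hn : 14 ≤ n)
    (gk : ∀ k : ℕ, (k : ℝ) ≤ (1 - δ₀) * n → ∀ a : ℕ → ℝ, (∀ i, 0 ≤ a i) →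
      (∀ i : ℕ, k ≤ i → a i * ((i : ℝ) * ((i : ℝ) + 1) ^ (i - k)) =
        a (i + 1) * (((i : ℝ) + 1 - k) * (i : ℝ) ^ (i - k))) →
      Good a δ₁ n ∧ a n ≤ 71 / 100 * a (n + 1))
    (gt : ∀ a : ℕ → ℝ, (∀ i, 0 ≤ a i) →
      (∀ i : ℕ, 2 ≤ i → a i * ((i : ℝ) + 1) ^ (i - 2) = a (i + 1) * (i : ℝ) ^ (i - 2)) →
      Good a (1 / 4) n ∧ a n ≤ 71 / 100 * a (n + 1))
    (ek : ∀ C : (V : Type) → SimpleGraph V → Prop, LeafStable C → Good (aa C) δ₁ n →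
      aa C n ≤ 71 / 100 * aa C (n + 1) → (bb C n : ℝ) ≤ ε / 2 * (cnt C n : ℝ))
    (et : ∀ C : (V : Type) → SimpleGraph V → Prop, LeafStable C → Good (aa C) (1 / 4) n →
      aa C n ≤ 71 / 100 * aa C (n + 1) → (bb C n : ℝ) ≤ ε / 2 * (cnt C n : ℝ))
    (k : ℕ) (hk : k ≤ n) :
    (bb (CK C k) n : ℝ) ≤ ε / 2 * (cnt (CK C k) n : ℝ) +
      (δ₀ * n + 1) / (((n : ℝ) + 1) * n) * (cnt (CK C k) (n + 1) : ℝ) := by
  have hn0 : (0 : ℝ) < n := by
    have : (14 : ℝ) ≤ n := by exact_mod_cast hn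
    linarith
  have hnn : 0 ≤ (δ₀ * n + 1) / (((n : ℝ) + 1) * n) * (cnt (CK C k) (n + 1) : ℝ) := by
    positivity
  have hnn2 : 0 ≤ ε / 2 * (cnt (CK C k) n : ℝ) := by positivity
  have hS := hCKS C hC k
  rcases Nat.eq_zero_or_pos k with hk0 | hk0
  · subst hk0
    obtain ⟨h1, h2⟩ := gt (aa (CK C 0)) (aa_nonneg _) (hFORM C hC).2
    have := et (CK C 0) hS h1 h2
    linarith
  · by_cases hkk : (k : ℝ) ≤ (1 - δ₀) * n
    · obtain ⟨h1, h2⟩ := gk k hkk (aa (CK C k)) (aa_nonneg _)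
        (fun i hi => (hFORM C hC).1 k i hk0 hi)
      have := ek (CK C k) hS h1 h2
      linarith
    · have h1 := few hCKS hCOR hFEWL C hC n k (by omega) hk
      have h2 : (bb (CK C k) n : ℝ) ≤ (cnt (CK C k) n : ℝ) := by
        exact_mod_cast hbb (CK C k) n hn
      have h3 : (cnt (CK C k) n : ℝ) * (((n : ℝ) + 1) * n) ≤
          ((n : ℝ) - k + 1) * (cnt (CK C k) (n + 1) : ℝ) := by
        have h4 : ((cnt (CK C k) n * ((n + 1) * n) : ℕ) : ℝ) ≤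
            (((n - k + 1) * cnt (CK C k) (n + 1) : ℕ) : ℝ) := by exact_mod_cast h1
        push_cast [Nat.cast_sub hk] at h4
        exact h4
      have h5 : ((n : ℝ) - k + 1) * (cnt (CK C k) (n + 1) : ℝ) ≤
          (δ₀ * n + 1) * (cnt (CK C k) (n + 1) : ℝ) := by
        apply mul_le_mul_of_nonneg_right _ (Nat.cast_nonneg _)
        rw [not_le] at hkk
        linarith
      have h6 : (cnt (CK C k) n : ℝ) ≤
          (δ₀ * n + 1) / (((n : ℝ) + 1) * n) * (cnt (CK C k) (n + 1) : ℝ) := by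
        rw [div_mul_eq_mul_div, le_div_iff₀ (by positivity)]
        linarith
      linarith

end MAINU_

open MAINU_ in
theorem p_MAINU (hCKS : T_CKS) (hCOR : T_COR) (hFORM : T_FORM) (hGOODK : T_GOODK)
    (hGOODT : T_GOODT) (hESTK : T_ESTK) (hSUM : T_SUM) (hFEWL : T_FEWL)
    (hbb : ∀ (C : (V : Type) → SimpleGraph V → Prop) (n : ℕ), 14 ≤ n → bb C n ≤ cnt C n) :
    T_MAINU := by
  intro C hC A₀ n₀ hA₀ ε hε
  obtain ⟨A, hA1, hA⟩ : ∃ A : ℝ, 1 ≤ A ∧ ∀ n : ℕ, n₀ ≤ n →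
      (cnt C (n + 1) : ℝ) ≤ A * ((n : ℝ) + 1) * (cnt C n : ℝ) := by
    refine ⟨max A₀ 1, le_max_right _ _, fun n hn => (hA₀ n hn).trans ?_⟩
    apply mul_le_mul_of_nonneg_right _ (Nat.cast_nonneg _)
    apply mul_le_mul_of_nonneg_right (le_max_left _ _)
    positivity
  have hA0 : 0 < A := by linarith
  set δ₀ : ℝ := min (1 / 2) (ε / (4 * A)) with hδ₀
  have hδ₀pos : 0 < δ₀ := lt_min (by norm_num) (by positivity)
  have hδ₀A : A * δ₀ ≤ ε / 4 := by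
    have h1 : δ₀ ≤ ε / (4 * A) := min_le_right _ _
    calc A * δ₀ ≤ A * (ε / (4 * A)) := mul_le_mul_of_nonneg_left h1 hA0.le
      _ = ε / 4 := by field_simp
  obtain ⟨δ₁, hδ₁, n₁, gk⟩ := hGOODK δ₀ hδ₀pos
  obtain ⟨n₂, gt⟩ := hGOODT
  obtain ⟨n₃, ek⟩ := hESTK δ₁ (ε / 2) hδ₁ (by linarith)
  obtain ⟨n₄, et⟩ := hESTK (1 / 4) (ε / 2) (by norm_num) (by linarith)
  obtain ⟨n₅, hn₅⟩ := exists_nat_ge (4 * A / ε)
  refine ⟨max 14 (max n₀ (max n₁ (max n₂ (max n₃ (max n₄ n₅))))), fun n hn => ?_⟩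
  simp only [max_le_iff] at hn
  obtain ⟨hn14, hn0, hn1, hn2, hn3, hn4, hn5⟩ := hn
  have hnpos : (0 : ℝ) < n := by
    have : (14 : ℝ) ≤ n := by exact_mod_cast hn14
    linarith
  have hAn : A ≤ ε / 4 * n := by
    have h1 : 4 * A / ε ≤ n := hn₅.trans (by exact_mod_cast hn5)
    rw [div_le_iff₀ hε] at h1
    linarith
  have key : ∀ k ∈ range (n + 1), (bb (CK C k) n : ℝ) ≤ ε / 2 * (cnt (CK C k) n : ℝ) +
      (δ₀ * n + 1) / (((n : ℝ) + 1) * n) * (cnt (CK C k) (n + 1) : ℝ) := by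
    intro k hk
    exact step hCKS hCOR hFORM hFEWL hbb C hC δ₀ ε δ₁ hδ₀pos hε n hn14
      (fun k hk a h1 h2 => gk n k hn1 hk a h1 h2) (fun a h1 h2 => gt n hn2 a h1 h2)
      (fun C h1 h2 h3 => ek n hn3 C h1 h2 h3) (fun C h1 h2 h3 => et n hn4 C h1 h2 h3) k
      (by simpa [Nat.lt_succ_iff] using hk)
  have s1 : (bb C n : ℝ) = ∑ k ∈ range (n + 1), (bb (CK C k) n : ℝ) := by
    rw [(hSUM C n).2]
    push_cast
    rfl
  have s2 : (cnt C n : ℝ) = ∑ k ∈ range (n + 1), (cnt (CK C k) n : ℝ) := by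
    rw [(hSUM C n).1]
    push_cast
    rfl
  have s3 : ∑ k ∈ range (n + 1), (cnt (CK C k) (n + 1) : ℝ) ≤ (cnt C (n + 1) : ℝ) := by
    rw [(hSUM C (n + 1)).1, Finset.sum_range_succ _ (n + 1)]
    push_cast
    linarith [(Nat.cast_nonneg (cnt (CK C (n + 1)) (n + 1)) : (0 : ℝ) ≤ _)]
  have hcoef : 0 ≤ (δ₀ * n + 1) / (((n : ℝ) + 1) * n) := by positivity
  have hc : 0 ≤ (cnt C n : ℝ) := Nat.cast_nonneg _
  calc (bb C n : ℝ) ≤ ∑ k ∈ range (n + 1), (ε / 2 * (cnt (CK C k) n : ℝ) +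
      (δ₀ * n + 1) / (((n : ℝ) + 1) * n) * (cnt (CK C k) (n + 1) : ℝ)) := by
        rw [s1]; exact Finset.sum_le_sum key
    _ = ε / 2 * (cnt C n : ℝ) + (δ₀ * n + 1) / (((n : ℝ) + 1) * n) *
        ∑ k ∈ range (n + 1), (cnt (CK C k) (n + 1) : ℝ) := by
        rw [Finset.sum_add_distrib, ← Finset.mul_sum, ← Finset.mul_sum, ← s2]
    _ ≤ ε / 2 * (cnt C n : ℝ) + (δ₀ * n + 1) / (((n : ℝ) + 1) * n) *
        (A * ((n : ℝ) + 1) * (cnt C n : ℝ)) := by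
        gcongr
        exact s3.trans (hA n hn0)
    _ = (ε / 2 + (A * δ₀ + A / n)) * (cnt C n : ℝ) := by
        field_simp
    _ ≤ ε * (cnt C n : ℝ) := by
        apply mul_le_mul_of_nonneg_right _ hc
        have : A / n ≤ ε / 4 := by
          rw [div_le_iff₀ hnpos]
          exact hAn
        linarith

end Pool.Agent.SPC
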