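import Pool.Agent.SPC.Targets

/-!
SPC, RATF: bounded ratios for classes with excluded minors.
-/

set_option autoImplicit false

namespace Pool.Agent.SPC

open Finset Classical Filter Topology
open Pool.Agent.Pend

namespace RATF_

/-- Counting pairs. -/
lemma pairs {α β : Type} [Fintype α] [Fintype β] (s : Finset α) (Q : α → β → Prop) :
    ((univ : Finset (α × β)).filter (fun p => p.1 ∈ s ∧ Q p.1 p.2)).card =
      ∑ a ∈ s, (univ.filter (fun b => Q a b)).card := by
  rw [card_filter, Fintype.sum_prod_type, ← sum_subset (subset_univ s)]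
  · refine sum_congr rfl fun a ha => ?_
    rw [card_filter]
    refine sum_congr rfl fun b _ => ?_
    simp only [ha, true_and]
  · intro a _ ha
    refine sum_eq_zero fun b _ => ?_
    simp only [ha, false_and, if_false]

/-- The combinatorial core: double counting. -/
lemma dbl {α β : Type} [Fintype α] [Fintype β] (s : Finset α) (Q R : α → β → Prop)
    (c A B N : ℕ)
    (h1 : ((univ : Finset (α × β)).filter (fun p => p.1 ∈ s ∧ Q p.1 p.2)).card ≤ A)
    (h2 : ((univ : Finset (α × β)).filter (fun p => p.1 ∈ s ∧ R p.1 p.2)).card ≤ B)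
    (h : ∀ a ∈ s, N ≤ c * (univ.filter (fun b => Q a b)).card ∨
      N ≤ c * (univ.filter (fun b => R a b)).card) : s.card * N ≤ c * A + c * B := by
  have hG : ∀ a ∈ s, N ≤ c * (univ.filter (fun b => Q a b)).card +
      c * (univ.filter (fun b => R a b)).card := by
    intro a ha
    rcases h a ha with h | h
    · exact le_trans h (Nat.le_add_right _ _)
    · exact le_trans h (Nat.le_add_left _ _)
  have hsum := sum_le_sum hG
  rw [sum_const, sum_add_distrib, ← mul_sum, ← mul_sum, ← pairs, ← pairs, smul_eq_mul] at hsum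
  exact le_trans hsum (add_le_add (Nat.mul_le_mul_left c h1) (Nat.mul_le_mul_left c h2))

end RATF_

open RATF_

theorem p_RATF (hLOC : T_LOC) (hCTR : T_CTR) (hTWN : T_TWN) (hMT : T_MTRANS) (hMS : T_MSUB)
    (hLFS : T_LFS) : T_RATF := by
  intro F hF hne
  obtain ⟨W, H, hWH⟩ := hne
  have : Finite W := (hF W H hWH).1
  have hiso : IsoInv (FreeOf F) := (hLFS F (fun W H h => (hF W H h).2)).iso
  obtain ⟨E, c, hc, hloc⟩ := hLOC (Nat.card W)
  refine ⟨(c : ℝ) * ((16 : ℝ) ^ E + 1), c, fun n hn => ?_⟩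
  have h1 := hCTR F hiso (n + 1) E
  have h2 := hTWN F hiso (n + 1)
  rw [Nat.add_sub_cancel] at h1 h2
  have hle : (cc (FreeOf F) (Fin (n + 1))).card * (n + 1) ≤
      c * ((n + 1) ^ 2 * 16 ^ E * cnt (FreeOf F) n) +
      c * ((n + 1) ^ 2 * cnt (FreeOf F) n) := by
    refine dbl (cc (FreeOf F) (Fin (n + 1)))
      (fun (G : SimpleGraph (Fin (n + 1))) (v : Fin (n + 1)) =>
        ∃ w, G.Adj v w ∧ dg G v ≤ E ∧ dg G w ≤ E)
      (fun (G : SimpleGraph (Fin (n + 1))) (v : Fin (n + 1)) =>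
        ∃ w, w ≠ v ∧ ∀ x, (G.Adj v x ↔ G.Adj w x)) c _ _ (n + 1) ?_ ?_ ?_
    · convert h1
    · convert h2
    · intro G hGc
      rw [MAINF_.mem_cc] at hGc
      have h := hloc (Fin (n + 1)) G (MAINF_.free_top hMT hMS hWH hGc.2)
        (by rw [Fintype.card_fin]; omega)
      rw [Fintype.card_fin] at h
      convert h
  have hR : (cnt (FreeOf F) (n + 1) : ℝ) * ((n : ℝ) + 1) ≤
      c * (((n : ℝ) + 1) ^ 2 * 16 ^ E * cnt (FreeOf F) n) +
        c * (((n : ℝ) + 1) ^ 2 * cnt (FreeOf F) n) := by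
    have hle' : cnt (FreeOf F) (n + 1) * (n + 1) ≤
      c * ((n + 1) ^ 2 * 16 ^ E * cnt (FreeOf F) n) +
      c * ((n + 1) ^ 2 * cnt (FreeOf F) n) := hle
    exact_mod_cast hle'
  have hpos : (0 : ℝ) < (n : ℝ) + 1 := by positivity
  refine le_of_mul_le_mul_right (le_trans hR (le_of_eq ?_)) hpos
  ring

end Pool.Agent.SPC
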