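import Pool.Agent.SPC.Targets

/-!
# T_SEQK: solution of the recursion
-/

set_option autoImplicit false

namespace Pool.Agent.SPC

open Finset Classical Filter Topology
open Pool.Agent.Pend

namespace SEQK_

theorem fd (d e : ℕ) (h : e < d) (x : ℚ) :
    ∑ s ∈ range (d + 1), (-1 : ℚ) ^ s * (d.choose s : ℚ) * (x - s) ^ e = 0 := by
  have h1 := fwdDiff_iter_eq_sum_shift (h := (1 : ℚ)) (fun r : ℚ => r ^ e) d (x - d)
  have h2 : (fwdDiff (1 : ℚ))^[d] (fun r : ℚ => r ^ e) = 0 := fwdDiff_iter_pow_eq_zero_of_lt h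
  rw [h2, ← Finset.sum_range_reflect] at h1
  have h3 : (0 : ℚ) = ∑ s ∈ range (d + 1), (-1 : ℚ) ^ s * (d.choose s : ℚ) * (x - s) ^ e := by
    refine h1.trans (Finset.sum_congr rfl fun s hs => ?_)
    have hs' : s ≤ d := Nat.lt_succ_iff.1 (Finset.mem_range.1 hs)
    have e1 : d + 1 - 1 - s = d - s := by omega
    have e2 : d - (d - s) = s := by omega
    rw [e1, e2, Nat.choose_symm hs', zsmul_eq_mul, nsmul_eq_mul, Nat.cast_sub hs']
    push_cast
    have e3 : x - (d : ℚ) + ((d : ℚ) - s) * 1 = x - s := by ring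
    rw [e3]
  exact h3.symm

/-- the solution -/
noncomputable def M (N : ℕ → ℤ) (k m : ℕ) : ℚ :=
  (m.choose k : ℚ) * k * (m : ℚ) ^ (m - k) * N k / m

theorem term (N : ℕ → ℤ) (k n s : ℕ) (hk : 1 ≤ k) (hn : k < n) (hs : s ≤ n - k) :
    (-1 : ℚ) ^ s * (n.choose s : ℚ) * ((n : ℚ) - s) ^ s * M N k (n - s) =
      ((n.choose k : ℚ) * k * N k) *
        ((-1 : ℚ) ^ s * ((n - k).choose s : ℚ) * ((n : ℚ) - s) ^ (n - k - 1)) := by
  unfold M
  have hsn : s ≤ n := by omega
  have hc : n.choose s * (n - s).choose k = n.choose k * (n - k).choose s := by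
    have h1 := Nat.choose_mul (n := n) (k := s + k) (s := s) (by omega)
    have h2 := Nat.choose_mul (n := n) (k := s + k) (s := k) (by omega)
    have e1 : s + k - s = k := by omega
    have e2 : s + k - k = s := by omega
    rw [e1] at h1
    rw [e2] at h2
    have h3 : (s + k).choose s = (s + k).choose k := by
      rw [← Nat.choose_symm (by omega : s ≤ s + k), e1]
    rw [← h1, ← h2, h3]
  have hc' : (n.choose s : ℚ) * ((n - s).choose k : ℚ) =
      (n.choose k : ℚ) * ((n - k).choose s : ℚ) := by exact_mod_cast hc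
  have hcast : ((n - s : ℕ) : ℚ) = (n : ℚ) - s := Nat.cast_sub hsn
  have hpos : (0 : ℚ) < (n : ℚ) - s := by
    rw [← hcast]
    have : 0 < n - s := by omega
    exact_mod_cast this
  rw [hcast]
  set y : ℚ := (n : ℚ) - s with hy
  have hy0 : y ≠ 0 := hpos.ne'
  have hp : y ^ s * y ^ (n - s - k) = y ^ (n - k - 1) * y := by
    rw [← pow_add, ← pow_succ]
    congr 1
    omega
  have key : y ^ s * (y ^ (n - s - k) / y) = y ^ (n - k - 1) := by
    rw [← mul_div_assoc, hp, mul_div_assoc, div_self hy0, mul_one]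
  calc (-1 : ℚ) ^ s * (n.choose s : ℚ) * y ^ s *
        (((n - s).choose k : ℚ) * k * y ^ (n - s - k) * N k / y)
      = (-1 : ℚ) ^ s * ((n.choose s : ℚ) * ((n - s).choose k : ℚ)) * k * N k *
          (y ^ s * (y ^ (n - s - k) / y)) := by ring
    _ = _ := by rw [key, hc']; ring

end SEQK_

open SEQK_ in
/-- SEQK -/
theorem p_SEQK : T_SEQK := by
  intro N k hk h0 hrec
  have main : ∀ n : ℕ, k ≤ n → (N n : ℚ) = M N k n := by
    intro n
    induction n using Nat.strong_induction_on with
    | _ n ih =>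
      intro hn
      rcases Nat.eq_or_lt_of_le hn with rfl | hlt
      · unfold M
        have : (k : ℚ) ≠ 0 := by
          have : k ≠ 0 := by omega
          exact_mod_cast this
        rw [Nat.choose_self, Nat.sub_self, pow_zero]
        field_simp
        push_cast
        ring
      · have hr := hrec n hlt
        have hr' : ∑ s ∈ range (n + 1), (-1 : ℚ) ^ s * (n.choose s : ℚ) *
            ((n - s : ℕ) : ℚ) ^ s * (N (n - s) : ℚ) = 0 := by
          have := congrArg (fun z : ℤ => (z : ℚ)) hr
          push_cast at this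
          exact this
        have hcut : ∑ s ∈ range (n - k + 1), (-1 : ℚ) ^ s * (n.choose s : ℚ) *
            ((n - s : ℕ) : ℚ) ^ s * (N (n - s) : ℚ) = 0 := by
          rw [← hr']
          apply Finset.sum_subset
          · intro s hs
            rw [Finset.mem_range] at hs ⊢
            omega
          · intro s hs hs'
            rw [Finset.mem_range] at hs hs'
            rw [h0 (n - s) (by omega)]
            simp
        have hM : ∑ s ∈ range (n - k + 1), (-1 : ℚ) ^ s * (n.choose s : ℚ) *
            ((n - s : ℕ) : ℚ) ^ s * M N k (n - s) = 0 := by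
          have : ∀ s ∈ range (n - k + 1), (-1 : ℚ) ^ s * (n.choose s : ℚ) *
              ((n - s : ℕ) : ℚ) ^ s * M N k (n - s) = ((n.choose k : ℚ) * k * N k) *
              ((-1 : ℚ) ^ s * ((n - k).choose s : ℚ) * ((n : ℚ) - s) ^ (n - k - 1)) := by
            intro s hs
            have hs' : s ≤ n - k := Nat.lt_succ_iff.1 (Finset.mem_range.1 hs)
            rw [Nat.cast_sub (by omega : s ≤ n)]
            exact term N k n s hk hlt hs'
          rw [Finset.sum_congr rfl this, ← Finset.mul_sum, fd (n - k) (n - k - 1) (by omega),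
            mul_zero]
        rw [Finset.sum_range_succ'] at hcut hM
        have heq : ∑ s ∈ range (n - k), (-1 : ℚ) ^ (s + 1) * (n.choose (s + 1) : ℚ) *
            ((n - (s + 1) : ℕ) : ℚ) ^ (s + 1) * (N (n - (s + 1)) : ℚ) =
            ∑ s ∈ range (n - k), (-1 : ℚ) ^ (s + 1) * (n.choose (s + 1) : ℚ) *
            ((n - (s + 1) : ℕ) : ℚ) ^ (s + 1) * M N k (n - (s + 1)) := by
          apply Finset.sum_congr rfl
          intro s hs
          rw [Finset.mem_range] at hs
          rw [ih (n - (s + 1)) (by omega) (by omega)]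
        rw [heq] at hcut
        simp only [pow_zero, Nat.choose_zero_right, Nat.cast_one, one_mul, Nat.sub_zero,
          mul_one] at hcut hM
        linarith
  intro n hn
  have h := main n hn
  have hn0 : (n : ℚ) ≠ 0 := by
    have : n ≠ 0 := by omega
    exact_mod_cast this
  have h2 : (n : ℚ) * N n = (n.choose k : ℚ) * k * (n : ℚ) ^ (n - k) * N k := by
    rw [h]
    unfold M
    field_simp
  exact_mod_cast h2

end Pool.Agent.SPC
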