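import Pool.Agent.SPC.Targets

/-!
# SUM: splitting by the size of the core
-/

set_option autoImplicit false

namespace Pool.Agent.SPC

open Finset Classical Filter Topology
open Pool.Agent.Pend

namespace SUM_

lemma ncard_lt {n : ℕ} (G : SimpleGraph (Fin n)) : (Cor G).ncard < n + 1 := by
  have h := Set.ncard_le_card (Cor G)
  rw [Nat.card_eq_fintype_card, Fintype.card_fin] at h
  omega

lemma split {n : ℕ} (s : Finset (SimpleGraph (Fin n))) (t : ℕ → Finset (SimpleGraph (Fin n)))
    (h : ∀ k, ∀ G, G ∈ t k ↔ G ∈ s ∧ (Cor G).ncard = k) :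
    s.card = ∑ k ∈ range (n + 1), (t k).card := by
  rw [Finset.card_eq_sum_card_fiberwise (f := fun G : SimpleGraph (Fin n) => (Cor G).ncard)
    (t := range (n + 1)) (fun G _ => Finset.mem_coe.2 (Finset.mem_range.2 (ncard_lt G)))]
  refine Finset.sum_congr rfl fun k _ => ?_
  have h2 : (s.filter fun G => (Cor G).ncard = k) = t k := by
    ext G
    rw [Finset.mem_filter, h k G]
  rw [h2]

end SUM_

/-- SUM. -/
theorem p_SUM : T_SUM := by
  intro C n
  constructor
  · refine SUM_.split (cc C (Fin n)) (fun k => cc (CK C k) (Fin n)) fun k G => ?_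
    simp only [cc, CK, Finset.mem_filter, Finset.mem_univ, true_and]
    tauto
  · refine SUM_.split (univ.filter (fun G : SimpleGraph (Fin n) => C (Fin n) G ∧ ¬ Rec G))
      (fun k => univ.filter (fun G : SimpleGraph (Fin n) => CK C k (Fin n) G ∧ ¬ Rec G))
      fun k G => ?_
    simp only [CK, Finset.mem_filter, Finset.mem_univ, true_and]
    tauto

end Pool.Agent.SPC
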