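import Pool.Agent.SPC.Targets

/-!
# TWN: counting by deletion of a twin
-/

set_option autoImplicit false

namespace Pool.Agent.SPC

open Finset Classical Filter Topology
open Pool.Agent.Pend

namespace TWN_

/-- the map which replaces `v` by `w` -/
noncomputable def rp {V : Type} (v w x : V) : V := if x = v then w else x

lemma rp_ne {V : Type} {v w : V} (h : w ≠ v) (x : V) : rp v w x ≠ v := by
  unfold rp
  split_ifs with hx
  · exact h
  · exact hx

lemma adj_rp {V : Type} {G : SimpleGraph V} {v w : V}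
    (hG : ∀ x, (G.Adj v x ↔ G.Adj w x)) (x y : V) : G.Adj x y ↔ G.Adj (rp v w x) (rp v w y) := by
  have e1 : ∀ z u, G.Adj z u ↔ G.Adj (rp v w z) u := by
    intro z u
    unfold rp
    split_ifs with hz
    · rw [hz]; exact hG u
    · exact Iff.rfl
  rw [e1 x y, G.adj_comm, e1 y, G.adj_comm]

lemma rs_adj_rp {V : Type} [Fintype V] {G : SimpleGraph V} {v w : V} (h : w ≠ v)
    (hG : ∀ x, (G.Adj v x ↔ G.Adj w x)) (x y : V) :
    G.Adj x y ↔ (rs G (univ.erase v)).Adj (rp v w x) (rp v w y) := by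
  rw [adj_rp hG x y]
  constructor
  · intro hh
    exact ⟨hh, mem_erase.2 ⟨rp_ne h x, mem_univ _⟩, mem_erase.2 ⟨rp_ne h y, mem_univ _⟩⟩
  · intro hh
    exact hh.1

lemma mem_cS {F : (W : Type) → SimpleGraph W → Prop} (hMT : T_MTRANS) (hMS : T_MSUB)
    {V : Type} [Fintype V] {G : SimpleGraph V} {v w : V} (h : w ≠ v) (hc : G ∈ cc (FreeOf F) V)
    (hG : ∀ x, (G.Adj v x ↔ G.Adj w x)) :
    rs G (univ.erase v) ∈ cS (FreeOf F) (univ.erase v) := by
  rw [cc, mem_filter] at hc
  rw [cS, mem_filter]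
  refine ⟨mem_univ _, fun a b hab => ⟨hab.2.1, hab.2.2⟩, ?_, ?_⟩
  · let f : G →g (rs G (univ.erase v)).induce ((univ.erase v : Finset V) : Set V) :=
      { toFun := fun x => ⟨rp v w x, by simpa using rp_ne h x⟩
        map_rel' := by
          intro a b hab
          exact (rs_adj_rp h hG a b).1 hab }
    refine SimpleGraph.Connected.map f ?_ hc.2.1
    rintro ⟨x, hx⟩
    have hx' : x ≠ v := by simpa using hx
    refine ⟨x, Subtype.ext ?_⟩
    show rp v w x = x
    unfold rp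
    rw [if_neg hx']
  · intro W H hF hm
    refine hc.2.2 W H hF (hMT _ _ _ _ _ _ hm (hMS _ _ _ _ Subtype.val
      Subtype.val_injective ?_))
    intro a b hab
    exact hab.1

/-- the members in which `v` and `w` are different twins -/
noncomputable def tw (F : (W : Type) → SimpleGraph W → Prop) (V : Type) [Fintype V] (v w : V) :
    Finset (SimpleGraph V) :=
  (cc (FreeOf F) V).filter (fun G => w ≠ v ∧ ∀ x, (G.Adj v x ↔ G.Adj w x))

lemma mem_tw {F : (W : Type) → SimpleGraph W → Prop} {V : Type} [Fintype V] {v w : V}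
    {G : SimpleGraph V} : G ∈ tw F V v w ↔
      G ∈ cc (FreeOf F) V ∧ w ≠ v ∧ ∀ x, (G.Adj v x ↔ G.Adj w x) := by
  unfold tw
  rw [mem_filter]

lemma card_tw {F : (W : Type) → SimpleGraph W → Prop} (hMT : T_MTRANS) (hMS : T_MSUB)
    (hCA : T_CARDS) (hF : IsoInv (FreeOf F)) (V : Type) [Fintype V] (v w : V) :
    (tw F V v w).card ≤ cnt (FreeOf F) (Fintype.card V - 1) := by
  have e : (cS (FreeOf F) ((univ : Finset V).erase v)).card =
      cnt (FreeOf F) (Fintype.card V - 1) := by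
    rw [(hCA (FreeOf F) hF V).1, card_erase_of_mem (mem_univ v), card_univ]
  rw [← e]
  refine card_le_card_of_injOn (fun G => rs G (univ.erase v)) ?_ ?_
  · intro G hG
    rw [mem_coe, mem_tw] at hG
    rw [mem_coe]
    exact mem_cS hMT hMS hG.2.1 hG.1 hG.2.2
  · intro G hG G' hG' hh
    rw [mem_coe, mem_tw] at hG hG'
    have hh' : rs G (univ.erase v) = rs G' (univ.erase v) := hh
    ext x y
    rw [rs_adj_rp hG.2.1 hG.2.2 x y, rs_adj_rp hG'.2.1 hG'.2.2 x y, hh']

end TWN_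

open TWN_ in
/-- TWN -/
theorem p_TWN (hMT : T_MTRANS) (hMS : T_MSUB) (hCA : T_CARDS) : T_TWN := by
  intro F hF n
  have hsub : ((univ : Finset (SimpleGraph (Fin n) × Fin n)).filter
      (fun p => p.1 ∈ cc (FreeOf F) (Fin n) ∧ ∃ w, w ≠ p.2 ∧
        ∀ x, (p.1.Adj p.2 x ↔ p.1.Adj w x))) ⊆
      (univ : Finset (Fin n × Fin n)).biUnion (fun q =>
        (tw F (Fin n) q.1 q.2).image (fun G => (G, q.1))) := by
    rintro ⟨G, v⟩ hp
    rw [mem_filter] at hp
    obtain ⟨-, hc, w, hw, hx⟩ := hp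
    rw [mem_biUnion]
    exact ⟨(v, w), mem_univ _, mem_image.2 ⟨G, mem_tw.2 ⟨hc, hw, hx⟩, rfl⟩⟩
  refine (card_le_card hsub).trans (card_biUnion_le.trans ?_)
  refine (sum_le_card_nsmul _ _ (cnt (FreeOf F) (n - 1)) ?_).trans ?_
  · intro q _
    refine card_image_le.trans ((card_tw hMT hMS hCA hF (Fin n) q.1 q.2).trans ?_)
    rw [Fintype.card_fin]
  · rw [card_univ, Fintype.card_prod, Fintype.card_fin, smul_eq_mul, sq]

end Pool.Agent.SPC
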