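import Pool.Agent.Pend.All
import Pool.Agent.SPC.Est
import Pool.Agent.SPC.MainV
import Pool.Agent.SPC.P_ALT
import Pool.Agent.SPC.P_CKS
import Pool.Agent.SPC.P_COR
import Pool.Agent.SPC.P_CTR
import Pool.Agent.SPC.P_FORM
import Pool.Agent.SPC.P_GOODK
import Pool.Agent.SPC.P_GOODT
import Pool.Agent.SPC.P_LOC
import Pool.Agent.SPC.P_LVS
import Pool.Agent.SPC.P_MAINU
import Pool.Agent.SPC.P_RATF
import Pool.Agent.SPC.P_SEQK
import Pool.Agent.SPC.P_SEQT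
import Pool.Agent.SPC.P_SUM
import Pool.Agent.SPC.P_TWN

/-!
SPC: all unconditional statements of the first part.
-/

set_option autoImplicit false

namespace Pool.Agent.SPC

open Finset Classical Filter Topology
open Pool.Agent.Pend

theorem a_LVS : T_LVS := p_LVS a_GLS a_CARDS
theorem a_ALT : T_ALT := p_ALT a_LVS
theorem a_FORM : T_FORM := p_FORM p_CKS p_COR a_ALT p_SEQK p_SEQT a_L1
theorem a_ESTK : T_ESTK := p_ESTK p_START a_DET a_DSC1 p_DSC2 a_DSC3 a_FEWL a_EXI a_COLL p_FLO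
  p_FUP
theorem a_bb (C : (V : Type) → SimpleGraph V → Prop) (n : ℕ) (hn : 14 ≤ n) : bb C n ≤ cnt C n :=
  EST_.bb_le_cnt p_START a_DET a_DSC1 p_DSC2 a_DSC3 C n hn
theorem a_MAINV : T_MAINV := p_MAINV p_CKS p_COR a_FORM p_GOODK p_GOODT a_ESTK p_SUM a_FEWL a_bb
theorem a_STRUCT : T_STRUCT := p_STRUCT a_MADER a_CLQN p_TWINS p_MTRANS p_MSUB
theorem a_LOC : T_LOC := p_LOC a_STRUCT a_MADER
theorem a_RATF : T_RATF := p_RATF a_LOC (p_CTR p_MTRANS) (p_TWN p_MTRANS p_MSUB a_CARDS)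
  p_MTRANS p_MSUB (p_LFS p_MTRANS p_MSUB)

/-- excluded minors of minimum degree at least 2, all large `n` -/
theorem a_MAINM (F : (W : Type) → SimpleGraph W → Prop)
    (hF : ∀ (W : Type) (H : SimpleGraph W), F W H → Finite W ∧
      ∀ v, ∃ a b, a ≠ b ∧ H.Adj v a ∧ H.Adj v b) (hne : ∃ W H, F W H) (ε : ℝ) (hε : 0 < ε) :
    ∃ n₀ : ℕ, ∀ n : ℕ, n₀ ≤ n → (bb (FreeOf F) n : ℝ) ≤ ε * (cnt (FreeOf F) n : ℝ) := by
  obtain ⟨A, n₁, hA⟩ := a_RATF F hF hne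
  obtain ⟨n₂, h⟩ := a_MAINV A ε hε
  have hL : LeafStable (FreeOf F) := p_LFS p_MTRANS p_MSUB F (fun W H h => (hF W H h).2)
  exact ⟨max n₁ n₂, fun n hn => h n (le_of_max_le_right hn) (FreeOf F) hL
    (hA n (le_of_max_le_left hn))⟩

end Pool.Agent.SPC
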