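import Pool.Agent.SPC.Targets3

/-!
SPC, third part: assembly of the ranges.
-/

set_option autoImplicit false

namespace Pool.Agent.SPC

open Finset Classical Filter Topology
open Pool.Agent.Pend

theorem p_DIS : T_DIS := by
  intro n G hn hG
  exact (MAIN_.rec_cases p_START a_DET a_DSC1 p_DSC2 a_DSC3 G 0
    (by rw [Fintype.card_fin]; omega) hG).1

namespace ALLD_

theorem gm_le (n m : ℕ) (P : SimpleGraph (Fin n) → Prop) (T : Finset (SimpleGraph (Fin n)))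
    (h : ∀ G, G.edgeSet.ncard = m → P G → G ∈ T) : gm n m P ≤ T.card := by
  unfold gm
  apply card_le_card
  intro G hG
  rw [mem_filter] at hG
  exact h G hG.2.1 hG.2.2

theorem le_gm (n m : ℕ) (P : SimpleGraph (Fin n) → Prop) (T : Finset (SimpleGraph (Fin n)))
    (h : ∀ G ∈ T, G.edgeSet.ncard = m ∧ P G) : T.card ≤ gm n m P := by
  unfold gm
  apply card_le_card
  intro G hG
  rw [mem_filter]
  exact ⟨mem_univ _, h G hG⟩

theorem be_eq (n m : ℕ) : bb (EX m) n = gm n m (fun G => ¬ Rec G) := by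
  apply le_antisymm
  · apply le_gm
    intro G hG
    exact (mem_filter.1 hG).2
  · apply gm_le
    intro G h1 h2
    exact mem_filter.2 ⟨mem_univ _, h1, h2⟩

theorem cnt_eq (n m : ℕ) : cnt (EX m) n = ce n m := by
  have hc : Nat.card (Fin n) = n := by rw [Nat.card_eq_fintype_card, Fintype.card_fin]
  have hiff : ∀ G : SimpleGraph (Fin n), EX m (Fin n) G ↔ XC n m (Fin n) G := by
    intro G
    unfold EX XC
    rw [hc]
    omega
  rw [← p_XCN n m n m (by omega)]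
  exact cnt_congr _ _ n hiff

theorem edges_le (n : ℕ) (G : SimpleGraph (Fin n)) : G.edgeSet.ncard ≤ n.choose 2 := by
  rw [Set.ncard_eq_toFinset_card']
  have h := G.card_edgeFinset_le_card_choose_two
  rw [Fintype.card_fin] at h
  exact h

theorem gm_le_choose (hGMS : T_GMS) (n m : ℕ) (P : SimpleGraph (Fin n) → Prop) :
    gm n m P ≤ (n.choose 2).choose m := by
  have h := hGMS n m P
  calc gm n m P ≤ ((prs n).powersetCard m).card := h.1.le.trans (card_filter_le _ _)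
    _ = (n.choose 2).choose m := by rw [card_powersetCard, h.2]

theorem ce_le (hGMS : T_GMS) (n m : ℕ) : ce n m ≤ (n.choose 2).choose m := by
  refine le_trans ?_ (gm_le_choose hGMS n m (fun _ => True))
  unfold ce
  apply le_gm
  intro G hG
  exact ⟨(mem_filter.1 hG).2.2, trivial⟩

theorem gm_zero (n m : ℕ) (P : SimpleGraph (Fin n) → Prop) (h : n.choose 2 < m) :
    gm n m P = 0 := by
  unfold gm
  rw [card_eq_zero, filter_eq_empty_iff]
  rintro G - ⟨hG, -⟩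
  have := edges_le n G
  omega

/-- logarithms are small -/
theorem log_small : ∃ n₀ : ℕ, ∀ n : ℕ, n₀ ≤ n → 4 * (Nat.log 2 n) ^ 4 + 1 ≤ n := by
  have h : ∀ t : ℕ, 20 ≤ t → 4 * t ^ 4 + 1 ≤ 2 ^ t := by
    intro t ht
    induction t, ht using Nat.le_induction with
    | base => norm_num
    | succ t ht ih =>
      rw [pow_succ 2 t]
      have h1 : (t + 1) ^ 4 * 20 ^ 4 ≤ t ^ 4 * 21 ^ 4 := by
        rw [← mul_pow, ← mul_pow]
        exact Nat.pow_le_pow_left (by omega) 4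
      have h2 : 0 < t ^ 4 := by positivity
      omega
  refine ⟨2 ^ 20, fun n hn => ?_⟩
  have hn0 : n ≠ 0 := by
    have : 0 < 2 ^ 20 := by norm_num
    omega
  have h1 : 20 ≤ Nat.log 2 n := by
    rw [Nat.le_log_iff_pow_le (by norm_num) hn0]
    exact hn
  exact (h _ h1).trans (Nat.pow_log_le_self 2 hn0)

theorem half (hIIA : T_IIA) (hIIB : T_IIB) (hDISC : T_DISC) (ε : ℝ) (hε : 0 < ε) :
    ∃ n₀ : ℕ, ∀ n m : ℕ, n₀ ≤ n → 2 * m ≤ n.choose 2 →
      (gm n m (fun G => ¬ Rec G) : ℝ) ≤ ε * (ce n m : ℝ) := by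
  obtain ⟨A, hA⟩ := hIIA
  obtain ⟨n₁, h₁⟩ := hA ε hε
  obtain ⟨n₂, h₂⟩ := hIIB (ε / 2) (by positivity)
  obtain ⟨n₃, h₃⟩ := hDISC
  obtain ⟨n₄, h₄⟩ := a_XFIN A ε hε
  refine ⟨max (max n₁ n₂) (max n₃ (max n₄ 2)), fun n m hn hm => ?_⟩
  simp only [max_le_iff] at hn
  obtain ⟨⟨hn1, hn2⟩, hn3, hn4, hn5⟩ := hn
  by_cases c1 : m ≤ A * n
  · have h := h₄ n m hn4 c1
    rw [cnt_eq, be_eq] at h
    exact h
  · by_cases c2 : m / n ≤ (Nat.log 2 n) ^ 5
    · exact h₁ n m hn1 (by omega) c2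
    · have hlog : 1 ≤ Nat.log 2 n := by
        rw [Nat.le_log_iff_pow_le (by norm_num) (by omega)]
        omega
      have c3 : n * (Nat.log 2 n) ^ 4 ≤ m := by
        have h5 : (Nat.log 2 n) ^ 4 ≤ (Nat.log 2 n) ^ 5 := Nat.pow_le_pow_right hlog (by norm_num)
        calc n * (Nat.log 2 n) ^ 4 ≤ n * (m / n) := Nat.mul_le_mul_left _ (by omega)
          _ ≤ m := Nat.mul_div_le m n
      have h := h₂ n m hn2 c3 hm
      have h' : (((n.choose 2).choose m : ℕ) : ℝ) ≤ ((2 * ce n m : ℕ) : ℝ) :=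
        Nat.cast_le.2 (h₃ n m hn3 c3 (by omega))
      push_cast at h'
      calc (gm n m (fun G => ¬ Rec G) : ℝ) ≤ ε / 2 * ((n.choose 2).choose m : ℝ) := h
        _ ≤ ε / 2 * (2 * (ce n m : ℝ)) := by gcongr
        _ = ε * (ce n m : ℝ) := by ring

end ALLD_

/-- Almost all connected graphs with `n` vertices and `m` edges, uniformly in all `m`. -/
theorem p_ALLD (hGMS : T_GMS) (hIIA : T_IIA) (hIIB : T_IIB) (hDISC : T_DISC) (hCMP : T_CMP)
    (ε : ℝ) (hε : 0 < ε) : ∃ n₀ : ℕ, ∀ n m : ℕ, n₀ ≤ n →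
      (bb (EX m) n : ℝ) ≤ ε * (cnt (EX m) n : ℝ) := by
  obtain ⟨n₁, h₁⟩ := ALLD_.half hIIA hIIB hDISC ε hε
  obtain ⟨n₂, h₂⟩ := ALLD_.half hIIA hIIB hDISC (ε / 2) (by positivity)
  obtain ⟨n₃, h₃⟩ := hDISC
  obtain ⟨n₄, h₄⟩ := ALLD_.log_small
  refine ⟨max (max n₁ n₂) (max n₃ n₄), fun n m hn => ?_⟩
  simp only [max_le_iff] at hn
  obtain ⟨⟨hn1, hn2⟩, hn3, hn4⟩ := hn
  rw [ALLD_.be_eq, ALLD_.cnt_eq]
  by_cases c1 : 2 * m ≤ n.choose 2
  · exact h₁ n m hn1 c1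
  by_cases c2 : m ≤ n.choose 2
  · have hm' : n.choose 2 - (n.choose 2 - m) = m := by omega
    have e1 : (gm n m (fun G => ¬ Rec G) : ℝ) ≤
        (gm n (n.choose 2 - m) (fun G => ¬ Rec G) : ℝ) := Nat.cast_le.2 (hCMP n m c2)
    have e2 := h₂ n (n.choose 2 - m) hn2 (by omega)
    have e3 : (ce n (n.choose 2 - m) : ℝ) ≤ ((n.choose 2).choose m : ℝ) := by
      have := ALLD_.ce_le hGMS n (n.choose 2 - m)
      rw [Nat.choose_symm c2] at this
      exact_mod_cast this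
    have e4 : n * (Nat.log 2 n) ^ 4 ≤ m := by
      have hN : 2 * n.choose 2 = n * (n - 1) := by
        rw [Nat.choose_two_right, Nat.mul_div_cancel']
        exact (Nat.even_mul_pred_self n).two_dvd
      have h4 := h₄ n hn4
      have h5 : n * (4 * (Nat.log 2 n) ^ 4) ≤ n * (n - 1) := Nat.mul_le_mul_left _ (by omega)
      have h6 : n * (4 * (Nat.log 2 n) ^ 4) = 4 * (n * (Nat.log 2 n) ^ 4) := by ring
      omega
    have e5 : (((n.choose 2).choose m : ℕ) : ℝ) ≤ ((2 * ce n m : ℕ) : ℝ) :=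
      Nat.cast_le.2 (h₃ n m hn3 e4 c2)
    push_cast at e5
    calc (gm n m (fun G => ¬ Rec G) : ℝ) ≤ _ := e1
      _ ≤ ε / 2 * (ce n (n.choose 2 - m) : ℝ) := e2
      _ ≤ ε / 2 * (2 * (ce n m : ℝ)) := by gcongr; exact e3.trans e5
      _ = ε * (ce n m : ℝ) := by ring
  · rw [ALLD_.gm_zero n m _ (by omega)]
    simp only [Nat.cast_zero]
    positivity

end Pool.Agent.SPC
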