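import Pool.Agent.SPC.Targets3

/-!
Project SPC, block FOR: spanning forests.
-/

set_option autoImplicit false

namespace Pool.Agent.SPC

open Finset Classical Filter Topology
open Pool.Agent.Pend

namespace FOR_

theorem reach {V : Type} {G H : SimpleGraph V} (h : ∀ a b, G.Adj a b → H.Reachable a b)
    (a b : V) (hab : G.Reachable a b) : H.Reachable a b := by
  obtain ⟨p⟩ := hab
  induction p with
  | nil => exact SimpleGraph.Reachable.refl _
  | cons hadj _ ih => exact (h _ _ hadj).trans ih

theorem cp_bot (n : ℕ) : cp (⊥ : SimpleGraph (Fin n)) = n := by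
  have h : Function.Bijective (fun v : Fin n => (⊥ : SimpleGraph (Fin n)).connectedComponentMk v) := by
    constructor
    · intro a b hab
      have h1 : (⊥ : SimpleGraph (Fin n)).Reachable a b := SimpleGraph.ConnectedComponent.exact hab
      exact SimpleGraph.reachable_bot.1 h1
    · intro c
      exact c.exists_rep
  unfold cp
  rw [← Nat.card_congr (Equiv.ofBijective _ h), Nat.card_fin]

theorem step (hCC : T_CC) (n : ℕ) : ∀ (k : ℕ) (G : SimpleGraph (Fin n)), G.edgeSet.ncard = k →
    ∃ F : SimpleGraph (Fin n), F ≤ G ∧
      (∀ u v, G.Reachable u v → F.Reachable u v) ∧ F.edgeSet.ncard + cp G = n := by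
  intro k
  induction k with
  | zero =>
    intro G hG
    have h1 : G.edgeSet = ∅ := by
      rw [Set.ncard_eq_zero (Set.toFinite _)] at hG
      exact hG
    have h2 : G = ⊥ := SimpleGraph.edgeSet_eq_empty.1 h1
    subst h2
    refine ⟨⊥, le_rfl, fun u v h => h, ?_⟩
    rw [hG, cp_bot, zero_add]
  | succ k ih =>
    intro G hG
    have hne : G.edgeSet.Nonempty := by
      rw [← Set.ncard_pos (Set.toFinite _), hG]
      omega
    obtain ⟨e, he⟩ := hne
    induction e using Sym2.ind with
    | _ u v =>
      have huv : G.Adj u v := he
      obtain ⟨G₀, hG₀⟩ : ∃ G₀, G₀ = G.deleteEdges {s(u, v)} := ⟨_, rfl⟩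
      have hle : G₀ ≤ G := by
        rw [hG₀]
        exact SimpleGraph.deleteEdges_le _
      have hes : G₀.edgeSet = G.edgeSet \ {s(u, v)} := by
        rw [hG₀, SimpleGraph.edgeSet_deleteEdges]
      have hcard : G₀.edgeSet.ncard = k := by
        rw [hes, Set.ncard_diff_singleton_of_mem he, hG]
        omega
      have hadj : ∀ a b, G.Adj a b → G₀.Adj a b ∨ s(a, b) = s(u, v) := by
        intro a b hab
        by_cases h : s(a, b) = s(u, v)
        · exact Or.inr h
        · left
          rw [← SimpleGraph.mem_edgeSet, hes]
          exact ⟨hab, h⟩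
      have hnot : ¬ G₀.Adj u v := by
        intro h
        rw [← SimpleGraph.mem_edgeSet, hes] at h
        exact h.2 rfl
      obtain ⟨F₀, hF1, hF2, hF3⟩ := ih G₀ hcard
      by_cases hr : G₀.Reachable u v
      · have hGr : ∀ a b, G.Reachable a b → G₀.Reachable a b := by
          refine reach ?_
          intro a b hab
          rcases hadj a b hab with h | h
          · exact h.reachable
          · rcases Sym2.eq_iff.1 h with ⟨h1, h2⟩ | ⟨h1, h2⟩
            · rw [h1, h2]
              exact hr
            · rw [h1, h2]
              exact hr.symm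
        refine ⟨F₀, hF1.trans hle, fun a b hab => hF2 a b (hGr a b hab), ?_⟩
        have := (hCC n G).2 G₀ hle hGr
        rw [← this]
        exact hF3
      · have hGe : G₀ ⊔ SimpleGraph.fromEdgeSet {s(u, v)} = G := by
          apply SimpleGraph.edgeSet_injective
          rw [SimpleGraph.edgeSet_sup, SimpleGraph.edgeSet_fromEdgeSet, hes]
          ext e
          simp only [Set.mem_union, Set.mem_diff, Set.mem_singleton_iff, Set.mem_setOf_eq]
          constructor
          · rintro (h | h)
            · exact h.1
            · rw [h.1]
              exact he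
          · intro h
            by_cases h2 : e = s(u, v)
            · right
              refine ⟨h2, ?_⟩
              rw [h2]
              intro h3
              exact huv.ne (Sym2.mk_isDiag_iff.1 h3)
            · exact Or.inl ⟨h, h2⟩
        have hcp := (hCC n G₀).1 u v hr
        rw [hGe] at hcp
        have hFG : F₀ ⊔ SimpleGraph.fromEdgeSet {s(u, v)} ≤ G := by
          rw [← hGe]
          exact sup_le_sup_right hF1 _
        have hFe : (F₀ ⊔ SimpleGraph.fromEdgeSet {s(u, v)}).edgeSet =
            insert s(u, v) F₀.edgeSet := by
          rw [SimpleGraph.edgeSet_sup, SimpleGraph.edgeSet_fromEdgeSet]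
          ext e
          simp only [Set.mem_union, Set.mem_diff, Set.mem_singleton_iff, Set.mem_setOf_eq,
            Set.mem_insert_iff]
          constructor
          · rintro (h | h)
            · exact Or.inr h
            · exact Or.inl h.1
          · rintro (h | h)
            · right
              refine ⟨h, ?_⟩
              rw [h]
              intro h3
              exact huv.ne (Sym2.mk_isDiag_iff.1 h3)
            · exact Or.inl h
        have hnF : s(u, v) ∉ F₀.edgeSet := fun h => hnot (hF1 h)
        refine ⟨F₀ ⊔ SimpleGraph.fromEdgeSet {s(u, v)}, hFG, ?_, ?_⟩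
        · refine reach ?_
          intro a b hab
          rcases hadj a b hab with h | h
          · exact (hF2 a b h.reachable).mono le_sup_left
          · have h5 : (F₀ ⊔ SimpleGraph.fromEdgeSet {s(u, v)}).Adj a b := by
              rw [← SimpleGraph.mem_edgeSet, hFe, h]
              exact Set.mem_insert _ _
            exact h5.reachable
        · rw [hFe, Set.ncard_insert_of_notMem hnF (Set.toFinite _)]
          omega

end FOR_

theorem p_FOR (hCC : T_CC) : T_FOR := fun n G => FOR_.step hCC n _ G rfl

end Pool.Agent.SPC
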