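import Pool.Agent.SPC.Targets

/-! # SPC: the recursion for trees -/

set_option autoImplicit false

namespace Pool.Agent.SPC

open Finset Classical Filter Topology
open Pool.Agent.Pend

namespace SEQT_

theorem diff (n : ℕ) (hn : 3 ≤ n) :
    ∑ s ∈ range (n + 1), (-1 : ℤ) ^ s * (n.choose s : ℤ) * ((n - s : ℕ) : ℤ) ^ (n - 2) = 0 := by
  have h1 := fwdDiff_iter_pow_eq_zero_of_lt (R := ℤ) (j := n - 2) (n := n) (by omega)
  have h2 := congrFun h1 0
  rw [fwdDiff_iter_eq_sum_shift] at h2
  rw [← Finset.sum_range_reflect] at h2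
  rw [Pi.zero_apply] at h2
  rw [← h2]
  refine Finset.sum_congr rfl fun s hs => ?_
  have hs' : s ≤ n := by
    rw [mem_range] at hs
    omega
  have e1 : n + 1 - 1 - s = n - s := by omega
  have e2 : n - (n - s) = s := by omega
  rw [e1, e2, Nat.choose_symm hs']
  simp only [smul_eq_mul, zero_add, nsmul_eq_mul, mul_one]

end SEQT_

theorem p_SEQT : T_SEQT := by
  intro N h0 h2 hrec
  have key : ∀ n : ℕ, 1 ≤ n → N n = (n : ℤ) ^ (n - 2) * N 1 := by
    intro n
    induction n using Nat.strong_induction_on with
    | _ n ih =>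
      intro hn
      rcases Nat.lt_or_ge n 3 with h3 | h3
      · have h4 : n = 1 ∨ n = 2 := by omega
        rcases h4 with rfl | rfl
        · simp
        · simp [h2]
      · have hr := hrec n h3
        have hd := SEQT_.diff n h3
        have hd' : ∑ s ∈ range (n + 1), (-1 : ℤ) ^ s * (n.choose s : ℤ) *
            (((n - s : ℕ) : ℤ) ^ (n - 2) * N 1) = 0 := by
          have : ∑ s ∈ range (n + 1), (-1 : ℤ) ^ s * (n.choose s : ℤ) *
            (((n - s : ℕ) : ℤ) ^ (n - 2) * N 1) = (∑ s ∈ range (n + 1), (-1 : ℤ) ^ s *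
              (n.choose s : ℤ) * ((n - s : ℕ) : ℤ) ^ (n - 2)) * N 1 := by
            rw [Finset.sum_mul]
            refine Finset.sum_congr rfl fun s _ => ?_
            ring
          rw [this, hd, zero_mul]
        rw [Finset.sum_range_succ'] at hr hd'
        have hterm : ∀ s ∈ range n, (-1 : ℤ) ^ (s + 1) * (n.choose (s + 1) : ℤ) *
            ((n - (s + 1) : ℕ) : ℤ) ^ (s + 1) * N (n - (s + 1)) =
            (-1 : ℤ) ^ (s + 1) * (n.choose (s + 1) : ℤ) *
            (((n - (s + 1) : ℕ) : ℤ) ^ (n - 2) * N 1) := by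
          intro s hs
          rw [mem_range] at hs
          rcases Nat.eq_zero_or_pos (n - (s + 1)) with hz | hz
          · rw [hz, h0]
            have h5 : n - 2 ≠ 0 := by omega
            simp [h5]
          · rw [ih (n - (s + 1)) (by omega) hz]
            rcases Nat.lt_or_ge (n - (s + 1)) 2 with h6 | h6
            · have h7 : n - (s + 1) = 1 := by omega
              rw [h7]
              simp
            · have h8 : s + 1 + (n - (s + 1) - 2) = n - 2 := by omega
              rw [mul_assoc, mul_assoc, mul_assoc, ← mul_assoc (((n - (s + 1) : ℕ) : ℤ) ^ (s + 1)),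
                ← pow_add, h8]
        rw [Finset.sum_congr rfl hterm] at hr
        simp only [pow_zero, Nat.choose_zero_right, Nat.cast_one, one_mul, Nat.sub_zero] at hr hd'
        linarith
  intro n hn
  rw [key n hn]
  rcases Nat.lt_or_ge n 2 with h3 | h3
  · have h4 : n = 1 := by omega
    subst h4
    simp
  · rw [← mul_assoc, ← pow_add]
    congr 2
    omega

end Pool.Agent.SPC
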