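import Pool.Agent.Pend.MAIN
import Pool.Agent.Pend.MAINF

/-!
Project SPC (helper39), MP_552896_co, improvement of SparseClasses: almost all graphs without minors
in a nonempty family of finite graphs of minimum degree at least 2 are reconstructible, for ALL
large n; and the same for leaf stable classes with bounded ratios c_(n+1) / (n c_n).

Idea: condition on the number k of vertices of the 2-core. The members with k core vertices form a
leaf stable class, and its counting sequence is known exactly (inclusion and exclusion over sets of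
leaves), hence it is smooth.

Notation of Pool.Agent.Pend.Defs: cc C V = connected members on V, cnt C n, aa C n = cnt C n / n!,
lv = number of leaves, Lf G v u: v is a leaf with the neighbour u, cS, Good, Minor, FreeOf, eo.
-/

set_option autoImplicit false

namespace Pool.Agent.SPC

open Finset Classical Filter Topology
open Pool.Agent.Pend

/-! ### definitions -/

/-- The core: the union of all vertex sets in which every vertex has two neighbours. -/
def Cor {V : Type} (G : SimpleGraph V) : Set V :=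
  {v | ∃ S : Set V, v ∈ S ∧ ∀ x ∈ S, ∃ a b, a ≠ b ∧ a ∈ S ∧ b ∈ S ∧ G.Adj x a ∧ G.Adj x b}

/-- The members of `C` whose core has `k` vertices. -/
def CK (C : (V : Type) → SimpleGraph V → Prop) (k : ℕ) (V : Type) (G : SimpleGraph V) : Prop :=
  C V G ∧ (Cor G).ncard = k

/-- The degree. -/
noncomputable def dg {V : Type} [Fintype V] (G : SimpleGraph V) (v : V) : ℕ :=
  (univ.filter (fun w => G.Adj v w)).card

/-- The number of members with `n` labelled vertices which are not reconstructible. -/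
noncomputable def bb (C : (V : Type) → SimpleGraph V → Prop) (n : ℕ) : ℕ :=
  (univ.filter (fun G : SimpleGraph (Fin n) => C (Fin n) G ∧ ¬ Rec G)).card

/-! ### the core -/

/-- CKS: prescribing the size of the core keeps leaf stability.

PROOF. (iso) An isomorphism e : G ≃g H maps Cor G onto Cor H (image of the set S), so the ncard is
the same (Set.ncard_image_of_injective). (leaf) Let v be a leaf of G with the neighbour u. No set S
as in Cor contains v (v has only one neighbour, so not two different ones a, b). Hence Cor G is the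
image under Subtype.val of the core of G.induce {w | w ≠ v}: a set S as in Cor for G does not
contain v and its preimage is such a set for the induced graph; conversely the image of such a set.
So ncard is the same, and C V G ↔ C (..) (..) by hC.leaf. -/
def T_CKS : Prop := ∀ (C : (V : Type) → SimpleGraph V → Prop), LeafStable C →
  ∀ k : ℕ, LeafStable (CK C k)

/-- COR: simple facts.

PROOF. (1) A leaf is not in the core (a vertex of the core has two different neighbours), so the set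
of leaves and Cor G are disjoint. (2) If x is in Cor G then x, a, b are three different elements of
Cor G (a, b in the same S; x ≠ a, b by irreflexivity). (3) G connected with at least 2 vertices:
every vertex v has a neighbour a (otherwise v would be isolated; e.g. take w ≠ v and the first edge
of a walk from v to w, or SimpleGraph.Preconnected / Connected.exists_adj-like lemmas). If lv G = 0
then v is not a leaf, so not (∀ w, G.Adj v w ↔ w = a), so there is b ≠ a with G.Adj v b. So S = univ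
shows Cor G = univ. -/
def T_COR : Prop := ∀ (V : Type) [Fintype V] (G : SimpleGraph V),
  lv G + (Cor G).ncard ≤ Fintype.card V ∧ ((Cor G).ncard ≠ 0 → 3 ≤ (Cor G).ncard) ∧
  (G.Connected → 2 ≤ Fintype.card V → lv G = 0 → (Cor G).ncard = Fintype.card V)

/-- LVS: the number of members in which all vertices of a given set are leaves.

PROOF. Let n ≥ 3. In a connected graph on at least 3 vertices two leaves are not adjacent
(otherwise they are a component). So the left side is the number of G in cc C (Fin n) such that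
every v in S is a leaf whose neighbour is outside S. For finsets S ⊆ U put
A(U, S) = number of K in cS C U with ∀ v ∈ S, ∃ u ∈ U \ S, Lf K v u. Then
A(U, insert v S) = #(U \ insert v S) * A(U \ {v}, S) for v ∉ S, insert v S ⊆ U: this is the landed
T_GLS (p_GLS in Pool.Agent.Pend.GLS, take it as the hypothesis hGLS) with W = {v}, T = ⊥, r = v and
Q x K := x ∉ insert v S ∧ ∀ w ∈ S, ∃ u ∈ U \ insert v S, Lf K w u: K.induce {v} with one vertex is
a tree; rs G {v} = ⊥ always; PndS G U {v} v x says that x ∈ U, x ≠ v and x is the only neighbour of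
v in U, and edges of members of cS C U are inside U. For w in S, w ≠ v: w is a leaf of G with the
neighbour u ∉ insert v S iff it is a leaf of rs G (U \ {v}) with the neighbour u ∉ insert v S,
because v is not adjacent to w (the neighbour x of v is not in S). In the sum over x in U \ {v} the
terms with x ∈ S are 0 and the others are all equal to A(U \ {v}, S). By induction
A(U, S) = #(U \ S) ^ #S * A(U \ S, ∅), and A(U \ S, ∅) = (cS C (U \ S)).card = cnt C (#U - #S),
cS C univ = cc C (Fin n) by the landed T_CARDS (Pool.Agent.Pend.CARDS). -/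
def T_LVS : Prop := ∀ (C : (V : Type) → SimpleGraph V → Prop), LeafStable C →
  ∀ n : ℕ, 3 ≤ n → ∀ S : Finset (Fin n),
  ((cc C (Fin n)).filter (fun G => ∀ v ∈ S, ∃ u, Lf G v u)).card =
    (n - S.card) ^ S.card * cnt C (n - S.card)

/-- ALT: inclusion and exclusion over sets of leaves. Hypothesis hLVS : T_LVS.

PROOF. For a graph G let L(G) be the set of its leaves, lv G = #L(G). The sum of (-1)^#S over all
S ⊆ L(G) is 1 if L(G) is empty and 0 otherwise (Finset.sum_powerset_neg_one_pow_card). Sum over G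
in cc C (Fin n) and exchange the sums: the right side is the sum over all S : Finset (Fin n) of
(-1)^#S * #{G ∈ cc C (Fin n) : S ⊆ L(G)}; use T_LVS and group by s = #S (Finset.sum_powerset /
sum_fiberwise with Finset.card_powersetCard, #{S : #S = s} = n.choose s). -/
def T_ALT : Prop := ∀ (C : (V : Type) → SimpleGraph V → Prop), LeafStable C →
  ∀ n : ℕ, 3 ≤ n →
  ∑ s ∈ range (n + 1), (-1 : ℤ) ^ s * (n.choose s : ℤ) * ((n - s : ℕ) : ℤ) ^ s *
    (cnt C (n - s) : ℤ) = (((cc C (Fin n)).filter (fun G => lv G = 0)).card : ℤ)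

/-! ### sequences -/

/-- SEQK: solution of the recursion.

PROOF. Strong induction on n. n = k: k * N k = 1 * k * 1 * N k. Let n > k. The terms with n - s < k
vanish. Write M m for the real (or rational) number C(m,k) k m^(m-k) N k / m (m ≥ k ≥ 1); by
induction N m = M m for k ≤ m < n. It suffices that sum_{s ≤ n-k} (-1)^s C(n,s) (n-s)^s M(n-s) = 0,
because the term s = 0 is N n resp. M n. Now C(n,s) C(n-s,k) = C(n,k) C(n-k,s)
(Nat.choose_mul or similar), and (n-s)^s (n-s)^(n-s-k) / (n-s) = (n-s)^(n-k-1) (n-s ≥ 1), so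
the sum is C(n,k) k N k * sum_{s ≤ n-k} (-1)^s C(n-k,s) (n-s)^(n-k-1) = 0: this is the (n-k)-th
finite difference of the polynomial x^(n-k-1) (fwdDiff_iter_pow_eq_zero_of_lt together with
fwdDiff_iter_eq_sum_shift; or Finset.sum_range_choose-type lemmas for polynomials, Int.alternating
sums; reflect s -> n-k-s). -/
def T_SEQK : Prop := ∀ (N : ℕ → ℤ) (k : ℕ), 1 ≤ k → (∀ n : ℕ, n < k → N n = 0) →
  (∀ n : ℕ, k < n → ∑ s ∈ range (n + 1), (-1 : ℤ) ^ s * (n.choose s : ℤ) *
    ((n - s : ℕ) : ℤ) ^ s * N (n - s) = 0) →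
  ∀ n : ℕ, k ≤ n → (n : ℤ) * N n = (n.choose k : ℤ) * k * (n : ℤ) ^ (n - k) * N k

/-- SEQT: solution of the recursion, trees.

PROOF. Strong induction; n = 1, 2 are clear (4 * N 2 = 4 * N 1). n ≥ 3: the term s = n is 0 (N 0 = 0).
For 1 ≤ m < n: N m = m^m N 1 / m^2 (rational numbers). It suffices that
sum_{s < n} (-1)^s C(n,s) (n-s)^s (n-s)^(n-s) / (n-s)^2 = 0, i.e. sum_{s ≤ n} (-1)^s C(n,s)
(n-s)^(n-2) = 0 (the term s = n is 0 because n - 2 ≥ 1): the n-th finite difference of x^(n-2)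
(fwdDiff_iter_pow_eq_zero_of_lt, fwdDiff_iter_eq_sum_shift). -/
def T_SEQT : Prop := ∀ (N : ℕ → ℤ), N 0 = 0 → N 2 = N 1 →
  (∀ n : ℕ, 3 ≤ n → ∑ s ∈ range (n + 1), (-1 : ℤ) ^ s * (n.choose s : ℤ) *
    ((n - s : ℕ) : ℤ) ^ s * N (n - s) = 0) →
  ∀ n : ℕ, 1 ≤ n → (n : ℤ) ^ 2 * N n = (n : ℤ) ^ n * N 1

/-- FORM: the counting sequences of the classes with given size of the core, as ratios.
Hypotheses hCKS : T_CKS, hCOR : T_COR, hALT : T_ALT, hSEQK : T_SEQK, hSEQT : T_SEQT, and the landed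
T_L1 (hL1 : T_L1).

PROOF. N n := cnt (CK C k) n. (i) N n = 0 for n < k and N n = 0 for all n if k = 1, 2 (COR: ncard is
0 or ≥ 3, and ncard ≤ card of Fin n). (ii) For n ≥ 3, n ≠ k: a member of cc (CK C k) (Fin n) without
leaves would have ncard = n ≠ k (COR), so ALT for the class CK C k (leaf stable by CKS) has the
right side 0. (iii) k ≥ 3: SEQK gives n N n = C(n,k) k n^(n-k) N k for n ≥ k. Then for i ≥ k, with
a i = N i / i!: both sides of the first claim are equal to N k * k * i^(i-k) (i+1)^(i-k) /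
(k! (i-k)!) (use i! = C(i,k) k! (i-k)!). For k = 1, 2 both sides are 0. (iv) k = 0: N 0 = 0
(connected graphs are nonempty), N 2 = N 1 (T_L1 with n = 1: the sum of lv G over cc on Fin 2 is
2 * 1 * N 1, and the only connected graph on Fin 2 is ⊤, with lv = 2); SEQT gives
i^2 N i = i^i N 1; the second claim: both sides are N 1 * i^(i-2) (i+1)^(i-2) / i!. -/
def T_FORM : Prop := ∀ (C : (V : Type) → SimpleGraph V → Prop), LeafStable C →
  (∀ k i : ℕ, 1 ≤ k → k ≤ i → aa (CK C k) i * ((i : ℝ) * ((i : ℝ) + 1) ^ (i - k)) =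
    aa (CK C k) (i + 1) * (((i : ℝ) + 1 - k) * (i : ℝ) ^ (i - k))) ∧
  (∀ i : ℕ, 2 ≤ i → aa (CK C 0) i * ((i : ℝ) + 1) ^ (i - 2) =
    aa (CK C 0) (i + 1) * (i : ℝ) ^ (i - 2))

/-- GOODK: uniform smoothness.

PROOF. L = log n, δ = δ₀ / 8 (we may take δ₀ ≤ 1: otherwise the hypothesis on k is false for n ≥ 1 or
replace δ₀ by min δ₀ 1). Let n be large: 30 L ≤ δ₀ n / 4. Let i in the window |i - n| ≤ 30 L and
m = i - k, so m ≥ (3/4) δ₀ n > 0 and n/2 ≤ i ≤ 2n. lam i := ((m + 1) / i) (i / (i+1))^m, so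
a i = lam i * a (i+1). (1) lam i ≥ (m/i) (i/(i+1))^i ≥ (3 δ₀/8) e^(-1) ≥ δ₀/8 as
(1 + 1/i)^i ≤ e. (2) For i, j in the window: lam i / lam j is the product of
(m_i + 1)/(m_j + 1) ≤ 1 + 60 L/(m_j + 1) ≤ exp (80 L/(δ₀ n)), of j/i ≤ exp (120 L / n), and of
exp (m_j log(1+1/j) - m_i log(1+1/i)) where m_j log (1+1/j) ≤ m_j/j, m_i log (1+1/i) ≥ m_i/(i+1),
and m_j/j - m_i/(i+1) = (j - k + k (j - i)) / (j (i+1)) ≤ 2/n + 240 L/n. So the exponents add up to
at most (80/δ₀ + 362) L/n ≤ 1/100 for n large, uniformly in k and a. Multiply by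
a (i+1) * a (j+1) ≥ 0. (3) i = n: lam n ≤ ((m+1)/n) exp(-m/(n+1)); with y = m/(n+1),
y e^(-y) ≤ e^(-1) (y ≤ e^(y-1)), so lam n ≤ e^(-1) (n+1)/n + 1/n ≤ 71/100 for n ≥ 5. (Only the
values a i with i ≥ k in the windows are used; n ≥ k + 60 L.) -/
def T_GOODK : Prop := ∀ δ₀ : ℝ, 0 < δ₀ → ∃ δ : ℝ, 0 < δ ∧ ∃ n₁ : ℕ, ∀ n k : ℕ, n₁ ≤ n →
  (k : ℝ) ≤ (1 - δ₀) * n → ∀ a : ℕ → ℝ, (∀ i, 0 ≤ a i) →
  (∀ i : ℕ, k ≤ i → a i * ((i : ℝ) * ((i : ℝ) + 1) ^ (i - k)) =
    a (i + 1) * (((i : ℝ) + 1 - k) * (i : ℝ) ^ (i - k))) →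
  Good a δ n ∧ a n ≤ 71 / 100 * a (n + 1)

/-- GOODT: the same for trees, δ = 1/4.

PROOF. lam i = (i/(i+1))^(i-2), a i = lam i * a (i+1). lam i ≥ (i/(i+1))^i ≥ e^(-1) ≥ 1/4. For i, j
in the window: log (lam i / lam j) = (j-2) log(1+1/j) - (i-2) log(1+1/i) ≤ (j-2)/j - (i-2)/(i+1) ≤
1 - (i-2)/(i+1) = 3/(i+1) ≤ 6/n ≤ 1/100 for n ≥ 600 large (i ≥ n/2). lam n ≤ exp (-(n-2)/(n+1)) ≤
71/100 for n ≥ 10. -/
def T_GOODT : Prop := ∃ n₁ : ℕ, ∀ n : ℕ, n₁ ≤ n → ∀ a : ℕ → ℝ, (∀ i, 0 ≤ a i) →
  (∀ i : ℕ, 2 ≤ i → a i * ((i : ℝ) + 1) ^ (i - 2) = a (i + 1) * (i : ℝ) ^ (i - 2)) →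
  Good a (1 / 4) n ∧ a n ≤ 71 / 100 * a (n + 1)

/-! ### the main theorem for leaf stable classes -/

/-- ESTK: the landed main estimate, with a threshold which does not depend on the class.
(helper39 does this one: MAIN_.est, and the proof of ASY, which uses its hypothesis only at n.) -/
def T_ESTK : Prop := ∀ δ ε : ℝ, 0 < δ → 0 < ε → ∃ n₁ : ℕ, ∀ n : ℕ, n₁ ≤ n →
  ∀ C : (V : Type) → SimpleGraph V → Prop, LeafStable C → Good (aa C) δ n →
  aa C n ≤ 71 / 100 * aa C (n + 1) → (bb C n : ℝ) ≤ ε * (cnt C n : ℝ)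

/-- SUM: splitting a class by the size of the core, and bb ≤ cnt for n ≥ 14.
Hypothesis for the last part: hbb (proved by helper39 in Pool.Agent.SPC.Est, lemma bb_le_cnt).

PROOF. The map G ↦ (Cor G).ncard sends all graphs on Fin n to range (n+1)
(Set.ncard_le_card or ncard ≤ Fintype.card). Finset.card_eq_sum_card_fiberwise for the two filters;
the fibre over k is the filter for CK C k (unfold CK; and_assoc, and_comm). -/
def T_SUM : Prop := ∀ (C : (V : Type) → SimpleGraph V → Prop) (n : ℕ),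
  cnt C n = ∑ k ∈ range (n + 1), cnt (CK C k) n ∧ bb C n = ∑ k ∈ range (n + 1), bb (CK C k) n

/-- MAINU: leaf stable classes with bounded ratios. Hypotheses hCKS : T_CKS, hCOR : T_COR,
hFORM : T_FORM, hGOODK : T_GOODK, hGOODT : T_GOODT, hESTK : T_ESTK, hSUM : T_SUM,
hFEWL : T_FEWL (landed), and hbb : ∀ C n, 14 ≤ n → bb C n ≤ cnt C n.

PROOF. We may take A ≥ 1. Put δ₀ = min (1/2) (ε/(4 A)), δ₁ from GOODK for δ₀, thresholds from ESTK for
(δ₁, ε/2) and (1/4, ε/2). Let n be large. (1) k = 0: CK C 0 is leaf stable, FORM part 2 and GOODT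
and ESTK: bb (CK C 0) n ≤ (ε/2) cnt (CK C 0) n. (2) 1 ≤ k, k ≤ (1-δ₀) n: FORM part 1, GOODK, ESTK:
the same. (aa ≥ 0 is clear.) (3) k > (1-δ₀) n, k ≤ n: T_FEWL for the class CK C k and t = n - k: all
G in cc (CK C k) (Fin n) satisfy lv G ≤ n - k (COR), so
cnt (CK C k) n * ((n+1) n) ≤ (n-k+1) cnt (CK C k) (n+1) ≤ (δ₀ n + 1) cnt (CK C k) (n+1); bb ≤ cnt.
Sum over these k, using T_SUM at n+1: at most (δ₀ n + 1) cnt C (n+1) ≤ (δ₀ n + 1) A (n+1) cnt C n.
So the sum of cnt (CK C k) n over these k is ≤ (δ₀ + 1/n) A cnt C n ≤ (ε/2) cnt C n as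
1/n ≤ ε/(4A). Total: bb C n ≤ ε cnt C n. -/
def T_MAINU : Prop := ∀ (C : (V : Type) → SimpleGraph V → Prop), LeafStable C →
  ∀ (A : ℝ) (n₀ : ℕ), (∀ n : ℕ, n₀ ≤ n → (cnt C (n + 1) : ℝ) ≤ A * ((n : ℝ) + 1) * (cnt C n : ℝ)) →
  ∀ ε : ℝ, 0 < ε → ∃ n₁ : ℕ, ∀ n : ℕ, n₁ ≤ n → (bb C n : ℝ) ≤ ε * (cnt C n : ℝ)

/-! ### bounded ratios for classes with excluded minors -/

/-- LOC: local structure. Hypotheses hST : T_STRUCT, hMA : T_MADER (both landed).

PROOF. c₁ = 4 + 2 * 2^t + 2 * 2^(2^t), n = card V ≥ c := 4 c₁, s = (n - 1) / c₁, so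
2 c₁ s ≥ n (as n ≥ 2 + 2 c₁). T_STRUCT gives D, φ with D.card = s, φ injective on D, φ v ∉ D.
Twins: every v in D has the twin φ v ≠ v: second alternative, n ≤ 2 c₁ s. Adjacent:
Let E = 8 c₁ 2^t. eo G = sum of dg ≤ 2^t n (T_MADER; eo counts ordered pairs), so at most n/(8 c₁)
vertices have dg > E (E * #big ≤ 2^t n), that is 4 #big ≤ s. The v in D with dg v > E or
dg (φ v) > E are at most 2 #big ≤ s/2 (φ injective). So at least s/2 ≥ n/(4 c₁) vertices v in D
satisfy the first alternative with w = φ v. -/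
def T_LOC : Prop := ∀ t : ℕ, ∃ E c : ℕ, 1 ≤ c ∧ ∀ (V : Type) [Fintype V] (G : SimpleGraph V),
  ¬ Minor (⊤ : SimpleGraph (Fin t)) G → c ≤ Fintype.card V →
  Fintype.card V ≤ c * (univ.filter (fun v => ∃ w, G.Adj v w ∧ dg G v ≤ E ∧ dg G w ≤ E)).card ∨
  Fintype.card V ≤ c * (univ.filter (fun v => ∃ w, w ≠ v ∧ ∀ x, (G.Adj v x ↔ G.Adj w x))).card

/-- CTR: counting by contraction. Hypotheses hMT : T_MTRANS, hCA : T_CARDS (landed).

PROOF. Union over the pairs v ≠ w (n^2 of them): it suffices that for fixed v ≠ w at most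
16^E cnt (n-1) graphs G in cc (FreeOf F) (Fin n) satisfy G.Adj v w, dg v ≤ E, dg w ≤ E. Map G to
(K, P, Q): K.Adj a b iff a ≠ v, b ≠ v, a ≠ b and (G.Adj a b or (a = w and G.Adj v b) or (b = w and
G.Adj v a)); P = {x ≠ w : G.Adj v x}, Q = {x ≠ v : G.Adj w x}. The map is injective: for a, b not in
{v, w}: G.Adj a b iff K.Adj a b; G.Adj v b iff b = w or b ∈ P; G.Adj w b iff b = v or b ∈ Q.
P, Q ⊆ N := {x : K.Adj w x} = P ∪ Q, which has at most 2E elements: for given K there are at most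
(2^(2E))^2 = 16^E pairs (P, Q) (those with N of card ≤ 2E; both subsets of N).
K is in cS (FreeOf F) (univ.erase v): its edges avoid v; K.induce (univ.erase v) is connected (a walk
of G becomes a walk of K when v is replaced by w; e.g. the map V -> V - v, v ↦ w, is onto and maps
adjacent vertices to adjacent or equal vertices); it is a minor of G: take {v, w} for w and {x} for
x ≠ w (connected sets, G.Adj v w), so it is in FreeOf F by T_MTRANS. And
(cS C S).card = cnt C S.card by T_CARDS (C = FreeOf F, IsoInv), S.card = n - 1. -/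
def T_CTR : Prop := ∀ (F : (W : Type) → SimpleGraph W → Prop), IsoInv (FreeOf F) → ∀ n E : ℕ,
  ((univ : Finset (SimpleGraph (Fin n) × Fin n)).filter (fun p => p.1 ∈ cc (FreeOf F) (Fin n) ∧
    ∃ w, p.1.Adj p.2 w ∧ dg p.1 p.2 ≤ E ∧ dg p.1 w ≤ E)).card ≤
  n ^ 2 * 16 ^ E * cnt (FreeOf F) (n - 1)

/-- TWN: counting by deletion of a twin. Hypotheses hMT : T_MTRANS, hMS : T_MSUB, hCA : T_CARDS.

PROOF. As CTR: fix v ≠ w, G ↦ K = G without the edges at v (K.Adj a b iff a ≠ v, b ≠ v, G.Adj a b),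
in cS (FreeOf F) (univ.erase v): connected since in a walk v can be replaced by w (the map v ↦ w,
x ↦ x maps adjacent vertices to adjacent vertices, because N(v) = N(w)), a subgraph of G, so a minor
(T_MSUB), so in FreeOf F by T_MTRANS. Injective: G.Adj v x iff G.Adj w x iff (x ≠ v and K.Adj w x)
(G.Adj w v iff G.Adj v v, false). Union over the n^2 pairs (v, w). -/
def T_TWN : Prop := ∀ (F : (W : Type) → SimpleGraph W → Prop), IsoInv (FreeOf F) → ∀ n : ℕ,
  ((univ : Finset (SimpleGraph (Fin n) × Fin n)).filter (fun p => p.1 ∈ cc (FreeOf F) (Fin n) ∧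
    ∃ w, w ≠ p.2 ∧ ∀ x, (p.1.Adj p.2 x ↔ p.1.Adj w x))).card ≤ n ^ 2 * cnt (FreeOf F) (n - 1)

/-- RATF: bounded ratios. Hypotheses hLOC : T_LOC, hCTR : T_CTR, hTWN : T_TWN, and the landed
hMT : T_MTRANS, hMS : T_MSUB, hLFS : T_LFS.

PROOF. Take H in F, t = Nat.card W: no G in FreeOf F has a K_t minor (MAINF_.free_top). E, c from LOC.
Let N = n + 1 ≥ c. For every G in cc (FreeOf F) (Fin N): N ≤ c * (number of v of the first kind +
number of v of the second kind). Sum over G: cnt N * N ≤ c * (N^2 16^E + N^2) * cnt (N-1), so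
cnt (n+1) ≤ c (16^E + 1) (n+1) cnt n. IsoInv (FreeOf F) from (hLFS F ..).iso. -/
def T_RATF : Prop := ∀ (F : (W : Type) → SimpleGraph W → Prop),
  (∀ (W : Type) (H : SimpleGraph W), F W H → Finite W ∧
    ∀ v, ∃ a b, a ≠ b ∧ H.Adj v a ∧ H.Adj v b) → (∃ W H, F W H) →
  ∃ (A : ℝ) (n₀ : ℕ), ∀ n : ℕ, n₀ ≤ n →
    (cnt (FreeOf F) (n + 1) : ℝ) ≤ A * ((n : ℝ) + 1) * (cnt (FreeOf F) n : ℝ)

end Pool.Agent.SPC
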