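import Pool.Agent.SPC.Targets

/-!
Project SPC, second part: almost all connected graphs with n vertices and m edges are
reconstructible, uniformly in m ≤ A n. They are the connected members on n vertices of the leaf
stable class (number of edges) + n = (number of vertices) + m; what is needed is a bound for the
ratio of the number of connected graphs with n + 1 vertices and m + 1 edges and the number of
those with n vertices and m edges.
-/

set_option autoImplicit false

namespace Pool.Agent.SPC

open Finset Classical Filter Topology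
open Pool.Agent.Pend

/-- The class: number of edges plus `a` = number of vertices plus `b`. -/
def XC (a b : ℕ) (V : Type) (G : SimpleGraph V) : Prop := G.edgeSet.ncard + a = Nat.card V + b

/-- The number of connected graphs on `Fin n` with `m` edges. -/
noncomputable def ce (n m : ℕ) : ℕ :=
  ((univ : Finset (SimpleGraph (Fin n))).filter
    (fun G => G.Connected ∧ G.edgeSet.ncard = m)).card

/-- XLS: the classes XC are leaf stable.

PROOF. Isomorphisms preserve the number of edges and vertices (for infinite types too: ncard and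
Nat.card of equivalent types). Leaf v with neighbour u, V finite: the edges of G are s(v,u) and the
images of the edges of G.induce {w | w ≠ v} under the embedding, so
G.edgeSet.ncard = (G.induce ..).edgeSet.ncard + 1; and Nat.card V = Nat.card {w // w ≠ v} + 1. -/
def T_XLS : Prop := ∀ a b : ℕ, LeafStable (XC a b)

/-- XCN: counting. PROOF. On Fin n, XC a b says that the number of edges is m (Nat.card (Fin n) = n,
omega). -/
def T_XCN : Prop := ∀ a b n m : ℕ, m + a = n + b → cnt (XC a b) n = ce n m

/-- XMON: adding an edge.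

PROOF. Count the pairs (G, e), G connected with m edges, e a pair of different vertices which is not
an edge (e in Sym2 (Fin n), not diagonal): there are n.choose 2 - m such e for every G (the number
of all pairs is Sym2.card_subtype_not_diag or SimpleGraph.card_edgeFinset_top_eq_card_choose_two).
(G, e) ↦ (G + e, e) is injective into the pairs (G', e) with G' connected with m + 1 edges and e an
edge of G' (G + e is connected: Connected.mono; e.g. G ⊔ fromEdgeSet {e}); there are
(m + 1) * ce n (m + 1) of them. -/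
def T_XMON : Prop := ∀ n m : ℕ, (n.choose 2 - m) * ce n m ≤ (m + 1) * ce n (m + 1)

/-- XCTR: counting by contraction, with the number of edges. Hypothesis hTR : T_TR (landed).

PROOF. As T_CTR in Targets.lean (see P_CTR.lean when it is there). Fix v ≠ w and let G be connected on
Fin (n+1) with m+1 edges, G.Adj v w, dg v ≤ E, dg w ≤ E. Map G to (K, P, Q), K.Adj a b iff a ≠ v,
b ≠ v, a ≠ b and (G.Adj a b or (a = w and G.Adj v b) or (b = w and G.Adj v a)), P = {x ≠ w :
G.Adj v x}, Q = {x ≠ v : G.Adj w x}. Injective, and P, Q ⊆ {x : K.Adj w x} which has at most 2 E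
elements: at most 16^E pairs (P, Q) for given K. K has edges inside univ.erase v, and
K.induce (univ.erase v) is connected. Number of edges of K: let t = #(P ∩ Q) ≤ E. The edges of K not
at w are the edges of G at neither v nor w: m + 1 - dg v - dg w + 1 of them; the edges of K at w are
#(P ∪ Q) = (dg v - 1) + (dg w - 1) - t. Sum: m - t, in particular t ≤ m. So K is one of the graphs
counted by sum over t ∈ range (E+1) of ce n (m - t) (for each t transport to Fin n by T_TR with
Q V K := K.Connected ∧ K.edgeSet.ncard = m - t, (univ.erase v).card = n). Union over the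
(n+1)^2 pairs (v, w). -/
def T_XCTR : Prop := ∀ n m E : ℕ,
  ((univ : Finset (SimpleGraph (Fin (n + 1)) × Fin (n + 1))).filter (fun p =>
    (p.1.Connected ∧ p.1.edgeSet.ncard = m + 1) ∧
    ∃ w, p.1.Adj p.2 w ∧ dg p.1 p.2 ≤ E ∧ dg p.1 w ≤ E)).card ≤
  (n + 1) ^ 2 * 16 ^ E * ∑ t ∈ range (E + 1), ce n (m - t)

/-- XSPL: sparse graphs have many edges with small degrees or a small vertex cover.

PROOF. E = 800 A. Handshake: the sum of dg is twice the number of edges, ≤ 2 A card V, so the set
B = {v : E < dg v} satisfies 800 A #B ≤ 2 A card V, 400 #B ≤ card V. Let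
S = {v : ∃ w, G.Adj v w, dg v ≤ E, dg w ≤ E}. If card V ≤ 400 #S: first alternative. Otherwise
R = B ∪ S: 400 #R ≤ 2 card V. Every edge ab: if a, b are not in B then a is in S. -/
def T_XSPL : Prop := ∀ (A : ℕ), 1 ≤ A → ∀ (V : Type) [Fintype V] (G : SimpleGraph V),
  G.edgeSet.ncard ≤ A * Fintype.card V →
  Fintype.card V ≤ 400 * (univ.filter (fun v => ∃ w, G.Adj v w ∧ dg G v ≤ 800 * A ∧
    dg G w ≤ 800 * A)).card ∨
  ∃ R : Finset V, 200 * R.card ≤ Fintype.card V ∧ ∀ a b, G.Adj a b → a ∈ R ∨ b ∈ R

/-- XVC: graphs with a small vertex cover.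

PROOF. Union over the at most 2^n sets R. For given R with #R ≤ r the edge set of G is a set of M
elements of the set of all s(a,b), a ∈ R, b ∈ Fin n, which has at most #R * n ≤ r n elements
(image of R ×ˢ univ): at most (r n).choose M graphs (Finset.card_powersetCard, Nat.choose_le_choose;
G ↦ edge set is injective). -/
def T_XVC : Prop := ∀ n M r : ℕ,
  ((univ : Finset (SimpleGraph (Fin n))).filter (fun G => G.edgeSet.ncard = M ∧
    ∃ R : Finset (Fin n), R.card ≤ r ∧ ∀ a b, G.Adj a b → a ∈ R ∨ b ∈ R)).card ≤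
  2 ^ n * (r * n).choose M

/-- XLOW: many trees. Hypotheses hXLS : T_XLS, hXCN : T_XCN, hL1 : T_L1 (landed).

PROOF. Induction: ce 1 0 = 1. The class XC 1 0 (edges + 1 = vertices) is leaf stable,
cnt (XC 1 0) (n+1) = ce (n+1) n. T_L1 at n + 1 ≥ 1: sum of lv G over cc (XC 1 0) (Fin (n+2)) is
(n+2) (n+1) ce (n+1) n; lv G ≤ n + 2, so (n+1) ce (n+1) n ≤ ce (n+2) (n+1). -/
def T_XLOW : Prop := ∀ n : ℕ, n.factorial ≤ ce (n + 1) n

/-- XNUM: graphs with a small vertex cover are few. Hypotheses hXMON : T_XMON, hXLOW : T_XLOW.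

PROOF. N = n.choose 2. Iterating XMON from n - 1 to M: with q = M - (n-1),
(n-1)! * (N - M)^q * ce n (n-1) ≤ M! * ce n M (induction on q; N - m ≥ N - M for m ≤ M). With XLOW:
((n-1)!)^2 (N - M)^q ≤ M! ce n M. On the other hand M! * (r n).choose M ≤ (r n)^M
(Nat.choose_le_pow_div or descFactorial) and r n ≤ n^2/200 for r = n / 200. So it suffices that
2^(n+1) (n^2/200)^M ≤ ((n-1)!)^2 (N - M)^q (real numbers). For n ≥ 4 A + 2: N - M ≥ n^2/4. And
(n-1)! ≥ ((n-1)/3)^(n-1) ≥ n^(n-1) / (3 * 3^(n-1)) ((1 + 1/(n-1))^(n-1) ≤ 3; for the factorial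
e.g. Real.exp / Nat.factorial_lt-type lemma: x^k/k! ≤ e^x (Real.pow_div_factorial_le_exp) with
x = k = n-1 and e ≤ 3). So the right side is ≥ n^(2(n-1)) n^(2q) / (9 * 9^(n-1) * 4^q) =
n^(2M) / (9 * 9^(n-1) * 4^q), and 2^(n+1) * 9 * 9^(n-1) * 4^q = 36 * 18^(n-1) * 4^q ≤
200^(n-1) * 200^q = 200^M for n ≥ 3. -/
def T_XNUM : Prop := ∀ A : ℕ, ∃ n₀ : ℕ, ∀ n M : ℕ, n₀ ≤ n → n ≤ M + 1 → M ≤ A * n →
  2 * (2 ^ n * (n / 200 * n).choose M) ≤ ce n M

/-- XRAT: bounded ratios. Hypotheses hXMON : T_XMON, hXCTR : T_XCTR, hXSPL : T_XSPL, hXVC : T_XVC,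
hXNUM : T_XNUM.

PROOF. We may take A ≥ 1. N = n + 1, M = m + 1 ≤ A N, E = 800 A, n large. If M + 1 < N then
ce N M = 0 (a connected graph on N vertices has at least N - 1 edges,
SimpleGraph.Connected.card_vert_le_card_edgeSet_add_one). Otherwise, by XSPL, every G counted in
ce N M has at least N/400 vertices v as in XCTR, or a vertex cover with at most N/200 elements. The
latter are at most 2^N ((N/200) N).choose M ≤ ce N M / 2 (XVC with r = N / 200, XNUM). So the former
are at least ce N M / 2, and double counting of the pairs (G, v) gives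
N * ce N M ≤ 800 * N^2 * 16^E * sum_{t ≤ E} ce n (m - t) ≤ 800 * N^2 * 16^E * (E+1) * ce n m,
because ce n j ≤ ce n (j+1) for j < m by XMON (n.choose 2 - j ≥ j + 1, as 2 m ≤ 2 A (n+1) ≤
n.choose 2 for n large), so ce n (m - t) ≤ ce n m. B = 800 * 16^E * (E+1). -/
def T_XRAT : Prop := ∀ A : ℕ, ∃ (B : ℝ) (n₀ : ℕ), ∀ n m : ℕ, n₀ ≤ n → m + 1 ≤ A * (n + 1) →
  (ce (n + 1) (m + 1) : ℝ) ≤ B * ((n : ℝ) + 1) * (ce n m : ℝ)

end Pool.Agent.SPC
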