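import Pool.Agent.SPC.All2
import Pool.Agent.Lib.Recon.LocalFinal

/-!
Project SPC, third part (helper39): almost all connected graphs with n vertices and m edges are
reconstructible, uniformly in ALL m.

Ranges: m ≤ A n is landed (a_XFIN). Part A/B below: A n ≤ m ≤ n (log n)^5. Part C: m ≥ n (log n)^4,
2 m ≤ N. Part D: complements. N = n.choose 2, μ = 2 m / (n - 1) is the average degree.
`dg G v` = degree, `ce n m` = number of connected graphs on `Fin n` with m edges (landed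
definitions of Targets.lean, Targets2.lean).
-/

set_option autoImplicit false

namespace Pool.Agent.SPC

open Finset Classical Filter Topology
open Pool.Agent.Pend

/-! ### definitions -/

/-- The number of graphs on `Fin n` with `m` edges and the property `P`. -/
noncomputable def gm (n m : ℕ) (P : SimpleGraph (Fin n) → Prop) : ℕ :=
  ((univ : Finset (SimpleGraph (Fin n))).filter (fun G => G.edgeSet.ncard = m ∧ P G)).card

/-- The pairs of different vertices. -/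
noncomputable def prs (n : ℕ) : Finset (Sym2 (Fin n)) := univ.filter (fun e => ¬ e.IsDiag)

/-- The number of vertices which distinguish `u` and `v`. -/
noncomputable def ds {V : Type} [Fintype V] (G : SimpleGraph V) (u v : V) : ℕ :=
  (univ.filter (fun w => w ≠ u ∧ w ≠ v ∧ ¬ (G.Adj w u ↔ G.Adj w v))).card

/-- The sum of d log d over the vertices of degree d > Δ. -/
noncomputable def WW {V : Type} [Fintype V] (Δ : ℕ) (G : SimpleGraph V) : ℝ :=
  ∑ v ∈ univ.filter (fun v => Δ < dg G v), (dg G v : ℝ) * Real.logb 2 (dg G v)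

/-- The number of components. -/
noncomputable def cp {V : Type} (G : SimpleGraph V) : ℕ := Nat.card G.ConnectedComponent

/-- A convenient upper bound for the logarithm of the degrees. -/
def lq (q : ℕ) : ℕ := 2 * Nat.log 2 q + 20

/-- DIS (done by helper39): graphs which are not reconstructible are connected. -/
def T_DIS : Prop := ∀ (n : ℕ) (G : SimpleGraph (Fin n)), 14 ≤ n → ¬ Rec G → G.Connected

/-! ### Part A: the deterministic theorem -/

/-- EMB: a connected set has few embeddings, high degrees allowed.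
(Built, Embs: Pool/Agent/Lib/Recon/Connect.lean, Master2.lean; the theorem card_embs_le there is the
case of bounded degree and its proof is the model.)

PROOF. Call v high if Δ < dg v. For a finset T and γ : T → V put
w_T(γ) = prod over high v of (dg v)^(-#{t ∈ T : G.Adj v (γ t)}) (real numbers in (0,1]).
Claim: the sum of w_T(γ) over γ in Embs G T G is at most n Δ^(#T - 1). Induction on Built.
Single: w ≤ 1 and there are at most n maps. Step (x ∉ T, y ∈ T, G.Adj y x): let res γ be the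
restriction to T of γ in Embs G (insert x T) G, it is in Embs G T G, and w(γ) = w_T(res γ) * c(γ x),
c(z) = prod over high v adjacent to z of (dg v)^(-1) ≤ 1. The γ in a fibre res γ = δ are determined
by z = γ x, which is a neighbour of p = δ y. If p is high then c(z) ≤ (dg p)^(-1), so the sum of c(z)
over the neighbours z of p is ≤ 1 ≤ Δ; otherwise there are at most Δ terms ≤ 1. So the sum over the
fibre is ≤ Δ w_T(δ); Finset.sum_fiberwise_of_maps_to.
Finally for γ in Embs G A G (injective) and high v: #{t : G.Adj v (γ t)} ≤ dg v, so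
w_A(γ) ≥ prod (dg v)^(-dg v). -/
def T_EMB : Prop := ∀ (V : Type) [Fintype V] [DecidableEq V] (G : SimpleGraph V) (Δ : ℕ), 1 ≤ Δ →
  ∀ A : Finset V, Pool.Agent.Lib.Recon.Built G A →
  ((Pool.Agent.Lib.Recon.Embs G A G).card : ℝ) ≤
    (Fintype.card V : ℝ) * (Δ : ℝ) ^ (A.card - 1) *
      ∏ v ∈ univ.filter (fun v => Δ < dg G v), (dg G v : ℝ) ^ (dg G v)

/-- SEL: a small connected distinguishing set. (Model: exists_local in
Pool/Agent/Lib/Recon/Local.lean; exists_seq in Average.lean, exists_built in Connect.lean.)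

PROOF. n = card V. Y = union over the v with Δ < dg v of {v} and the neighbours of v, so
#Y ≤ sum over these v of (dg v + 1). I = the pairs (u, v), u ≠ v, both outside X ∪ Y, with a common
neighbour b. Here dg b ≤ Δ (otherwise u ∈ Y), so #I ≤ sum over b with dg b ≤ Δ of (dg b)^2 ≤ n Δ^2.
J = the complement of X. exists_seq (twice with d = K, the sets {w : w ≠ u, v, distinguishes u, v} for
(u, v) in I, and the neighbourhoods for v in J) gives a : Fin k → V such that the number of the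
missed members of I plus the number of missed members of J is at most
(n Δ^2 + n) (1 - K/n)^k ≤ 2 n Δ^2 (1 - K/n)^k (as 1 ≤ Δ, 0 ≤ 1 - K/n). Let S be the union of
the image of a (nonempty, k ≥ 1), X, Y, the first components of the missed pairs of I, and the missed
members of J. S is dominating: v outside S is in J and not missed, so some a j is a neighbour
of v. exists_built: A ⊇ S, Built, #A + 2 ≤ 3 #S. If u ≠ v outside A had the same neighbours in A:
a neighbour a j of u is a neighbour of v too, so (u, v) ∈ I, not missed (u ∉ S), so some a j in A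
distinguishes u and v, contradiction. -/
def T_SEL : Prop := ∀ (V : Type) [Fintype V] [DecidableEq V] (G : SimpleGraph V), G.Connected →
  ∀ (Δ K k : ℕ) (X : Finset V), 1 ≤ Δ → 1 ≤ k → K ≤ Fintype.card V →
  (∀ v, v ∉ X → K ≤ dg G v) →
  (∀ u v, u ∉ X → v ∉ X → u ≠ v → K ≤ ds G u v) →
  ∃ A : Finset V, Pool.Agent.Lib.Recon.Built G A ∧
    (∀ u v, u ∉ A → v ∉ A → (∀ a ∈ A, G.Adj a u ↔ G.Adj a v) → u = v) ∧
    (A.card : ℝ) + 2 ≤ 3 * ((k : ℝ) + X.card +
      ∑ v ∈ univ.filter (fun v => Δ < dg G v), ((dg G v : ℝ) + 1) +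
      2 * (Fintype.card V : ℝ) * (Δ : ℝ) ^ 2 * (1 - (K : ℝ) / Fintype.card V) ^ k)

/-- DETN: numbers (real numbers; L = log_2 Δ, a = #A, x = #X, W = WW, y = sum of dg + 1).

PROOF. (1 - K/n)^k ≤ exp(-K k/n) ≤ exp(-600 L^2/(64 L)) = exp(-9.375 L), and (2^L)^2 = exp(2 L log 2)
≤ exp(1.39 L), so 2 n (2^L)^2 (1-K/n)^k ≤ 2 n exp(-7.9 L) ≤ n/(64 L) because exp(7.9 L) ≥ 128 L for
L ≥ 2 (exp(7.9 L) ≥ exp(L) * exp(6.9 * 2) ≥ L * 900000). k ≤ n/(64 L) + 1, x ≤ n/(64 L),
y ≤ 2 W/L ≤ n/(32 L). So a ≤ 3 (5 n/(64 L) + 1) = 15 n/(64 L) + 3, a L ≤ 15 n/64 + 3 L,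
a ≤ 15 n/128 + 3. The left side is at most 2 + 2 log_2 n + 2 (15 n/64 + 3 L) + n/32 + 15 n/128 + 3
= 5 + 2 log_2 n + 6 L + (79/128) n ≤ 5 + 8 log_2 n + (79/128) n < n for n large. -/
def T_DETN : Prop := ∃ n₀ : ℕ, ∀ n : ℕ, n₀ ≤ n → ∀ L K x y W a : ℝ, 2 ≤ L → L ≤ Real.logb 2 n →
  600 * L ^ 2 ≤ K → K ≤ n → 64 * L * x ≤ n → W ≤ (n : ℝ) / 64 → y * L ≤ 2 * W → 0 ≤ a →
  a + 2 ≤ 3 * ((⌈(n : ℝ) / (64 * L)⌉₊ : ℝ) + x + y +
    2 * n * ((2 : ℝ) ^ L) ^ 2 * (1 - K / n) ^ ⌈(n : ℝ) / (64 * L)⌉₊) →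
  2 * (1 + Real.logb 2 n + (a - 1) * L + W) + a < n

/-- DET3: the deterministic theorem. Hypotheses hEMB : T_EMB, hSEL : T_SEL, hDETN : T_DETN.

PROOF. (Model: local_recon in Pool/Agent/Lib/Recon/LocalMain.lean, local_clique in LocalFinal.lean
for the passage from Rec to CardIso: cardIso_of_orderIso, orderIso_of_iso.) Rec G: let W, H, f and
the order isomorphisms be given; CardIso G H v (f v) for all v; it suffices to find a graph
isomorphism. n ≥ max n₀ 3. L = log_2 Δ ≥ 2. X is not everything (#X ≤ n/128 < n), so K ≤ dg v ≤ n for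
some v, K ≤ n. SEL with k = ⌈n/(64 L)⌉ ≥ 1 gives A. Apply `master` with s = 1: TwinHyp (u = v is the
only case), cls G A u has at most one element, and AutEmbs G A is not empty (the inclusion), so it
suffices that (2 #Embs)^2 < 2^(n - #A). By EMB, log_2 #Embs ≤ log_2 n + (#A - 1) L + WW Δ G; so
2 (1 + log_2 #Embs) + #A < n by DETN with x = #X, y = sum of (dg v + 1) over the v with dg v > Δ:
y L ≤ 2 WW as dg v + 1 ≤ 2 dg v and L ≤ log_2 (dg v) for them. (#A ≥ 1 as Built sets are nonempty;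
Embs is nonempty.) -/
def T_DET3 : Prop := ∃ n₀ : ℕ, ∀ n : ℕ, n₀ ≤ n → ∀ G : SimpleGraph (Fin n), G.Connected →
  ∀ (Δ K : ℕ) (X : Finset (Fin n)), 4 ≤ Δ → Δ ≤ n → 600 * (Real.logb 2 Δ) ^ 2 ≤ (K : ℝ) →
  64 * Real.logb 2 Δ * (X.card : ℝ) ≤ n →
  (∀ v, v ∉ X → K ≤ dg G v) →
  (∀ u v, u ∉ X → v ∉ X → u ≠ v → K ≤ ds G u v) →
  WW Δ G ≤ (n : ℝ) / 64 → Rec G

/-! ### Part B: counting graphs with m edges -/

/-- GMS: graphs as sets of pairs.

PROOF. G ↦ G.edgeSet.toFinset is a bijection of the graphs with m edges onto powersetCard m of prs n,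
with inverse S ↦ fromEdgeSet S (SimpleGraph.edgeSet_fromEdgeSet, SimpleGraph.fromEdgeSet_edgeSet,
Set.ncard_eq_toFinset_card'). The number of pairs: Sym2.card_subtype_not_diag or
SimpleGraph.card_edgeFinset_top_eq_card_choose_two. -/
def T_GMS : Prop := ∀ (n m : ℕ) (P : SimpleGraph (Fin n) → Prop),
  gm n m P = (((prs n).powersetCard m).filter
    (fun S : Finset (Sym2 (Fin n)) =>
      P (SimpleGraph.fromEdgeSet (S : Set (Sym2 (Fin n)))))).card ∧
  (prs n).card = n.choose 2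

/-- SPL: prescribing the number of edges in a set of pairs. Hypothesis hGMS : T_GMS.

PROOF. By GMS the left side counts the S ⊆ prs n with #S = m and #(S ∩ Q) = i: pairs (S₁, S₂) with
S₁ ⊆ Q, #S₁ = i, S₂ ⊆ prs n \ Q, #S₂ = m - i. -/
def T_SPL : Prop := ∀ (n m i : ℕ) (Q : Finset (Sym2 (Fin n))), Q ⊆ prs n → i ≤ m →
  gm n m (fun G => (G.edgeSet ∩ (Q : Set (Sym2 (Fin n)))).ncard = i) =
    Q.card.choose i * (n.choose 2 - Q.card).choose (m - i)

/-- CNT: prescribing edges. Hypothesis hGMS : T_GMS.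

PROOF. N = n.choose 2, e = #E. If e > m or m > N then no graph is counted: the left side is 0.
Otherwise the number is (N-e).choose (m-e) (sets S with E ⊆ S ⊆ prs n, #S = m).
Induction on e: (N-e).choose (m-e) * N^e ≤ N.choose m * m^e, the step from e to e+1 ≤ m being
(N-e-1).choose (m-e-1) * (N-e) = (N-e).choose (m-e) * (m-e) (Nat.succ_mul_choose_eq) and
(m-e) * N ≤ m * (N-e), so (N-e-1).choose (m-e-1) * N ≤ (N-e).choose (m-e) * m. -/
def T_CNT : Prop := ∀ (n m : ℕ) (E : Finset (Sym2 (Fin n))), E ⊆ prs n →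
  gm n m (fun G => (E : Set (Sym2 (Fin n))) ⊆ G.edgeSet) * (n.choose 2) ^ E.card ≤
    (n.choose 2).choose m * m ^ E.card

/-- HYP: the lower tail of the hypergeometric distribution.

PROOF. f i = P.choose i * (N-P).choose (m-i). Claim: 2 f i ≤ f (i+1) for i < J. Indeed
P.choose (i+1) * (i+1) = P.choose i * (P-i) and, with j = m-i-1 (m - i ≥ 1 as i < J ≤ m/8),
(N-P).choose (j+1) * (j+1) = (N-P).choose j * (N-P-j), so
f i * (P-i) * (m-i) = f (i+1) * (i+1) * (N-P-j) ≤ f (i+1) * (i+1) * N; and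
(P-i) (m-i) ≥ (7P/8) (7m/8) ≥ (49/64) 8 J N ≥ 2 (i+1) N. Cancel (i+1) N > 0 (N > 0 as 8 ≤ 8J ≤ P ≤ N).
So f i * 2^(J-i) ≤ f J (induction on J - i), and f J ≤ N.choose m by Vandermonde
(Nat.add_choose_eq with N = P + (N-P), one term of the sum; J ≤ m). -/
def T_HYP : Prop := ∀ N P m J i : ℕ, P ≤ N → m ≤ N → 8 * J ≤ P → 8 * J ≤ m →
  8 * J * N ≤ P * m → i ≤ J →
  P.choose i * (N - P).choose (m - i) * 2 ^ (J - i) ≤ N.choose m

/-- HIA: orientation of the edges at vertices of high degree.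

PROOF. H = {v : Δ < dg v}. x ≺ v means dg x < dg v or (dg x = dg v and x < v). F₀ v = {x adjacent to
v : x ∉ H or x ≺ v} for v ∈ H, F₀ v = ∅ for v ∉ H; F v = F₀ v if dg v ≤ 8 #(F₀ v), F v = ∅ otherwise.
(1) x ∈ F v implies G.Adj v x; v ∈ F x would give x ∈ H, so x ≺ v (as x ∈ F₀ v), and v ∈ H,
v ≺ x: impossible. (2) v with F v ≠ ∅: Δ < dg v ≤ 8 #(F v).
(3) Let l v = log_2 (dg v) ≥ 0 for v ∈ H, D1 = sum over v ∈ H of #(F₀ v) l v. Then WW ≤ 2 D1: WW is
the sum of l v over the pairs (v, x), v ∈ H, x adjacent to v. The pairs with x ∈ F₀ v contribute D1.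
If x ∉ F₀ v then x ∈ H, v ≺ x (x ≠ v), so v ∈ F₀ x and l v ≤ l x; so these pairs contribute at most
the sum of l x over the pairs (x, v), x ∈ H, v ∈ F₀ x, that is D1 again.
(4) The v ∈ H with dg v > 8 #(F₀ v) contribute at most WW/8 to D1. So the sum of #(F v) l v is
≥ WW/2 - WW/8 = (3/8) WW. If F v ≠ ∅ then #(F v) ≥ dg v/8, dg v > 64, so
log_2 #(F v) ≥ l v - 3 ≥ l v/2. So the sum of #(F v) log_2 #(F v) is ≥ (3/16) WW. -/
def T_HIA : Prop := ∀ (n : ℕ) (G : SimpleGraph (Fin n)) (Δ : ℕ), 64 ≤ Δ →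
  ∃ F : Fin n → Finset (Fin n), (∀ v, ∀ x ∈ F v, G.Adj v x ∧ v ∉ F x) ∧
    (∀ v, F v = ∅ ∨ Δ < 8 * (F v).card) ∧
    3 / 16 * WW Δ G ≤ ∑ v, ((F v).card : ℝ) * Real.logb 2 ((F v).card : ℝ)

/-- HIG: high degrees are rare. Hypotheses hCNT : T_CNT, hHIA : T_HIA.

PROOF. N = n.choose 2 = n(n-1)/2 > 0. For a graph with n/64 < WW take F from HIA. Let FF be the set of
the functions F : Fin n → Finset (Fin n) with: (c) x ∈ F v → v ∉ F x (so v ∉ F v), (a) F v = ∅ or
Δ < 8 #(F v), (d) 3n/1024 ≤ sum of #(F v) log_2 #(F v). For F in FF put h v = #(F v) and let E_F be the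
set of the s(v,x), x ∈ F v; it has exactly sum h v elements by (c). By CNT at most
(N.choose m) (m/N)^(sum h v) graphs with m edges contain E_F. Hence
#graphs ≤ sum over F in FF of (N.choose m) (m/N)^(sum h) ≤ (N.choose m) 2^(-3n/2048) * sum over all F
with (a) of prod_v (m/N)^(h v) (sqrt (h v))^(h v), because of (d) and
2^((1/2) h log_2 h) = (sqrt h)^h (h = 0: both are 1). The last sum is the n-th power of the sum over
the sets S with S = ∅ or Δ < 8 #S of (m/N)^(#S) (sqrt #S)^(#S) (Finset.prod_univ_sum with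
Fintype.piFinset), which is 1 + sum over h with Δ < 8 h ≤ 8 n of (n.choose h) ((m/N) sqrt h)^h.
Now n.choose h ≤ n^h/h! ≤ (e n/h)^h (Nat.choose_le_pow_div, h^h/h! ≤ e^h:
Real.pow_div_factorial_le_exp), n m/N = 2m/(n-1) = μ, so the term is ≤ (e μ/sqrt h)^h ≤ 4^(-h),
because 1000 μ^2 ≤ Δ < 8 h gives 16 e^2 μ^2 ≤ 120 μ^2 ≤ h. As h ≥ 9, the sum is
≤ (4/3) 4^(-9) = 1/196608. So #graphs ≤ (N.choose m) 2^(-3n/2048) exp(n/196608) and
(3/2048) log 2 - 1/196608 ≥ 1/2000 (log 2 ≥ 0.69). -/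
def T_HIG : Prop := ∀ n m Δ : ℕ, 2 ≤ n → 64 ≤ Δ → 1000 * (2 * m) ^ 2 ≤ Δ * (n - 1) ^ 2 →
  (gm n m (fun G => (n : ℝ) / 64 < WW Δ G) : ℝ) ≤
    ((n.choose 2).choose m : ℝ) * Real.exp (-((n : ℝ) / 2000))

/-- LOW: low degrees are rare. Hypotheses hSPL : T_SPL, hHYP : T_HYP.

PROOF. N = n.choose 2, 2 N = n (n-1). Union over the n.choose x sets X of x vertices: for given X
count the graphs with m edges such that all v in X have dg v < D. Q = the pairs in prs n which meet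
X, P = #Q, 2 P ≥ x (n-1) (every v in X is in n - 1 pairs, every pair is counted at most twice). The
number i of edges in Q is at most the sum of the degrees of X, ≤ x D ≤ J; also i ≤ m. By SPL the
number of graphs with given i is P.choose i * (N-P).choose (m-i), and by HYP (times 2^(J - xD)) it is
at most N.choose m / 2^(J-i), 2^(J-xD) ≤ 2^(J-i). There are x D + 1 values of i. Conditions of HYP:
8 J n ≤ x m ≤ n m gives 8 J ≤ m; 8 J n ≤ x m ≤ x N = x n (n-1)/2 gives 8 J ≤ x (n-1)/2 ≤ P;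
8 J N = 8 J n (n-1)/2 ≤ x m (n-1)/2 ≤ P m. -/
def T_LOW : Prop := ∀ n m x D J : ℕ, 1 ≤ n → x ≤ n → m ≤ n.choose 2 → x * D ≤ J →
  8 * J * n ≤ x * m →
  gm n m (fun G => x ≤ (univ.filter (fun v => dg G v < D)).card) * 2 ^ (J - x * D) ≤
    n.choose x * ((x * D + 1) * (n.choose 2).choose m)

/-- IND: independent sets for functions.

PROOF. Strong induction on #B. B = ∅: T = ∅. Otherwise the sum over v in B of
#{w ∈ B : f w = v} is ≤ #B, so some v in B has #{w ∈ B : f w = v} ≤ 1. Let B' be B without v, f v and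
the w in B with f w = v: #B' ≥ #B - 3, and B' is smaller than B. T = insert v T' for T' from B'.
f v ∉ T (f v ≠ v, f v ∉ B'); for t ∈ T': f t ≠ v because t is in B', and f t ∉ T'. v ∉ T'. -/
def T_IND : Prop := ∀ (V : Type) (B : Finset V) (f : V → V), (∀ v ∈ B, f v ≠ v) →
  ∃ T : Finset V, T ⊆ B ∧ B.card ≤ 3 * T.card ∧ ∀ v ∈ T, f v ∉ T

/-- NT: near twins are rare. Hypotheses hIND : T_IND, hGMS : T_GMS (for gm n j (fun _ => True) =
(n.choose 2).choose j).

PROOF. For a graph G with m edges as on the left let B be the set of the v with D ≤ dg v and a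
v' ≠ v, ds v v' < K, and f v such a v'. IND: T ⊆ B with #T = k exactly (shrink it) and f v ∉ T for
v ∈ T. Enumerate T = {τ 0, .., τ (k-1)} (τ : Fin k → Fin n injective), φ i = f (τ i), Z i = the set of
the vertices distinguishing τ i and φ i (fewer than K), b i = decide (G.Adj (τ i) (φ i)), and let G' be
G without the edges which meet T. (1) G is determined by (τ, φ, Z, b, G'): for v = τ i, u = φ i:
G.Adj v u iff b i. For w ≠ v, u: G.Adj w v iff (G.Adj w u xor w ∈ Z i). If w ∉ T then G.Adj w u iff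
G'.Adj w u as u ∉ T. If w = τ j ∈ T: G.Adj w u iff b j in case u = φ j, and otherwise (u ≠ τ j, φ j)
G.Adj u w iff (G.Adj u (φ j) xor u ∈ Z j) with u, φ j ∉ T, G.Adj u (φ j) iff G'.Adj u (φ j). Edges
outside T: G'. (2) The edges meeting T: the sum of dg v over T is ≥ k D and counts every such edge at
most twice, so there are at least k D/2 (rounded down) of them, and G' has at most m - k D/2 edges.
(3) Counting: n^k choices of τ, n^k of φ, (n^K)^k of Z (for K ≥ 1, n ≥ 2 there are at most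
sum_{j<K} n^j ≤ n^K sets with fewer than K elements; if n ≤ 1 or K = 0 then B is empty and k = 0, a
trivial case), 2^k of b; the number of graphs G' is at most the sum over j ≤ m - k D/2 of
N.choose j ≤ (m+1) N.choose (m - k D/2), because j ↦ N.choose j is monotone up to N/2 and 2m ≤ N
(Nat.choose_le_succ_of_lt_half_left). Finset.card_le_card_of_injOn. -/
def T_NT : Prop := ∀ n m K D k : ℕ, 2 * m ≤ n.choose 2 →
  gm n m (fun G => 3 * k ≤
    (univ.filter (fun v => D ≤ dg G v ∧ ∃ v', v' ≠ v ∧ ds G v v' < K)).card) ≤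
  (2 * n ^ (K + 2)) ^ k * ((m + 1) * (n.choose 2).choose (m - k * D / 2))

/-- RT: ratio of binomial coefficients.

PROOF. Induction on r: with j = m - r ≥ 1, N.choose (j-1) * (N-j+1) = N.choose j * j
(Nat.choose_succ_right_eq), N - m ≤ N-j+1, j ≤ m. -/
def T_RT : Prop := ∀ N m r : ℕ, r ≤ m → m ≤ N →
  N.choose (m - r) * (N - m) ^ r ≤ N.choose m * m ^ r

/-- CC: components and one edge.

PROOF. (1) The map of connected components K → K + uv is onto; two different components of K have the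
same image only if they are those of u and v (walks; or: define the map which sends the component of
v to the component of u and check that it is constant on adjacent vertices of K + uv). So the new
component set has one element less. (2) Reachable is the same relation, so the quotients are in
bijection (Nat.card_congr, Quot.congr_right or ConnectedComponent.map with Hom.ofLE bijective). -/
def T_CC : Prop := ∀ (n : ℕ) (K : SimpleGraph (Fin n)),
  (∀ u v : Fin n, ¬ K.Reachable u v → cp (K ⊔ SimpleGraph.fromEdgeSet {s(u, v)}) + 1 = cp K) ∧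
  (∀ F : SimpleGraph (Fin n), F ≤ K → (∀ u v, K.Reachable u v → F.Reachable u v) → cp F = cp K)

/-- FOR: spanning forests. Hypothesis hCC : T_CC.

PROOF. Induction on the number of edges. G = ⊥: F = ⊥, cp = n. Otherwise remove an edge uv:
G = G₀ + uv, F₀ for G₀. If u, v are reachable in G₀ then G and G₀ have the same reachability
relation and F = F₀ works (CC (2)). Otherwise F = F₀ + uv: it has one edge more, cp G = cp G₀ - 1
(CC (1)), and reachability: a walk of G is a chain of edges, each of them is in F or joins vertices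
reachable in F. -/
def T_FOR : Prop := ∀ (n : ℕ) (G : SimpleGraph (Fin n)), ∃ F : SimpleGraph (Fin n), F ≤ G ∧
  (∀ u v, G.Reachable u v → F.Reachable u v) ∧ F.edgeSet.ncard + cp G = n

/-- SW: moving an edge. Hypotheses hFOR : T_FOR, hCC : T_CC.

PROOF. N = n.choose 2. Choose F(G) from FOR for every G. Count the triples (G, e, f): G with m edges
and c + 1 components, e an edge of G which is not in F(G), f = s(u,v) with u, v not reachable in G.
For given G there are m - (n - c - 1) ≥ m + 1 - n such e, and at least n c/2 such f (for every vertex u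
at least c vertices v are not reachable from u, one in each of the other components; every pair is
counted twice): so 2 * #triples ≥ (m+1-n) * (n c) * gm n m (cp = c+1). Map (G, e, f) to (G', e, f) with
G' = (G - e) + f. Injective. G' has m edges (f is not an edge of G, f ≠ e) and c components: G - e
contains F(G), so it has the same reachability and c + 1 components (CC (2)), and f joins two of them
(CC (1)). e is in prs n (at most N possibilities), and f is an edge of F(G'): otherwise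
F(G') ≤ G' - f = G - e, and u, v, which are reachable in G' so in F(G'), would be reachable in
G. F(G') has n - c ≤ n - 1 edges. So #triples ≤ gm n m (cp = c) * (n-1) * N. -/
def T_SW : Prop := ∀ n m c : ℕ, 1 ≤ n → n ≤ m → 1 ≤ c →
  (m + 1 - n) * (n * c) * gm n m (fun G => cp G = c + 1) ≤
    2 * (n - 1) * n.choose 2 * gm n m (fun G => cp G = c)

/-- CON: connected graphs are not too rare. Hypotheses hSW : T_SW, hGMS : T_GMS (for
gm n m (fun _ => True) = N.choose m).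

PROOF. λ = (n-1)^2/(m+1-n), g c = gm n m (cp = c). n.choose 2 = n (n-1)/2, so SW says
c * g (c+1) ≤ λ * g c for c ≥ 1 (m+1-n ≥ 1, n ≥ 1), so g (c+1) ≤ g 1 * λ^c/c! by induction. g 1 = ce n m
(connected iff exactly one component; Fin n is nonempty). Every graph has between 1 and n components,
so N.choose m = sum_{c < n} g (c+1) ≤ g 1 * sum λ^c/c! ≤ g 1 * exp λ
(Real.sum_le_exp_of_nonneg). -/
def T_CON : Prop := ∀ n m : ℕ, 1 ≤ n → n ≤ m →
  ((n.choose 2).choose m : ℝ) ≤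
    (ce n m : ℝ) * Real.exp (((n : ℝ) - 1) ^ 2 / ((m : ℝ) + 1 - n))

/-! ### numbers for the range A n ≤ m ≤ n (log n)^5 -/

/-- QA: PROOF. Polylogarithmic against linear: q ≥ 2^(Nat.log 2 q) for q ≥ 1, and
80000 (2 t + 20)^2 ≤ 2^t for t ≥ 40 (induction on t), so A = 2^40 works (Nat.log 2 q ≥ 40). -/
def T_QA : Prop := ∃ A : ℕ, 10000 ≤ A ∧ ∀ q : ℕ, A ≤ q → 80000 * (lq q) ^ 2 ≤ q

/-- LL: PROOF. t = Nat.log 2 n → ∞. For q ≤ t^5 + 1 ≤ 2^(Nat.log 2 t * 5 + 6), so
lq q ≤ 10 Nat.log 2 t + 32 ≤ t/1000 and 32 + 10 Nat.log 2 t ≤ t for t large, so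
384 lq q ≤ 0.6 t ≤ log n (log n ≥ t log 2), 2^(lq q) ≤ 2^t ≤ n and B * lq q ≤ B t ≤ 2^t ≤ n. -/
def T_LL : Prop := ∀ B : ℕ, ∃ n₀ : ℕ, ∀ n : ℕ, n₀ ≤ n → ∀ q : ℕ, q ≤ (Nat.log 2 n) ^ 5 + 1 →
  (384 * lq q : ℝ) ≤ Real.log n ∧ 2 ^ (lq q) ≤ n ∧ B * lq q ≤ n

/-- NLO: numbers for the low degrees. Hypothesis hLL : T_LL.

PROOF. Write l = lq q ≥ 20, y = m/n (real), q = m/n + 1 (integer division): q - 1 ≤ y < q,
y ≥ 80000 l^2 - 1 ≥ 79999 l^2, D = (q-1)/32 ≤ y/32, x = n/(128 l) ≥ n/(256 l) (as n ≥ 256 l by LL),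
J = x m/(8 n): x y/8 - 1 ≤ J, and 8 J n ≤ x m. x ≤ n. x ≥ 1, so x y ≥ 32 and
x D ≤ x y/32 ≤ x y/8 - 1 ≤ J: as integers x D ≤ J. Final inequality: n.choose x ≤ (e n/x)^x ≤
(256 e l)^x ≤ (700 l)^x ≤ exp(x log(700 l)) ≤ exp(700 l x); x D + 1 ≤ 2^(x D) ≤ 2^(xy/32);
m ≥ 2 n, so (n-1)^2/(m+1-n) ≤ 2 n^2/m = 2 n/y ≤ 512 l x/y ≤ x; and 2^(J - xD) ≥ 2^(xy/8 - 1 - xy/32).
So it suffices that exp(x (700 l + 1)) * 2 ≤ ε 2^(xy/16): (log 2/16) y ≥ 0.04 * 79999 l^2 ≥
3000 l^2 ≥ 700 l + 2 (l ≥ 20), so it suffices that x ≥ log(2/ε), true for n large, x ≥ n/(256 l)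
(LL with B = 256 * ⌈log(2/ε)⌉ or so). -/
def T_NLO : Prop := ∀ ε : ℝ, 0 < ε → ∃ n₀ : ℕ, ∀ n m : ℕ, n₀ ≤ n →
  m / n + 1 ≤ (Nat.log 2 n) ^ 5 + 1 → 80000 * (lq (m / n + 1)) ^ 2 ≤ m / n + 1 →
  n / (128 * lq (m / n + 1)) ≤ n ∧
  n / (128 * lq (m / n + 1)) * (m / n / 32) ≤ n / (128 * lq (m / n + 1)) * m / (8 * n) ∧
  8 * (n / (128 * lq (m / n + 1)) * m / (8 * n)) * n ≤ n / (128 * lq (m / n + 1)) * m ∧
  ((n.choose (n / (128 * lq (m / n + 1))) *
      (n / (128 * lq (m / n + 1)) * (m / n / 32) + 1) : ℕ) : ℝ) *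
      Real.exp (((n : ℝ) - 1) ^ 2 / ((m : ℝ) + 1 - n)) ≤
    ε * 2 ^ (n / (128 * lq (m / n + 1)) * m / (8 * n) -
      n / (128 * lq (m / n + 1)) * (m / n / 32))

/-- NNT: numbers for the near twins. Hypotheses hLL : T_LL, hRT : T_RT.

PROOF. N = n.choose 2, l = lq q, q = m/n + 1, K = 600 l^2, D = (m/n)/32 ≥ (80000 l^2 - 1)/32 - 1 ≥
2400 l^2 + 28 = 4 K + 28 (l ≥ 20), k = n/(384 l) ≥ n/(768 l) (LL), r = k D/2 (integer division)
≥ (k D - 1)/2, r ≤ m (k ≤ n, D ≤ m/n). m ≤ N as m ≤ n ((log_2 n)^5 + 1) and n is large, more precisely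
N - m ≥ m n^(1/2), so by RT: N.choose (m-r) ≤ N.choose m * (m/(N-m))^r ≤ N.choose m * n^(-r/2).
(2 n^(K+2))^k ≤ n^((K+3) k), m + 1 ≤ n^2. So the left side is at most N.choose m times
n^((K+3) k + 2 - (k D - 1)/4) * exp(..) ≤ n^(2.25 - 4 k) * exp(..) because D/4 ≥ K + 7. And
(n-1)^2/(m+1-n) ≤ n^2/(m - n) ≤ n (m ≥ 2 n), 4 k log n ≥ n log n/(192 l) ≥ 2 n as log n ≥ 384 l
(LL). So the factor is ≤ exp(-2n + 2.25 log n + n) ≤ ε for n large. -/
def T_NNT : Prop := ∀ ε : ℝ, 0 < ε → ∃ n₀ : ℕ, ∀ n m : ℕ, n₀ ≤ n →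
  m / n + 1 ≤ (Nat.log 2 n) ^ 5 + 1 → 80000 * (lq (m / n + 1)) ^ 2 ≤ m / n + 1 →
  2 * m ≤ n.choose 2 ∧
  (((2 * n ^ (600 * (lq (m / n + 1)) ^ 2 + 2)) ^ (n / (384 * lq (m / n + 1))) *
    ((m + 1) * (n.choose 2).choose
      (m - n / (384 * lq (m / n + 1)) * (m / n / 32) / 2)) : ℕ) : ℝ) *
      Real.exp (((n : ℝ) - 1) ^ 2 / ((m : ℝ) + 1 - n)) ≤
    ε * ((n.choose 2).choose m : ℝ)

/-- IIA: the range A n ≤ m ≤ n (log_2 n)^5. Hypotheses hDET : T_DET3, hHIG : T_HIG, hLOW : T_LOW,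
hNT : T_NT, hCON : T_CON, hQA : T_QA, hLL : T_LL, hNLO : T_NLO, hNNT : T_NNT, hDIS : T_DIS.

PROOF. A from QA. n large, q = m/n + 1 ≥ A, l = lq q, Δ = 2^l, K = 600 l^2, D = (m/n)/32 ≥ K (from
80000 l^2 ≤ q, l ≥ 20), x = n/(128 l), k = n/(384 l). log_2 Δ = l. Δ ≤ n by LL; 64 ≤ Δ;
1000 (2m)^2 ≤ Δ (n-1)^2: 2 m ≤ 2 q n ≤ 4 q (n-1), 16000 q^2 ≤ 2^18 q^2 ≤ 2^18 * 2^(2 log_2 q + 2) = 2^l
(Nat.lt_pow_succ_log_self). Let G have m edges, not Rec, so G is connected (hDIS). Let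
X = {v : dg v < D} ∪ {v : D ≤ dg v, ∃ v' ≠ v, ds v v' < K}. For v ∉ X: K ≤ D ≤ dg v; for u, v ∉ X,
u ≠ v: K ≤ ds u v. So by DET3: n/64 < WW Δ G or n < 64 l #X. In the second case x ≤ #{dg v < D} or
3 k ≤ #{v : D ≤ dg v, ..} (otherwise #X < x + 3k ≤ n/(64 l)). So with N = n.choose 2,
be := gm n m (¬ Rec) is at most the sum of the three numbers in HIG, LOW (J = x m/(8 n)), NT. By CON
N.choose m ≤ ce n m * exp λ, λ = (n-1)^2/(m+1-n). HIG: ≤ ce * exp(λ - n/2000), λ ≤ 2 n^2/m ≤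
2 n/(A-1) ≤ n/4900 (m ≥ (q-1) n ≥ (A-1) n ≥ 9999 n), so exp(λ - n/2000) ≤ exp(-n/4000) ≤ ε/3 for n
large. LOW: 2^(J-xD) * gm ≤ n.choose x * (xD+1) * N.choose m, so by NLO (ε/3) gm * exp λ ≤
(ε/3) N.choose m, more precisely gm ≤ (ε/3) exp(-λ) N.choose m ≤ (ε/3) ce. NT the same by NNT. -/
def T_IIA : Prop := ∃ A : ℕ, ∀ ε : ℝ, 0 < ε → ∃ n₀ : ℕ, ∀ n m : ℕ, n₀ ≤ n → A * n ≤ m →
  m / n ≤ (Nat.log 2 n) ^ 5 → (gm n m (fun G => ¬ Rec G) : ℝ) ≤ ε * (ce n m : ℝ)

/-! ### Part C: m ≥ n (log n)^4, 2 m ≤ N -/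

/-- AGR: agreement is unlikely (one term). Hypothesis hHYP : T_HYP.

PROOF. We may assume m - 2j ≤ N - 2a (otherwise the left side is 0). C(2a,2j) ≥ C(a,j)^2 (one term of
Vandermonde). Case 1: j ≤ h. C(a,j) ≤ C(2a,2j), and HYP with P = 2a, J = 3h, i = 2j:
C(2a,2j) C(N-2a,m-2j) 2^(3h-2j) ≤ C(N,m), 3h - 2j ≥ h. Conditions: 24 h ≤ 2a; 24 h N ≤ 2 a m is
12 h N ≤ a m; 24 h ≤ m because 24 h a ≤ 12 h N ≤ a m (if a = 0 then h = 0).
Case 2: h < j, h < a - j (so j ≤ a). C(a,j) ≥ 2^h: C(a,j) ≥ 2^(min j (a-j)) (for 2j ≤ a: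
C(a,j) ≥ (a/j)^j ≥ 2^j, e.g. Nat.pow_le_choose-type lemma or induction; symmetric otherwise). So
C(a,j) 2^h ≤ C(a,j)^2 ≤ C(2a,2j), and C(2a,2j) C(N-2a,m-2j) ≤ C(N,m) (Vandermonde).
Case 3: j ≤ a, a - j ≤ h. Put m' = N - m ≥ m, i' = 2a - 2j ≤ 2h. C(2a,2j) = C(2a,i'),
C(N-2a,m-2j) = C(N-2a, m'-i') (Nat.choose_symm; N - 2a - (m - 2j) = m' - i'), C(N,m) = C(N,m').
HYP with P = 2a, m', J = 3h, i': 24 h ≤ 2a ≤ .., 24 h ≤ m' (m' ≥ N/2 ≥ a ≥ 32 h), 24 h N ≤ 2 a m'
(2 m' ≥ N, a ≥ 32 h). j > a: C(a,j) = 0. -/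
def T_AGR : Prop := ∀ N m a h j : ℕ, 2 * a ≤ N → 2 * m ≤ N → 32 * h ≤ a → 12 * h * N ≤ a * m →
  2 * j ≤ m → a.choose j * (N - 2 * a).choose (m - 2 * j) * 2 ^ h ≤ N.choose m

/-- PRC: counting graphs in which two vertices have almost the same neighbours. Hypotheses
hGMS : T_GMS, hAGR : T_AGR.

PROOF. Choose u ≠ v (at most n^2) and Z = the set of the vertices distinguishing u and v, #Z < K (at
most n^K sets for n ≥ 2, K ≥ 1; the left side is 0 if n ≤ 1 or K = 0). For given u, v, Z (Z does not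
contain u, v) let R be the other vertices, a = #R = n - 2 - #Z ≥ n - 1 - K. Count the graphs with m
edges such that G.Adj w u iff G.Adj w v for all w ∈ R: with j = number of common neighbours in R there
are C(a,j) * C(N - 2a, m - 2j) of them (2j ≤ m, the other N - 2a pairs are free), N = n.choose 2
≥ 2a (the 2a pairs s(w,u), s(w,v)). By AGR each of them times 2^h is ≤ C(N,m) (32 h ≤ n-1-K ≤ a,
12 h N ≤ (n-1-K) m ≤ a m), and there are at most a + 1 ≤ n values of j. -/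
def T_PRC : Prop := ∀ n m K h : ℕ, 2 * m ≤ n.choose 2 → 32 * h ≤ n - 1 - K →
  12 * h * n.choose 2 ≤ (n - 1 - K) * m →
  gm n m (fun G => ∃ u v, u ≠ v ∧ ds G u v < K) * 2 ^ h ≤ n ^ (K + 3) * (n.choose 2).choose m

/-- IIB: the dense range. Hypotheses hPRC : T_PRC, hDIS : T_DIS.

PROOF. t = Nat.log 2 n, n large, K = 16 (t+1)^2, h = t^4/12 (integer division). A graph G with all
ds u v ≥ K (u ≠ v) which is connected is Rec: local_clique (Pool/Agent/Lib/Recon/LocalFinal.lean) with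
Δ = n, s = 1: log_2 n ≤ t + 1, 8 * 2 * (log_2 n)^2 ≤ K ≤ ds u v; {v : twin of u} = {u} because
ds u v ≥ K > 0 for v ≠ u. So gm n m (¬ Rec) ≤ gm n m (∃ u v, u ≠ v, ds u v < K) ≤
n^(K+3) 2^(-h) C(N,m) by PRC: 32 h ≤ 3 t^4 ≤ n - 1 - K; 12 h N ≤ t^4 n (n-1)/2 ≤
(n-1-K) n t^4 ≤ (n-1-K) m as K ≤ (n-1)/2. And n^(K+3) ≤ 2^((t+1)(16 (t+1)^2 + 3)) ≤ ε 2^h for t
large. -/
def T_IIB : Prop := ∀ ε : ℝ, 0 < ε → ∃ n₀ : ℕ, ∀ n m : ℕ, n₀ ≤ n → n * (Nat.log 2 n) ^ 4 ≤ m →
  2 * m ≤ n.choose 2 →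
  (gm n m (fun G => ¬ Rec G) : ℝ) ≤ ε * ((n.choose 2).choose m : ℝ)

/-- DISC: most graphs of the dense range are connected. Hypotheses hSPL : T_SPL, hHYP : T_HYP,
hGMS : T_GMS.

PROOF. N = n.choose 2, t = Nat.log 2 n, n large, g = t^4/8 (integer division). If G is not connected
then some set S of s vertices, 1 ≤ s ≤ n/2, is a union of components: no edges in
Q = {s(a,b) : a ∈ S, b ∉ S}, #Q = s (n-s) ≥ s n/2. By SPL (i = 0) the number of graphs for given S is
C(N - #Q, m), and by HYP (i = 0, J = s g) it is ≤ 2^(-s g) C(N,m). Conditions: 8 s g ≤ s n/2 ≤ #Q;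
8 s g ≤ 4 n g ≤ n t^4 ≤ m; 8 s g N ≤ s t^4 n^2/2 ≤ (s n/2) m ≤ #Q m. So
#disconnected ≤ sum_{s ≥ 1} C(n,s) 2^(-s g) C(N,m) ≤ C(N,m) sum_{s≥1} (n/2^g)^s ≤ C(N,m)/2, as
n/2^g ≤ 1/3 (n ≤ 2^(t+1)). Total number C(N,m) = #connected + #disconnected. -/
def T_DISC : Prop := ∃ n₀ : ℕ, ∀ n m : ℕ, n₀ ≤ n → n * (Nat.log 2 n) ^ 4 ≤ m →
  m ≤ n.choose 2 → (n.choose 2).choose m ≤ 2 * ce n m

/-! ### Part D: complements -/

/-- CONV: converse of T_START.

PROOF. Let Hyp G H ψ and suppose Rec G. For every v the map s ↦ s.map (ψ v) is an order isomorphism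
of the nonempty cliques of G avoiding v onto those of H avoiding v (ψ v v = v; Hyp.adj with w = v for
vertices ≠ v); W = V, f = refl. So Rec G gives an order isomorphism of the posets of all nonempty
cliques of G and H. Its restriction to the minimal elements (singletons) is a bijection α of V, and
a, b are adjacent iff {a}, {b} (a ≠ b) have a common upper bound; so α is an isomorphism G ≃g H,
contradiction to Hyp.non. (Compare Pool/Agent/Lib/Recon/CliquePoset.lean, cardIso_of_orderIso, where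
the same is done for the cards.) -/
def T_CONV : Prop := ∀ (V : Type) [Fintype V] (G H : SimpleGraph V) (ψ : V → Equiv.Perm V),
  Hyp G H ψ → ¬ Rec G

/-- CMP: complements. Hypotheses hST : T_START (landed p_START), hCONV : T_CONV.

PROOF. G ↦ Gᶜ is injective from the graphs with m edges to those with N - m edges (the edge sets of G
and Gᶜ partition prs n), and ¬ Rec G → Hyp G H ψ for some H, ψ → Hyp Gᶜ Hᶜ ψ → ¬ Rec Gᶜ (non:
an isomorphism Gᶜ ≃g Hᶜ is an isomorphism G ≃g H). -/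
def T_CMP : Prop := ∀ n m : ℕ, m ≤ n.choose 2 →
  gm n m (fun G => ¬ Rec G) ≤ gm n (n.choose 2 - m) (fun G => ¬ Rec G)

end Pool.Agent.SPC
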